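import Pool.Agent.H.MP_4ac1fb_an.Curve.Defs
import Pool.Agent.H.MP_4ac1fb_an.Slices
import Pool.Agent.H.MP_4ac1fb_an.Energy

/-!
Division by a polynomial without zeros in the polydisc, and the resulting membership criterion.
-/

namespace Pool.MP4ac1fb.Curve

open MvPolynomial Filter Topology

variable {d : ℕ}

/-- multipliers from symmetric functions, with the factorisation of `P` itself -/
private lemma exists_multiplier2 (P : MvPolynomial (Fin d) ℂ)
    (hP : ∀ z : Fin d → ℂ, (∀ j, ‖z j‖ < 1) → eval z P ≠ 0) (h0 : coeff 0 P ≠ 0)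
    (q : Polynomial ℂ) :
    ∃ Q : MvPolynomial (Fin d) ℂ,
      ∀ ζ : Fin d → ℂ, (∀ j, ‖ζ j‖ = 1) → ∃ b : Fin P.totalDegree → ℂ, (∀ i, ‖b i‖ ≤ 1) ∧
        ∀ c : ℂ, eval (fun j => c * ζ j) P = coeff 0 P * ∏ i, (1 - b i * c) ∧
          eval (fun j => c * ζ j) (Q * P) =
          coeff 0 P * ∏ i, (q.eval (b i * c) * (1 - b i * c)) := by
  classical
  set N := P.totalDegree with hN
  -- the symmetric polynomial
  set S : MvPolynomial (Fin N) ℂ := ∏ i, Polynomial.aeval (- X i) q with hS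
  have hSsym : S.IsSymmetric := by
    intro e
    rw [hS, map_prod]
    have : ∀ i, rename e (Polynomial.aeval (- X i : MvPolynomial (Fin N) ℂ) q) =
        Polynomial.aeval (- X (e i) : MvPolynomial (Fin N) ℂ) q := by
      intro i
      rw [← Polynomial.aeval_algHom_apply]
      simp
    simp only [this]
    exact Equiv.prod_comp e (fun i => Polynomial.aeval (- X i : MvPolynomial (Fin N) ℂ) q)
  obtain ⟨Φ, hΦ⟩ := (esymmAlgHom_fin_bijective ℂ N).2 ⟨S, hSsym⟩
  have hΦ' : aeval (fun i : Fin N => esymm (Fin N) ℂ (i + 1)) Φ = S := by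
    rw [← esymmAlgHom_apply, hΦ]
  refine ⟨aeval (fun i : Fin N => C (coeff 0 P)⁻¹ * homogeneousComponent (i + 1) P) Φ, ?_⟩
  intro ζ hζ
  obtain ⟨c, hc, hce⟩ := exists_factor P hP h0 ζ hζ
  refine ⟨fun i => - c i, fun i => by rw [norm_neg]; exact hc i, fun x => ?_⟩
  rw [map_mul]
  have hhom : ∀ j ≤ N, aeval (fun i => x * c i) (esymm (Fin N) ℂ j) =
      eval (fun l => x * ζ l) (homogeneousComponent j P) / coeff 0 P := by
    intro j hj
    rw [eval_smul_homog (homogeneousComponent_isHomogeneous j P), mul_div_assoc, ← hce j hj]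
    exact aeval_esymm_smul c x j
  have hQ : eval (fun l => x * ζ l)
      (aeval (fun i : Fin N => C (coeff 0 P)⁻¹ * homogeneousComponent (i + 1) P) Φ) =
      ∏ i, q.eval (- c i * x) := by
    have h1 : eval (fun l => x * ζ l)
        (aeval (fun i : Fin N => C (coeff 0 P)⁻¹ * homogeneousComponent (i + 1) P) Φ) =
        aeval (fun i : Fin N => eval (fun l => x * ζ l)
          (C (coeff 0 P)⁻¹ * homogeneousComponent (i + 1) P)) Φ := by
      have := comp_aeval_apply (f := fun i : Fin N =>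
        C (coeff 0 P)⁻¹ * homogeneousComponent (i + 1) P)
        (φ := (aeval (fun l => x * ζ l) : MvPolynomial (Fin d) ℂ →ₐ[ℂ] ℂ)) Φ
      simpa [MvPolynomial.aeval_eq_eval] using this
    have h2 : aeval (fun i => x * c i)
        (aeval (fun i : Fin N => esymm (Fin N) ℂ (i + 1)) Φ) =
        aeval (fun i : Fin N => aeval (fun i => x * c i) (esymm (Fin N) ℂ (i + 1))) Φ := by
      exact comp_aeval_apply (f := fun i : Fin N => esymm (Fin N) ℂ (i + 1))
        (φ := (aeval (fun i => x * c i) : MvPolynomial (Fin N) ℂ →ₐ[ℂ] ℂ)) Φ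
    have h3 : (fun i : Fin N => eval (fun l => x * ζ l)
          (C (coeff 0 P)⁻¹ * homogeneousComponent (i + 1) P)) =
        fun i : Fin N => aeval (fun i => x * c i) (esymm (Fin N) ℂ (i + 1)) := by
      funext i
      rw [hhom _ (by have := i.2; omega), map_mul, eval_C]
      ring
    rw [h1, h3, ← h2, hΦ', hS, map_prod]
    apply Finset.prod_congr rfl
    intro i _
    have h4 : aeval (fun i => x * c i) (Polynomial.aeval (- X i : MvPolynomial (Fin N) ℂ) q) =
        Polynomial.aeval (aeval (fun i => x * c i) (- X i : MvPolynomial (Fin N) ℂ)) q :=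
      (Polynomial.aeval_algHom_apply _ _ _).symm
    rw [h4, Polynomial.coe_aeval_eq_eval]
    congr 1
    simp
    ring
  have hPv : eval (fun l => x * ζ l) P = coeff 0 P * ∏ i, (1 + c i * x) := by
    have h1 : ∏ i, (1 + c i * x) = ∑ j ∈ Finset.range (N + 1),
        aeval (fun i => x * c i) (esymm (Fin N) ℂ j) := by
      have h2 := MvPolynomial.prod_C_add_X_eq_sum_esymm ℂ (Fin N)
      have h3 := congrArg (fun p => Polynomial.eval 1 (Polynomial.map
        (aeval (fun i => x * c i) : MvPolynomial (Fin N) ℂ →ₐ[ℂ] ℂ).toRingHom p)) h2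
      simp only [Polynomial.map_prod, Polynomial.map_sum, Polynomial.eval_prod,
        Polynomial.eval_finsetSum, Polynomial.map_mul, Polynomial.map_pow,
        Polynomial.map_add, Polynomial.map_X, Polynomial.map_C, Polynomial.eval_add,
        Polynomial.eval_mul, Polynomial.eval_pow, Polynomial.eval_X, Polynomial.eval_C,
        one_pow, mul_one, Fintype.card_fin] at h3
      rw [show (∏ i, (1 + c i * x)) = ∏ i, (1 + x * c i) from
        Finset.prod_congr rfl fun i _ => by ring]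
      have hx : ∀ i, (aeval (fun i => x * c i) : MvPolynomial (Fin N) ℂ →ₐ[ℂ] ℂ).toRingHom (X i) =
          x * c i := fun i => aeval_X (fun i => x * c i) i
      simp only [hx] at h3
      rw [h3]
      rfl
    rw [h1]
    conv_lhs => rw [← sum_homogeneousComponent P]
    rw [map_sum, Finset.mul_sum]
    apply Finset.sum_congr rfl
    intro j hj
    rw [hhom j (by rw [Finset.mem_range] at hj; omega)]
    field_simp
  refine ⟨?_, ?_⟩
  · rw [hPv]
    congr 1
    apply Finset.prod_congr rfl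
    intro i _
    ring
  · rw [hQ, hPv]
    rw [show (∏ i, (q.eval (- c i * x) * (1 - - c i * x))) =
      (∏ i, q.eval (- c i * x)) * ∏ i, (1 + c i * x) from by
        rw [← Finset.prod_mul_distrib]
        apply Finset.prod_congr rfl
        intro i _
        ring]
    ring

private lemma norm_one_sub_prod_le {ι : Type*} [DecidableEq ι] (s : Finset ι) (e : ι → ℂ)
    (he : ∀ i ∈ s, ‖e i‖ ≤ 1) :
    ‖∏ i ∈ s, (1 - e i)‖ ≤ 2 ^ s.card ∧
      ‖1 - ∏ i ∈ s, (1 - e i)‖ ≤ 2 ^ s.card * ∑ i ∈ s, ‖e i‖ := by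
  induction s using Finset.induction_on with
  | empty => simp
  | insert a s ha ih =>
    obtain ⟨h1, h2⟩ := ih fun i hi => he i (Finset.mem_insert_of_mem hi)
    have ha1 := he a (Finset.mem_insert_self a s)
    have h3 : ‖1 - e a‖ ≤ 2 := by
      calc ‖1 - e a‖ ≤ ‖(1 : ℂ)‖ + ‖e a‖ := norm_sub_le _ _
        _ ≤ 2 := by rw [norm_one]; linarith
    rw [Finset.prod_insert ha, Finset.card_insert_of_notMem ha, Finset.sum_insert ha, pow_succ]
    have hp : (0 : ℝ) < 2 ^ s.card := by positivity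
    refine ⟨?_, ?_⟩
    · rw [norm_mul]
      calc _ ≤ 2 * 2 ^ s.card := mul_le_mul h3 h1 (norm_nonneg _) (by norm_num)
        _ = _ := by ring
    · have h4 : 1 - (1 - e a) * ∏ i ∈ s, (1 - e i) =
          (1 - ∏ i ∈ s, (1 - e i)) + e a * ∏ i ∈ s, (1 - e i) := by ring
      rw [h4]
      have h5 : 0 ≤ ∑ i ∈ s, ‖e i‖ := Finset.sum_nonneg fun _ _ => norm_nonneg _
      calc _ ≤ ‖1 - ∏ i ∈ s, (1 - e i)‖ + ‖e a * ∏ i ∈ s, (1 - e i)‖ := norm_add_le _ _
        _ ≤ 2 ^ s.card * ∑ i ∈ s, ‖e i‖ + ‖e a‖ * 2 ^ s.card := by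
            rw [norm_mul]
            exact add_le_add h2 (mul_le_mul_of_nonneg_left h1 (norm_nonneg _))
        _ ≤ 2 ^ s.card * 2 * (‖e a‖ + ∑ i ∈ s, ‖e i‖) := by
            nlinarith [mul_nonneg hp.le h5, mul_nonneg hp.le (norm_nonneg (e a))]

/-- Multiples of `P` close to `1` off the zero set of `P`, with controlled degree. -/
theorem exists_division (P : MvPolynomial (Fin d) ℂ) (hP : NZIn P) :
    ∃ N : ℕ, ∃ c : ℝ, 0 < c ∧ ∀ (M : ℕ) (δ : ℝ), 0 < δ → δ ≤ 1 → ∃ Q : MvPolynomial (Fin d) ℂ,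
      (Q * P).totalDegree ≤ N * M ∧
      (∀ ζ : Fin d → ℂ, OnT ζ → ‖1 - eval ζ (Q * P)‖ ≤ 2 ^ N + 1) ∧
      (∀ ζ : Fin d → ℂ, OnT ζ → δ ≤ ‖eval ζ P‖ →
        ‖1 - eval ζ (Q * P)‖ ≤ 2 ^ N * N * Real.exp (-(c * δ ^ 2 * M))) := by
  classical
  have h0 : coeff 0 P ≠ 0 := by
    have := hP (fun _ => 0) (by simp)
    rwa [show (fun _ : Fin d => (0 : ℂ)) = 0 from rfl, eval_zero, constantCoeff_eq] at this
  set a0 := coeff 0 P with ha0
  have ha0p : 0 < ‖a0‖ := norm_pos_iff.mpr h0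
  set N := P.totalDegree with hN
  set c1 : ℝ := 1 / (‖a0‖ * 2 ^ N) with hc1
  have hc1p : 0 < c1 := by positivity
  refine ⟨N, c1 ^ 2 / 8, by positivity, fun M δ hδ hδ1 => ?_⟩
  set q : Polynomial ℂ := Polynomial.C (1 / 2) * ∑ m ∈ Finset.range M,
    (Polynomial.C (1 / 2) * (1 + Polynomial.X)) ^ m with hq
  have hqv : ∀ x : ℂ, q.eval x * (1 - x) = 1 - ((1 + x) / 2) ^ M := by
    intro x
    have h1 : q.eval x = 1 / 2 * ∑ m ∈ Finset.range M, ((1 + x) / 2) ^ m := by
      rw [hq, Polynomial.eval_mul, Polynomial.eval_C, Polynomial.eval_finsetSum]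
      congr 1
      apply Finset.sum_congr rfl
      intro m _
      simp
      ring
    have h2 := mul_neg_geom_sum ((1 + x) / 2) M
    rw [h1, ← h2]
    ring
  obtain ⟨Q', hQ'⟩ := exists_multiplier2 P hP h0 q
  refine ⟨C a0⁻¹ * Q', ?_⟩
  have key : ∀ ζ : Fin d → ℂ, OnT ζ → ∃ b : Fin N → ℂ, (∀ i, ‖b i‖ ≤ 1) ∧
      (eval ζ P = a0 * ∏ i, (1 - b i)) ∧
      (∀ x : ℂ, eval (fun j => x * ζ j) (C a0⁻¹ * Q' * P) =
        ∏ i, (1 - ((1 + b i * x) / 2) ^ M)) ∧
      eval ζ (C a0⁻¹ * Q' * P) = ∏ i, (1 - ((1 + b i) / 2) ^ M) := by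
    intro ζ hζ
    obtain ⟨b, hb, hb2⟩ := hQ' ζ hζ
    have h1 : ∀ x : ℂ, eval (fun j => x * ζ j) (C a0⁻¹ * Q' * P) =
        ∏ i, (1 - ((1 + b i * x) / 2) ^ M) := by
      intro x
      rw [mul_assoc, map_mul, eval_C, (hb2 x).2, ← mul_assoc, inv_mul_cancel₀ h0, one_mul]
      exact Finset.prod_congr rfl fun i _ => hqv _
    refine ⟨b, hb, ?_, h1, ?_⟩
    · have := (hb2 1).1
      simpa using this
    · have := h1 1
      simpa using this
  have heps : ∀ b : ℂ, ‖b‖ ≤ 1 → ‖((1 + b) / 2) ^ M‖ ≤ 1 := by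
    intro b hb
    rw [norm_pow]
    apply pow_le_one₀ (norm_nonneg _)
    rw [norm_div]
    have : ‖1 + b‖ ≤ 2 := by
      calc ‖1 + b‖ ≤ ‖(1 : ℂ)‖ + ‖b‖ := norm_add_le _ _
        _ ≤ 2 := by rw [norm_one]; linarith
    rw [Complex.norm_ofNat]
    linarith
  refine ⟨?_, ?_, ?_⟩
  · -- degree
    have hcomp : ∀ n, N * M < n → homogeneousComponent n (C a0⁻¹ * Q' * P) = 0 := by
      intro n hn
      set G := homogeneousComponent n (C a0⁻¹ * Q' * P) with hG
      have hz : ∀ ζ : Fin d → ℂ, (∀ j, ‖ζ j‖ = 1) → ‖eval ζ G‖ ≤ 0 := by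
        intro ζ hζ
        obtain ⟨b, -, -, hb3, -⟩ := key ζ hζ
        set R : Polynomial ℂ := ∏ i : Fin N, (1 - (Polynomial.C (1 / 2) *
          (1 + Polynomial.C (b i) * Polynomial.X)) ^ M) with hR
        have hRd : R.natDegree ≤ N * M := by
          rw [hR]
          refine (Polynomial.natDegree_prod_le _ _).trans ?_
          calc _ ≤ ∑ _i : Fin N, M := by
                apply Finset.sum_le_sum
                intro i _
                refine (Polynomial.natDegree_sub_le _ _).trans ?_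
                rw [Polynomial.natDegree_one]
                apply max_le (Nat.zero_le _)
                refine Polynomial.natDegree_pow_le.trans ?_
                have : (Polynomial.C (1 / 2) *
                    (1 + Polynomial.C (b i) * Polynomial.X)).natDegree ≤ 1 := by
                  refine (Polynomial.natDegree_C_mul_le _ _).trans ?_
                  refine (Polynomial.natDegree_add_le _ _).trans ?_
                  rw [Polynomial.natDegree_one]
                  exact max_le (Nat.zero_le _)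
                    ((Polynomial.natDegree_C_mul_le _ _).trans Polynomial.natDegree_X_le)
                calc _ ≤ M * 1 := Nat.mul_le_mul_left _ this
                  _ = M := mul_one _
            _ = N * M := by simp
        have hRs : sl (C a0⁻¹ * Q' * P) ζ = R := by
          apply Polynomial.funext
          intro x
          rw [eval_sl, hb3 x, hR, Polynomial.eval_prod]
          apply Finset.prod_congr rfl
          intro i _
          simp
          ring
        have h1 : eval ζ G = 0 := by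
          rw [hG, ← coeff_sl, hRs]
          exact Polynomial.coeff_eq_zero_of_natDegree_lt (lt_of_le_of_lt hRd hn)
        rw [h1, norm_zero]
      have h2 := coeff_norm_le_sup G 0 hz
      rw [zero_pow two_ne_zero] at h2
      have h3 : ∑ k ∈ G.support, ‖coeff k G‖ ^ 2 = 0 :=
        le_antisymm h2 (Finset.sum_nonneg fun _ _ => sq_nonneg _)
      rw [Finset.sum_eq_zero_iff_of_nonneg (fun _ _ => sq_nonneg _)] at h3
      ext k
      rw [coeff_zero]
      by_cases hk : k ∈ G.support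
      · have := h3 k hk
        exact norm_eq_zero.mp (pow_eq_zero_iff two_ne_zero |>.mp this)
      · exact notMem_support_iff.mp hk
    apply Finset.sup_le
    intro k hk
    by_contra hcon
    push Not at hcon
    have h1 := hcomp _ hcon
    have h2 := congrArg (coeff k) h1
    rw [coeff_homogeneousComponent, coeff_zero] at h2
    rw [if_pos (show Finsupp.degree k = k.sum fun _ e => e from rfl)] at h2
    exact (mem_support_iff.mp hk) h2
  · intro ζ hζ
    obtain ⟨b, hb, -, -, hb4⟩ := key ζ hζ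
    rw [hb4]
    have h1 := (norm_one_sub_prod_le Finset.univ (fun i : Fin N => ((1 + b i) / 2) ^ M)
      (fun i _ => heps _ (hb i))).1
    rw [Finset.card_univ, Fintype.card_fin] at h1
    calc _ ≤ ‖(1 : ℂ)‖ + ‖∏ i : Fin N, (1 - ((1 + b i) / 2) ^ M)‖ := norm_sub_le _ _
      _ ≤ _ := by rw [norm_one]; linarith
  · intro ζ hζ hδP
    obtain ⟨b, hb, hb2, -, hb4⟩ := key ζ hζ
    rw [hb4]
    have h1 := (norm_one_sub_prod_le Finset.univ (fun i : Fin N => ((1 + b i) / 2) ^ M)
      (fun i _ => heps _ (hb i))).2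
    rw [Finset.card_univ, Fintype.card_fin] at h1
    refine h1.trans ?_
    rw [mul_assoc]
    apply mul_le_mul_of_nonneg_left _ (by positivity)
    have h2 : ∀ i : Fin N, ‖((1 + b i) / 2) ^ M‖ ≤ Real.exp (-(c1 ^ 2 / 8 * δ ^ 2 * M)) := by
      intro i
      have h3 : c1 * δ ≤ ‖1 - b i‖ := by
        rw [hb2, norm_mul, norm_prod] at hδP
        have h4 : ∏ j : Fin N, ‖1 - b j‖ ≤ ‖1 - b i‖ * 2 ^ N := by
          rw [← Finset.mul_prod_erase Finset.univ _ (Finset.mem_univ i)]
          apply mul_le_mul_of_nonneg_left _ (norm_nonneg _)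
          calc _ ≤ ∏ _j ∈ Finset.univ.erase i, (2 : ℝ) := by
                apply Finset.prod_le_prod
                · intro j _; exact norm_nonneg _
                · intro j _
                  calc ‖1 - b j‖ ≤ ‖(1 : ℂ)‖ + ‖b j‖ := norm_sub_le _ _
                    _ ≤ 2 := by rw [norm_one]; linarith [hb j]
            _ ≤ 2 ^ N := by
                rw [Finset.prod_const]
                apply pow_le_pow_right₀ (by norm_num)
                calc _ ≤ (Finset.univ : Finset (Fin N)).card :=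
                      Finset.card_le_card (Finset.erase_subset _ _)
                  _ = N := by simp
        have h5 : δ ≤ ‖a0‖ * (‖1 - b i‖ * 2 ^ N) :=
          hδP.trans (mul_le_mul_of_nonneg_left h4 ha0p.le)
        rw [hc1, div_mul_eq_mul_div, one_mul, div_le_iff₀ (by positivity)]
        calc δ ≤ _ := h5
          _ = _ := by ring
      have h6 : ‖(1 + b i) / 2‖ ^ 2 ≤ 1 - (c1 * δ) ^ 2 / 4 := by
        have h7 := parallelogram_law_with_norm ℝ (1 : ℂ) (b i)
        rw [norm_one] at h7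
        have h8 : ‖(1 + b i) / 2‖ ^ 2 = ‖1 + b i‖ ^ 2 / 4 := by
          rw [norm_div, div_pow, Complex.norm_ofNat]; norm_num
        rw [h8]
        have h9 : ‖b i‖ * ‖b i‖ ≤ 1 := by nlinarith [hb i, norm_nonneg (b i)]
        have h10 : (c1 * δ) ^ 2 ≤ ‖1 - b i‖ ^ 2 :=
          pow_le_pow_left₀ (by positivity) h3 2
        nlinarith
      have h11 : 1 - (c1 * δ) ^ 2 / 4 ≤ Real.exp (-((c1 * δ) ^ 2 / 4)) := by
        have := Real.add_one_le_exp (-((c1 * δ) ^ 2 / 4))
        linarith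
      have h12 : ‖(1 + b i) / 2‖ ^ 2 ≤ (Real.exp (-((c1 * δ) ^ 2 / 8))) ^ 2 := by
        rw [← Real.exp_nat_mul]
        calc _ ≤ _ := h6.trans h11
          _ = _ := by congr 1; push_cast; ring
      have h13 : ‖(1 + b i) / 2‖ ≤ Real.exp (-((c1 * δ) ^ 2 / 8)) :=
        le_of_sq_le_sq h12 (Real.exp_pos _).le
      rw [norm_pow]
      calc _ ≤ (Real.exp (-((c1 * δ) ^ 2 / 8))) ^ M :=
            pow_le_pow_left₀ (norm_nonneg _) h13 M
        _ = _ := by
            rw [← Real.exp_nat_mul]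
            congr 1
            ring
    calc ∑ i : Fin N, ‖((1 + b i) / 2) ^ M‖ ≤
        ∑ _i : Fin N, Real.exp (-(c1 ^ 2 / 8 * δ ^ 2 * M)) := Finset.sum_le_sum fun i _ => h2 i
      _ = _ := by rw [Finset.sum_const, Finset.card_univ, Fintype.card_fin, nsmul_eq_mul]

/-- bounded coordinatewise convergence implies convergence of the inner products -/
private lemma inner_tendsto (y : E d) (x : ℕ → E d) (x₀ : E d) (B : ℝ)
    (hB : ∀ᶠ k in atTop, ‖x k‖ ≤ B)
    (hc : ∀ m, Tendsto (fun k => x k m) atTop (𝓝 (x₀ m))) :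
    Tendsto (fun k => inner ℂ y (x k)) atTop (𝓝 (inner ℂ y x₀)) := by
  classical
  rw [Metric.tendsto_atTop']
  intro ε hε
  have hB0 : 0 ≤ |B| := abs_nonneg B
  set D : ℝ := |B| + ‖x₀‖ + 1 with hD
  have hDp : 0 < D := by positivity
  have hs : Summable fun k => ‖y k‖ ^ 2 := summable_E _
  obtain ⟨s, hs'⟩ := ((tendsto_tsum_compl_atTop_zero
    (fun k => ‖y k‖ ^ 2)).eventually
      (gt_mem_nhds (show (0 : ℝ) < (ε / (2 * D)) ^ 2 by positivity))).exists
  set g : MvPolynomial (Fin d) ℂ := ∑ k ∈ s, monomial k (y k) with hg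
  have hcoef : ∀ k, coeff k g = if k ∈ s then y k else 0 := by
    intro k
    rw [hg, coeff_sum]
    simp only [coeff_monomial]
    rw [Finset.sum_ite_eq' s k]
  have hw0 : ∀ k : Fin d →₀ ℕ, sw 0 k = 1 := by
    intro k
    rw [sw, wt_zero, Real.sqrt_one]
  have hWg : ∀ k, W 0 g k = if k ∈ s then y k else 0 := by
    intro k
    rw [W_apply, hw0, hcoef]
    simp
  have h1 : ‖y - W 0 g‖ < ε / (2 * D) := by
    have h1 : ‖y - W 0 g‖ ^ 2 < (ε / (2 * D)) ^ 2 := by
      rw [norm_sq_E]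
      have h2 : ∀ k, ‖(y - W 0 g) k‖ ^ 2 =
          Set.indicator {k | k ∉ s} (fun k => ‖y k‖ ^ 2) k := by
        intro k
        rw [lp.coeFn_sub, Pi.sub_apply, hWg]
        by_cases hk : k ∈ s
        · simp [hk]
        · simp [hk]
      rw [tsum_congr h2, ← tsum_subtype]
      exact hs'
    exact lt_of_pow_lt_pow_left₀ 2 (by positivity) h1
  have hfin : ∀ z : E d, inner ℂ (W 0 g) z = ∑ k ∈ s, (starRingEnd ℂ) (y k) * z k := by
    intro z
    rw [lp.inner_eq_tsum]
    rw [tsum_eq_sum (s := s)]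
    · apply Finset.sum_congr rfl
      intro k hk
      rw [hWg, if_pos hk, RCLike.inner_apply]
      ring
    · intro k hk
      rw [hWg, if_neg hk, inner_zero_left]
  have h2 : Tendsto (fun k => inner ℂ (W 0 g) (x k)) atTop (𝓝 (inner ℂ (W 0 g) x₀)) := by
    simp only [hfin]
    apply tendsto_finsetSum
    intro m _
    exact (hc m).const_mul _
  rw [Metric.tendsto_atTop'] at h2
  obtain ⟨n1, hn1⟩ := h2 (ε / 2) (by positivity)
  obtain ⟨n2, hn2⟩ := eventually_atTop.mp hB
  refine ⟨max n1 n2, fun k hk => ?_⟩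
  have h3 := hn1 k (lt_of_le_of_lt (le_max_left _ _) hk)
  have h4 := hn2 k ((le_max_right _ _).trans hk.le)
  rw [dist_eq_norm, ← inner_sub_right] at h3 ⊢
  have h5 : inner ℂ y (x k - x₀) = inner ℂ (y - W 0 g) (x k - x₀) +
      inner ℂ (W 0 g) (x k - x₀) := by
    rw [← inner_add_left, sub_add_cancel]
  rw [h5]
  have h6 : ‖x k - x₀‖ ≤ D := by
    calc ‖x k - x₀‖ ≤ ‖x k‖ + ‖x₀‖ := norm_sub_le _ _
      _ ≤ D := by
        have := le_abs_self B
        rw [hD]; linarith
  calc _ ≤ ‖inner ℂ (y - W 0 g) (x k - x₀)‖ + ‖inner ℂ (W 0 g) (x k - x₀)‖ := norm_add_le _ _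
    _ < ε / 2 + ε / 2 := by
        apply add_lt_add_of_le_of_lt _ h3
        calc _ ≤ ‖y - W 0 g‖ * ‖x k - x₀‖ := norm_inner_le_norm _ _
          _ ≤ ε / (2 * D) * D := mul_le_mul h1.le h6 (norm_nonneg _) (by positivity)
          _ = ε / 2 := by field_simp
    _ = ε := by ring

/-- weak limits of multiples stay in the closed ideal -/
private lemma mem_cl_of_weak (t : ℝ) (P f : MvPolynomial (Fin d) ℂ)
    (Q : ℕ → MvPolynomial (Fin d) ℂ) (B : ℝ)
    (hB : ∀ᶠ k in atTop, ‖W t (Q k * P)‖ ≤ B)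
    (hc : ∀ m, Tendsto (fun k => coeff m (Q k * P)) atTop (𝓝 (coeff m f))) : f ∈ cl t P := by
  set V : Submodule ℂ (E d) := LinearMap.range ((W t).comp
    (LinearMap.mulRight ℂ P)) with hV
  have hmem : W t f ∈ V.topologicalClosure := by
    rw [← Submodule.orthogonal_orthogonal_eq_closure, Submodule.mem_orthogonal]
    intro y hy
    have h1 : Tendsto (fun k => inner ℂ y (W t (Q k * P))) atTop (𝓝 (inner ℂ y (W t f))) := by
      apply inner_tendsto y _ _ B hB
      intro m
      simp only [W_apply]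
      exact (hc m).const_mul _
    have h2 : ∀ k, inner ℂ y (W t (Q k * P)) = 0 := by
      intro k
      rw [Submodule.mem_orthogonal'] at hy
      apply hy
      exact ⟨Q k, rfl⟩
    simp only [h2] at h1
    exact (tendsto_nhds_unique h1 tendsto_const_nhds)
  rw [mem_cl]
  intro ε hε
  rw [← SetLike.mem_coe, Submodule.topologicalClosure_coe, Metric.mem_closure_iff] at hmem
  obtain ⟨z, ⟨q, rfl⟩, hz⟩ := hmem ε hε
  refine ⟨q, ?_⟩
  rw [map_sub, ← dist_eq_norm]
  exact hz

/-- The membership criterion. -/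
theorem mem_cl_of_small (t : ℝ) (P : MvPolynomial (Fin d) ℂ) (hP : NZIn P)
    (h : ℕ → MvPolynomial (Fin d) ℂ) (A : ℕ) (C : ℝ)
    (hdeg : ∀ k, (h k).totalDegree ≤ (k + 1) ^ A)
    (hsup : ∀ k ζ, OnT ζ → ‖eval ζ (h k)‖ ≤ C)
    (hsmall : ∀ᶠ k : ℕ in atTop, ∀ ζ, OnT ζ → ‖eval ζ P‖ ≤ 1 / (k : ℝ) ^ A →
      ‖eval ζ (h k)‖ ≤ C / k) :
    ∃ K0 : ℕ, ∀ K ≥ K0, ∀ f : MvPolynomial (Fin d) ℂ,
      (∃ B : ℝ, ∀ᶠ k in atTop, ‖W t (h k ^ K)‖ ≤ B) →
      (∀ m, Tendsto (fun k => coeff m (h k ^ K)) atTop (𝓝 (coeff m f))) → f ∈ cl t P := by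
  obtain ⟨N, c, hc, hdiv⟩ := exists_division P hP
  have hC0 : 0 ≤ C := by
    have := hsup 0 (fun _ => 1) (fun _ => by simp)
    exact (norm_nonneg _).trans this
  set T : ℕ := ⌈t⌉₊ with hT
  have hTt : t ≤ T := Nat.le_ceil t
  set L : ℕ := (2 * A + 1) * (d * T) with hL
  refine ⟨L + 1, fun K hK f hB hco => ?_⟩
  obtain ⟨B, hB⟩ := hB
  -- the multipliers
  have hQ : ∀ k : ℕ, ∃ Q : MvPolynomial (Fin d) ℂ, 1 ≤ k →
      (Q * P).totalDegree ≤ N * k ^ (2 * A + 1) ∧
      (∀ ζ : Fin d → ℂ, OnT ζ → ‖1 - eval ζ (Q * P)‖ ≤ 2 ^ N + 1) ∧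
      (∀ ζ : Fin d → ℂ, OnT ζ → 1 / (k : ℝ) ^ A ≤ ‖eval ζ P‖ →
        ‖1 - eval ζ (Q * P)‖ ≤ 2 ^ N * N * Real.exp (-(c * k))) := by
    intro k
    rcases Nat.eq_zero_or_pos k with hk | hk
    · exact ⟨0, fun h => by omega⟩
    · have hkr : (0 : ℝ) < k := by exact_mod_cast hk
      have hk1 : (1 : ℝ) ≤ k := by exact_mod_cast hk
      obtain ⟨Q, h1, h2, h3⟩ := hdiv (k ^ (2 * A + 1)) (1 / (k : ℝ) ^ A) (by positivity)
        (by rw [div_le_one (by positivity)]; exact one_le_pow₀ hk1)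
      refine ⟨Q, fun _ => ⟨h1, h2, fun ζ hζ hPζ => ?_⟩⟩
      have h4 := h3 ζ hζ hPζ
      have h5 : c * (1 / (k : ℝ) ^ A) ^ 2 * ((k ^ (2 * A + 1) : ℕ) : ℝ) = c * k := by
        push_cast
        have h6 : (k : ℝ) ^ (2 * A + 1) = ((k : ℝ) ^ A) ^ 2 * k := by ring
        rw [h6]
        have h7 : (k : ℝ) ^ A ≠ 0 := by positivity
        field_simp
      rwa [h5] at h4
  choose Q hQ using hQ
  -- the error terms
  set g : ℕ → MvPolynomial (Fin d) ℂ := fun k => h k ^ K - (h k ^ K * Q k) * P with hg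
  set e : ℕ → ℝ := fun k => C ^ K * (2 ^ N * N * Real.exp (-(c * k))) +
    (C / k) ^ K * (2 ^ N + 1) with he
  have hgsup : ∀ᶠ k : ℕ in atTop, ∀ ζ : Fin d → ℂ, (∀ j, ‖ζ j‖ = 1) → ‖eval ζ (g k)‖ ≤ e k := by
    filter_upwards [hsmall, eventually_ge_atTop 1] with k hk hk1 ζ hζ
    obtain ⟨-, h2, h3⟩ := hQ k hk1
    have h4 : eval ζ (g k) = eval ζ (h k) ^ K * (1 - eval ζ (Q k * P)) := by
      rw [hg]
      simp only [map_sub, map_mul, map_pow]
      ring
    rw [h4, norm_mul, norm_pow]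
    have hkr : (0 : ℝ) < k := by exact_mod_cast hk1
    rcases le_total (1 / (k : ℝ) ^ A) ‖eval ζ P‖ with h5 | h5
    · have h6 := mul_le_mul (pow_le_pow_left₀ (norm_nonneg _) (hsup k ζ hζ) K) (h3 ζ hζ h5)
        (norm_nonneg _) (by positivity)
      have h7 : 0 ≤ (C / k) ^ K * (2 ^ N + 1) := by positivity
      rw [he]
      linarith
    · have h6 := mul_le_mul (pow_le_pow_left₀ (norm_nonneg _) (hk ζ hζ h5) K) (h2 ζ hζ)
        (norm_nonneg _) (by positivity)
      have h7 : 0 ≤ C ^ K * (2 ^ N * N * Real.exp (-(c * k))) := by positivity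
      rw [he]
      linarith
  have he0 : ∀ k, 0 ≤ e k := by
    intro k
    rw [he]
    positivity
  have hgdeg : ∀ k : ℕ, 1 ≤ k → (g k).totalDegree ≤ (K + N) * (k + 1) ^ (2 * A + 1) := by
    intro k hk
    obtain ⟨h1, -, -⟩ := hQ k hk
    have h2 : g k = h k ^ K * (1 - Q k * P) := by
      rw [hg]; ring
    rw [h2]
    refine (totalDegree_mul _ _).trans ?_
    have h3 : (h k ^ K).totalDegree ≤ K * (k + 1) ^ (2 * A + 1) := by
      refine (totalDegree_pow _ _).trans ?_
      apply Nat.mul_le_mul_left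
      refine (hdeg k).trans ?_
      exact Nat.pow_le_pow_right (by omega) (by omega)
    have h4 : (1 - Q k * P).totalDegree ≤ N * (k + 1) ^ (2 * A + 1) := by
      refine (totalDegree_sub _ _).trans ?_
      rw [totalDegree_one]
      apply max_le (Nat.zero_le _)
      refine h1.trans ?_
      apply Nat.mul_le_mul_left
      exact Nat.pow_le_pow_left (by omega) _
    calc _ ≤ K * (k + 1) ^ (2 * A + 1) + N * (k + 1) ^ (2 * A + 1) := add_le_add h3 h4
      _ = _ := by ring
  have hgW : ∀ᶠ k : ℕ in atTop, ‖W t (g k)‖ ≤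
      ((K : ℝ) + N + 1) ^ (d * T) * (((k : ℝ) + 1) ^ L * e k) := by
    filter_upwards [hgsup, eventually_ge_atTop 1] with k hk hk1
    have h1 := coeff_norm_le_sup (g k) (e k) hk
    have hW0 : ‖W 0 (g k)‖ ^ 2 ≤ e k ^ 2 := by
      rw [norm_W_sq]
      simp only [wt_zero, one_mul]
      exact h1
    have hW0' : ‖W 0 (g k)‖ ≤ e k := le_of_sq_le_sq hW0 (he0 k)
    set D : ℕ := (K + N) * (k + 1) ^ (2 * A + 1) with hD
    have h2 := norm_W_le_of_degree t T hTt (g k) D (by
      apply support_le_degree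
      intro j
      exact (degreeOf_le_totalDegree _ _).trans (hgdeg k hk1))
    have hD1 : (1 : ℝ) ≤ ((D : ℝ) + 1) ^ (d * T) := one_le_pow₀ (by
      have : (0 : ℝ) ≤ D := by positivity
      linarith)
    have h3 : ‖W t (g k)‖ ^ 2 ≤ (((D : ℝ) + 1) ^ (d * T) * e k) ^ 2 := by
      calc _ ≤ ((D : ℝ) + 1) ^ (d * T) * e k ^ 2 := h2.trans
            (mul_le_mul_of_nonneg_left hW0 (by positivity))
        _ ≤ (((D : ℝ) + 1) ^ (d * T)) ^ 2 * e k ^ 2 := by
            apply mul_le_mul_of_nonneg_right _ (sq_nonneg _)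
            nlinarith
        _ = _ := by ring
    have h4 : ‖W t (g k)‖ ≤ ((D : ℝ) + 1) ^ (d * T) * e k :=
      le_of_sq_le_sq h3 (by have := he0 k; positivity)
    refine h4.trans ?_
    rw [← mul_assoc]
    apply mul_le_mul_of_nonneg_right _ (he0 k)
    have h5 : (D : ℝ) + 1 ≤ ((K : ℝ) + N + 1) * ((k : ℝ) + 1) ^ (2 * A + 1) := by
      have h6 : (1 : ℝ) ≤ ((k : ℝ) + 1) ^ (2 * A + 1) := one_le_pow₀ (by
        have : (0 : ℝ) ≤ k := by positivity
        linarith)
      rw [hD]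
      push_cast
      linarith
    calc _ ≤ (((K : ℝ) + N + 1) * ((k : ℝ) + 1) ^ (2 * A + 1)) ^ (d * T) :=
          pow_le_pow_left₀ (by positivity) h5 _
      _ = _ := by rw [mul_pow, ← pow_mul]
  -- the error tends to zero
  have hlim : Tendsto (fun k : ℕ => ((k : ℝ) + 1) ^ L * e k) atTop (𝓝 0) := by
    have h1 : Tendsto (fun k : ℕ => ((k : ℝ) + 1) ^ L * Real.exp (-(c * k))) atTop (𝓝 0) := by
      have h2 := tendsto_rpow_mul_exp_neg_mul_atTop_nhds_zero (L : ℝ) c hc
      have h3 : Tendsto (fun k : ℕ => (k : ℝ) + 1) atTop atTop :=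
        tendsto_atTop_add_const_right _ _ tendsto_natCast_atTop_atTop
      have h4 := (h2.comp h3).const_mul (Real.exp c)
      rw [mul_zero] at h4
      refine h4.congr fun k => ?_
      simp only [Function.comp_apply, Real.rpow_natCast]
      rw [mul_left_comm, ← Real.exp_add]
      congr 2
      ring
    have h2 : Tendsto (fun k : ℕ => ((k : ℝ) + 1) ^ L * (C / k) ^ K) atTop (𝓝 0) := by
      have h3 : Tendsto (fun k : ℕ => 2 ^ L * C ^ K * (1 / (k : ℝ))) atTop (𝓝 0) := by
        have := tendsto_one_div_atTop_nhds_zero_nat (𝕜 := ℝ)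
        have := this.const_mul (2 ^ L * C ^ K)
        rwa [mul_zero] at this
      apply squeeze_zero' (Eventually.of_forall fun _ => by positivity) _ h3
      filter_upwards [eventually_ge_atTop 1] with k hk
      have hkr : (0 : ℝ) < k := by exact_mod_cast hk
      have hk1 : (1 : ℝ) ≤ k := by exact_mod_cast hk
      have h4 : ((k : ℝ) + 1) ^ L ≤ 2 ^ L * (k : ℝ) ^ L := by
        rw [← mul_pow]
        exact pow_le_pow_left₀ (by positivity) (by linarith) L
      have h5 : (k : ℝ) ^ (L + 1) ≤ (k : ℝ) ^ K := pow_le_pow_right₀ hk1 hK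
      have h6 : (k : ℝ) ^ L * (1 / (k : ℝ) ^ K) ≤ 1 / k := by
        rw [mul_one_div, div_le_div_iff₀ (by positivity) hkr, one_mul, ← pow_succ]
        exact h5
      calc ((k : ℝ) + 1) ^ L * (C / k) ^ K ≤ 2 ^ L * (k : ℝ) ^ L * (C / k) ^ K :=
            mul_le_mul_of_nonneg_right h4 (by positivity)
        _ = 2 ^ L * C ^ K * ((k : ℝ) ^ L * (1 / (k : ℝ) ^ K)) := by
            rw [div_pow]; ring
        _ ≤ 2 ^ L * C ^ K * (1 / k) := mul_le_mul_of_nonneg_left h6 (by positivity)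
    have h3 := (h1.const_mul (C ^ K * (2 ^ N * N))).add (h2.const_mul (2 ^ N + 1))
    rw [mul_zero, mul_zero, add_zero] at h3
    refine h3.congr fun k => ?_
    rw [he]
    ring
  have hgW0 : Tendsto (fun k => ‖W t (g k)‖) atTop (𝓝 0) := by
    have h1 := hlim.const_mul (((K : ℝ) + N + 1) ^ (d * T))
    rw [mul_zero] at h1
    exact squeeze_zero' (Eventually.of_forall fun _ => norm_nonneg _) hgW h1
  apply mem_cl_of_weak t P f (fun k => h k ^ K * Q k) (B + 1)
  · filter_upwards [hB, hgW0.eventually (gt_mem_nhds (show (0 : ℝ) < 1 by norm_num))] with k h1 h2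
    have h3 : h k ^ K * Q k * P = h k ^ K - g k := by rw [hg]; ring
    rw [h3, map_sub]
    exact (norm_sub_le _ _).trans (add_le_add h1 h2.le)
  · intro m
    have h1 : Tendsto (fun k => coeff m (g k)) atTop (𝓝 0) := by
      rw [tendsto_zero_iff_norm_tendsto_zero]
      have h2 : ∀ k, ‖coeff m (g k)‖ ≤ (sw t m)⁻¹ * ‖W t (g k)‖ := by
        intro k
        have h3 : ‖W t (g k) m‖ ≤ ‖W t (g k)‖ := lp.norm_apply_le_norm (by norm_num) _ _
        rw [W_apply, norm_mul, Complex.norm_real, Real.norm_eq_abs, abs_of_pos (sw_pos t m)] at h3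
        rw [inv_mul_eq_div, le_div_iff₀ (sw_pos t m)]
        linarith
      have h4 := hgW0.const_mul (sw t m)⁻¹
      rw [mul_zero] at h4
      exact squeeze_zero (fun _ => norm_nonneg _) h2 h4
    have h5 := (hco m).sub h1
    rw [sub_zero] at h5
    refine h5.congr fun k => ?_
    rw [← coeff_sub]
    congr 1
    rw [hg]; ring

end Pool.MP4ac1fb.Curve
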