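import Pool.Agent.H.MP_4ac1fb_an.Curve.Geom3
import Pool.Agent.H.MP_4ac1fb_an.Curve.Division
import Pool.Agent.H.MP_4ac1fb_an.Toral

/-!
Auxiliary statements for `Cyclic.lean`: point evaluations, the product of linear factors, and the
cases in which no bump polynomials are needed.
-/

namespace Pool.MP4ac1fb.Curve

open MvPolynomial Filter Topology

variable {d : ℕ}

/-- point evaluations -/
lemma norm_eval_sq_le (t : ℝ) (z : Fin d → ℂ)
    (hs : ∀ j, Summable fun a : ℕ => ‖z j‖ ^ (2 * a) * (((a : ℝ) + 1) ^ t)⁻¹)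
    (f : MvPolynomial (Fin d) ℂ) :
    ‖eval z f‖ ^ 2 ≤
      ‖W t f‖ ^ 2 * ∏ j, ∑' a : ℕ, ‖z j‖ ^ (2 * a) * (((a : ℝ) + 1) ^ t)⁻¹ := by
  classical
  have h1 : ‖eval z f‖ ≤ ∑ k ∈ f.support, (sw t k * ‖coeff k f‖) *
      ((∏ j, ‖z j‖ ^ k j) * (sw t k)⁻¹) := by
    rw [eval_eq']
    refine (norm_sum_le _ _).trans (Finset.sum_le_sum fun k _ => le_of_eq ?_)
    rw [norm_mul, norm_prod]
    have := (sw_pos t k).ne'
    simp only [norm_pow]
    field_simp
  have h0 : 0 ≤ ∑ k ∈ f.support, (sw t k * ‖coeff k f‖) *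
      ((∏ j, ‖z j‖ ^ k j) * (sw t k)⁻¹) := (norm_nonneg _).trans h1
  refine (pow_le_pow_left₀ (norm_nonneg _) h1 2).trans ?_
  refine (Finset.sum_mul_sq_le_sq_mul_sq _ _ _).trans ?_
  rw [norm_W_sq]
  have h2 : ∑ k ∈ f.support, (sw t k * ‖coeff k f‖) ^ 2 =
      ∑ k ∈ f.support, wt t k * ‖coeff k f‖ ^ 2 :=
    Finset.sum_congr rfl fun k _ => by rw [mul_pow, sw_sq]
  rw [h2]
  refine mul_le_mul_of_nonneg_left ?_ (Finset.sum_nonneg fun k _ =>
    mul_nonneg (wt_pos t k).le (sq_nonneg _))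
  set φ : Fin d → ℕ → ℝ := fun j a => ‖z j‖ ^ (2 * a) * (((a : ℝ) + 1) ^ t)⁻¹ with hφ
  have hφ0 : ∀ j a, 0 ≤ φ j a := fun j a => by positivity
  have h3 : ∑ k ∈ f.support, ((∏ j, ‖z j‖ ^ k j) * (sw t k)⁻¹) ^ 2 =
      ∑ k ∈ f.support, ∏ j, φ j (k j) := by
    refine Finset.sum_congr rfl fun k _ => ?_
    rw [mul_pow, inv_pow, sw_sq, wt, ← Finset.prod_pow, ← Finset.prod_inv_distrib,
      ← Finset.prod_mul_distrib]
    refine Finset.prod_congr rfl fun j _ => ?_
    rw [hφ, ← pow_mul, mul_comm (k j) 2]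
  rw [h3]
  have h4 : ∑ k ∈ f.support, ∏ j, φ j (k j) ≤
      ∑ x ∈ Fintype.piFinset (fun _ : Fin d => Finset.range (f.totalDegree + 1)),
        ∏ j, φ j (x j) := by
    rw [← Finset.sum_image (s := f.support) (g := fun k : Fin d →₀ ℕ => (k : Fin d → ℕ))
      (f := fun x => ∏ j, φ j (x j)) (by
        intro x _ y _ h; exact DFunLike.coe_injective h)]
    apply Finset.sum_le_sum_of_subset_of_nonneg
    · intro x hx
      obtain ⟨k, hk, rfl⟩ := Finset.mem_image.mp hx
      rw [Fintype.mem_piFinset]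
      intro j
      rw [Finset.mem_range]
      have := (monomial_le_degreeOf j hk).trans (degreeOf_le_totalDegree f j)
      omega
    · intro x _ _
      exact Finset.prod_nonneg fun j _ => hφ0 j _
  refine h4.trans ?_
  rw [← Finset.prod_univ_sum]
  refine Finset.prod_le_prod (fun j _ => Finset.sum_nonneg fun a _ => hφ0 j a) fun j _ => ?_
  exact (hs j).sum_le_tsum _ fun a _ => hφ0 j a

lemma not_cyclic_of_summable (P : MvPolynomial (Fin d) ℂ) (t : ℝ) (z : Fin d → ℂ)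
    (hs : ∀ j, Summable fun a : ℕ => ‖z j‖ ^ (2 * a) * (((a : ℝ) + 1) ^ t)⁻¹)
    (h : eval z P = 0) : ¬ ShiftCyclic t P := by
  intro hc
  rw [shiftCyclic_iff] at hc
  set Z := ∏ j, ∑' a : ℕ, ‖z j‖ ^ (2 * a) * (((a : ℝ) + 1) ^ t)⁻¹ with hZ
  have hZ0 : 0 ≤ Z := Finset.prod_nonneg fun j _ => tsum_nonneg fun a => by positivity
  obtain ⟨Q, hQ⟩ := hc (Real.sqrt (1 / (Z + 1))) (Real.sqrt_pos.mpr (by positivity))
  have h1 := norm_eval_sq_le t z hs (1 - Q * P)
  rw [map_sub, map_mul, h, mul_zero, sub_zero, map_one, norm_one, one_pow, ← hZ] at h1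
  have h2 : ‖W t (1 - Q * P)‖ ^ 2 < 1 / (Z + 1) := by
    have := pow_lt_pow_left₀ hQ (norm_nonneg _) two_ne_zero
    rwa [Real.sq_sqrt (by positivity)] at this
  have h3 : ‖W t (1 - Q * P)‖ ^ 2 * Z ≤ 1 / (Z + 1) * Z :=
    mul_le_mul_of_nonneg_right h2.le hZ0
  have h4 : 1 / (Z + 1) * Z < 1 := by
    rw [one_div, inv_mul_lt_iff₀ (by positivity)]
    linarith
  linarith

lemma not_cyclic_gt_one' (P : MvPolynomial (Fin d) ℂ) (t : ℝ) (ht : 1 < t) (z : Fin d → ℂ)
    (hz : OnT z) (h : eval z P = 0) : ¬ ShiftCyclic t P := by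
  refine not_cyclic_of_summable P t z (fun j => ?_) h
  simp only [hz j, one_pow, one_mul]
  have h1 := (summable_nat_add_iff 1).mpr (Real.summable_nat_rpow_inv.mpr ht)
  simpa only [Nat.cast_add, Nat.cast_one] using h1

lemma not_cyclic_of_zero' (P : MvPolynomial (Fin d) ℂ) (t : ℝ) (z : Fin d → ℂ)
    (hz : ∀ j, ‖z j‖ < 1) (h : eval z P = 0) : ¬ ShiftCyclic t P := by
  refine not_cyclic_of_summable P t z (fun j => ?_) h
  set r : ℝ := max (‖z j‖ ^ 2) (1 / 2) with hr
  have hr1 : r < 1 := by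
    apply max_lt _ (by norm_num)
    have h0 := norm_nonneg (z j)
    have h1 := hz j
    nlinarith
  have hr0 : 0 < r := lt_of_lt_of_le (by norm_num) (le_max_right _ _)
  set N : ℕ := ⌈|t|⌉₊ with hN
  have h1 : Summable fun a : ℕ => ((a : ℝ)) ^ N * r ^ a :=
    summable_pow_mul_geometric_of_norm_lt_one N
      (by rwa [Real.norm_eq_abs, abs_of_pos hr0])
  have h2 : Summable fun a : ℕ => (((a + 1 : ℕ) : ℝ)) ^ N * r ^ (a + 1) :=
    (summable_nat_add_iff 1).mpr h1
  have h3 : Summable fun a : ℕ => r⁻¹ * ((((a + 1 : ℕ) : ℝ)) ^ N * r ^ (a + 1)) :=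
    h2.mul_left _
  refine Summable.of_nonneg_of_le (fun a => by positivity) (fun a => ?_) h3
  have h4 : r⁻¹ * ((((a + 1 : ℕ) : ℝ)) ^ N * r ^ (a + 1)) = r ^ a * ((a : ℝ) + 1) ^ N := by
    push_cast
    rw [pow_succ]
    field_simp
  rw [h4]
  have h5 : ‖z j‖ ^ (2 * a) ≤ r ^ a := by
    rw [pow_mul]
    exact pow_le_pow_left₀ (by positivity) (le_max_left _ _) a
  have h6 : (((a : ℝ) + 1) ^ t)⁻¹ ≤ ((a : ℝ) + 1) ^ N := by
    rw [← Real.rpow_neg (by positivity), ← Real.rpow_natCast]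
    apply Real.rpow_le_rpow_of_exponent_le (by linarith [Nat.cast_nonneg (α := ℝ) a])
    exact (neg_le_abs t).trans (Nat.le_ceil _)
  exact mul_le_mul h5 h6 (by positivity) (by positivity)

/-- linear factors are cyclic -/
lemma cyclic_linear (t : ℝ) (ht : t ≤ 1) (j : Fin d) (ζ : ℂ) (hζ : ‖ζ‖ = 1) :
    ShiftCyclic t (X j - C ζ : MvPolynomial (Fin d) ℂ) := by
  classical
  apply cyclic_of_few_vars
  · intro z hz h
    rw [map_sub, eval_X, eval_C, sub_eq_zero] at h
    have := hz j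
    rw [h, hζ] at this
    exact lt_irrefl _ this
  · have h1 : (X j - C ζ : MvPolynomial (Fin d) ℂ).vars.card ≤ 1 := by
      have : (X j - C ζ : MvPolynomial (Fin d) ℂ).vars ⊆ {j} := by
        refine (vars_sub_subset ..).trans ?_
        rw [vars_X, vars_C, Finset.union_empty]
      exact (Finset.card_le_card this).trans (by simp)
    have h2 : ((X j - C ζ : MvPolynomial (Fin d) ℂ).vars.card : ℝ) ≤ 1 := by exact_mod_cast h1
    have h3 : (0 : ℝ) ≤ ((X j - C ζ : MvPolynomial (Fin d) ℂ).vars.card : ℝ) := Nat.cast_nonneg _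
    rcases le_total t 0 with h | h
    · nlinarith
    · nlinarith

lemma shiftCyclic_pow (t : ℝ) (G : MvPolynomial (Fin d) ℂ) (hG : ShiftCyclic t G) (n : ℕ) :
    ShiftCyclic t (G ^ n) := by
  induction n with
  | zero => rw [pow_zero]; exact shiftCyclic_one t
  | succ n ih => rw [pow_succ, shiftCyclic_mul_iff]; exact ⟨ih, hG⟩

/-- the part of `N` with zeros on the circle -/
lemma exists_G1 (b : Fin d) (s : Multiset ℂ) :
    ∃ G : MvPolynomial (Fin d) ℂ, (∀ t ≤ (1 : ℝ), ShiftCyclic t G) ∧ ∃ C : ℝ, 0 ≤ C ∧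
      ∀ z, OnT z → ‖eval z G‖ ≤ C * ‖(s.map (fun a => z b - a)).prod‖ := by
  induction s using Multiset.induction_on with
  | empty =>
    refine ⟨1, fun t _ => shiftCyclic_one t, 1, zero_le_one, fun z _ => ?_⟩
    simp
  | cons a s ih =>
    obtain ⟨G, hG, C₀, hC₀, hb⟩ := ih
    by_cases ha : ‖a‖ = 1
    · refine ⟨(X b - C a) * G, fun t ht => ?_, C₀, hC₀, fun z hz => ?_⟩
      · rw [shiftCyclic_mul_iff]
        exact ⟨cyclic_linear t ht b a ha, hG t ht⟩
      · rw [Multiset.map_cons, Multiset.prod_cons, map_mul, map_sub, eval_X, eval_C, norm_mul,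
          norm_mul]
        have := mul_le_mul_of_nonneg_left (hb z hz) (norm_nonneg (z b - a))
        linarith
    · have hpos : 0 < |1 - ‖a‖| := abs_pos.mpr (sub_ne_zero.mpr (Ne.symm ha))
      refine ⟨G, hG, C₀ / |1 - ‖a‖|, by positivity, fun z hz => ?_⟩
      rw [Multiset.map_cons, Multiset.prod_cons, norm_mul]
      have h1 : |1 - ‖a‖| ≤ ‖z b - a‖ := by
        rw [← hz b]; exact abs_norm_sub_norm_le _ _
      refine (hb z hz).trans ?_
      rw [div_mul_eq_mul_div, le_div_iff₀ hpos]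
      have h2 : 0 ≤ C₀ * ‖(s.map (fun a => z b - a)).prod‖ := by positivity
      calc C₀ * ‖(s.map (fun a => z b - a)).prod‖ * |1 - ‖a‖|
          ≤ C₀ * ‖(s.map (fun a => z b - a)).prod‖ * ‖z b - a‖ :=
            mul_le_mul_of_nonneg_left h1 h2
        _ = _ := by ring

/-- the constant coordinates -/
lemma finite_constAt {b : Fin d} {P : MvPolynomial (Fin d) ℂ} (D : CData b P) :
    {p : Fin d × ℂ | p.1 ≠ b ∧ ‖p.2‖ = 1 ∧ D.ConstAt p.1 p.2}.Finite := by
  classical
  -- a point of the circle where `N` does not vanish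
  obtain ⟨x, hx, hNx⟩ : ∃ x : ℂ, ‖x‖ = 1 ∧ D.N.eval x ≠ 0 := by
    by_contra hcon
    push Not at hcon
    have hinf : (Metric.sphere (0 : ℂ) 1).Infinite := by
      intro hfin
      have h1 : (Set.range fun n : ℕ => Complex.exp ((1 / ((n : ℝ) + 1) : ℝ) * Complex.I)).Finite :=
        hfin.subset (by
          rintro _ ⟨n, rfl⟩
          rw [mem_sphere_zero_iff_norm, Complex.norm_exp_ofReal_mul_I])
      have h2 : Function.Injective
          fun n : ℕ => Complex.exp ((1 / ((n : ℝ) + 1) : ℝ) * Complex.I) := by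
        intro n m h
        have hn : ∀ n : ℕ, (1 / ((n : ℝ) + 1) : ℝ) ∈ Set.Ioc (-Real.pi) Real.pi := by
          intro n
          have h3 : (0 : ℝ) < 1 / ((n : ℝ) + 1) := by positivity
          have h4 : 1 / ((n : ℝ) + 1) ≤ 1 := by
            rw [div_le_one (by positivity)]; linarith [Nat.cast_nonneg (α := ℝ) n]
          have := Real.pi_gt_three
          constructor <;> linarith
        have h5 : Complex.arg (Complex.exp ((1 / ((n : ℝ) + 1) : ℝ) * Complex.I)) =
            Complex.arg (Complex.exp ((1 / ((m : ℝ) + 1) : ℝ) * Complex.I)) :=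
          congrArg Complex.arg h
        rw [Complex.arg_exp_mul_I, Complex.arg_exp_mul_I,
          (toIocMod_eq_self _).mpr (by
            have := hn n; constructor <;> [exact this.1; linarith [this.2]]),
          (toIocMod_eq_self _).mpr (by
            have := hn m; constructor <;> [exact this.1; linarith [this.2]])] at h5
        have h6 : ((n : ℝ) + 1) = (m : ℝ) + 1 := by
          have h7 : (0 : ℝ) < (n : ℝ) + 1 := by positivity
          have h8 : (0 : ℝ) < (m : ℝ) + 1 := by positivity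
          field_simp at h5
          linarith
        exact_mod_cast (add_right_cancel h6)
      exact Set.infinite_range_of_injective h2 h1
    apply hinf
    refine (D.N.rootSet_finite ℂ).subset fun y hy => ?_
    rw [mem_sphere_zero_iff_norm] at hy
    rw [Polynomial.mem_rootSet]
    exact ⟨D.N_ne, by simpa using hcon y hy⟩
  have hsub : {p : Fin d × ℂ | p.1 ≠ b ∧ ‖p.2‖ = 1 ∧ D.ConstAt p.1 p.2} ⊆
      ⋃ j : Fin d, (fun ζ : ℂ => (j, ζ)) '' {ζ | j ≠ b ∧ D.ConstAt j ζ} := by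
    rintro ⟨j, ζ⟩ ⟨h1, _, h3⟩
    exact Set.mem_iUnion.mpr ⟨j, ζ, ⟨h1, h3⟩, rfl⟩
  refine (Set.finite_iUnion fun j => Set.Finite.image _ ?_).subset hsub
  by_cases hj : j = b
  · refine Set.finite_empty.subset ?_
    rintro ζ ⟨h1, _⟩
    exact absurd hj h1
  · have h1 := D.map_ne_zero (by rw [hx]; norm_num : ‖x‖ ≤ 2) hNx hj
    refine (((D.S j).map (Polynomial.evalRingHom x)).rootSet_finite ℂ).subset ?_
    rintro ζ ⟨_, h2⟩
    rw [Polynomial.mem_rootSet]
    refine ⟨h1, ?_⟩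
    have h3 := h2 x
    have : ((D.S j).map (Polynomial.evalRingHom x)).eval ζ = 0 := by
      rw [Polynomial.map_evalRingHom_eval]; exact h3
    simpa using this

end Pool.MP4ac1fb.Curve
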