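import Pool.Agent.H.MP_4ac1fb_an.Curve.Defs

/-!
An arc of zeros on the torus with bi-Lipschitz coordinates excludes cyclicity for `t > 1 - 1/d`.
-/

namespace Pool.MP4ac1fb.Curve

open MvPolynomial

variable {d : ℕ}

/-- power sums -/
lemma sum_inv_rpow_le (a : ℝ) (ha0 : 0 < a) (ha1 : a < 1) (n : ℕ) :
    ∑ k ∈ Finset.range n, ((k : ℝ) + 1) ^ (-a) ≤ (n : ℝ) ^ (1 - a) / (1 - a) := by
  have h1a : 0 < 1 - a := by linarith
  induction n with
  | zero => simp [h1a.ne']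
  | succ n ih =>
    rw [Finset.sum_range_succ]
    have hn : (0 : ℝ) < (n : ℝ) + 1 := by positivity
    have hb := rpow_one_add_le_one_add_mul_self (s := -(1 / ((n : ℝ) + 1)))
      (by rw [neg_le_neg_iff, div_le_one hn]; have : (0:ℝ) ≤ n := Nat.cast_nonneg n; linarith)
      h1a.le (by linarith : 1 - a ≤ 1)
    have h2 : (1 : ℝ) + -(1 / ((n : ℝ) + 1)) = n / ((n : ℝ) + 1) := by field_simp; ring
    rw [h2, Real.div_rpow (Nat.cast_nonneg n) hn.le, div_le_iff₀ (by positivity)] at hb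
    have h3 : ((n : ℝ) + 1) ^ (1 - a) = ((n : ℝ) + 1) * ((n : ℝ) + 1) ^ (-a) := by
      rw [show 1 - a = 1 + -a by ring, Real.rpow_add hn, Real.rpow_one]
    have h4 : (n : ℝ) ^ (1 - a) + (1 - a) * ((n : ℝ) + 1) ^ (-a) ≤
        ((n : ℝ) + 1) ^ (1 - a) := by
      have h5 : (1 + (1 - a) * -(1 / ((n : ℝ) + 1))) * ((n : ℝ) + 1) ^ (1 - a) =
          ((n : ℝ) + 1) ^ (1 - a) - (1 - a) * ((n : ℝ) + 1) ^ (-a) := by
        rw [h3]; field_simp; ring
      linarith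
    push_cast
    rw [le_div_iff₀ h1a] at ih ⊢
    nlinarith

lemma abel_bound (a : ℕ → ℝ) (ha : ∀ n, a (n + 1) ≤ a n) (ha0 : ∀ n, 0 ≤ a n) (b : ℕ → ℂ)
    (B : ℝ) (hB : ∀ n, ‖∑ k ∈ Finset.range n, b k‖ ≤ B) (n : ℕ) :
    ‖∑ k ∈ Finset.range n, (a k : ℂ) * b k‖ ≤ a 0 * B := by
  have hB0 : 0 ≤ B := (norm_nonneg _).trans (hB 0)
  rcases Nat.eq_zero_or_pos n with hn | hn
  · subst hn; simp only [Finset.range_zero, Finset.sum_empty, norm_zero]
    exact mul_nonneg (ha0 0) hB0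
  have h1 := Finset.sum_range_by_parts (fun k => (a k : ℂ)) b n
  simp only [smul_eq_mul] at h1
  rw [h1]
  have h2 : ‖∑ i ∈ Finset.range (n - 1), (((a (i + 1) : ℝ) : ℂ) - ((a i : ℝ) : ℂ)) *
      ∑ i ∈ Finset.range (i + 1), b i‖ ≤ ∑ i ∈ Finset.range (n - 1), (a i - a (i + 1)) * B := by
    refine (norm_sum_le _ _).trans (Finset.sum_le_sum fun i _ => ?_)
    rw [norm_mul]
    apply mul_le_mul _ (hB _) (norm_nonneg _) (by linarith [ha i])
    rw [← Complex.ofReal_sub, Complex.norm_real, Real.norm_eq_abs, abs_sub_comm,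
      abs_of_nonneg (by linarith [ha i])]
  have h3 : ∑ i ∈ Finset.range (n - 1), (a i - a (i + 1)) * B = (a 0 - a (n - 1)) * B := by
    rw [← Finset.sum_mul, Finset.sum_range_sub']
  rw [h3] at h2
  calc _ ≤ ‖((a (n - 1) : ℝ) : ℂ) * ∑ i ∈ Finset.range n, b i‖ + _ := norm_sub_le _ _
    _ ≤ a (n - 1) * B + (a 0 - a (n - 1)) * B := by
        refine add_le_add ?_ h2
        rw [norm_mul, Complex.norm_real, Real.norm_of_nonneg (ha0 _)]
        exact mul_le_mul_of_nonneg_left (hB n) (ha0 _)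
    _ = a 0 * B := by ring

lemma geom_bound (w : ℂ) (hw : ‖w‖ = 1) (hw1 : w ≠ 1) (K n : ℕ) :
    ‖∑ k ∈ Finset.range n, w ^ (K + k)‖ ≤ 2 / ‖1 - w‖ := by
  have h0 : 1 - w ≠ 0 := sub_ne_zero.mpr (Ne.symm hw1)
  have h1 : ∑ k ∈ Finset.range n, w ^ (K + k) = w ^ K * ((1 - w ^ n) / (1 - w)) := by
    simp only [pow_add]
    rw [← Finset.mul_sum]
    congr 1
    rw [eq_div_iff h0]
    have := geom_sum_mul_neg w n
    exact this
  rw [h1, norm_mul, norm_pow, hw, one_pow, one_mul, norm_div]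
  apply div_le_div_of_nonneg_right _ (norm_nonneg _)
  calc ‖1 - w ^ n‖ ≤ ‖(1 : ℂ)‖ + ‖w ^ n‖ := norm_sub_le _ _
    _ = 2 := by rw [norm_one, norm_pow, hw, one_pow]; norm_num

/-- the one-variable kernel -/
noncomputable def kern (t : ℝ) (M : ℕ) (w : ℂ) : ℂ :=
  ∑ k ∈ Finset.range M, ((((k : ℝ) + 1) ^ (-t) : ℝ) : ℂ) * w ^ k

lemma norm_kern_le (t : ℝ) (ht : 0 ≤ t) (M : ℕ) (w : ℂ) (hw : ‖w‖ = 1) : ‖kern t M w‖ ≤ M := by
  unfold kern
  refine (norm_sum_le _ _).trans ?_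
  calc _ ≤ ∑ _k ∈ Finset.range M, (1 : ℝ) := by
        apply Finset.sum_le_sum
        intro k _
        rw [norm_mul, norm_pow, hw, one_pow, mul_one, Complex.norm_real,
          Real.norm_of_nonneg (by positivity)]
        apply Real.rpow_le_one_of_one_le_of_nonpos _ (by linarith)
        have : (0 : ℝ) ≤ k := Nat.cast_nonneg k
        linarith
    _ = M := by simp

lemma kern_bound (t : ℝ) (ht0 : 0 < t) (ht1 : t < 1) : ∃ C : ℝ, 0 < C ∧ ∀ (M : ℕ) (w : ℂ),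
    ‖w‖ = 1 → w ≠ 1 → ‖kern t M w‖ ≤ C * ‖1 - w‖ ^ (t - 1) := by
  have h1t : 0 < 1 - t := by linarith
  refine ⟨3 ^ (1 - t) / (1 - t) + 2, by positivity, ?_⟩
  intro M w hw hw1
  set δ := ‖1 - w‖ with hδ
  have hδ0 : 0 < δ := norm_pos_iff.mpr (sub_ne_zero.mpr (Ne.symm hw1))
  have hδ2 : δ ≤ 2 := by
    calc δ ≤ ‖(1 : ℂ)‖ + ‖w‖ := norm_sub_le _ _
      _ = 2 := by rw [norm_one, hw]; norm_num
  set K := ⌈1 / δ⌉₊ with hK
  have hK1 : 1 / δ ≤ K := Nat.le_ceil _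
  have hK2 : (K : ℝ) ≤ 3 / δ := by
    have h1 : (K : ℝ) < 1 / δ + 1 := Nat.ceil_lt_add_one (by positivity)
    have h2 : (1 : ℝ) ≤ 2 / δ := by rw [le_div_iff₀ hδ0]; linarith
    have h3 : 3 / δ = 1 / δ + 2 / δ := by ring
    linarith
  -- head
  have hhead : ∀ m : ℕ, m ≤ K → ‖kern t m w‖ ≤ 3 ^ (1 - t) / (1 - t) * δ ^ (t - 1) := by
    intro m hm
    have h1 : ‖kern t m w‖ ≤ ∑ k ∈ Finset.range m, ((k : ℝ) + 1) ^ (-t) := by
      unfold kern
      refine (norm_sum_le _ _).trans (Finset.sum_le_sum fun k _ => ?_)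
      rw [norm_mul, norm_pow, hw, one_pow, mul_one, Complex.norm_real,
        Real.norm_of_nonneg (by positivity)]
    refine h1.trans ((sum_inv_rpow_le t ht0 ht1 m).trans ?_)
    have h2 : (m : ℝ) ^ (1 - t) ≤ (3 / δ) ^ (1 - t) :=
      Real.rpow_le_rpow (Nat.cast_nonneg _) (le_trans (by exact_mod_cast hm) hK2) h1t.le
    have h3 : (3 / δ) ^ (1 - t) = 3 ^ (1 - t) * δ ^ (t - 1) := by
      rw [Real.div_rpow (by norm_num) hδ0.le, div_eq_mul_inv, ← Real.rpow_neg hδ0.le]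
      congr 2; ring
    rw [h3] at h2
    calc _ ≤ 3 ^ (1 - t) * δ ^ (t - 1) / (1 - t) := div_le_div_of_nonneg_right h2 h1t.le
      _ = _ := by ring
  rcases le_or_gt M K with hMK | hMK
  · refine (hhead M hMK).trans ?_
    have : 0 ≤ δ ^ (t - 1) := by positivity
    nlinarith
  · obtain ⟨n, rfl⟩ : ∃ n, M = K + n := ⟨M - K, by omega⟩
    have hsplit : kern t (K + n) w = kern t K w + ∑ k ∈ Finset.range n,
        ((((((K + k : ℕ) : ℝ) + 1) ^ (-t) : ℝ)) : ℂ) * w ^ (K + k) := by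
      unfold kern
      rw [Finset.sum_range_add]
    have htail := abel_bound (fun k => (((K + k : ℕ) : ℝ) + 1) ^ (-t)) (by
        intro m
        apply Real.rpow_le_rpow_of_nonpos (by positivity) _ (by linarith)
        push_cast; linarith) (by intro m; positivity)
      (fun k => w ^ (K + k)) (2 / δ) (fun m => geom_bound w hw hw1 K m) n
    have h4 : (((K + 0 : ℕ) : ℝ) + 1) ^ (-t) ≤ δ ^ t := by
      rw [add_zero]
      calc ((K : ℝ) + 1) ^ (-t) ≤ (1 / δ) ^ (-t) :=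
            Real.rpow_le_rpow_of_nonpos (by positivity) (by linarith) (by linarith)
        _ = δ ^ t := by
            rw [one_div, Real.inv_rpow hδ0.le, Real.rpow_neg hδ0.le, inv_inv]
    have h5 : δ ^ t * (2 / δ) = 2 * δ ^ (t - 1) := by
      rw [Real.rpow_sub hδ0, Real.rpow_one]; ring
    rw [hsplit]
    calc _ ≤ ‖kern t K w‖ + _ := norm_add_le _ _
      _ ≤ 3 ^ (1 - t) / (1 - t) * δ ^ (t - 1) + δ ^ t * (2 / δ) := by
          refine add_le_add (hhead K le_rfl) (htail.trans ?_)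
          exact mul_le_mul_of_nonneg_right h4 (by positivity)
      _ = _ := by rw [h5]; ring

/-- double sums of powers of differences -/
lemma sum_diff_le (a : ℝ) (ha0 : 0 < a) (ha1 : a < 1) (L l : ℕ) (hl : l < L) :
    ∑ l' ∈ (Finset.range L).erase l, |(l : ℝ) - l'| ^ (-a) ≤ 2 * ((L : ℝ) ^ (1 - a) / (1 - a)) := by
  classical
  have hsplit : (Finset.range L).erase l = Finset.range l ∪ Finset.Ico (l + 1) L := by
    ext x
    simp only [Finset.mem_erase, Finset.mem_range, Finset.mem_union, Finset.mem_Ico]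
    omega
  have hdisj : Disjoint (Finset.range l) (Finset.Ico (l + 1) L) := by
    rw [Finset.disjoint_left]
    intro x hx hx'
    rw [Finset.mem_range] at hx
    rw [Finset.mem_Ico] at hx'
    omega
  rw [hsplit, Finset.sum_union hdisj]
  have hmono : ∀ n ≤ L, ∑ k ∈ Finset.range n, ((k : ℝ) + 1) ^ (-a) ≤
      (L : ℝ) ^ (1 - a) / (1 - a) := by
    intro n hn
    refine le_trans ?_ (sum_inv_rpow_le a ha0 ha1 L)
    exact Finset.sum_le_sum_of_subset_of_nonneg (Finset.range_mono hn) (fun _ _ _ => by positivity)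
  have h1 : ∑ l' ∈ Finset.range l, |(l : ℝ) - l'| ^ (-a) =
      ∑ k ∈ Finset.range l, ((k : ℝ) + 1) ^ (-a) := by
    rw [← Finset.sum_range_reflect]
    apply Finset.sum_congr rfl
    intro k hk
    rw [Finset.mem_range] at hk
    congr 1
    have : ((l - 1 - k : ℕ) : ℝ) = l - 1 - k := by
      rw [Nat.cast_sub (by omega), Nat.cast_sub (by omega)]; simp
    rw [this, show (l : ℝ) - (l - 1 - k) = k + 1 by ring, abs_of_pos (by positivity)]
  have h2 : ∑ l' ∈ Finset.Ico (l + 1) L, |(l : ℝ) - l'| ^ (-a) =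
      ∑ k ∈ Finset.range (L - (l + 1)), ((k : ℝ) + 1) ^ (-a) := by
    rw [Finset.sum_Ico_eq_sum_range]
    apply Finset.sum_congr rfl
    intro k _
    congr 1
    push_cast
    rw [show (l : ℝ) - (l + 1 + k) = -(k + 1) by ring, abs_neg, abs_of_pos (by positivity)]
  rw [h1, h2]
  have h3 := hmono l hl.le
  have h4 := hmono (L - (l + 1)) (by omega)
  linarith

/-- The energy of the averages along the arc. -/
lemma energy_eq (t : ℝ) (M L : ℕ) (z : ℕ → Fin d → ℂ) :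
    ∑ a : Fin d → Fin M, (∏ j, (((a j : ℕ) : ℝ) + 1) ^ (-t)) *
        ‖∑ l ∈ Finset.range L, ∏ j, z l j ^ ((a j : ℕ))‖ ^ 2 =
      ‖∑ l ∈ Finset.range L, ∑ l' ∈ Finset.range L,
        ∏ j, kern t M (z l j * (starRingEnd ℂ) (z l' j))‖ := by
  have hC : (∑ a : Fin d → Fin M, ((((∏ j, (((a j : ℕ) : ℝ) + 1) ^ (-t)) *
        ‖∑ l ∈ Finset.range L, ∏ j, z l j ^ ((a j : ℕ))‖ ^ 2 : ℝ)) : ℂ)) =
      ∑ l ∈ Finset.range L, ∑ l' ∈ Finset.range L,
        ∏ j, kern t M (z l j * (starRingEnd ℂ) (z l' j)) := by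
    have h1 : ∀ a : Fin d → Fin M, ((((∏ j, (((a j : ℕ) : ℝ) + 1) ^ (-t)) *
        ‖∑ l ∈ Finset.range L, ∏ j, z l j ^ ((a j : ℕ))‖ ^ 2 : ℝ)) : ℂ) =
        ∑ l ∈ Finset.range L, ∑ l' ∈ Finset.range L,
          ∏ j, (((((((a j : ℕ) : ℝ) + 1) ^ (-t) : ℝ)) : ℂ) *
            (z l j * (starRingEnd ℂ) (z l' j)) ^ ((a j : ℕ))) := by
      intro a
      have h2 : ((‖∑ l ∈ Finset.range L, ∏ j, z l j ^ ((a j : ℕ))‖ ^ 2 : ℝ) : ℂ) =
          (∑ l ∈ Finset.range L, ∏ j, z l j ^ ((a j : ℕ))) *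
            (starRingEnd ℂ) (∑ l ∈ Finset.range L, ∏ j, z l j ^ ((a j : ℕ))) := by
        rw [Complex.mul_conj, Complex.normSq_eq_norm_sq]
      rw [Complex.ofReal_mul, h2, map_sum, Finset.sum_mul_sum, Finset.mul_sum]
      apply Finset.sum_congr rfl
      intro l _
      rw [Finset.mul_sum]
      apply Finset.sum_congr rfl
      intro l' _
      rw [Finset.prod_mul_distrib, Complex.ofReal_prod, map_prod, ← Finset.prod_mul_distrib]
      congr 1
      apply Finset.prod_congr rfl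
      intro j _
      rw [map_pow, mul_pow]
    rw [Finset.sum_congr rfl (fun a _ => h1 a), Finset.sum_comm]
    apply Finset.sum_congr rfl
    intro l _
    rw [Finset.sum_comm]
    apply Finset.sum_congr rfl
    intro l' _
    have h3 := Finset.prod_univ_sum (fun _ : Fin d => (Finset.univ : Finset (Fin M)))
      (fun j x => ((((((x : ℕ) : ℝ) + 1) ^ (-t) : ℝ)) : ℂ) *
            (z l j * (starRingEnd ℂ) (z l' j)) ^ ((x : ℕ)))
    rw [Fintype.piFinset_univ] at h3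
    rw [← h3]
    apply Finset.prod_congr rfl
    intro j _
    rw [kern, Fin.sum_univ_eq_sum_range (fun k => ((((((k : ℕ) : ℝ) + 1) ^ (-t) : ℝ)) : ℂ) *
            (z l j * (starRingEnd ℂ) (z l' j)) ^ k) M]
  rw [← hC, ← Complex.ofReal_sum, Complex.norm_real, Real.norm_of_nonneg]
  apply Finset.sum_nonneg
  intro a _
  apply mul_nonneg _ (sq_nonneg _)
  apply Finset.prod_nonneg
  intro j _
  positivity

lemma norm_one_sub_mul_conj {a b : ℂ} (hb : ‖b‖ = 1) :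
    ‖1 - a * (starRingEnd ℂ) b‖ = ‖a - b‖ := by
  have h1 : b * (starRingEnd ℂ) b = 1 := by
    rw [Complex.mul_conj, Complex.normSq_eq_norm_sq, hb]; simp
  have h2 : 1 - a * (starRingEnd ℂ) b = (b - a) * (starRingEnd ℂ) b := by
    rw [sub_mul, h1]
  rw [h2, norm_mul, RCLike.norm_conj, hb, mul_one, norm_sub_rev]

lemma mean_sq_le (t : ℝ) (f : MvPolynomial (Fin d) ℂ) (M L : ℕ)
    (hM : ∀ k ∈ f.support, ∀ j, k j < M) (z : ℕ → Fin d → ℂ) :
    ‖∑ l ∈ Finset.range L, eval (z l) f‖ ^ 2 ≤ ‖W t f‖ ^ 2 *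
      ∑ a : Fin d → Fin M, (∏ j, (((a j : ℕ) : ℝ) + 1) ^ (-t)) *
        ‖∑ l ∈ Finset.range L, ∏ j, z l j ^ ((a j : ℕ))‖ ^ 2 := by
  classical
  have h1 : ∑ l ∈ Finset.range L, eval (z l) f =
      ∑ k ∈ f.support, coeff k f * ∑ l ∈ Finset.range L, zp (z l) k := by
    simp only [eval_eq_zp, Finset.mul_sum]
    rw [Finset.sum_comm]
  have h2 : ‖∑ l ∈ Finset.range L, eval (z l) f‖ ≤ ∑ k ∈ f.support,
      (Real.sqrt (wt t k) * ‖coeff k f‖) * (Real.sqrt (wt t k)⁻¹ *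
        ‖∑ l ∈ Finset.range L, zp (z l) k‖) := by
    rw [h1]
    refine (norm_sum_le _ _).trans (le_of_eq (Finset.sum_congr rfl fun k _ => ?_))
    have hw := wt_pos t k
    rw [norm_mul, mul_mul_mul_comm, ← Real.sqrt_mul hw.le, mul_inv_cancel₀ hw.ne', Real.sqrt_one,
      one_mul]
  have h3 := Finset.sum_mul_sq_le_sq_mul_sq f.support
    (fun k => Real.sqrt (wt t k) * ‖coeff k f‖)
    (fun k => Real.sqrt (wt t k)⁻¹ * ‖∑ l ∈ Finset.range L, zp (z l) k‖)
  have h4 : ∑ k ∈ f.support, (Real.sqrt (wt t k) * ‖coeff k f‖) ^ 2 = ‖W t f‖ ^ 2 := by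
    rw [norm_W_sq]
    apply Finset.sum_congr rfl
    intro k _
    rw [mul_pow, Real.sq_sqrt (wt_pos t k).le]
  have h5 : ∑ k ∈ f.support, (Real.sqrt (wt t k)⁻¹ * ‖∑ l ∈ Finset.range L, zp (z l) k‖) ^ 2 ≤
      ∑ a : Fin d → Fin M, (∏ j, (((a j : ℕ) : ℝ) + 1) ^ (-t)) *
        ‖∑ l ∈ Finset.range L, ∏ j, z l j ^ ((a j : ℕ))‖ ^ 2 := by
    rcases Nat.eq_zero_or_pos M with hM0 | hM0
    · subst hM0
      by_cases hd : d = 0
      · subst hd
        have : ∀ k ∈ f.support, (Real.sqrt (wt t k)⁻¹ *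
            ‖∑ l ∈ Finset.range L, zp (z l) k‖) ^ 2 = ‖((L : ℝ) : ℂ)‖ ^ 2 := by
          intro k _
          simp [wt, zp]
        rw [Finset.sum_congr rfl this]
        have hcard : f.support.card ≤ 1 := by
          rw [Finset.card_le_one]
          intro a _ b _
          ext j; exact j.elim0
        rw [Finset.sum_const, nsmul_eq_mul]
        simp only [Finset.univ_unique, Finset.univ_eq_empty, Finset.prod_empty, Finset.sum_const,
          Finset.card_range, nsmul_eq_mul, mul_one, one_mul,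
          Finset.card_singleton, Nat.cast_one]
        have h6 : (f.support.card : ℝ) ≤ 1 := by exact_mod_cast hcard
        have h7 : 0 ≤ ‖((L : ℝ) : ℂ)‖ ^ 2 := by positivity
        have h8 : ‖((L : ℝ) : ℂ)‖ ^ 2 = ‖(L : ℂ)‖ ^ 2 := by norm_cast
        rw [← h8]
        nlinarith
      · have hemp : f.support = ∅ := by
          by_contra h
          obtain ⟨k, hk⟩ := Finset.nonempty_iff_ne_empty.mpr h
          exact absurd (hM k hk ⟨0, Nat.pos_of_ne_zero hd⟩) (Nat.not_lt_zero _)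
        rw [hemp, Finset.sum_empty]
        apply Finset.sum_nonneg
        intro a _
        apply mul_nonneg _ (sq_nonneg _)
        apply Finset.prod_nonneg
        intro j _
        positivity
    · set e : (Fin d →₀ ℕ) → (Fin d → Fin M) := fun k j => ⟨k j % M, Nat.mod_lt _ hM0⟩ with he
      have hinj : Set.InjOn e (f.support : Set (Fin d →₀ ℕ)) := by
        intro k hk l hl hkl
        ext j
        have h6 := congrArg (fun x => ((x j : Fin M) : ℕ)) hkl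
        simp only [he] at h6
        rwa [Nat.mod_eq_of_lt (hM k hk j), Nat.mod_eq_of_lt (hM l hl j)] at h6
      calc _ = ∑ k ∈ f.support, (∏ j, (((e k j : ℕ) : ℝ) + 1) ^ (-t)) *
            ‖∑ l ∈ Finset.range L, ∏ j, z l j ^ ((e k j : ℕ))‖ ^ 2 := by
            apply Finset.sum_congr rfl
            intro k hk
            have h6 : ∀ j, ((e k j : Fin M) : ℕ) = k j := by
              intro j
              simp only [he]
              exact Nat.mod_eq_of_lt (hM k hk j)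
            simp only [h6]
            rw [mul_pow, Real.sq_sqrt (inv_nonneg.mpr (wt_pos t k).le), wt, ← Finset.prod_inv_distrib]
            congr 1
            apply Finset.prod_congr rfl
            intro j _
            rw [Real.rpow_neg (by positivity)]
        _ = ∑ a ∈ f.support.image e, (∏ j, (((a j : ℕ) : ℝ) + 1) ^ (-t)) *
            ‖∑ l ∈ Finset.range L, ∏ j, z l j ^ ((a j : ℕ))‖ ^ 2 := by
            rw [Finset.sum_image (fun k hk l hl h => hinj hk hl h)]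
        _ ≤ _ := by
            apply Finset.sum_le_sum_of_subset_of_nonneg (Finset.subset_univ _)
            intro a _ _
            apply mul_nonneg _ (sq_nonneg _)
            apply Finset.prod_nonneg
            intro j _
            positivity
  rw [h4] at h3
  calc _ ≤ (∑ k ∈ f.support, (Real.sqrt (wt t k) * ‖coeff k f‖) * (Real.sqrt (wt t k)⁻¹ *
        ‖∑ l ∈ Finset.range L, zp (z l) k‖)) ^ 2 := pow_le_pow_left₀ (norm_nonneg _) h2 2
    _ ≤ _ := h3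
    _ ≤ _ := mul_le_mul_of_nonneg_left h5 (sq_nonneg _)

lemma arc_energy (t : ℝ) (ht0 : 0 < t) (ht1 : t < 1) (hd : 0 < d) (htd : (d : ℝ) * (1 - t) < 1)
    (c s₀ : ℝ) (hc : 0 < c) (hs : 0 < s₀) (γ : ℝ → Fin d → ℂ)
    (hγ1 : ∀ s ∈ Set.Icc 0 s₀, OnT (γ s))
    (hγ2 : ∀ s ∈ Set.Icc 0 s₀, ∀ s' ∈ Set.Icc 0 s₀, ∀ j, c * |s - s'| ≤ ‖γ s j - γ s' j‖) :
    ∃ E : ℝ, 0 < E ∧ ∀ M L : ℕ, 1 ≤ L → (M : ℝ) ^ d ≤ L →
      ‖∑ l ∈ Finset.range L, ∑ l' ∈ Finset.range L,
        ∏ j, kern t M (γ (s₀ * l / L) j * (starRingEnd ℂ) (γ (s₀ * l' / L) j))‖ ≤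
        E * (L : ℝ) ^ 2 := by
  classical
  obtain ⟨C, hC, hCb⟩ := kern_bound t ht0 ht1
  set a : ℝ := (d : ℝ) * (1 - t) with ha
  have hdr : (0 : ℝ) < d := by exact_mod_cast hd
  have ha0 : 0 < a := by rw [ha]; apply mul_pos hdr; linarith
  have h1a : 0 < 1 - a := by linarith
  set D : ℝ := (C * c ^ (t - 1)) ^ d * s₀ ^ (-a) with hD
  have hD0 : 0 < D := by rw [hD]; positivity
  refine ⟨1 + D * (2 / (1 - a)), by positivity, ?_⟩
  intro M L hL hML
  have hLpos : (0 : ℝ) < L := by exact_mod_cast hL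
  have hmem : ∀ l ∈ Finset.range L, s₀ * (l : ℝ) / L ∈ Set.Icc 0 s₀ := by
    intro l hl
    rw [Finset.mem_range] at hl
    have hl' : (l : ℝ) ≤ L := by exact_mod_cast hl.le
    constructor
    · positivity
    · rw [div_le_iff₀ hLpos]
      exact mul_le_mul_of_nonneg_left hl' hs.le
  have hunit : ∀ l ∈ Finset.range L, ∀ l' ∈ Finset.range L, ∀ j,
      ‖γ (s₀ * l / L) j * (starRingEnd ℂ) (γ (s₀ * l' / L) j)‖ = 1 := by
    intro l hl l' hl' j
    rw [norm_mul, RCLike.norm_conj, hγ1 _ (hmem l hl) j, hγ1 _ (hmem l' hl') j, one_mul]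
  have hdiag : ∀ l ∈ Finset.range L,
      ‖∏ j, kern t M (γ (s₀ * l / L) j * (starRingEnd ℂ) (γ (s₀ * l / L) j))‖ ≤ (M : ℝ) ^ d := by
    intro l hl
    rw [norm_prod]
    calc _ ≤ ∏ _j : Fin d, (M : ℝ) := Finset.prod_le_prod (fun _ _ => norm_nonneg _)
          (fun j _ => norm_kern_le t ht0.le M _ (hunit l hl l hl j))
      _ = _ := by rw [Finset.prod_const, Finset.card_univ, Fintype.card_fin]
  have hoff : ∀ l ∈ Finset.range L, ∀ l' ∈ (Finset.range L).erase l,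
      ‖∏ j, kern t M (γ (s₀ * l / L) j * (starRingEnd ℂ) (γ (s₀ * l' / L) j))‖ ≤
        D * (L : ℝ) ^ a * |(l : ℝ) - l'| ^ (-a) := by
    intro l hl l' hl'
    have hl'1 := Finset.mem_of_mem_erase hl'
    have hne : (l : ℝ) - l' ≠ 0 := by
      have := Finset.ne_of_mem_erase hl'
      intro h
      apply this
      have : (l' : ℝ) = l := by linarith
      exact_mod_cast this
    have habs : 0 < |(l : ℝ) - l'| := abs_pos.mpr hne
    have hdiff : |s₀ * (l : ℝ) / L - s₀ * l' / L| = s₀ * |(l : ℝ) - l'| / L := by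
      rw [← sub_div, ← mul_sub, abs_div, abs_mul, abs_of_pos hs, abs_of_pos hLpos]
    have hpos : 0 < c * (s₀ * |(l : ℝ) - l'| / L) := by positivity
    rw [norm_prod]
    have hone : ∀ j, ‖kern t M (γ (s₀ * l / L) j * (starRingEnd ℂ) (γ (s₀ * l' / L) j))‖ ≤
        C * (c * (s₀ * |(l : ℝ) - l'| / L)) ^ (t - 1) := by
      intro j
      have h1 : c * (s₀ * |(l : ℝ) - l'| / L) ≤
          ‖1 - γ (s₀ * l / L) j * (starRingEnd ℂ) (γ (s₀ * l' / L) j)‖ := by
        rw [norm_one_sub_mul_conj (hγ1 _ (hmem l' hl'1) j), ← hdiff]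
        exact hγ2 _ (hmem l hl) _ (hmem l' hl'1) j
      have hne1 : γ (s₀ * l / L) j * (starRingEnd ℂ) (γ (s₀ * l' / L) j) ≠ 1 := by
        intro h
        rw [h, sub_self, norm_zero] at h1
        linarith
      refine (hCb M _ (hunit l hl l' hl'1 j) hne1).trans ?_
      apply mul_le_mul_of_nonneg_left _ hC.le
      exact Real.rpow_le_rpow_of_nonpos hpos h1 (by linarith)
    calc _ ≤ ∏ _j : Fin d, C * (c * (s₀ * |(l : ℝ) - l'| / L)) ^ (t - 1) :=
          Finset.prod_le_prod (fun _ _ => norm_nonneg _) (fun j _ => hone j)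
      _ = (C * (c * (s₀ * |(l : ℝ) - l'| / L)) ^ (t - 1)) ^ d := by
          rw [Finset.prod_const, Finset.card_univ, Fintype.card_fin]
      _ = D * (L : ℝ) ^ a * |(l : ℝ) - l'| ^ (-a) := by
          have e1 : (c * (s₀ * |(l : ℝ) - l'| / L)) ^ (t - 1) =
              c ^ (t - 1) * (s₀ ^ (t - 1) * |(l : ℝ) - l'| ^ (t - 1) * L ^ (1 - t)) := by
            rw [Real.mul_rpow hc.le (by positivity), Real.div_rpow (by positivity) hLpos.le,
              Real.mul_rpow hs.le habs.le, div_eq_mul_inv, ← Real.rpow_neg hLpos.le]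
            congr 3; ring
          have e2 : ∀ x : ℝ, 0 < x → (x ^ (t - 1)) ^ d = x ^ (-a) := by
            intro x hx
            rw [← Real.rpow_natCast, ← Real.rpow_mul hx.le]
            congr 1; rw [ha]; ring
          have e3 : ((L : ℝ) ^ (1 - t)) ^ d = (L : ℝ) ^ a := by
            rw [← Real.rpow_natCast, ← Real.rpow_mul hLpos.le]
            congr 1; rw [ha]; ring
          rw [e1, ← mul_assoc C, mul_pow, mul_pow (s₀ ^ (t - 1) * |(l : ℝ) - l'| ^ (t - 1)),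
            mul_pow (s₀ ^ (t - 1)), e2 s₀ hs, e2 _ habs, e3, hD]
          ring
  have hsum : ∀ l ∈ Finset.range L, ‖∑ l' ∈ Finset.range L,
      ∏ j, kern t M (γ (s₀ * l / L) j * (starRingEnd ℂ) (γ (s₀ * l' / L) j))‖ ≤
      (M : ℝ) ^ d + D * (2 / (1 - a)) * L := by
    intro l hl
    rw [← Finset.add_sum_erase _ _ hl]
    refine (norm_add_le _ _).trans (add_le_add (hdiag l hl) ?_)
    refine (norm_sum_le _ _).trans ((Finset.sum_le_sum (hoff l hl)).trans ?_)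
    rw [← Finset.mul_sum]
    have h1 := sum_diff_le a ha0 (by linarith) L l (Finset.mem_range.mp hl)
    calc _ ≤ D * (L : ℝ) ^ a * (2 * ((L : ℝ) ^ (1 - a) / (1 - a))) :=
          mul_le_mul_of_nonneg_left h1 (by positivity)
      _ = D * (2 / (1 - a)) * ((L : ℝ) ^ a * (L : ℝ) ^ (1 - a)) := by ring
      _ = D * (2 / (1 - a)) * L := by
          rw [← Real.rpow_add hLpos]; norm_num
  calc _ ≤ ∑ l ∈ Finset.range L, ‖∑ l' ∈ Finset.range L,
      ∏ j, kern t M (γ (s₀ * l / L) j * (starRingEnd ℂ) (γ (s₀ * l' / L) j))‖ := norm_sum_le _ _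
    _ ≤ ∑ _l ∈ Finset.range L, ((M : ℝ) ^ d + D * (2 / (1 - a)) * L) := Finset.sum_le_sum hsum
    _ = L * ((M : ℝ) ^ d + D * (2 / (1 - a)) * L) := by
        rw [Finset.sum_const, Finset.card_range, nsmul_eq_mul]
    _ ≤ L * ((L : ℝ) + D * (2 / (1 - a)) * L) := by
        apply mul_le_mul_of_nonneg_left _ hLpos.le
        linarith
    _ = _ := by ring

lemma cyclic_mono {s t : ℝ} (h : s ≤ t) (P : MvPolynomial (Fin d) ℂ) (hP : ShiftCyclic t P) :
    ShiftCyclic s P := by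
  rw [shiftCyclic_iff] at *
  intro ε hε
  obtain ⟨Q, hQ⟩ := hP ε hε
  refine ⟨Q, lt_of_le_of_lt ?_ hQ⟩
  have h1 : ‖W s (1 - Q * P)‖ ^ 2 ≤ ‖W t (1 - Q * P)‖ ^ 2 := by
    rw [norm_W_sq, norm_W_sq]
    apply Finset.sum_le_sum
    intro k _
    exact mul_le_mul_of_nonneg_right (wt_mono_exp h k) (sq_nonneg _)
  exact (pow_le_pow_iff_left₀ (norm_nonneg _) (norm_nonneg _) two_ne_zero).mp h1

theorem not_cyclic_of_arc (t : ℝ) (P : MvPolynomial (Fin d) ℂ) (hd : 0 < d)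
    (ht : 1 - 1 / (d : ℝ) < t) (c s₀ : ℝ) (hc : 0 < c) (hs : 0 < s₀) (γ : ℝ → Fin d → ℂ)
    (hγ1 : ∀ s ∈ Set.Icc 0 s₀, OnT (γ s) ∧ eval (γ s) P = 0)
    (hγ2 : ∀ s ∈ Set.Icc 0 s₀, ∀ s' ∈ Set.Icc 0 s₀, ∀ j, c * |s - s'| ≤ ‖γ s j - γ s' j‖) :
    ¬ ShiftCyclic t P := by
  classical
  intro hcyc
  have hdr : (0 : ℝ) < d := by exact_mod_cast hd
  have hd1 : 1 / (d : ℝ) ≤ 1 := by
    rw [div_le_one hdr]; exact_mod_cast hd
  obtain ⟨u, hu1, hu2⟩ := exists_between (lt_min ht (by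
    have : 0 < 1 / (d : ℝ) := by positivity
    linarith : 1 - 1 / (d : ℝ) < 1))
  have hut : u < t := lt_of_lt_of_le hu2 (min_le_left _ _)
  have hu_lt : u < 1 := lt_of_lt_of_le hu2 (min_le_right _ _)
  have hu0 : 0 < u := by linarith
  have hcu := cyclic_mono hut.le P hcyc
  have htd : (d : ℝ) * (1 - u) < 1 := by
    have h1 : 1 - u < 1 / (d : ℝ) := by linarith
    calc (d : ℝ) * (1 - u) < d * (1 / d) := mul_lt_mul_of_pos_left h1 hdr
      _ = 1 := by field_simp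
  obtain ⟨E, hE0, hE⟩ := arc_energy u hu0 hu_lt hd htd c s₀ hc hs γ (fun s h => (hγ1 s h).1) hγ2
  rw [shiftCyclic_iff] at hcu
  obtain ⟨Q, hQ⟩ := hcu (1 / (Real.sqrt E + 1)) (by positivity)
  set f := 1 - Q * P with hf
  obtain ⟨M, hM⟩ : ∃ M : ℕ, ∀ k ∈ f.support, ∀ j, k j < M := by
    refine ⟨(∑ k ∈ f.support, ∑ j, k j) + 1, fun k hk j => ?_⟩
    have h1 : k j ≤ ∑ j, k j := Finset.single_le_sum (f := fun j => k j)
      (fun _ _ => Nat.zero_le _) (Finset.mem_univ j)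
    have h2 : ∑ j, k j ≤ ∑ k ∈ f.support, ∑ j, k j := Finset.single_le_sum
      (f := fun k : Fin d →₀ ℕ => ∑ j, k j) (fun _ _ => Nat.zero_le _) hk
    omega
  obtain ⟨L, hL1, hL2⟩ : ∃ L : ℕ, 1 ≤ L ∧ (M : ℝ) ^ d ≤ L := by
    refine ⟨M ^ d + 1, by omega, ?_⟩
    push_cast; linarith
  have hLpos : (0 : ℝ) < L := by exact_mod_cast hL1
  have h1 := mean_sq_le u f M L hM (fun l => γ (s₀ * l / L))
  rw [energy_eq] at h1
  have h2 : ∑ l ∈ Finset.range L, eval (γ (s₀ * l / L)) f = ((L : ℝ) : ℂ) := by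
    have h3 : ∀ l ∈ Finset.range L, eval (γ (s₀ * l / L)) f = 1 := by
      intro l hl
      rw [Finset.mem_range] at hl
      have hl' : (l : ℝ) ≤ L := by exact_mod_cast hl.le
      have hmem : s₀ * (l : ℝ) / L ∈ Set.Icc 0 s₀ := by
        constructor
        · positivity
        · rw [div_le_iff₀ hLpos]
          exact mul_le_mul_of_nonneg_left hl' hs.le
      rw [hf, map_sub, map_one, map_mul, (hγ1 _ hmem).2, mul_zero, sub_zero]
    rw [Finset.sum_congr rfl h3]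
    simp
  rw [h2, Complex.norm_real, Real.norm_of_nonneg hLpos.le] at h1
  have h3 := hE M L hL1 hL2
  have h4 : (L : ℝ) ^ 2 ≤ ‖W u f‖ ^ 2 * (E * (L : ℝ) ^ 2) :=
    h1.trans (mul_le_mul_of_nonneg_left h3 (sq_nonneg _))
  have h5 : 1 ≤ ‖W u f‖ ^ 2 * E := by
    have h6 : (L : ℝ) ^ 2 * 1 ≤ (L : ℝ) ^ 2 * (‖W u f‖ ^ 2 * E) := by linarith
    exact le_of_mul_le_mul_left h6 (by positivity)
  have h6 : 1 ≤ ‖W u f‖ * Real.sqrt E := by
    have h7 : 1 ≤ (‖W u f‖ * Real.sqrt E) ^ 2 := by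
      rw [mul_pow, Real.sq_sqrt hE0.le]; exact h5
    have h8 : 0 ≤ ‖W u f‖ * Real.sqrt E := by positivity
    nlinarith
  have h7 : ‖W u f‖ * (Real.sqrt E + 1) < 1 := by
    rw [lt_div_iff₀ (by positivity)] at hQ
    exact hQ
  have h8 : 0 ≤ ‖W u f‖ := norm_nonneg _
  nlinarith

end Pool.MP4ac1fb.Curve
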