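import Pool.Agent.H.MP_4ac1fb_an.Curve.Geom3

/-!
Norms of powers `(g - f)^K` when `f` has small coefficients.
-/

namespace Pool.MP4ac1fb.Curve

open MvPolynomial Filter Topology

variable {d : ℕ}

/-- multiplication by a function bounded on the torus, in the norm of `ℓ²` -/
lemma coeff_mul_le_sup (f u : MvPolynomial (Fin d) ℂ) (B : ℝ) (hB : 0 ≤ B)
    (hu : ∀ ζ, OnT ζ → ‖eval ζ u‖ ≤ B) :
    ∑ k ∈ (u * f).support, ‖coeff k (u * f)‖ ^ 2 ≤ B ^ 2 * ∑ k ∈ f.support, ‖coeff k f‖ ^ 2 := by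
  have hbig : ∀ p : MvPolynomial (Fin d) ℂ, ∀ k ∈ p.support, ∀ j, k j < p.totalDegree + 1 := by
    intro p k hk j
    have h1 := degreeOf_le_totalDegree p j
    have h2 : k j ≤ p.degreeOf j := by
      rw [degreeOf_eq_sup]
      exact Finset.le_sup (f := fun m : Fin d →₀ ℕ => m j) hk
    omega
  obtain ⟨M, hM⟩ : ∃ M : ℕ, M = (u * f).totalDegree + f.totalDegree + 1 := ⟨_, rfl⟩
  have hM0 : M ≠ 0 := by omega
  have h1 := grid_parseval hM0 (u * f) (fun k hk j => by have := hbig _ k hk j; omega)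
  have h2 := grid_parseval hM0 f (fun k hk j => by have := hbig _ k hk j; omega)
  have hMpos : (0 : ℝ) < (M : ℝ) ^ d := by
    have : (0 : ℝ) < M := by exact_mod_cast Nat.pos_of_ne_zero hM0
    positivity
  have h3 : ∑ a : Fin d → Fin M, ‖eval (gp M a) (u * f)‖ ^ 2
      ≤ B ^ 2 * ∑ a : Fin d → Fin M, ‖eval (gp M a) f‖ ^ 2 := by
    rw [Finset.mul_sum]
    refine Finset.sum_le_sum fun a _ => ?_
    rw [map_mul, norm_mul, mul_pow]
    have := hu (gp M a) (norm_gp hM0 a)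
    gcongr
  rw [h1, h2] at h3
  have h4 : (M : ℝ) ^ d * ∑ k ∈ (u * f).support, ‖coeff k (u * f)‖ ^ 2
      ≤ (M : ℝ) ^ d * (B ^ 2 * ∑ k ∈ f.support, ‖coeff k f‖ ^ 2) := by
    rw [← mul_assoc, mul_comm _ (B ^ 2), mul_assoc]
    exact h3
  exact le_of_mul_le_mul_left h4 hMpos

lemma exists_torus_bound (g : MvPolynomial (Fin d) ℂ) :
    ∃ B : ℝ, 0 ≤ B ∧ ∀ ζ, OnT ζ → ‖eval ζ g‖ ≤ B := by
  refine ⟨∑ k ∈ g.support, ‖coeff k g‖, Finset.sum_nonneg fun _ _ => norm_nonneg _,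
    fun ζ hζ => ?_⟩
  rw [eval_eq']
  refine (norm_sum_le _ _).trans (Finset.sum_le_sum fun k _ => ?_)
  rw [norm_mul, norm_prod]
  have : ∏ j, ‖ζ j ^ k j‖ = 1 := by
    apply Finset.prod_eq_one
    intro j _
    rw [norm_pow, hζ j, one_pow]
  rw [this, mul_one]

/-- the cofactor in `(g - f)^K = g^K - (…) f` -/
noncomputable def cof (g f : MvPolynomial (Fin d) ℂ) (K : ℕ) : MvPolynomial (Fin d) ℂ :=
  ∑ i ∈ Finset.range K, (g - f) ^ i * g ^ (K - 1 - i)

lemma sub_pow_eq (g f : MvPolynomial (Fin d) ℂ) (K : ℕ) :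
    (g - f) ^ K = g ^ K - cof g f K * f := by
  have h := (Commute.all (g - f) g).mul_geom_sum₂ K
  unfold cof
  linear_combination -h

lemma cof_bound (g : MvPolynomial (Fin d) ℂ) (B : ℝ) (K : ℕ) : ∃ U : ℝ, 0 ≤ U ∧
    ∀ f : MvPolynomial (Fin d) ℂ, (∀ ζ, OnT ζ → ‖eval ζ f‖ ≤ B) →
      ∀ ζ, OnT ζ → ‖eval ζ (cof g f K)‖ ≤ U := by
  obtain ⟨G, hG0, hG⟩ := exists_torus_bound g
  refine ⟨∑ _i ∈ Finset.range K, (G + |B| + 1) ^ K * (G + |B| + 1) ^ K,
    Finset.sum_nonneg fun _ _ => by positivity, fun f hf ζ hζ => ?_⟩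
  unfold cof
  rw [map_sum]
  refine (norm_sum_le _ _).trans (Finset.sum_le_sum fun i hi => ?_)
  rw [Finset.mem_range] at hi
  have hB : 0 ≤ |B| := abs_nonneg B
  have h1 : ‖eval ζ (g - f)‖ ≤ G + |B| + 1 := by
    rw [map_sub]
    have h2 := norm_sub_le (eval ζ g) (eval ζ f)
    have h3 := hG ζ hζ
    have h4 := (hf ζ hζ).trans (le_abs_self B)
    linarith
  have h2 : ‖eval ζ g‖ ≤ G + |B| + 1 := by
    have h3 := hG ζ hζ
    linarith
  have hone : 1 ≤ G + |B| + 1 := by linarith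
  rw [map_mul, map_pow, map_pow, norm_mul, norm_pow, norm_pow]
  have h5 : ‖eval ζ (g - f)‖ ^ i ≤ (G + |B| + 1) ^ K :=
    (pow_le_pow_left₀ (norm_nonneg _) h1 i).trans (pow_le_pow_right₀ hone hi.le)
  have h6 : ‖eval ζ g‖ ^ (K - 1 - i) ≤ (G + |B| + 1) ^ K :=
    (pow_le_pow_left₀ (norm_nonneg _) h2 _).trans (pow_le_pow_right₀ hone (by omega))
  exact mul_le_mul h5 h6 (by positivity) (by positivity)

lemma cof_degree (g f : MvPolynomial (Fin d) ℂ) (K D : ℕ) (hf : f.totalDegree ≤ D)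
    (hg : g.totalDegree ≤ D) : (cof g f K * f).totalDegree ≤ K * D := by
  rcases Nat.eq_zero_or_pos K with rfl | hK
  · unfold cof; simp
  have h1 : (cof g f K).totalDegree ≤ (K - 1) * D := by
    unfold cof
    refine (totalDegree_finsetSum _ _).trans (Finset.sup_le fun i hi => ?_)
    rw [Finset.mem_range] at hi
    have h2 : (g - f).totalDegree ≤ D := (totalDegree_sub _ _).trans (max_le hg hf)
    have h3 : ((g - f) ^ i).totalDegree ≤ i * D :=
      (totalDegree_pow _ _).trans (Nat.mul_le_mul_left _ h2)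
    have h4 : (g ^ (K - 1 - i)).totalDegree ≤ (K - 1 - i) * D :=
      (totalDegree_pow _ _).trans (Nat.mul_le_mul_left _ hg)
    refine (totalDegree_mul _ _).trans ((Nat.add_le_add h3 h4).trans ?_)
    rw [← Nat.add_mul]
    apply Nat.mul_le_mul_right
    omega
  refine (totalDegree_mul _ _).trans ((Nat.add_le_add h1 hf).trans ?_)
  obtain ⟨m, rfl⟩ : ∃ m, K = m + 1 := ⟨K - 1, by omega⟩
  simp only [Nat.add_sub_cancel]
  rw [Nat.add_mul, Nat.one_mul]

/-- uniform bound of the norms of the powers; the exponent condition is `t ≤ 1 - 1/d` -/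
theorem bounded_pow (t : ℝ) (hd : 0 < d) (ht : t * d ≤ d - 1) (g : MvPolynomial (Fin d) ℂ)
    (B : ℝ) (K c₀ : ℕ) : ∃ C : ℝ, ∀ (n : ℕ) (f : MvPolynomial (Fin d) ℂ), 1 ≤ n →
      f.totalDegree ≤ c₀ * n → (∀ ζ, OnT ζ → ‖eval ζ f‖ ≤ B) →
      ∑ k ∈ f.support, ‖coeff k f‖ ^ 2 ≤ B / (n : ℝ) ^ (d - 1) → ‖W t ((g - f) ^ K)‖ ≤ C := by
  obtain ⟨U, hU0, hU⟩ := cof_bound g B K
  obtain ⟨A, hA⟩ : ∃ A : ℕ, A = K * (c₀ + g.totalDegree) + 1 := ⟨_, rfl⟩
  have hA1 : (1 : ℝ) ≤ A := by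
    have : 1 ≤ A := by omega
    exact_mod_cast this
  refine ⟨‖W t (g ^ K)‖ + Real.sqrt ((A : ℝ) ^ (d * max t 0) * (U ^ 2 * B)),
    fun n f hn hdeg hB hc => ?_⟩
  have hn0 : (0 : ℝ) < n := by exact_mod_cast hn
  have hn1 : (1 : ℝ) ≤ n := by exact_mod_cast hn
  rw [sub_pow_eq, map_sub]
  refine (norm_sub_le _ _).trans (add_le_add le_rfl ?_)
  apply Real.le_sqrt_of_sq_le
  rw [norm_W_sq]
  have hD : (cof g f K * f).totalDegree + 1 ≤ A * n := by
    have h1 := cof_degree g f K ((c₀ + g.totalDegree) * n)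
      (hdeg.trans (Nat.mul_le_mul_right _ (Nat.le_add_right _ _)))
      (by
        calc g.totalDegree ≤ g.totalDegree * n := Nat.le_mul_of_pos_right _ hn
          _ ≤ (c₀ + g.totalDegree) * n := Nat.mul_le_mul_right _ (Nat.le_add_left _ _))
    rw [hA]
    nlinarith
  have hexp : (d : ℝ) * max t 0 ≤ ((d - 1 : ℕ) : ℝ) := by
    have e1 : ((d - 1 : ℕ) : ℝ) = (d : ℝ) - 1 := by
      rw [Nat.cast_sub (by omega)]; simp
    rw [e1]
    have hd1 : (1 : ℝ) ≤ d := by exact_mod_cast hd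
    rcases le_total t 0 with h | h
    · rw [max_eq_right h, mul_zero]; linarith
    · rw [max_eq_left h]; linarith
  have hwt : ∀ k ∈ (cof g f K * f).support,
      wt t k ≤ (A : ℝ) ^ (d * max t 0) * (n : ℝ) ^ (d - 1) := by
    intro k hk
    have h1 : ∀ j, ((k j : ℝ) + 1) ^ t ≤ ((A : ℝ) * n) ^ (max t 0) := by
      intro j
      have h2 : k j + 1 ≤ A * n := by
        have h3 := degreeOf_le_totalDegree (cof g f K * f) j
        have h4 : k j ≤ (cof g f K * f).degreeOf j := by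
          rw [degreeOf_eq_sup]
          exact Finset.le_sup (f := fun m : Fin d →₀ ℕ => m j) hk
        omega
      have h5 : ((k j : ℝ) + 1) ≤ (A : ℝ) * n := by exact_mod_cast h2
      have h6 : (1 : ℝ) ≤ (k j : ℝ) + 1 := by
        have : (0 : ℝ) ≤ (k j : ℝ) := by positivity
        linarith
      calc ((k j : ℝ) + 1) ^ t ≤ ((k j : ℝ) + 1) ^ (max t 0) :=
            Real.rpow_le_rpow_of_exponent_le h6 (le_max_left _ _)
        _ ≤ ((A : ℝ) * n) ^ (max t 0) :=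
            Real.rpow_le_rpow (by positivity) h5 (le_max_right _ _)
    unfold wt
    calc ∏ j, ((k j : ℝ) + 1) ^ t ≤ ∏ _j : Fin d, ((A : ℝ) * n) ^ (max t 0) :=
          Finset.prod_le_prod (fun j _ => by positivity) fun j _ => h1 j
      _ = ((A : ℝ) * n) ^ (d * max t 0) := by
          rw [Finset.prod_const, Finset.card_univ, Fintype.card_fin, ← Real.rpow_natCast,
            ← Real.rpow_mul (by positivity)]
          congr 1
          ring
      _ = (A : ℝ) ^ (d * max t 0) * (n : ℝ) ^ (d * max t 0) :=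
          Real.mul_rpow (by positivity) hn0.le
      _ ≤ (A : ℝ) ^ (d * max t 0) * (n : ℝ) ^ (d - 1) := by
          apply mul_le_mul_of_nonneg_left _ (by positivity)
          rw [← Real.rpow_natCast]
          exact Real.rpow_le_rpow_of_exponent_le hn1 hexp
  have hs := coeff_mul_le_sup f (cof g f K) U hU0 (hU f hB)
  calc ∑ k ∈ (cof g f K * f).support, wt t k * ‖coeff k (cof g f K * f)‖ ^ 2
      ≤ ∑ k ∈ (cof g f K * f).support, (A : ℝ) ^ (d * max t 0) * (n : ℝ) ^ (d - 1)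
          * ‖coeff k (cof g f K * f)‖ ^ 2 :=
        Finset.sum_le_sum fun k hk => mul_le_mul_of_nonneg_right (hwt k hk) (by positivity)
    _ = (A : ℝ) ^ (d * max t 0) * ((n : ℝ) ^ (d - 1)
          * ∑ k ∈ (cof g f K * f).support, ‖coeff k (cof g f K * f)‖ ^ 2) := by
        rw [← Finset.mul_sum, mul_assoc]
    _ ≤ (A : ℝ) ^ (d * max t 0) * ((n : ℝ) ^ (d - 1) * (U ^ 2 * (B / (n : ℝ) ^ (d - 1)))) := by
        gcongr
        exact hs.trans (mul_le_mul_of_nonneg_left hc (sq_nonneg U))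
    _ = (A : ℝ) ^ (d * max t 0) * (U ^ 2 * B) := by
        have : (n : ℝ) ^ (d - 1) ≠ 0 := by positivity
        field_simp

/-- convergence of the coefficients of the powers -/
theorem tendsto_pow (g : MvPolynomial (Fin d) ℂ) (f : ℕ → MvPolynomial (Fin d) ℂ) (B : ℝ)
    (hB : ∀ k ζ, OnT ζ → ‖eval ζ (f k)‖ ≤ B)
    (hf : Tendsto (fun k => ∑ m ∈ (f k).support, ‖coeff m (f k)‖ ^ 2) atTop (𝓝 0)) (K : ℕ)
    (m : Fin d →₀ ℕ) :
    Tendsto (fun k => coeff m ((g - f k) ^ K)) atTop (𝓝 (coeff m (g ^ K))) := by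
  obtain ⟨U, hU0, hU⟩ := cof_bound g B K
  rw [tendsto_iff_norm_sub_tendsto_zero]
  have h1 : ∀ k, ‖coeff m ((g - f k) ^ K) - coeff m (g ^ K)‖
      ≤ Real.sqrt (U ^ 2 * ∑ m ∈ (f k).support, ‖coeff m (f k)‖ ^ 2) := by
    intro k
    apply Real.le_sqrt_of_sq_le
    have e1 : coeff m ((g - f k) ^ K) - coeff m (g ^ K) = -coeff m (cof g (f k) K * f k) := by
      rw [sub_pow_eq, coeff_sub]; ring
    rw [e1, norm_neg]
    refine le_trans ?_ (coeff_mul_le_sup (f k) (cof g (f k) K) U hU0 (hU (f k) (hB k)))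
    by_cases hm : m ∈ (cof g (f k) K * f k).support
    · exact Finset.single_le_sum (f := fun m => ‖coeff m (cof g (f k) K * f k)‖ ^ 2)
        (fun _ _ => by positivity) hm
    · rw [notMem_support_iff.mp hm]
      simp only [norm_zero]
      rw [zero_pow two_ne_zero]
      exact Finset.sum_nonneg fun _ _ => by positivity
  have h2 : Tendsto (fun k => Real.sqrt (U ^ 2 * ∑ m ∈ (f k).support, ‖coeff m (f k)‖ ^ 2))
      atTop (𝓝 0) := by
    have h3 := (hf.const_mul (U ^ 2)).sqrt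
    simpa using h3
  exact squeeze_zero (fun k => norm_nonneg _) h1 h2

end Pool.MP4ac1fb.Curve
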