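import Pool.Agent.H.MP_4ac1fb_an.Curve.Eval
import Pool.Agent.H.MP_4ac1fb_an.Curve.PowBound
import Pool.Agent.H.MP_4ac1fb_an.Curve.Division
import Pool.Agent.H.MP_4ac1fb_an.Curve.NonCyc
import Pool.Agent.H.MP_4ac1fb_an.Toral
import Pool.Agent.H.MP_4ac1fb_an.Curve.CyclicA

/-!
Cyclicity from the bump polynomials.
-/

namespace Pool.MP4ac1fb.Curve

open MvPolynomial Filter Topology

variable {d : ℕ}

/-- a product of linear factors `z_j - ζ`, `|ζ| = 1`, dominated by `N` and vanishing on the constant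
coordinates -/
theorem exists_G {b : Fin d} {P : MvPolynomial (Fin d) ℂ} (D : CData b P) :
    ∃ G : MvPolynomial (Fin d) ℂ, (∀ t ≤ (1 : ℝ), ShiftCyclic t G) ∧ ∃ C : ℝ, 0 ≤ C ∧
      (∀ z, OnT z → ‖eval z G‖ ≤ C * ‖D.N.eval (z b)‖) ∧
      (∀ j, j ≠ b → ∀ ζ : ℂ, ‖ζ‖ = 1 → D.ConstAt j ζ → ∀ z, OnT z →
        ‖eval z G‖ ≤ C * ‖z j - ζ‖) := by
  classical
  obtain ⟨G₁, hG₁, C₁, hC₁, hb₁⟩ := exists_G1 b D.N.roots
  set T := (finite_constAt D).toFinset with hT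
  have hTmem : ∀ p, p ∈ T ↔ p.1 ≠ b ∧ ‖p.2‖ = 1 ∧ D.ConstAt p.1 p.2 := by
    intro p; rw [hT, Set.Finite.mem_toFinset]; rfl
  set G₂ : MvPolynomial (Fin d) ℂ := ∏ p ∈ T, (X p.1 - C p.2) with hG₂
  have hlc : 0 < ‖D.N.leadingCoeff‖ := norm_pos_iff.mpr (Polynomial.leadingCoeff_ne_zero.mpr D.N_ne)
  -- the bound of `G₁`
  have h1 : ∀ z, OnT z → ‖eval z G₁‖ ≤ C₁ / ‖D.N.leadingCoeff‖ * ‖D.N.eval (z b)‖ := by
    intro z hz
    refine (hb₁ z hz).trans (le_of_eq ?_)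
    rw [(IsAlgClosed.splits D.N).eval_eq_prod_roots (z b), norm_mul]
    field_simp
  set C₂ := C₁ / ‖D.N.leadingCoeff‖ with hC₂
  have hC₂0 : 0 ≤ C₂ := by positivity
  -- factors of `G₂`
  have hfac : ∀ z, OnT z → ∀ p ∈ T, ‖z p.1 - p.2‖ ≤ 2 := by
    intro z hz p hp
    refine (norm_sub_le _ _).trans ?_
    rw [hz p.1, ((hTmem p).mp hp).2.1]
    norm_num
  have hsub : ∀ z, OnT z → ∀ T' ⊆ T, ∏ p ∈ T', ‖z p.1 - p.2‖ ≤ 2 ^ T.card := by
    intro z hz T' hT'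
    calc ∏ p ∈ T', ‖z p.1 - p.2‖ ≤ ∏ _p ∈ T', (2 : ℝ) :=
          Finset.prod_le_prod (fun _ _ => norm_nonneg _) fun p hp => hfac z hz p (hT' hp)
      _ = 2 ^ T'.card := by rw [Finset.prod_const]
      _ ≤ 2 ^ T.card := pow_le_pow_right₀ (by norm_num) (Finset.card_le_card hT')
  have hev : ∀ z, ‖eval z G₂‖ = ∏ p ∈ T, ‖z p.1 - p.2‖ := by
    intro z
    rw [hG₂, map_prod, norm_prod]
    exact Finset.prod_congr rfl fun p _ => by rw [map_sub, eval_X, eval_C]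
  have hN1 : ∀ z, OnT z → ‖D.N.eval (z b)‖ ≤ 1 := fun z hz =>
    D.N_le _ (by rw [hz b]; norm_num)
  refine ⟨G₁ * G₂, fun t ht => ?_, C₂ * 2 ^ T.card, by positivity, fun z hz => ?_, ?_⟩
  · rw [shiftCyclic_mul_iff]
    refine ⟨hG₁ t ht, ?_⟩
    rw [hG₂, shiftCyclic_prod_iff]
    intro p hp
    exact cyclic_linear t ht p.1 p.2 ((hTmem p).mp hp).2.1
  · rw [map_mul, norm_mul]
    have h2 : ‖eval z G₂‖ ≤ 2 ^ T.card := by rw [hev]; exact hsub z hz T subset_rfl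
    calc ‖eval z G₁‖ * ‖eval z G₂‖ ≤ (C₂ * ‖D.N.eval (z b)‖) * 2 ^ T.card := by
          gcongr; exact h1 z hz
      _ = _ := by ring
  · intro j hj ζ hζ hc z hz
    have hmem : (j, ζ) ∈ T := (hTmem _).mpr ⟨hj, hζ, hc⟩
    rw [map_mul, norm_mul, hev, ← Finset.mul_prod_erase T _ hmem]
    have h2 := hsub z hz (T.erase (j, ζ)) (Finset.erase_subset _ _)
    have h3 : ‖eval z G₁‖ ≤ C₂ := (h1 z hz).trans (by
      have := mul_le_mul_of_nonneg_left (hN1 z hz) hC₂0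
      linarith)
    calc ‖eval z G₁‖ * (‖z j - ζ‖ * ∏ p ∈ T.erase (j, ζ), ‖z p.1 - p.2‖)
        ≤ C₂ * (‖z j - ζ‖ * 2 ^ T.card) := by gcongr
      _ = _ := by ring

/-- a degree bound -/
lemma exists_exp (m : ℕ) : ∃ s : ℕ, ∀ k, 1 ≤ k → m ≤ (k + 1) ^ s :=
  ⟨m, fun k hk => (Nat.lt_two_pow_self).le.trans (Nat.pow_le_pow_left (by omega) m)⟩

/-- cyclicity up to the critical exponent -/
theorem cyclic_low {b : Fin d} {P : MvPolynomial (Fin d) ℂ} (hP : NZIn P) (D : CData b P)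
    (hd : 2 ≤ d) (t : ℝ) (ht : t * d ≤ d - 1) : ShiftCyclic t P := by
  classical
  obtain ⟨G, hG, C₀, hC₀, hb1, hb2⟩ := exists_G D
  obtain ⟨Q, hQ⟩ := exists_bumps hP D
  have hN1 : ∀ z, OnT z → ‖D.N.eval (z b)‖ ≤ 1 := fun z hz =>
    D.N_le _ (by rw [hz b]; norm_num)
  have hG1 : ∀ z, OnT z → ‖eval z G‖ ≤ C₀ := fun z hz => (hb1 z hz).trans (by
    have := mul_le_mul_of_nonneg_left (hN1 z hz) hC₀
    linarith)
  set g := G ^ (Q + 1) with hg
  have hgb1 : ∀ z, OnT z → ‖eval z g‖ ≤ C₀ ^ (Q + 1) * ‖D.N.eval (z b)‖ ^ Q := by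
    intro z hz
    rw [hg, map_pow, norm_pow, pow_succ, pow_succ]
    calc ‖eval z G‖ ^ Q * ‖eval z G‖ ≤ (C₀ * ‖D.N.eval (z b)‖) ^ Q * C₀ := by
          gcongr
          · exact hb1 z hz
          · exact hG1 z hz
      _ = _ := by rw [mul_pow]; ring
  have hgb2 : ∀ j, j ≠ b → ∀ ζ : ℂ, ‖ζ‖ = 1 → D.ConstAt j ζ → ∀ z, OnT z →
      ‖eval z g‖ ≤ C₀ ^ (Q + 1) * ‖z j - ζ‖ := by
    intro j hj ζ hζ hc z hz
    rw [hg, map_pow, norm_pow, pow_succ, pow_succ]
    calc ‖eval z G‖ ^ Q * ‖eval z G‖ ≤ C₀ ^ Q * (C₀ * ‖z j - ζ‖) := by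
          gcongr
          · exact hG1 z hz
          · exact hb2 j hj ζ hζ hc z hz
      _ = _ := by ring
  obtain ⟨A, C, n, f, hn1, hnt, hnA, hfd, hfs, hfc, hfg⟩ := hQ g _ hgb1 hgb2
  have hC0 : 0 ≤ C := (norm_nonneg _).trans (hfs 0 (fun _ => 1) (fun _ => by simp))
  set Cg := C₀ ^ (Q + 1) with hCg
  have hCg0 : 0 ≤ Cg := by positivity
  have hgC : ∀ z, OnT z → ‖eval z g‖ ≤ Cg := by
    intro z hz
    refine (hgb1 z hz).trans ?_
    have := pow_le_one₀ (n := Q) (norm_nonneg _) (hN1 z hz)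
    have := mul_le_mul_of_nonneg_left this hCg0
    linarith
  obtain ⟨s, hs⟩ := exists_exp (g.totalDegree + (d + 2))
  set h : ℕ → MvPolynomial (Fin d) ℂ := fun k => if k = 0 then 0 else g - f k with hh
  have hhk : ∀ k, k ≠ 0 → h k = g - f k := fun k hk => by rw [hh]; simp only [if_neg hk]
  have hdeg : ∀ k, (h k).totalDegree ≤ (k + 1) ^ (A + s) := by
    intro k
    rcases eq_or_ne k 0 with rfl | hk
    · simp [hh]
    · rw [hhk k hk]
      refine (totalDegree_sub _ _).trans ?_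
      have h1 : 1 ≤ (k + 1) ^ A := Nat.one_le_pow _ _ (by omega)
      have h2 : (f k).totalDegree ≤ (d + 2) * (k + 1) ^ A :=
        (hfd k).trans (Nat.mul_le_mul_left _ (hnA k))
      have h3 := hs k (by omega)
      rw [pow_add]
      calc max g.totalDegree (f k).totalDegree ≤ g.totalDegree + (f k).totalDegree :=
            max_le (Nat.le_add_right _ _) (Nat.le_add_left _ _)
        _ ≤ g.totalDegree * (k + 1) ^ A + (d + 2) * (k + 1) ^ A :=
            add_le_add (Nat.le_mul_of_pos_right _ h1) h2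
        _ = (k + 1) ^ A * (g.totalDegree + (d + 2)) := by ring
        _ ≤ _ := Nat.mul_le_mul_left _ h3
  have hsup : ∀ k ζ, OnT ζ → ‖eval ζ (h k)‖ ≤ Cg + C := by
    intro k ζ hζ
    rcases eq_or_ne k 0 with rfl | hk
    · simp only [hh, if_true, map_zero, norm_zero]; positivity
    · rw [hhk k hk, map_sub]
      exact (norm_sub_le _ _).trans (add_le_add (hgC ζ hζ) (hfs k ζ hζ))
  have hsmall : ∀ᶠ k : ℕ in atTop, ∀ ζ, OnT ζ → ‖eval ζ P‖ ≤ 1 / (k : ℝ) ^ (A + s) →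
      ‖eval ζ (h k)‖ ≤ (Cg + C) / k := by
    filter_upwards [hfg, eventually_ge_atTop 1] with k hk hk1 ζ hζ hPζ
    rw [hhk k (by omega), map_sub]
    have hk1' : (1 : ℝ) ≤ k := by exact_mod_cast hk1
    refine (hk ζ hζ (hPζ.trans ?_)).trans ?_
    · exact one_div_le_one_div_of_le (by positivity) (pow_le_pow_right₀ hk1' (by omega))
    · gcongr; linarith
  obtain ⟨K0, hK0⟩ := mem_cl_of_small t P hP h (A + s) (Cg + C) hdeg hsup hsmall
  obtain ⟨B, hB⟩ := bounded_pow t (by omega) ht g C K0 (d + 2)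
  have hmem : g ^ K0 ∈ cl t P := by
    refine hK0 K0 le_rfl _ ⟨B, ?_⟩ ?_
    · filter_upwards [eventually_ge_atTop 1] with k hk1
      rw [hhk k (by omega)]
      exact hB (n k) (f k) (hn1 k) (hfd k) (hfs k) (hfc k)
    · intro m
      have hlim : Tendsto (fun k => ∑ m ∈ (f k).support, ‖coeff m (f k)‖ ^ 2) atTop (𝓝 0) := by
        have h1 : Tendsto (fun k => C / (n k : ℝ) ^ (d - 1)) atTop (𝓝 0) := by
          apply Tendsto.const_div_atTop
          exact (tendsto_pow_atTop (by omega : d - 1 ≠ 0)).comp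
            (tendsto_natCast_atTop_atTop.comp hnt)
        exact squeeze_zero (fun k => Finset.sum_nonneg fun _ _ => sq_nonneg _) hfc h1
      refine (tendsto_pow g f C hfs hlim K0 m).congr' ?_
      filter_upwards [eventually_ge_atTop 1] with k hk1
      rw [hhk k (by omega)]
  have ht1 : t ≤ 1 := by
    have hd' : (2 : ℝ) ≤ d := by exact_mod_cast hd
    by_contra hcon
    push Not at hcon
    nlinarith
  rw [shiftCyclic_iff]
  have h1 := shiftCyclic_pow t G (hG t ht1) ((Q + 1) * K0)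
  rw [pow_mul, shiftCyclic_iff] at h1
  exact cl_mono hmem h1

/-- cyclicity for `t ≤ 1` when no nondegenerate zero is good -/
theorem cyclic_thin {b : Fin d} {P : MvPolynomial (Fin d) ℂ} (hP : NZIn P) (D : CData b P)
    (hno : ∀ κ, D.K ≤ κ → ∀ y, D.Nd κ y → ¬ D.Good y) (t : ℝ) (ht : t ≤ 1) : ShiftCyclic t P := by
  classical
  obtain ⟨G, hG, C₀, hC₀, hb1, hb2⟩ := exists_G D
  have hN1 : ∀ z, OnT z → ‖D.N.eval (z b)‖ ≤ 1 := fun z hz =>
    D.N_le _ (by rw [hz b]; norm_num)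
  have hG1 : ∀ z, OnT z → ‖eval z G‖ ≤ C₀ := fun z hz => (hb1 z hz).trans (by
    have := mul_le_mul_of_nonneg_left (hN1 z hz) hC₀
    linarith)
  obtain ⟨s, hs⟩ := exists_exp G.totalDegree
  set A : ℕ := (12 * D.M + 2) + s with hA
  set h : ℕ → MvPolynomial (Fin d) ℂ := fun k => if k = 0 then 0 else G with hh
  have hhk : ∀ k, k ≠ 0 → h k = G := fun k hk => by rw [hh]; simp only [if_neg hk]
  have hdeg : ∀ k, (h k).totalDegree ≤ (k + 1) ^ A := by
    intro k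
    rcases eq_or_ne k 0 with rfl | hk
    · simp [hh]
    · rw [hhk k hk]
      exact (hs k (by omega)).trans (Nat.pow_le_pow_right (by omega) (by omega))
  have hsup : ∀ k ζ, OnT ζ → ‖eval ζ (h k)‖ ≤ C₀ := by
    intro k ζ hζ
    rcases eq_or_ne k 0 with rfl | hk
    · simpa only [hh, if_true, map_zero, norm_zero] using hC₀
    · rw [hhk k hk]; exact hG1 ζ hζ
  obtain ⟨k₀, hk₀⟩ := exists_nat_ge D.K
  have hsmall : ∀ᶠ k : ℕ in atTop, ∀ ζ, OnT ζ → ‖eval ζ P‖ ≤ 1 / (k : ℝ) ^ A →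
      ‖eval ζ (h k)‖ ≤ C₀ / k := by
    filter_upwards [eventually_ge_atTop 1, eventually_ge_atTop k₀] with k hk1 hk2 ζ hζ hPζ
    rw [hhk k (by omega)]
    have hk1' : (1 : ℝ) ≤ k := by exact_mod_cast hk1
    have hk0' : (0 : ℝ) < k := by linarith
    have hkK : D.K ≤ k := hk₀.trans (by exact_mod_cast hk2)
    rcases lt_or_ge ‖D.N.eval (ζ b)‖ (1 / (k : ℝ)) with hN | hN
    · refine (hb1 ζ hζ).trans ?_
      rw [div_eq_mul_one_div]
      exact mul_le_mul_of_nonneg_left hN.le hC₀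
    · have hτ : ((1 : ℝ) / (k : ℝ) ^ 12) * (k : ℝ) ^ 10 ≤ 1 := by
        rw [one_div, inv_mul_le_iff₀ (by positivity), mul_one]
        exact pow_le_pow_right₀ hk1' (by norm_num)
      obtain ⟨y, hy, -, hyz⟩ := D.exists_near (κ := (k : ℝ)) (τ := 1 / (k : ℝ) ^ 12) hkK
        (by positivity) hτ hζ hN (by
          have h1 : (1 : ℝ) / (k : ℝ) ^ A ≤ 1 / (k : ℝ) ^ (12 * D.M + 2) :=
            one_div_le_one_div_of_le (by positivity) (pow_le_pow_right₀ hk1' (by omega))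
          calc (k : ℝ) ^ 2 * ‖eval ζ P‖ ≤ (k : ℝ) ^ 2 * (1 / (k : ℝ) ^ (12 * D.M + 2)) := by
                gcongr; exact hPζ.trans h1
            _ = _ := by
                rw [div_pow, one_pow, ← pow_mul, pow_add]
                field_simp)
      have hng := hno k hkK y hy
      unfold CData.Good at hng
      push Not at hng
      obtain ⟨j, hj, hc⟩ := hng
      refine (hb2 j hj (y j) (hy.1 j) hc ζ hζ).trans ?_
      rw [div_eq_mul_one_div]
      refine mul_le_mul_of_nonneg_left ?_ hC₀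
      rw [norm_sub_rev]
      refine (hyz j).trans ?_
      rw [mul_one_div, div_le_div_iff₀ (by positivity) hk0', one_mul, ← pow_succ]
      exact pow_le_pow_right₀ hk1' (by norm_num)
  obtain ⟨K0, hK0⟩ := mem_cl_of_small t P hP h A C₀ hdeg hsup hsmall
  have hmem : G ^ K0 ∈ cl t P := by
    refine hK0 K0 le_rfl _ ⟨‖W t (G ^ K0)‖, ?_⟩ ?_
    · filter_upwards [eventually_ge_atTop 1] with k hk1
      rw [hhk k (by omega)]
    · intro m
      refine tendsto_const_nhds.congr' ?_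
      filter_upwards [eventually_ge_atTop 1] with k hk1
      rw [hhk k (by omega)]
  rw [shiftCyclic_iff]
  have h1 := shiftCyclic_pow t G (hG t ht) K0
  rw [shiftCyclic_iff] at h1
  exact cl_mono hmem h1

theorem cyclic_of_no_zero (P : MvPolynomial (Fin d) ℂ) (hP : NZIn P)
    (hE : ∀ z, OnT z → eval z P ≠ 0) (t : ℝ) : ShiftCyclic t P := by
  -- a lower bound of `|P|` on the torus
  obtain ⟨c, hc, hcb⟩ : ∃ c : ℝ, 0 < c ∧ ∀ z, OnT z → c ≤ ‖eval z P‖ := by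
    have hcomp : IsCompact (Set.pi Set.univ fun _ : Fin d => Metric.sphere (0 : ℂ) 1) :=
      isCompact_univ_pi fun _ => isCompact_sphere _ _
    have hmem : ∀ z : Fin d → ℂ, z ∈ (Set.pi Set.univ fun _ : Fin d => Metric.sphere (0 : ℂ) 1) ↔
        OnT z := by
      intro z
      simp [Set.mem_pi, OnT]
    have hcont : Continuous fun z : Fin d → ℂ => ‖eval z P‖ :=
      (MvPolynomial.continuous_eval P).norm
    obtain ⟨z₀, hz₀, hmin⟩ := hcomp.exists_isMinOn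
      ⟨fun _ => 1, (hmem _).mpr fun _ => by simp⟩ hcont.continuousOn
    refine ⟨‖eval z₀ P‖, norm_pos_iff.mpr (hE z₀ ((hmem z₀).mp hz₀)), fun z hz => ?_⟩
    exact hmin ((hmem z).mpr hz)
  obtain ⟨k₀, hk₀⟩ := exists_nat_gt (1 / c)
  obtain ⟨K0, hK0⟩ := mem_cl_of_small t P hP (fun _ => 1) 1 1
    (fun k => by rw [totalDegree_one]; exact Nat.zero_le _)
    (fun k ζ _ => by rw [map_one, norm_one]) (by
      filter_upwards [eventually_ge_atTop 1, eventually_ge_atTop k₀] with k hk1 hk2 ζ hζ hPζ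
      exfalso
      have hk1' : (0 : ℝ) < k := by exact_mod_cast hk1
      have h1 : 1 / c < k := hk₀.trans_le (by exact_mod_cast hk2)
      have h2 := (hcb ζ hζ).trans hPζ
      rw [pow_one, le_div_iff₀ hk1'] at h2
      rw [div_lt_iff₀ hc] at h1
      linarith)
  rw [shiftCyclic_iff]
  refine hK0 K0 le_rfl 1 ⟨‖W t (1 : MvPolynomial (Fin d) ℂ)‖, ?_⟩ ?_
  · exact Eventually.of_forall fun k => by rw [one_pow]
  · intro m
    simp only [one_pow]
    exact tendsto_const_nhds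

theorem not_cyclic_gt_one (P : MvPolynomial (Fin d) ℂ) (t : ℝ) (ht : 1 < t) (z : Fin d → ℂ)
    (hz : OnT z) (h : eval z P = 0) : ¬ ShiftCyclic t P :=
  not_cyclic_gt_one' P t ht z hz h

theorem not_cyclic_of_zero (P : MvPolynomial (Fin d) ℂ) (t : ℝ) (z : Fin d → ℂ)
    (hz : ∀ j, ‖z j‖ < 1) (h : eval z P = 0) : ¬ ShiftCyclic t P :=
  not_cyclic_of_zero' P t z hz h

end Pool.MP4ac1fb.Curve
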