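import Pool.Agent.H.MP_4ac1fb_an.Fibre

/-!
Definitions for the curve case of MP_4ac1fb_an (zero sets on the torus that are curves).
-/

namespace Pool.MP4ac1fb.Curve

open MvPolynomial

variable {d : ℕ}

/-- the point lies on the torus -/
def OnT (z : Fin d → ℂ) : Prop := ∀ j, ‖z j‖ = 1

/-- the averaging kernel `(1/n) (1 + w + ... + w^(n-1))` -/
noncomputable def kap (n : ℕ) (w : ℂ) : ℂ := (1 / (n : ℂ)) * ∑ m ∈ Finset.range n, w ^ m

/-- the averaging polynomial in one real variable -/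
noncomputable def kp (n : ℕ) : Polynomial ℝ :=
  Polynomial.C (1 / (n : ℝ)) * ∑ m ∈ Finset.range n, Polynomial.X ^ m

/-- normalised coefficients of the cube of the averaging polynomial -/
noncomputable def lam (n : ℕ) (k : ℤ) : ℝ := if 0 ≤ k then n * (kp n ^ 3).coeff k.toNat else 0

/-- the discrete density attached to the slopes `v` -/
noncomputable def dens (b : Fin d) (n : ℕ) (v : Fin d → ℝ) : ℝ :=
  (∑ m : {j : Fin d // j ≠ b} → Fin n,
    lam n (-⌊∑ j : {j : Fin d // j ≠ b}, v j * ((m j : ℕ) : ℝ)⌋)) / (n : ℝ) ^ (d - 1)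

end Pool.MP4ac1fb.Curve
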