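import Pool.Agent.H.MP_4ac1fb_an.Curve.Defs

/-!
The discrete density `dens` and the kernel sums.
-/

set_option linter.all false

namespace Pool.MP4ac1fb.Curve

open MvPolynomial

variable {d : ℕ}

lemma coeff_mul_le_of_nonneg {p q : Polynomial ℝ} {c : ℝ} (hc : 0 ≤ c)
    (hp : ∀ i, p.coeff i ≤ c) (hq : ∀ i, 0 ≤ q.coeff i) (k : ℕ) :
    (p * q).coeff k ≤ c * q.eval 1 := by
  rw [Polynomial.coeff_mul]
  have h1 : ∑ x ∈ Finset.HasAntidiagonal.antidiagonal k, p.coeff x.1 * q.coeff x.2 ≤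
      ∑ x ∈ Finset.HasAntidiagonal.antidiagonal k, c * q.coeff x.2 :=
    Finset.sum_le_sum fun x _ => mul_le_mul_of_nonneg_right (hp _) (hq _)
  refine h1.trans ?_
  rw [← Finset.mul_sum]
  apply mul_le_mul_of_nonneg_left _ hc
  rw [Polynomial.eval_eq_sum_range' (n := max (q.natDegree + 1) (k + 1)) (by omega)]
  simp only [one_pow, mul_one]
  rw [Finset.Nat.sum_antidiagonal_eq_sum_range_succ_mk]
  simp only
  rw [← Finset.sum_range_reflect]
  have : ∑ x ∈ Finset.range k.succ, q.coeff (k - (k.succ - 1 - x)) =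
      ∑ x ∈ Finset.range (k + 1), q.coeff x := by
    apply Finset.sum_congr rfl
    intro x hx
    have := Finset.mem_range.mp hx
    congr 1
    omega
  rw [this]
  exact Finset.sum_le_sum_of_subset_of_nonneg
    (Finset.range_subset_range.mpr (le_max_right _ _)) (fun i _ _ => hq i)

lemma kp_coeff (n k : ℕ) : (kp n).coeff k = if k < n then 1 / (n : ℝ) else 0 := by
  rw [kp, Polynomial.coeff_C_mul, Polynomial.finset_sum_coeff]
  simp only [Polynomial.coeff_X_pow]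
  rw [Finset.sum_ite_eq]
  simp only [Finset.mem_range]
  split_ifs <;> simp

lemma kp_coeff_nonneg (n k : ℕ) : 0 ≤ (kp n).coeff k := by
  rw [kp_coeff]; split_ifs <;> positivity

lemma kp_coeff_le (n k : ℕ) : (kp n).coeff k ≤ 1 / (n : ℝ) := by
  rw [kp_coeff]; split_ifs
  · exact le_rfl
  · positivity

lemma mul_coeff_nonneg {p q : Polynomial ℝ} (hp : ∀ i, 0 ≤ p.coeff i) (hq : ∀ i, 0 ≤ q.coeff i)
    (k : ℕ) : 0 ≤ (p * q).coeff k := by
  rw [Polynomial.coeff_mul]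
  exact Finset.sum_nonneg fun x _ => mul_nonneg (hp _) (hq _)

lemma kp_eval_one {n : ℕ} (hn : 1 ≤ n) : (kp n).eval 1 = 1 := by
  have : (n : ℝ) ≠ 0 := by positivity
  rw [kp, Polynomial.eval_mul, Polynomial.eval_C, Polynomial.eval_finset_sum]
  simp [this]

lemma kp2_coeff_nonneg (n k : ℕ) : 0 ≤ ((kp n) ^ 2).coeff k := by
  rw [pow_two]; exact mul_coeff_nonneg (kp_coeff_nonneg n) (kp_coeff_nonneg n) k

lemma kp3_coeff_nonneg (n k : ℕ) : 0 ≤ ((kp n) ^ 3).coeff k := by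
  rw [pow_succ]; exact mul_coeff_nonneg (kp2_coeff_nonneg n) (kp_coeff_nonneg n) k

lemma kp2_coeff_le {n : ℕ} (hn : 1 ≤ n) (k : ℕ) : ((kp n) ^ 2).coeff k ≤ 1 / (n : ℝ) := by
  rw [pow_two]
  have := coeff_mul_le_of_nonneg (c := 1 / (n : ℝ)) (by positivity) (kp_coeff_le n)
    (kp_coeff_nonneg n) k
  rwa [kp_eval_one hn, mul_one] at this

lemma kp3_coeff_le {n : ℕ} (hn : 1 ≤ n) (k : ℕ) : ((kp n) ^ 3).coeff k ≤ 1 / (n : ℝ) := by
  rw [pow_succ]
  have := coeff_mul_le_of_nonneg (c := 1 / (n : ℝ)) (by positivity) (kp2_coeff_le hn)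
    (kp_coeff_nonneg n) k
  rwa [kp_eval_one hn, mul_one] at this

lemma lam_nonneg (n : ℕ) (k : ℤ) : 0 ≤ lam n k := by
  unfold lam
  split_ifs
  · exact mul_nonneg (Nat.cast_nonneg n) (kp3_coeff_nonneg n _)
  · exact le_rfl

lemma lam_le_one (n : ℕ) (k : ℤ) : lam n k ≤ 1 := by
  unfold lam
  split_ifs
  · rcases Nat.eq_zero_or_pos n with hn | hn
    · subst hn; simp
    · have h1 := mul_le_mul_of_nonneg_left (kp3_coeff_le hn k.toNat) (Nat.cast_nonneg n)
      have h2 : (n : ℝ) * (1 / n) = 1 := by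
        have : (n : ℝ) ≠ 0 := by positivity
        field_simp
      linarith
  · exact zero_le_one

/-- one step of the Lipschitz estimate -/
lemma kp3_succ {n : ℕ} (hn : 1 ≤ n) (k : ℕ) :
    ((kp n) ^ 3).coeff (k + 1) - ((kp n) ^ 3).coeff k =
      (1 / (n : ℝ)) * (((kp n) ^ 2).coeff (k + 1) -
        (if n ≤ k + 1 then ((kp n) ^ 2).coeff (k + 1 - n) else 0)) := by
  have hrel : (kp n) ^ 3 * (Polynomial.X - 1) =
      Polynomial.C (1 / (n : ℝ)) * ((kp n) ^ 2 * Polynomial.X ^ n - (kp n) ^ 2) := by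
    have h1 := geom_sum_mul (Polynomial.X : Polynomial ℝ) n
    have h2 : kp n * (Polynomial.X - 1) =
        Polynomial.C (1 / (n : ℝ)) * (Polynomial.X ^ n - 1) := by
      rw [kp, mul_assoc, h1]
    calc (kp n) ^ 3 * (Polynomial.X - 1) = (kp n) ^ 2 * (kp n * (Polynomial.X - 1)) := by ring
      _ = _ := by rw [h2]; ring
  have h3 := congrArg (fun p : Polynomial ℝ => p.coeff (k + 1)) hrel
  simp only [mul_sub, mul_one, Polynomial.coeff_sub, Polynomial.coeff_mul_X,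
    Polynomial.coeff_C_mul] at h3
  rw [Polynomial.coeff_mul_X_pow'] at h3
  linarith

lemma kp3_coeff_zero {n : ℕ} (hn : 1 ≤ n) : ((kp n) ^ 3).coeff 0 = (1 / (n : ℝ)) ^ 3 := by
  rw [Polynomial.coeff_zero_eq_eval_zero, Polynomial.eval_pow,
    ← Polynomial.coeff_zero_eq_eval_zero, kp_coeff, if_pos (by omega)]

lemma lam_step {n : ℕ} (hn : 1 ≤ n) (k : ℤ) : |lam n (k + 1) - lam n k| ≤ 1 / n := by
  have hn0 : (0 : ℝ) < n := by positivity
  rcases lt_trichotomy k (-1) with hk | hk | hk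
  · rw [lam, lam, if_neg (by omega), if_neg (by omega)]
    simp
  · rw [lam, lam, if_pos (by omega), if_neg (by omega)]
    have : (k + 1).toNat = 0 := by omega
    rw [this, kp3_coeff_zero hn, sub_zero, abs_of_nonneg (by positivity)]
    have h1 : (1 / (n : ℝ)) ≤ 1 := by
      rw [div_le_one hn0]; exact_mod_cast hn
    calc (n : ℝ) * (1 / n) ^ 3 = (1 / n) * (1 / n) * ((n : ℝ) * (1 / n)) := by ring
      _ = (1 / n) * (1 / n) := by rw [mul_one_div_cancel hn0.ne', mul_one]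
      _ ≤ 1 / n * 1 := by
          apply mul_le_mul_of_nonneg_left h1 (by positivity)
      _ = 1 / n := mul_one _
  · rw [lam, lam, if_pos (by omega), if_pos (by omega)]
    have : (k + 1).toNat = k.toNat + 1 := by omega
    rw [this, ← mul_sub, kp3_succ hn, ← mul_assoc, mul_one_div_cancel hn0.ne', one_mul]
    rw [abs_le]
    constructor
    · have h1 := kp2_coeff_nonneg n (k.toNat + 1)
      split_ifs
      · have h2 := kp2_coeff_le hn (k.toNat + 1 - n)
        linarith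
      · have : 0 ≤ 1 / (n : ℝ) := by positivity
        linarith
    · have h1 := kp2_coeff_le hn (k.toNat + 1)
      split_ifs
      · have h2 := kp2_coeff_nonneg n (k.toNat + 1 - n)
        linarith
      · linarith

lemma lam_lip_nat {n : ℕ} (hn : 1 ≤ n) (k : ℤ) (m : ℕ) :
    |lam n (k + m) - lam n k| ≤ (m : ℝ) / n := by
  induction m with
  | zero => simp
  | succ m ih =>
    have h1 := lam_step hn (k + m)
    have h2 : lam n (k + (m + 1 : ℕ)) - lam n k =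
        (lam n (k + m + 1) - lam n (k + m)) + (lam n (k + m) - lam n k) := by
      push_cast
      rw [add_assoc]
      ring
    rw [h2]
    refine (abs_add_le _ _).trans ?_
    push_cast
    rw [add_div]
    linarith

lemma lam_lip (n : ℕ) (hn : 1 ≤ n) (k k' : ℤ) : |lam n k - lam n k'| ≤ |(k : ℝ) - k'| / n := by
  rcases le_total k' k with h | h
  · obtain ⟨m, hm⟩ := Int.le.dest h
    have := lam_lip_nat hn k' m
    rw [hm] at this
    have h2 : |(k : ℝ) - k'| = m := by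
      rw [← hm]; push_cast; rw [add_sub_cancel_left, abs_of_nonneg (Nat.cast_nonneg m)]
    rw [h2]; exact this
  · obtain ⟨m, hm⟩ := Int.le.dest h
    have := lam_lip_nat hn k m
    rw [hm] at this
    have h2 : |(k : ℝ) - k'| = m := by
      rw [← hm]; push_cast; rw [sub_add_cancel_left, abs_neg, abs_of_nonneg (Nat.cast_nonneg m)]
    rw [h2, abs_sub_comm]; exact this

lemma card_ne (b : Fin d) : Fintype.card {j : Fin d // j ≠ b} = d - 1 := by
  rw [Fintype.card_subtype_compl (fun j => j = b)]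
  simp

lemma card_tuples (b : Fin d) (n : ℕ) :
    (Fintype.card ({j : Fin d // j ≠ b} → Fin n) : ℝ) = (n : ℝ) ^ (d - 1) := by
  rw [Fintype.card_fun, card_ne, Fintype.card_fin]
  push_cast
  rfl

lemma dens_nonneg (b : Fin d) (n : ℕ) (v : Fin d → ℝ) : 0 ≤ dens b n v := by
  unfold dens
  exact div_nonneg (Finset.sum_nonneg fun _ _ => lam_nonneg _ _) (by positivity)

lemma dens_le_one (b : Fin d) (n : ℕ) (v : Fin d → ℝ) : dens b n v ≤ 1 := by
  unfold dens
  apply div_le_one_of_le₀ _ (by positivity)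
  rw [← card_tuples b n, ← nsmul_one, ← Finset.card_univ]
  exact Finset.sum_le_card_nsmul _ _ _ (fun m _ => lam_le_one _ _)

lemma dens_lip (b : Fin d) (n : ℕ) (hn : 1 ≤ n) (v v' : Fin d → ℝ) :
    |dens b n v - dens b n v'| ≤ (∑ j : {j : Fin d // j ≠ b}, |v j - v' j|) + 1 / n := by
  have hn0 : (0 : ℝ) < n := by positivity
  unfold dens
  rw [← sub_div, ← Finset.sum_sub_distrib, abs_div, abs_of_pos (by positivity : (0:ℝ) < (n:ℝ) ^ (d-1)),
    div_le_iff₀ (by positivity)]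
  refine (Finset.abs_sum_le_sum_abs _ _).trans ?_
  rw [mul_comm, ← card_tuples b n, ← nsmul_eq_mul, ← Finset.card_univ]
  apply Finset.sum_le_card_nsmul
  intro m _
  refine (lam_lip n hn _ _).trans ?_
  rw [div_le_iff₀ hn0, add_mul, one_div, inv_mul_cancel₀ hn0.ne']
  set w := ∑ j : {j : Fin d // j ≠ b}, v j * ((m j : ℕ) : ℝ)
  set w' := ∑ j : {j : Fin d // j ≠ b}, v' j * ((m j : ℕ) : ℝ)
  have h1 : |w - w'| ≤ (∑ j : {j : Fin d // j ≠ b}, |v j - v' j|) * n := by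
    rw [← Finset.sum_sub_distrib, Finset.sum_mul]
    refine (Finset.abs_sum_le_sum_abs _ _).trans ?_
    apply Finset.sum_le_sum
    intro j _
    rw [← sub_mul, abs_mul]
    apply mul_le_mul_of_nonneg_left _ (abs_nonneg _)
    rw [abs_of_nonneg (Nat.cast_nonneg _)]
    exact_mod_cast (m j).isLt.le
  have h2 := Int.floor_le w
  have h3 := Int.lt_floor_add_one w
  have h4 := Int.floor_le w'
  have h5 := Int.lt_floor_add_one w'
  rw [abs_le] at h1
  push_cast
  rw [abs_le]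
  constructor <;> linarith [h1.1, h1.2]

lemma kp2_coeff_lt {n k : ℕ} (hk : k < n) :
    ((kp n) ^ 2).coeff k = ((k : ℝ) + 1) / (n : ℝ) ^ 2 := by
  rw [pow_two, Polynomial.coeff_mul, Finset.Nat.sum_antidiagonal_eq_sum_range_succ_mk]
  have : ∀ i ∈ Finset.range k.succ, (kp n).coeff i * (kp n).coeff (k - i) = 1 / (n:ℝ)^2 := by
    intro i hi
    have := Finset.mem_range.mp hi
    rw [kp_coeff, kp_coeff, if_pos (by omega), if_pos (by omega)]
    ring
  rw [Finset.sum_congr rfl this]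
  simp only [Finset.sum_const, Finset.card_range, nsmul_eq_mul]
  push_cast
  ring

lemma kp3_coeff_lt {n k : ℕ} (hk : k < n) :
    ((kp n) ^ 3).coeff k = ((k : ℝ) + 1) * (k + 2) / (2 * (n : ℝ) ^ 3) := by
  rw [pow_succ, Polynomial.coeff_mul, Finset.Nat.sum_antidiagonal_eq_sum_range_succ_mk]
  have h1 : ∀ i ∈ Finset.range k.succ, ((kp n) ^ 2).coeff i * (kp n).coeff (k - i) =
      ((i : ℝ) + 1) * (1 / (n:ℝ)^3) := by
    intro i hi
    have := Finset.mem_range.mp hi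
    rw [kp2_coeff_lt (by omega), kp_coeff, if_pos (by omega)]
    ring
  rw [Finset.sum_congr rfl h1, ← Finset.sum_mul]
  have h2 : ∀ m : ℕ, ∑ i ∈ Finset.range m, ((i : ℝ) + 1) = (m : ℝ) * (m + 1) / 2 := by
    intro m
    induction m with
    | zero => simp
    | succ m ih => rw [Finset.sum_range_succ, ih]; push_cast; ring
  rw [h2]
  push_cast
  ring

lemma lam_lower {n : ℕ} {k : ℤ} (h0 : 0 ≤ k) (hk : k < n) : ((k : ℝ) / n) ^ 2 / 2 ≤ lam n k := by
  obtain ⟨m, rfl⟩ := Int.eq_ofNat_of_zero_le h0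
  have hm : m < n := by exact_mod_cast hk
  have hn : (0 : ℝ) < n := by exact_mod_cast (by omega : 0 < n)
  rw [lam, if_pos h0]
  simp only [Int.toNat_natCast, Int.ofNat_eq_natCast, Int.cast_natCast]
  rw [kp3_coeff_lt hm]
  have : (n : ℝ) * (((m : ℝ) + 1) * (m + 2) / (2 * (n : ℝ) ^ 3)) =
      ((m : ℝ) + 1) * (m + 2) / (n : ℝ) ^ 2 / 2 := by
    field_simp
  rw [this, div_pow]
  apply div_le_div_of_nonneg_right _ (by norm_num)
  apply div_le_div_of_nonneg_right _ (by positivity)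
  nlinarith [(Nat.cast_nonneg m : (0 : ℝ) ≤ m)]

lemma card_window {n : ℕ} {a b : ℝ} (ha : 0 ≤ a) (hb : b < n) :
    b - a - 1 ≤ ((Finset.univ.filter fun m : Fin n => a ≤ ((m : ℕ) : ℝ) ∧ ((m : ℕ) : ℝ) ≤ b).card : ℝ) := by
  rcases lt_or_ge b 0 with hb0 | hb0
  · have : (0 : ℝ) ≤ ((Finset.univ.filter fun m : Fin n => a ≤ ((m : ℕ) : ℝ) ∧ ((m : ℕ) : ℝ) ≤ b).card : ℝ) := Nat.cast_nonneg _
    linarith
  have h1 : Finset.Icc ⌈a⌉₊ ⌊b⌋₊ ⊆
      (Finset.univ.filter fun m : Fin n => a ≤ ((m : ℕ) : ℝ) ∧ ((m : ℕ) : ℝ) ≤ b).image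
        (fun m : Fin n => (m : ℕ)) := by
    intro m hm
    rw [Finset.mem_Icc] at hm
    have h2 : a ≤ m := Nat.ceil_le.mp hm.1
    have h3 : (m : ℝ) ≤ b := (Nat.le_floor_iff hb0).mp hm.2
    have h4 : m < n := by exact_mod_cast (lt_of_le_of_lt h3 hb)
    rw [Finset.mem_image]
    refine ⟨⟨m, h4⟩, ?_, rfl⟩
    rw [Finset.mem_filter]
    exact ⟨Finset.mem_univ _, h2, h3⟩
  have h2 := (Finset.card_le_card h1).trans Finset.card_image_le
  rw [Nat.card_Icc] at h2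
  have h3 : (⌈a⌉₊ : ℝ) < a + 1 := Nat.ceil_lt_add_one ha
  have h4 : b < ⌊b⌋₊ + 1 := Nat.lt_floor_add_one b
  have h5 : ((⌊b⌋₊ + 1 : ℕ) : ℝ) - ((⌈a⌉₊ : ℕ) : ℝ) ≤ ((⌊b⌋₊ + 1 - ⌈a⌉₊ : ℕ) : ℝ) := by
    rcases le_total ⌈a⌉₊ (⌊b⌋₊ + 1) with h | h
    · rw [Nat.cast_sub h]
    · have : ((⌊b⌋₊ + 1 : ℕ) : ℝ) ≤ (⌈a⌉₊ : ℝ) := by exact_mod_cast h
      have h6 : (0 : ℝ) ≤ ((⌊b⌋₊ + 1 - ⌈a⌉₊ : ℕ) : ℝ) := Nat.cast_nonneg _
      linarith
  have h6 : ((⌊b⌋₊ + 1 - ⌈a⌉₊ : ℕ) : ℝ) ≤ ((Finset.univ.filter fun m : Fin n => a ≤ ((m : ℕ) : ℝ) ∧ ((m : ℕ) : ℝ) ≤ b).card : ℝ) := by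
    exact_mod_cast h2
  push_cast at h5
  linarith

/-- lower bound for the density when one slope is negative -/
theorem dens_lower (b : Fin d) : ∃ A : ℕ, ∃ c : ℝ, 0 < c ∧ ∀ ρ : ℝ, 0 < ρ → ρ ≤ 1 →
    ∀ v : Fin d → ℝ, (∀ j ≠ b, |v j| ≤ 1 / ρ) → (∃ i, i ≠ b ∧ v i ≤ -ρ) →
    ∀ n : ℕ, 1 ≤ c * ρ ^ A * n → c * ρ ^ A ≤ dens b n v := by
  have hd1 : 1 ≤ d := by have := b.isLt; omega
  have hd0 : (0 : ℝ) < d := by exact_mod_cast hd1
  refine ⟨3 * d + 1, 1 / (128 * (16 * (d : ℝ)) ^ (d - 1)), by positivity, ?_⟩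
  intro ρ hρ hρ1 v hv hi n hn
  obtain ⟨i, hib, hvi⟩ := hi
  have hd2 : 2 ≤ d := by
    have h1 := b.isLt
    have h2 := i.isLt
    have h3 : (i : ℕ) ≠ b := fun h => hib (Fin.ext h)
    omega
  -- size of `n`
  have hpow : (16 * (d : ℝ)) ≤ (16 * (d : ℝ)) ^ (d - 1) := by
    have h16 : (1 : ℝ) ≤ 16 * (d : ℝ) := by
      have : (1 : ℝ) ≤ d := by exact_mod_cast hd1
      linarith
    calc (16 * (d : ℝ)) = (16 * (d : ℝ)) ^ 1 := (pow_one _).symm
      _ ≤ _ := pow_le_pow_right₀ h16 (by omega)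
  have hbig : 128 * (16 * (d : ℝ)) ≤ ρ ^ (3 * d + 1) * n := by
    have h1 : 1 ≤ (ρ ^ (3 * d + 1) * n) / (128 * (16 * (d : ℝ)) ^ (d - 1)) := by
      calc 1 ≤ 1 / (128 * (16 * (d : ℝ)) ^ (d - 1)) * ρ ^ (3 * d + 1) * n := hn
        _ = _ := by ring
    rw [one_le_div (by positivity)] at h1
    linarith
  have hnn : (0 : ℝ) ≤ n := Nat.cast_nonneg n
  have hρ3 : 128 * (16 * (d : ℝ)) ≤ ρ ^ 3 * n := by
    refine hbig.trans (mul_le_mul_of_nonneg_right ?_ hnn)
    exact pow_le_pow_of_le_one hρ.le hρ1 (by omega)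
  have hρ1n : 128 * (16 * (d : ℝ)) ≤ ρ * n := by
    refine hbig.trans (mul_le_mul_of_nonneg_right ?_ hnn)
    calc ρ ^ (3 * d + 1) ≤ ρ ^ 1 := pow_le_pow_of_le_one hρ.le hρ1 (by omega)
      _ = ρ := pow_one ρ
  have hd1r : (1 : ℝ) ≤ d := by exact_mod_cast hd1
  have hnbig : (128 * 16 : ℝ) ≤ n := by
    have : ρ * n ≤ 1 * n := mul_le_mul_of_nonneg_right hρ1 hnn
    nlinarith
  have hnpos : (0 : ℝ) < n := by linarith
  -- the windows
  let lo : {j : Fin d // j ≠ b} → ℝ := fun j => if j.1 = i then ρ * n / 4 else 0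
  let hiw : {j : Fin d // j ≠ b} → ℝ := fun j => if j.1 = i then ρ * n / 2 else ρ ^ 3 * n / (8 * d)
  let S : {j : Fin d // j ≠ b} → Finset (Fin n) := fun j =>
    Finset.univ.filter fun m : Fin n => lo j ≤ ((m : ℕ) : ℝ) ∧ ((m : ℕ) : ℝ) ≤ hiw j
  have hρ3le : ρ ^ 3 ≤ 1 := pow_le_one₀ hρ.le hρ1
  have hρ3ρ : ρ ^ 3 ≤ ρ := by
    calc ρ ^ 3 ≤ ρ ^ 1 := pow_le_pow_of_le_one hρ.le hρ1 (by omega)
      _ = ρ := pow_one ρ
  have hq : ρ ^ 3 * n / (8 * d) < n := by
    rw [div_lt_iff₀ (by positivity)]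
    nlinarith
  have hcard : ∀ j, ρ ^ 3 * n / (16 * d) ≤ ((S j).card : ℝ) := by
    intro j
    have hlo : 0 ≤ lo j := by
      simp only [lo]; split_ifs <;> positivity
    have hhi : hiw j < n := by
      simp only [hiw]; split_ifs
      · nlinarith
      · exact hq
    refine le_trans ?_ (card_window hlo hhi)
    simp only [lo, hiw]
    have hX : ρ ^ 3 * n / (16 * d) ≤ ρ * n / 16 := by
      rw [div_le_div_iff₀ (by positivity) (by positivity)]
      have := mul_le_mul_of_nonneg_right hρ3ρ hnn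
      nlinarith [mul_nonneg hρ.le hnn]
    split_ifs
    · linarith
    · have h1 : ρ ^ 3 * n / (8 * d) = 2 * (ρ ^ 3 * n / (16 * d)) := by
        field_simp; norm_num
      have h2 : 1 ≤ ρ ^ 3 * n / (16 * d) := by
        rw [one_le_div (by positivity)]
        linarith
      rw [h1]; linarith
  -- the value on the windows
  have hval : ∀ m ∈ Fintype.piFinset S,
      ρ ^ 4 / 128 ≤ lam n (-⌊∑ j : {j : Fin d // j ≠ b}, v j * ((m j : ℕ) : ℝ)⌋) := by
    intro m hm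
    rw [Fintype.mem_piFinset] at hm
    have hm' : ∀ j, lo j ≤ ((m j : ℕ) : ℝ) ∧ ((m j : ℕ) : ℝ) ≤ hiw j := fun j =>
      (Finset.mem_filter.mp (hm j)).2
    set w := ∑ j : {j : Fin d // j ≠ b}, v j * ((m j : ℕ) : ℝ) with hw
    have hsplit : w = v i * ((m ⟨i, hib⟩ : ℕ) : ℝ) +
        ∑ j ∈ Finset.univ.erase (⟨i, hib⟩ : {j : Fin d // j ≠ b}), v j * ((m j : ℕ) : ℝ) := by
      rw [hw]
      exact (Finset.add_sum_erase Finset.univ
        (fun j : {j : Fin d // j ≠ b} => v j * ((m j : ℕ) : ℝ))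
        (Finset.mem_univ ⟨i, hib⟩)).symm
    have hrest : |∑ j ∈ Finset.univ.erase (⟨i, hib⟩ : {j : Fin d // j ≠ b}),
        v j * ((m j : ℕ) : ℝ)| ≤ ρ ^ 2 * n / 8 := by
      refine (Finset.abs_sum_le_sum_abs _ _).trans ?_
      have h1 : ∀ j ∈ Finset.univ.erase (⟨i, hib⟩ : {j : Fin d // j ≠ b}),
          |v j * ((m j : ℕ) : ℝ)| ≤ ρ ^ 2 * n / (8 * d) := by
        intro j hj
        have hji : j.1 ≠ i := fun h => (Finset.ne_of_mem_erase hj) (Subtype.ext h)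
        have h2 := (hm' j).2
        simp only [hiw, if_neg hji] at h2
        rw [abs_mul, abs_of_nonneg (Nat.cast_nonneg (m j : ℕ) : (0 : ℝ) ≤ ((m j : ℕ) : ℝ))]
        calc |v j| * ((m j : ℕ) : ℝ) ≤ (1 / ρ) * (ρ ^ 3 * n / (8 * d)) :=
              mul_le_mul (hv j j.2) h2 (Nat.cast_nonneg _) (by positivity)
          _ = ρ ^ 2 * n / (8 * d) := by field_simp
      refine (Finset.sum_le_card_nsmul _ _ _ h1).trans ?_
      rw [nsmul_eq_mul]
      have h3 : ((Finset.univ.erase (⟨i, hib⟩ : {j : Fin d // j ≠ b})).card : ℝ) ≤ d := by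
        have : (Finset.univ.erase (⟨i, hib⟩ : {j : Fin d // j ≠ b})).card ≤ d := by
          refine (Finset.card_erase_le).trans ?_
          rw [Finset.card_univ, card_ne]
          omega
        exact_mod_cast this
      calc _ ≤ (d : ℝ) * (ρ ^ 2 * n / (8 * d)) :=
            mul_le_mul_of_nonneg_right h3 (by positivity)
        _ = ρ ^ 2 * n / 8 := by field_simp
    have hi1 := (hm' ⟨i, hib⟩).1
    have hi2 := (hm' ⟨i, hib⟩).2
    simp only [lo, if_pos rfl] at hi1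
    simp only [hiw, if_pos rfl] at hi2
    have hmi0 : (0 : ℝ) ≤ ((m ⟨i, hib⟩ : ℕ) : ℝ) := Nat.cast_nonneg _
    have hU : v i * ((m ⟨i, hib⟩ : ℕ) : ℝ) ≤ -(ρ ^ 2 * n / 4) := by
      calc v i * ((m ⟨i, hib⟩ : ℕ) : ℝ) ≤ (-ρ) * ((m ⟨i, hib⟩ : ℕ) : ℝ) :=
            mul_le_mul_of_nonneg_right hvi hmi0
        _ ≤ (-ρ) * (ρ * n / 4) := by
            apply mul_le_mul_of_nonpos_left hi1 (by linarith)
        _ = _ := by ring
    have hL : -(n / 2 : ℝ) ≤ v i * ((m ⟨i, hib⟩ : ℕ) : ℝ) := by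
      have h1 : -(1 / ρ) ≤ v i := (abs_le.mp (hv i hib)).1
      calc -(n / 2 : ℝ) = -(1 / ρ) * (ρ * n / 2) := by field_simp
        _ ≤ -(1 / ρ) * ((m ⟨i, hib⟩ : ℕ) : ℝ) := by
            apply mul_le_mul_of_nonpos_left hi2
            have : 0 < 1 / ρ := by positivity
            linarith
        _ ≤ _ := mul_le_mul_of_nonneg_right h1 hmi0
    rw [abs_le] at hrest
    have hρ2 : ρ ^ 2 ≤ 1 := pow_le_one₀ hρ.le hρ1
    have hρ2n : ρ ^ 2 * n ≤ n := by nlinarith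
    have hw1 : w ≤ -(ρ ^ 2 * n / 8) := by rw [hsplit]; linarith [hrest.2]
    have hw2 : -(5 * n / 8 : ℝ) ≤ w := by rw [hsplit]; linarith [hrest.1]
    have hf1 := Int.floor_le w
    have hf2 := Int.lt_floor_add_one w
    have hk0 : (0 : ℤ) ≤ -⌊w⌋ := by
      have : ((⌊w⌋ : ℤ) : ℝ) ≤ 0 := by
        have : 0 ≤ ρ ^ 2 * n / 8 := by positivity
        linarith
      have : ⌊w⌋ ≤ 0 := by exact_mod_cast this
      omega
    have hkn : -⌊w⌋ < (n : ℤ) := by
      have : -((⌊w⌋ : ℤ) : ℝ) < n := by linarith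
      exact_mod_cast this
    refine le_trans ?_ (lam_lower hk0 hkn)
    push_cast
    have h5 : ρ ^ 2 / 8 ≤ -((⌊w⌋ : ℤ) : ℝ) / n := by
      rw [le_div_iff₀ hnpos]
      calc ρ ^ 2 / 8 * n = ρ ^ 2 * n / 8 := by ring
        _ ≤ _ := by linarith
    have h6 : (ρ ^ 2 / 8) ^ 2 ≤ (-((⌊w⌋ : ℤ) : ℝ) / n) ^ 2 :=
      pow_le_pow_left₀ (by positivity) h5 2
    calc ρ ^ 4 / 128 = (ρ ^ 2 / 8) ^ 2 / 2 := by ring
      _ ≤ _ := by linarith
  -- conclusion
  unfold dens
  have hnp : (0 : ℝ) < (n : ℝ) ^ (d - 1) := by positivity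
  rw [le_div_iff₀ hnp]
  have hsum : (ρ ^ 4 / 128) * ((Fintype.piFinset S).card : ℝ) ≤
      ∑ m : {j : Fin d // j ≠ b} → Fin n,
        lam n (-⌊∑ j : {j : Fin d // j ≠ b}, v j * ((m j : ℕ) : ℝ)⌋) := by
    calc (ρ ^ 4 / 128) * ((Fintype.piFinset S).card : ℝ)
        = (Fintype.piFinset S).card • (ρ ^ 4 / 128) := by rw [nsmul_eq_mul, mul_comm]
      _ ≤ ∑ m ∈ Fintype.piFinset S,
          lam n (-⌊∑ j : {j : Fin d // j ≠ b}, v j * ((m j : ℕ) : ℝ)⌋) :=
          Finset.card_nsmul_le_sum _ _ _ hval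
      _ ≤ _ := Finset.sum_le_sum_of_subset_of_nonneg (Finset.subset_univ _)
          (fun m _ _ => lam_nonneg _ _)
  refine le_trans ?_ hsum
  rw [Fintype.card_piFinset]
  push_cast
  have hprod : (ρ ^ 3 * n / (16 * d)) ^ (d - 1) ≤
      ∏ j : {j : Fin d // j ≠ b}, ((S j).card : ℝ) := by
    calc (ρ ^ 3 * n / (16 * d)) ^ (d - 1)
        = ∏ j : {j : Fin d // j ≠ b}, (ρ ^ 3 * n / (16 * d)) := by
          rw [Finset.prod_const, Finset.card_univ, card_ne]
      _ ≤ _ := Finset.prod_le_prod (fun _ _ => by positivity) (fun j _ => hcard j)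
  refine le_trans (le_of_eq ?_) (mul_le_mul_of_nonneg_left hprod (by positivity))
  have hexp : 3 * d + 1 = 4 + 3 * (d - 1) := by omega
  rw [hexp, pow_add, pow_mul, div_pow, mul_pow]
  field_simp
  rw [mul_pow]

lemma kap_eq_aeval (n : ℕ) (w : ℂ) : kap n w = Polynomial.aeval w (kp n) := by
  rw [kap, kp, map_mul, Polynomial.aeval_C, map_sum]
  simp

lemma kp3_natDegree_lt {n : ℕ} (hn : 1 ≤ n) : ((kp n) ^ 3).natDegree < 3 * n := by
  have h1 : (kp n).natDegree ≤ n - 1 := by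
    rw [Polynomial.natDegree_le_iff_coeff_eq_zero]
    intro N hN
    rw [kp_coeff, if_neg (by omega)]
  have h2 : ((kp n) ^ 3).natDegree ≤ 3 * (kp n).natDegree := Polynomial.natDegree_pow_le
  omega

lemma kap_cube {n : ℕ} (hn : 1 ≤ n) (w : ℂ) :
    kap n w ^ 3 = ∑ k ∈ Finset.range (3 * n), ((((kp n) ^ 3).coeff k : ℝ) : ℂ) * w ^ k := by
  rw [kap_eq_aeval, ← map_pow, Polynomial.aeval_eq_sum_range' (kp3_natDegree_lt hn)]
  apply Finset.sum_congr rfl
  intro k _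
  rw [Complex.real_smul]

lemma norm_exp_sub_exp_le (a b : ℝ) :
    ‖Complex.exp (-((a : ℝ) * Complex.I)) - Complex.exp (-((b : ℝ) * Complex.I))‖ ≤ |a - b| := by
  have h1 : Complex.exp (-((a : ℝ) * Complex.I)) =
      Complex.exp (-((b : ℝ) * Complex.I)) * Complex.exp (Complex.I * ((b - a : ℝ) : ℂ)) := by
    rw [← Complex.exp_add]; congr 1; push_cast; ring
  have h2 : Complex.exp (-((a : ℝ) * Complex.I)) - Complex.exp (-((b : ℝ) * Complex.I)) =
      Complex.exp (-((b : ℝ) * Complex.I)) * (Complex.exp (Complex.I * ((b - a : ℝ) : ℂ)) - 1) := by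
    rw [h1]; ring
  have h3 : ‖Complex.exp (-((b : ℝ) * Complex.I))‖ = 1 := by
    have : -((b : ℝ) * Complex.I) = ((-b : ℝ) : ℂ) * Complex.I := by push_cast; ring
    rw [this, Complex.norm_exp_ofReal_mul_I]
  rw [h2, norm_mul, h3, one_mul, abs_sub_comm, ← Real.norm_eq_abs]
  exact Real.norm_exp_I_mul_ofReal_sub_one_le

/-- the sum of a power with exponent of modulus less than `L` over a shifted grid -/
lemma grid_zpow {L : ℕ} (hL : 0 < L) {x₀ : ℂ} (hx : ‖x₀‖ = 1) {K : ℤ} (hK : |K| < L) :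
    ∑ l ∈ Finset.range L, (x₀ * (rt L ^ l)⁻¹) ^ K = if K = 0 then (L : ℂ) else 0 := by
  have hx0 : x₀ ≠ 0 := by
    intro h; rw [h, norm_zero] at hx; exact zero_ne_one hx
  have hL0 : L ≠ 0 := hL.ne'
  have hn := norm_rt hL0
  have hne : rt L ≠ 0 := by
    intro h; rw [h, norm_zero] at hn; exact zero_ne_one hn
  have h1 : ∀ l ∈ Finset.range L, (x₀ * (rt L ^ l)⁻¹) ^ K = x₀ ^ K * ((rt L ^ K)⁻¹) ^ l := by
    intro l _
    rw [mul_zpow, inv_zpow, ← zpow_natCast, ← zpow_mul, inv_pow, ← zpow_natCast, ← zpow_mul,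
      mul_comm (l : ℤ) K]
  rw [Finset.sum_congr rfl h1, ← Finset.mul_sum]
  split_ifs with h0
  · simp [h0]
  · have hprim := rt_prim hL0
    have hη : (rt L ^ K)⁻¹ ≠ 1 := by
      intro h
      rw [inv_eq_one] at h
      rw [hprim.zpow_eq_one_iff_dvd] at h
      have := Int.eq_zero_of_abs_lt_dvd h hK
      exact h0 this
    have hηL : ((rt L ^ K)⁻¹) ^ L = 1 := by
      rw [inv_pow, ← zpow_natCast, ← zpow_mul, mul_comm, zpow_mul, zpow_natCast, hprim.pow_eq_one,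
        one_zpow, inv_one]
    have := mul_neg_geom_sum ((rt L ^ K)⁻¹) L
    rw [hηL, sub_self] at this
    rcases mul_eq_zero.mp this with h | h
    · exact absurd (sub_eq_zero.mp h).symm hη
    · rw [h, mul_zero]

/-- the kernel sum against an integer frequency -/
lemma kernel_int {n L : ℕ} (hn : 1 ≤ n) {x₀ : ℂ} (hx : ‖x₀‖ = 1) (s : ℕ → ℝ)
    (hs : ∀ l < L, x₀ * Complex.exp (s l * Complex.I) = rt L ^ l) (q : ℤ)
    (hq : (3 * n : ℕ) + |q| < (L : ℤ)) :
    ((n : ℂ) / L) * ∑ l ∈ Finset.range L, kap n (Complex.exp (-(s l * Complex.I))) ^ 3 *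
      Complex.exp (-((s l * q : ℝ) * Complex.I)) = (lam n (-q) : ℂ) := by
  have hL : 0 < L := by
    have := abs_nonneg q
    omega
  have hL0 : (L : ℂ) ≠ 0 := by exact_mod_cast hL.ne'
  have hx0 : x₀ ≠ 0 := by
    intro h; rw [h, norm_zero] at hx; exact zero_ne_one hx
  have hy : ∀ l < L, Complex.exp (-(s l * Complex.I)) = x₀ * (rt L ^ l)⁻¹ := by
    intro l hl
    rw [← hs l hl, Complex.exp_neg, mul_inv, ← mul_assoc, mul_inv_cancel₀ hx0, one_mul]
  have h1 : ∀ l ∈ Finset.range L, kap n (Complex.exp (-(s l * Complex.I))) ^ 3 *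
      Complex.exp (-((s l * q : ℝ) * Complex.I)) =
      ∑ k ∈ Finset.range (3 * n), ((((kp n) ^ 3).coeff k : ℝ) : ℂ) *
        (x₀ * (rt L ^ l)⁻¹) ^ ((k : ℤ) + q) := by
    intro l hl
    have hl' := Finset.mem_range.mp hl
    rw [kap_cube hn, Finset.sum_mul]
    apply Finset.sum_congr rfl
    intro k _
    have h2 : Complex.exp (-((s l * q : ℝ) * Complex.I)) =
        Complex.exp (-(s l * Complex.I)) ^ q := by
      rw [← Complex.exp_int_mul]; congr 1; push_cast; ring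
    have hyne : x₀ * (rt L ^ l)⁻¹ ≠ 0 := by
      rw [← hy l hl']; exact Complex.exp_ne_zero _
    rw [h2, hy l hl', zpow_add₀ hyne, zpow_natCast, mul_assoc]
  rw [Finset.sum_congr rfl h1, Finset.sum_comm]
  have h3 : ∀ k ∈ Finset.range (3 * n), ∑ l ∈ Finset.range L,
      ((((kp n) ^ 3).coeff k : ℝ) : ℂ) * (x₀ * (rt L ^ l)⁻¹) ^ ((k : ℤ) + q) =
      if (k : ℤ) + q = 0 then ((((kp n) ^ 3).coeff k : ℝ) : ℂ) * L else 0 := by
    intro k hk
    have hk' := Finset.mem_range.mp hk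
    rw [← Finset.mul_sum, grid_zpow hL hx]
    · split_ifs <;> simp
    · refine lt_of_le_of_lt (abs_add_le _ _) ?_
      rw [abs_of_nonneg (by omega : (0 : ℤ) ≤ (k : ℤ))]
      push_cast at hq
      omega
  rw [Finset.sum_congr rfl h3]
  unfold lam
  split_ifs with hneg
  · have h4 : ∀ k ∈ Finset.range (3 * n),
        (if (k : ℤ) + q = 0 then ((((kp n) ^ 3).coeff k : ℝ) : ℂ) * L else 0) =
        if k = (-q).toNat then ((((kp n) ^ 3).coeff (-q).toNat : ℝ) : ℂ) * L else 0 := by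
      intro k _
      by_cases h : (k : ℤ) + q = 0
      · have : k = (-q).toNat := by omega
        rw [if_pos h, if_pos this, this]
      · have : k ≠ (-q).toNat := by omega
        rw [if_neg h, if_neg this]
    rw [Finset.sum_congr rfl h4, Finset.sum_ite_eq']
    split_ifs with hmem
    · push_cast
      field_simp
    · have h5 : ((kp n) ^ 3).coeff (-q).toNat = 0 := by
        apply Polynomial.coeff_eq_zero_of_natDegree_lt
        have := kp3_natDegree_lt hn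
        rw [Finset.mem_range] at hmem
        omega
      rw [h5]; simp
  · have h4 : ∀ k ∈ Finset.range (3 * n),
        (if (k : ℤ) + q = 0 then ((((kp n) ^ 3).coeff k : ℝ) : ℂ) * L else 0) = 0 := by
      intro k _
      rw [if_neg (by omega)]
    rw [Finset.sum_congr rfl h4]
    simp

/-- expansion of the product of the averaging kernels -/
lemma prod_kap (b : Fin d) (n : ℕ) (v : Fin d → ℝ) (s : ℝ) :
    ∏ j ∈ Finset.univ.erase b, kap n (Complex.exp (-((v j * s : ℝ) * Complex.I))) =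
      (1 / (n : ℂ) ^ (d - 1)) * ∑ m : {j : Fin d // j ≠ b} → Fin n,
        Complex.exp (-((s * (∑ j : {j : Fin d // j ≠ b}, v j * ((m j : ℕ) : ℝ)) : ℝ) *
          Complex.I)) := by
  rw [Finset.prod_subtype (Finset.univ.erase b) (p := fun j => j ≠ b) (by simp)]
  simp only [kap]
  rw [Finset.prod_mul_distrib, Finset.prod_const, Finset.card_univ, card_ne]
  have h1 : ∀ j : {j : Fin d // j ≠ b},
      ∑ m ∈ Finset.range n, Complex.exp (-((v j * s : ℝ) * Complex.I)) ^ m =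
      ∑ m : Fin n, Complex.exp (-((v j * s : ℝ) * Complex.I)) ^ (m : ℕ) := fun j =>
    Finset.sum_range _
  rw [Finset.prod_congr rfl (fun j _ => h1 j), Finset.prod_univ_sum, Fintype.piFinset_univ,
    one_div_pow]
  congr 1
  apply Finset.sum_congr rfl
  intro m _
  have h2 : ∀ j : {j : Fin d // j ≠ b},
      Complex.exp (-((v j * s : ℝ) * Complex.I)) ^ ((m j : ℕ)) =
      Complex.exp (((m j : ℕ) : ℂ) * (-((v j * s : ℝ) * Complex.I))) := by
    intro j
    rw [Complex.exp_nat_mul]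
  rw [Finset.prod_congr rfl (fun j _ => h2 j), ← Complex.exp_sum]
  congr 1
  push_cast
  rw [Finset.mul_sum, Finset.sum_mul, ← Finset.sum_neg_distrib]
  apply Finset.sum_congr rfl
  intro j _
  ring

/-- The kernel sum along a line of slopes `v` is the density, up to the first moment of the kernel.
The angles `s l` satisfy `exp (i s l) = ω^l / x₀`. -/
theorem kernel_dens (b : Fin d) (n L : ℕ) (hn : 1 ≤ n) (x₀ : ℂ) (hx : ‖x₀‖ = 1)
    (v : Fin d → ℝ) (V : ℝ) (hV : 0 ≤ V) (hv : ∀ j ≠ b, |v j| ≤ V)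
    (hL : (d : ℝ) * V * n + 3 * n + 1 < L) (s : ℕ → ℝ)
    (hs : ∀ l < L, x₀ * Complex.exp (s l * Complex.I) = rt L ^ l) :
    ‖((n : ℂ) / L) * ∑ l ∈ Finset.range L, kap n (Complex.exp (-(s l * Complex.I))) ^ 3 *
        ∏ j ∈ Finset.univ.erase b, kap n (Complex.exp (-((v j * s l : ℝ) * Complex.I))) -
      (dens b n v : ℂ)‖ ≤
    ((n : ℝ) / L) * ∑ l ∈ Finset.range L, ‖kap n (Complex.exp (-(s l * Complex.I)))‖ ^ 3 * |s l| := by
  have hn0 : (0 : ℝ) < n := by positivity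
  have hnC : (n : ℂ) ≠ 0 := by exact_mod_cast hn0.ne'
  have hL0 : (0 : ℝ) < L := by
    have : 0 ≤ (d : ℝ) * V * n := by positivity
    linarith
  set w : ({j : Fin d // j ≠ b} → Fin n) → ℝ := fun m =>
    ∑ j : {j : Fin d // j ≠ b}, v j * ((m j : ℕ) : ℝ) with hw
  -- the frequencies are small
  have hwb : ∀ m, |w m| ≤ (d : ℝ) * V * n := by
    intro m
    refine (Finset.abs_sum_le_sum_abs _ _).trans ?_
    have h1 : ∀ j ∈ (Finset.univ : Finset {j : Fin d // j ≠ b}),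
        |v j * ((m j : ℕ) : ℝ)| ≤ V * n := by
      intro j _
      rw [abs_mul, abs_of_nonneg (Nat.cast_nonneg (m j : ℕ) : (0 : ℝ) ≤ ((m j : ℕ) : ℝ))]
      apply mul_le_mul (hv j j.2) _ (Nat.cast_nonneg _) hV
      exact_mod_cast (m j).isLt.le
    refine (Finset.sum_le_card_nsmul _ _ _ h1).trans ?_
    rw [nsmul_eq_mul, Finset.card_univ, card_ne, mul_assoc]
    apply mul_le_mul_of_nonneg_right _ (by positivity)
    exact_mod_cast Nat.sub_le d 1
  have hq : ∀ m, ((3 * n : ℕ) : ℤ) + |⌊w m⌋| < (L : ℤ) := by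
    intro m
    have h1 := abs_le.mp (hwb m)
    have h2 := Int.floor_le (w m)
    have h3 := Int.lt_floor_add_one (w m)
    have h4 : (((3 * n : ℕ) : ℤ) : ℝ) + |((⌊w m⌋ : ℤ) : ℝ)| < ((L : ℤ) : ℝ) := by
      have h5 : |((⌊w m⌋ : ℤ) : ℝ)| ≤ (d : ℝ) * V * n + 1 := by
        rw [abs_le]; constructor <;> linarith [h1.1, h1.2]
      push_cast
      linarith
    exact_mod_cast h4
  -- rewrite the density
  have hdens : (dens b n v : ℂ) = (1 / (n : ℂ) ^ (d - 1)) *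
      ∑ m, (((n : ℂ) / L) * ∑ l ∈ Finset.range L,
        kap n (Complex.exp (-(s l * Complex.I))) ^ 3 *
          Complex.exp (-((s l * (⌊w m⌋ : ℤ) : ℝ) * Complex.I))) := by
    rw [Finset.sum_congr rfl (fun m _ => kernel_int hn hx s hs ⌊w m⌋ (hq m))]
    unfold dens
    push_cast
    rw [div_eq_mul_inv, one_div, mul_comm]
  have hsum : ((n : ℂ) / L) * ∑ l ∈ Finset.range L, kap n (Complex.exp (-(s l * Complex.I))) ^ 3 *
        ∏ j ∈ Finset.univ.erase b, kap n (Complex.exp (-((v j * s l : ℝ) * Complex.I))) =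
      (1 / (n : ℂ) ^ (d - 1)) *
      ∑ m, (((n : ℂ) / L) * ∑ l ∈ Finset.range L,
        kap n (Complex.exp (-(s l * Complex.I))) ^ 3 *
          Complex.exp (-((s l * w m : ℝ) * Complex.I))) := by
    have h1 : ∀ l ∈ Finset.range L, kap n (Complex.exp (-(s l * Complex.I))) ^ 3 *
        ∏ j ∈ Finset.univ.erase b, kap n (Complex.exp (-((v j * s l : ℝ) * Complex.I))) =
        (1 / (n : ℂ) ^ (d - 1)) * ∑ m, kap n (Complex.exp (-(s l * Complex.I))) ^ 3 *
          Complex.exp (-((s l * w m : ℝ) * Complex.I)) := by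
      intro l _
      rw [prod_kap, ← Finset.mul_sum]
      ring
    rw [Finset.sum_congr rfl h1, ← Finset.mul_sum, Finset.sum_comm, ← Finset.mul_sum]
    ring
  rw [hsum, hdens, ← mul_sub, ← Finset.sum_sub_distrib]
  set E := ((n : ℝ) / L) * ∑ l ∈ Finset.range L,
    ‖kap n (Complex.exp (-(s l * Complex.I)))‖ ^ 3 * |s l| with hE
  have hterm : ∀ m ∈ (Finset.univ : Finset ({j : Fin d // j ≠ b} → Fin n)),
      ‖(((n : ℂ) / L) * ∑ l ∈ Finset.range L,
        kap n (Complex.exp (-(s l * Complex.I))) ^ 3 *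
          Complex.exp (-((s l * w m : ℝ) * Complex.I))) -
        (((n : ℂ) / L) * ∑ l ∈ Finset.range L,
        kap n (Complex.exp (-(s l * Complex.I))) ^ 3 *
          Complex.exp (-((s l * (⌊w m⌋ : ℤ) : ℝ) * Complex.I)))‖ ≤ E := by
    intro m _
    rw [← mul_sub, ← Finset.sum_sub_distrib, norm_mul, hE]
    have h1 : ‖(n : ℂ) / L‖ = (n : ℝ) / L := by
      rw [norm_div, Complex.norm_natCast, Complex.norm_natCast]
    rw [h1]
    apply mul_le_mul_of_nonneg_left _ (by positivity)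
    refine (norm_sum_le _ _).trans ?_
    apply Finset.sum_le_sum
    intro l _
    rw [← mul_sub, norm_mul, norm_pow]
    apply mul_le_mul_of_nonneg_left _ (by positivity)
    refine (norm_exp_sub_exp_le _ _).trans ?_
    rw [← mul_sub, abs_mul]
    have h2 := Int.floor_le (w m)
    have h3 := Int.lt_floor_add_one (w m)
    have h4 : |w m - ((⌊w m⌋ : ℤ) : ℝ)| ≤ 1 := by
      rw [abs_le]; constructor <;> linarith
    calc |s l| * |w m - ((⌊w m⌋ : ℤ) : ℝ)| ≤ |s l| * 1 :=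
          mul_le_mul_of_nonneg_left h4 (abs_nonneg _)
      _ = |s l| := mul_one _
  rw [norm_mul]
  have h5 : ‖1 / (n : ℂ) ^ (d - 1)‖ = 1 / (n : ℝ) ^ (d - 1) := by
    rw [norm_div, norm_pow, Complex.norm_natCast, norm_one]
  rw [h5]
  calc 1 / (n : ℝ) ^ (d - 1) * _ ≤ 1 / (n : ℝ) ^ (d - 1) * ((n : ℝ) ^ (d - 1) * E) := by
        apply mul_le_mul_of_nonneg_left _ (by positivity)
        refine (norm_sum_le _ _).trans ?_
        refine (Finset.sum_le_card_nsmul _ _ _ hterm).trans ?_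
        rw [nsmul_eq_mul, Finset.card_univ, card_tuples]
    _ = E := by
        rw [← mul_assoc, one_div, inv_mul_cancel₀ (by positivity), one_mul]

end Pool.MP4ac1fb.Curve
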