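import Pool.Agent.H.MP_4ac1fb_an.Curve.Defs

/-!
Dichotomy: at the common roots of separable polynomials `S_j(z_b, z_j)` a polynomial is zero or
bounded below by a nonzero polynomial in `z_b`.
-/

namespace Pool.MP4ac1fb.Curve

open MvPolynomial

variable {d : ℕ}

/-- On the common zeros of nonzero polynomials `S_j(z_b, z_j)` every polynomial function satisfies
a nonzero polynomial equation over `ℂ[z_b]`. -/
lemma exists_relation (b : Fin d) (S : Fin d → Polynomial (Polynomial ℂ))
    (hS : ∀ j ≠ b, S j ≠ 0) (Φ : MvPolynomial (Fin d) ℂ) :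
    ∃ p : Polynomial (Polynomial ℂ), p ≠ 0 ∧ ∀ z : Fin d → ℂ,
      (∀ j ≠ b, (S j).evalEval (z b) (z j) = 0) → p.evalEval (z b) (eval z Φ) = 0 := by
  classical
  let V := {z : Fin d → ℂ // ∀ j ≠ b, (S j).evalEval (z b) (z j) = 0}
  let ι : Polynomial ℂ →+* (V → ℂ) := RingHom.pi fun z => Polynomial.evalRingHom (z.1 b)
  let _ : Algebra (Polynomial ℂ) (V → ℂ) := ι.toAlgebra
  have hι : ∀ (q : Polynomial ℂ) (z : V), algebraMap (Polynomial ℂ) (V → ℂ) q z = q.eval (z.1 b) :=
    fun q z => rfl
  have haeval : ∀ (p : Polynomial (Polynomial ℂ)) (f : V → ℂ) (z : V),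
      (Polynomial.aeval f p) z = p.evalEval (z.1 b) (f z) := by
    intro p f z
    induction p using Polynomial.induction_on' with
    | add p q hp hq => simp [hp, hq]
    | monomial n a =>
      rw [Polynomial.aeval_monomial, Pi.mul_apply, hι, Pi.pow_apply, ← Polynomial.C_mul_X_pow_eq_monomial]
      simp [Polynomial.evalEval]
  have key : IsAlgebraic (Polynomial ℂ) (fun z : V => eval z.1 Φ) := by
    induction Φ using MvPolynomial.induction_on with
    | C a =>
      have : (fun z : V => eval z.1 (C a)) = algebraMap (Polynomial ℂ) (V → ℂ) (Polynomial.C a) := by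
        funext z; rw [hι]; simp
      rw [this]; exact isAlgebraic_algebraMap _
    | add p q hp hq =>
      have : (fun z : V => eval z.1 (p + q)) = (fun z : V => eval z.1 p) + (fun z : V => eval z.1 q) := by
        funext z; simp
      rw [this]; exact hp.add hq
    | mul_X p j hp =>
      have : (fun z : V => eval z.1 (p * X j)) = (fun z : V => eval z.1 p) * (fun z : V => z.1 j) := by
        funext z; simp
      rw [this]
      refine hp.mul ?_
      by_cases hj : j = b
      · subst hj
        have : (fun z : V => z.1 j) = algebraMap (Polynomial ℂ) (V → ℂ) Polynomial.X := by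
          funext z; rw [hι]; simp
        rw [this]; exact isAlgebraic_algebraMap _
      · refine ⟨S j, hS j hj, ?_⟩
        funext z
        rw [haeval]
        exact z.2 j hj
  obtain ⟨p, hp, hp0⟩ := key
  refine ⟨p, hp, fun z hz => ?_⟩
  have := congrFun hp0 ⟨z, hz⟩
  rw [haeval] at this
  exact this

theorem dichotomy (b : Fin d) (S : Fin d → Polynomial (Polynomial ℂ))
    (hS : ∀ j ≠ b, ∃ A B : Polynomial (Polynomial ℂ), ∃ N : Polynomial ℂ, N ≠ 0 ∧
      A * S j + B * Polynomial.derivative (S j) = Polynomial.C N)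
    (Φ : MvPolynomial (Fin d) ℂ) :
    ∃ N : Polynomial ℂ, N ≠ 0 ∧ ∃ C : ℝ, ∀ z : Fin d → ℂ, (∀ j, ‖z j‖ ≤ 2) →
      (∀ j ≠ b, (S j).evalEval (z b) (z j) = 0) →
      eval z Φ = 0 ∨ ‖N.eval (z b)‖ ≤ C * ‖eval z Φ‖ := by
  classical
  have hS0 : ∀ j ≠ b, S j ≠ 0 := by
    intro j hj h0
    obtain ⟨A, B, N, hN, h⟩ := hS j hj
    rw [h0] at h
    simp only [mul_zero, Polynomial.derivative_zero, add_zero] at h
    exact hN (Polynomial.C_eq_zero.mp h.symm)
  obtain ⟨p, hp, hrel⟩ := exists_relation b S hS0 Φ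
  obtain ⟨g, hg, hg0⟩ := Polynomial.exists_eq_pow_rootMultiplicity_mul_and_not_dvd p hp 0
  set m := p.rootMultiplicity 0
  simp only [Polynomial.C_0, sub_zero] at hg hg0
  have hN : g.coeff 0 ≠ 0 := fun h => hg0 (Polynomial.X_dvd_iff.mpr h)
  obtain ⟨h, hh⟩ : ∃ h : Polynomial (Polynomial ℂ), g = Polynomial.X * h + Polynomial.C (g.coeff 0) :=
    ⟨g.divX, (Polynomial.X_mul_divX_add g).symm⟩
  -- boundedness of `h`
  have hcont : Continuous fun z : Fin d → ℂ => h.evalEval (z b) (eval z Φ) := by
    have h1 : ∀ q : Polynomial (Polynomial ℂ), Continuous fun z : Fin d → ℂ =>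
        q.evalEval (z b) (eval z Φ) := by
      intro q
      induction q using Polynomial.induction_on' with
      | add p q hp hq =>
        have : (fun z : Fin d → ℂ => (p + q).evalEval (z b) (eval z Φ)) =
            fun z => p.evalEval (z b) (eval z Φ) + q.evalEval (z b) (eval z Φ) := by
          funext z; simp
        rw [this]
        exact hp.add hq
      | monomial n a =>
        have : (fun z : Fin d → ℂ => (Polynomial.monomial n a).evalEval (z b) (eval z Φ)) =
            fun z => a.eval (z b) * (eval z Φ) ^ n := by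
          funext z
          rw [← Polynomial.C_mul_X_pow_eq_monomial]
          simp [Polynomial.evalEval]
        rw [this]
        exact ((Polynomial.continuous a).comp (continuous_apply b)).mul
          ((MvPolynomial.continuous_eval Φ).pow n)
    exact h1 h
  obtain ⟨C, hC⟩ : ∃ C : ℝ, ∀ z : Fin d → ℂ, (∀ j, ‖z j‖ ≤ 2) →
      ‖h.evalEval (z b) (eval z Φ)‖ ≤ C := by
    have hK : IsCompact (Set.pi Set.univ fun _ : Fin d => Metric.closedBall (0 : ℂ) 2) :=
      isCompact_univ_pi fun _ => isCompact_closedBall _ _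
    obtain ⟨C, hC⟩ := hK.exists_bound_of_continuousOn hcont.continuousOn
    refine ⟨C, fun z hz => hC z ?_⟩
    intro j _
    simpa using hz j
  refine ⟨g.coeff 0, hN, C, fun z hz hzS => ?_⟩
  by_cases h0 : eval z Φ = 0
  · exact Or.inl h0
  right
  have h1 := hrel z hzS
  rw [hg] at h1
  simp only [Polynomial.evalEval_mul, Polynomial.evalEval_pow, Polynomial.evalEval_X] at h1
  have h2 : g.evalEval (z b) (eval z Φ) = 0 := by
    rcases mul_eq_zero.mp h1 with h3 | h3
    · exact absurd (eq_zero_of_pow_eq_zero h3) h0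
    · exact h3
  rw [hh] at h2
  simp only [Polynomial.evalEval_add, Polynomial.evalEval_mul, Polynomial.evalEval_X,
    Polynomial.evalEval_C] at h2
  have h3 : (g.coeff 0).eval (z b) = -(eval z Φ * h.evalEval (z b) (eval z Φ)) := by
    rw [← add_eq_zero_iff_eq_neg, add_comm]; exact h2
  rw [h3, norm_neg, norm_mul, mul_comm]
  exact mul_le_mul_of_nonneg_right (hC z hz) (norm_nonneg _)

end Pool.MP4ac1fb.Curve
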