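import Pool.Agent.H.MP_4ac1fb_an.Curve.EvalC

/-!
Polynomials close to `g` near the zero set of `P` on the torus, with small coefficients.
-/

namespace Pool.MP4ac1fb.Curve

open MvPolynomial Filter Topology

variable {d : ℕ}

open CData in
/-- Polynomials `f k` close to `g` near the zero set of `P` on the torus, with small coefficients. -/
theorem exists_bumps {b : Fin d} {P : MvPolynomial (Fin d) ℂ} (hP : NZIn P) (D : CData b P) :
    ∃ Q : ℕ, ∀ g : MvPolynomial (Fin d) ℂ, ∀ Cg : ℝ,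
      (∀ z, OnT z → ‖eval z g‖ ≤ Cg * ‖D.N.eval (z b)‖ ^ Q) →
      (∀ j, j ≠ b → ∀ ζ : ℂ, ‖ζ‖ = 1 → D.ConstAt j ζ → ∀ z, OnT z →
        ‖eval z g‖ ≤ Cg * ‖z j - ζ‖) →
      ∃ (A : ℕ) (C : ℝ) (n : ℕ → ℕ) (f : ℕ → MvPolynomial (Fin d) ℂ),
        (∀ k, 1 ≤ n k) ∧ Tendsto n atTop atTop ∧ (∀ k, n k ≤ (k + 1) ^ A) ∧
        (∀ k, (f k).totalDegree ≤ (d + 2) * n k) ∧
        (∀ k ζ, OnT ζ → ‖eval ζ (f k)‖ ≤ C) ∧
        (∀ k, ∑ m ∈ (f k).support, ‖coeff m (f k)‖ ^ 2 ≤ C / (n k : ℝ) ^ (d - 1)) ∧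
        (∀ᶠ k : ℕ in atTop, ∀ ζ, OnT ζ → ‖eval ζ P‖ ≤ 1 / (k : ℝ) ^ A →
          ‖eval ζ g - eval ζ (f k)‖ ≤ C / k) := by
  classical
  obtain ⟨A₁, c₁, hc₁, hd⟩ := dens_lower b
  refine ⟨3 * A₁ + 1, fun g Cg g1 g2 => ?_⟩
  have hK0 := D.K_pos
  obtain ⟨Lg, hLg, glip⟩ := mv_lip g
  have hCg : 0 ≤ Cg ∨ Cg < 0 := le_or_gt 0 Cg
  -- we may assume `Cg ≥ 0`
  obtain ⟨Cg', hCg', hle⟩ : ∃ Cg' : ℝ, 0 ≤ Cg' ∧ Cg ≤ Cg' := ⟨|Cg|, abs_nonneg _, le_abs_self _⟩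
  have G : Par D g A₁ c₁ Cg' Lg := ⟨hc₁, hd, hCg', hLg,
    fun z hz => (g1 z hz).trans (by gcongr), fun j hj ζ hζ hc z hz =>
      (g2 j hj ζ hζ hc z hz).trans (by gcongr), glip⟩
  obtain ⟨e, he⟩ : ∃ e, e = 12 * A₁ + 40 := ⟨_, rfl⟩
  obtain ⟨k₀, hk₀⟩ := exists_nat_ge (max (2 * D.K) (1 / c₁))
  have hS : ∀ k, k₀ ≤ k → Scale D A₁ c₁ e ((k : ℝ) + 1) ((k + 1) ^ (3 * e))
      ((d + 3) * ((k + 1) ^ (3 * e)) ^ 2) := by
    intro k hk
    have h1 : (k₀ : ℝ) ≤ k := by exact_mod_cast hk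
    refine ⟨he, ?_, ?_, by push_cast; rfl, rfl⟩
    · linarith [le_max_left (2 * D.K) (1 / c₁)]
    · linarith [le_max_right (2 * D.K) (1 / c₁)]
  set C' := Cg' * D.K ^ (3 * A₁) / c₁ with hC'
  have hC'0 : 0 ≤ C' := by positivity
  set n : ℕ → ℕ := fun k => (k + 1) ^ (3 * e) with hn
  set f : ℕ → MvPolynomial (Fin d) ℂ := fun k => if k₀ ≤ k then
    bump b (n k) ((d + 3) * (n k) ^ 2) (fun l => D.fibre ((k : ℝ) + 1) (rt ((d + 3) * (n k) ^ 2) ^ l))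
      (D.cw g (n k)) else 0 with hf
  set C₁ := 2 * Cg' + D.K ^ d * C' * (6 + D.K) with hC₁
  set C₂ := Cg' + D.K ^ d * C' * 8 with hC₂
  set C₃ := (D.K ^ d * C') * 8 + (2 * Lg + 3 * Cg') + C' * 23 with hC₃
  have hC₁0 : 0 ≤ C₁ := by positivity
  have hC₂0 : 0 ≤ C₂ := by positivity
  have hC₃0 : 0 ≤ C₃ := by positivity
  set C := C₁ + C₂ + C₃ + D.K ^ d * C' + (D.K ^ d * C') ^ 2 with hC
  have hC0 : 0 ≤ C := by positivity
  have hmem : ∀ k, k₀ ≤ k → ∀ l, ∀ y ∈ D.fibre ((k : ℝ) + 1) (rt ((d + 3) * (n k) ^ 2) ^ l),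
      OnT y ∧ ‖D.cw g (n k) y‖ ≤ C' := by
    intro k hk l y hy
    obtain ⟨h1, h2, h3⟩ := (mem_fib (hS k hk)).mp hy
    refine ⟨h2.1, (cw_le hP G (hS k hk) h2 h3).trans ?_⟩
    have h5 : ‖D.N.eval (y b)‖ ≤ 1 := D.N_le _ (by rw [h2.1 b]; norm_num)
    calc C' * ‖D.N.eval (y b)‖ ≤ C' * 1 := by gcongr
      _ = C' := mul_one _
  refine ⟨2 * ((4 * e + 4) * D.M + 2) + 3 * e, C, n, f, ?_, ?_, ?_, ?_, ?_, ?_, ?_⟩
  · intro k; exact Nat.one_le_pow _ _ (Nat.succ_pos k)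
  · apply tendsto_atTop_mono (f := fun k => k + 1)
    · intro k
      exact Nat.le_self_pow (by omega) _
    · exact tendsto_add_atTop_nat 1
  · intro k
    exact Nat.pow_le_pow_right (Nat.succ_pos k) (by omega)
  · intro k
    rw [hf]
    simp only
    split_ifs with hk
    · exact totalDegree_bump _ _ _ _ _
    · simp
  · intro k ζ hζ
    rw [hf]
    simp only
    split_ifs with hk
    · refine (sup_bump b (n k) _ (hS k hk).n1 (hS k hk).n_le_L _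
        (fun l _ y hy => (hmem k hk l y hy).1) _ (D.K ^ d) C' hC'0
        (fun l _ => D.card_fibre _ _) (fun l _ y hy => (hmem k hk l y hy).2) ζ hζ).trans ?_
      have : 0 ≤ C₁ + C₂ + C₃ := by positivity
      have : 0 ≤ (D.K ^ d * C') ^ 2 := by positivity
      rw [hC]; linarith
    · rw [map_zero, norm_zero]; exact hC0
  · intro k
    rw [hf]
    simp only
    split_ifs with hk
    · have hLL : (d + 2) * n k < (d + 3) * (n k) ^ 2 := by
        have h1 := (hS k hk).n1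
        have h2 : n k ≤ n k ^ 2 := Nat.le_self_pow (by norm_num) _
        have h3 : 1 ≤ n k := h1
        calc (d + 2) * n k < (d + 3) * n k := Nat.mul_lt_mul_of_pos_right (by omega) (by omega)
          _ ≤ (d + 3) * (n k) ^ 2 := Nat.mul_le_mul_left _ h2
      refine (coeff_bump b (n k) _ (hS k hk).n1 hLL _
        (fun l _ y hy => (hmem k hk l y hy).1) _ (D.K ^ d) C' hC'0
        (fun l _ => D.card_fibre _ _) (fun l _ y hy => (hmem k hk l y hy).2)).trans ?_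
      have h4 : (D.K ^ d * C') ^ 2 ≤ C := by
        have : 0 ≤ C₁ + C₂ + C₃ := by positivity
        have : 0 ≤ D.K ^ d * C' := by positivity
        rw [hC]; linarith
      gcongr
    · simp only [MvPolynomial.support_zero, Finset.sum_empty]
      positivity
  · filter_upwards [eventually_ge_atTop (max k₀ 2)] with k hk ζ hζ hPζ
    have hk0 : k₀ ≤ k := (le_max_left _ _).trans hk
    have hk2 : 2 ≤ k := (le_max_right _ _).trans hk
    have S := hS k hk0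
    have hkr : (2 : ℝ) ≤ k := by exact_mod_cast hk2
    obtain ⟨κ, hκ⟩ : ∃ κ : ℝ, κ = (k : ℝ) + 1 := ⟨_, rfl⟩
    rw [← hκ] at S
    have hκ0 := S.κ0
    have hκ1 := S.κ1
    have hfk : f k = bump b (n k) ((d + 3) * (n k) ^ 2)
        (fun l => D.fibre κ (rt ((d + 3) * (n k) ^ 2) ^ l)) (D.cw g (n k)) := by
      rw [hf]; simp only; rw [if_pos hk0, hκ]
    rw [hfk]
    -- the hypothesis in terms of κ
    have hPκ : ‖eval ζ P‖ ≤ 1 / κ ^ ((4 * e + 4) * D.M + 2) := by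
      refine hPζ.trans ?_
      have h1 : κ ≤ (k : ℝ) ^ 2 := by rw [hκ]; nlinarith
      have h2 : κ ^ ((4 * e + 4) * D.M + 2) ≤ (k : ℝ) ^ (2 * ((4 * e + 4) * D.M + 2) + 3 * e) := by
        calc κ ^ ((4 * e + 4) * D.M + 2) ≤ ((k : ℝ) ^ 2) ^ ((4 * e + 4) * D.M + 2) := by gcongr
          _ = (k : ℝ) ^ (2 * ((4 * e + 4) * D.M + 2)) := by rw [← pow_mul]
          _ ≤ _ := pow_le_pow_right₀ (by linarith) (by omega)
      gcongr
    have hfin : ∀ E : ℝ, 0 ≤ E → E ≤ C → E / κ ≤ C / k := by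
      intro E hE hEC
      have h1 : (k : ℝ) ≤ κ := by rw [hκ]; linarith
      have h2 : (0 : ℝ) < k := by linarith
      gcongr
    have hCle : C₁ ≤ C ∧ C₂ ≤ C ∧ C₃ ≤ C := by
      have h1 : 0 ≤ D.K ^ d * C' := by positivity
      have h2 : 0 ≤ (D.K ^ d * C') ^ 2 := by positivity
      rw [hC]
      refine ⟨?_, ?_, ?_⟩ <;> linarith
    obtain ⟨s, hs1, hs2⟩ := exists_angles ((d + 3) * (n k) ^ 2) S.L0 (ζ b) (hζ b)
    have hs : Ang ζ b ((d + 3) * (n k) ^ 2) s := ⟨hs1, hs2⟩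
    by_cases hN : ‖D.N.eval (ζ b)‖ < 2 / κ
    · exact (case1 hP G S hζ hs hN).trans (hfin C₁ hC₁0 hCle.1)
    · push Not at hN
      have hK2 : D.K ≤ κ / 2 := by linarith [S.hκ]
      obtain ⟨y, hy1, hy2, hy3⟩ := D.exists_near (κ := κ / 2) (τ := 1 / κ ^ (4 * e + 4)) hK2
        (by positivity) (by
          calc (1 / κ ^ (4 * e + 4)) * (κ / 2) ^ 10 ≤ (1 / κ ^ (4 * e + 4)) * κ ^ 10 := by
                gcongr; linarith
            _ = κ ^ 10 * (1 / κ ^ (4 * e + 4)) := by ring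
            _ ≤ 1 / κ ^ 0 := pw hκ1 (by omega)
            _ = 1 := by norm_num)
        hζ (by rw [one_div_div]; exact hN) (by
          calc (κ / 2) ^ 2 * ‖eval ζ P‖ ≤ κ ^ 2 * (1 / κ ^ ((4 * e + 4) * D.M + 2)) := by
                gcongr; linarith
            _ ≤ 1 / κ ^ ((4 * e + 4) * D.M) := pw hκ1 (by omega)
            _ = (1 / κ ^ (4 * e + 4)) ^ D.M := by rw [div_pow, one_pow, ← pow_mul])
      have hyz : ∀ j, ‖y j - ζ j‖ ≤ 1 / κ ^ (4 * e) := by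
        intro j
        refine (hy3 j).trans ?_
        calc (κ / 2) ^ 4 * (1 / κ ^ (4 * e + 4)) ≤ κ ^ 4 * (1 / κ ^ (4 * e + 4)) := by
              gcongr; linarith
          _ ≤ 1 / κ ^ (4 * e) := pw hκ1 (by omega)
      by_cases hgood : D.Good y
      · exact (case2b hP G S hζ hs hy1 hy2 hgood hyz).trans (hfin C₃ hC₃0 hCle.2.2)
      · unfold Good at hgood
        push Not at hgood
        obtain ⟨j, hj, hc⟩ := hgood
        exact (case2a hP G S hζ hs hy1.1 hj hc (hyz j)).trans (hfin C₂ hC₂0 hCle.2.1)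

end Pool.MP4ac1fb.Curve
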