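import Pool.Agent.H.MP_4ac1fb_an.Curve.Kernel
import Pool.Agent.H.MP_4ac1fb_an.Curve.Density

/-!
Sums of the kernel over the grid: near and far points, and lower bounds of the density at good
points.
-/

namespace Pool.MP4ac1fb.Curve

open MvPolynomial Filter Topology

variable {d : ℕ}

lemma exp_I_lower {s : ℝ} (hs : |s| ≤ Real.pi) :
    |s| / 2 ≤ ‖1 - Complex.exp (-(s * Complex.I))‖ := by
  have h1 : ‖Complex.exp (Complex.I * ((-s : ℝ) : ℂ)) - 1‖ = ‖2 * Real.sin (-s / 2)‖ :=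
    Complex.norm_exp_I_mul_ofReal_sub_one (-s)
  have h2 : ‖1 - Complex.exp (-(s * Complex.I))‖ = ‖2 * Real.sin (-s / 2)‖ := by
    rw [← h1, norm_sub_rev]
    congr 3
    push_cast
    ring
  rw [h2, norm_mul, Real.norm_eq_abs, Real.norm_eq_abs, abs_of_pos (by norm_num : (0 : ℝ) < 2)]
  have h3 : |Real.sin (-s / 2)| = Real.sin (|s| / 2) := by
    have h4 : 0 ≤ Real.sin (|s| / 2) := by
      apply Real.sin_nonneg_of_nonneg_of_le_pi
      · positivity
      · linarith [Real.pi_pos]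
    rcases le_total 0 s with h | h
    · rw [abs_of_nonneg h] at h4 ⊢
      rw [show -s / 2 = -(s / 2) by ring, Real.sin_neg, abs_neg, abs_of_nonneg h4]
    · rw [abs_of_nonpos h] at h4 ⊢
      exact abs_of_nonneg h4
  rw [h3]
  have h5 := Real.mul_le_sin (x := |s| / 2) (by positivity) (by linarith)
  have h6 : 1 / 2 ≤ 2 / Real.pi := by
    rw [div_le_div_iff₀ (by norm_num) Real.pi_pos]
    linarith [Real.pi_le_four]
  have h7 : 1 / 2 * (|s| / 2) ≤ 2 / Real.pi * (|s| / 2) := by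
    have : 0 ≤ |s| / 2 := by positivity
    exact mul_le_mul_of_nonneg_right h6 this
  linarith

section sums

variable {n L : ℕ} {x₀ : ℂ} {s : ℕ → ℝ}

lemma exp_eq_of (hx : ‖x₀‖ = 1) {l : ℕ} (hs : x₀ * Complex.exp (s l * Complex.I) = rt L ^ l) :
    Complex.exp (-(s l * Complex.I)) = x₀ * (starRingEnd ℂ) (rt L ^ l) := by
  have hx0 : x₀ * (starRingEnd ℂ) x₀ = 1 := by
    rw [Complex.mul_conj, Complex.normSq_eq_norm_sq, hx]; norm_num
  rw [← hs, map_mul, ← mul_assoc, hx0, one_mul, ← Complex.exp_conj, map_mul, Complex.conj_ofReal,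
    Complex.conj_I, mul_neg]

lemma sum_sq_eq (hn : 1 ≤ n) (hL : n ≤ L) (hx : ‖x₀‖ = 1)
    (hs : ∀ l < L, x₀ * Complex.exp (s l * Complex.I) = rt L ^ l) :
    ((n : ℝ) / L) * ∑ l ∈ Finset.range L, ‖kap n (Complex.exp (-(s l * Complex.I)))‖ ^ 2 = 1 := by
  have h1 : ∑ l ∈ Finset.range L, ‖kap n (Complex.exp (-(s l * Complex.I)))‖ ^ 2 = (L : ℝ) / n := by
    rw [← kap_sum n L hn hL x₀ hx]
    apply Finset.sum_congr rfl
    intro l hl
    rw [exp_eq_of hx (hs l (Finset.mem_range.mp hl))]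
  rw [h1]
  have : (0 : ℝ) < n := by exact_mod_cast hn
  have : (0 : ℝ) < L := by exact_mod_cast (lt_of_lt_of_le hn hL)
  field_simp

lemma norm_exp_neg (r : ℝ) : ‖Complex.exp (-(r * Complex.I))‖ = 1 := by
  have : -((r : ℂ) * Complex.I) = ((-r : ℝ) : ℂ) * Complex.I := by push_cast; ring
  rw [this, Complex.norm_exp_ofReal_mul_I]

lemma norm_exp_pos (r : ℝ) : ‖Complex.exp (r * Complex.I)‖ = 1 := Complex.norm_exp_ofReal_mul_I r

/-- near and far parts of a weighted sum -/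
lemma near_far (hn : 1 ≤ n) (hL : n ≤ L) (hx : ‖x₀‖ = 1)
    (hs : ∀ l < L, x₀ * Complex.exp (s l * Complex.I) = rt L ^ l)
    (hsπ : ∀ l < L, |s l| ≤ Real.pi) {η : ℝ} (hη : 0 < η) (H : ℕ → ℂ) {E B : ℝ} (hE : 0 ≤ E)
    (hB : 0 ≤ B) (hnear : ∀ l < L, |s l| ≤ η → ‖H l‖ ≤ E) (hall : ∀ l < L, ‖H l‖ ≤ B) :
    ‖((n : ℂ) / L) * ∑ l ∈ Finset.range L,
      kap n (Complex.exp (-(s l * Complex.I))) ^ 3 * H l‖ ≤ E + B * (4 / (n * η)) := by
  have hn0 : (0 : ℝ) < n := by exact_mod_cast hn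
  have hL0 : (0 : ℝ) < L := by exact_mod_cast (lt_of_lt_of_le hn hL)
  have h2 := sum_sq_eq hn hL hx hs
  have hterm : ∀ l ∈ Finset.range L, ‖kap n (Complex.exp (-(s l * Complex.I))) ^ 3 * H l‖ ≤
      ‖kap n (Complex.exp (-(s l * Complex.I)))‖ ^ 2 * (E + B * (4 / (n * η))) := by
    intro l hl
    have hl' := Finset.mem_range.mp hl
    have hk1 := kap_norm_le n _ (norm_exp_neg (s l)).le
    set a := ‖kap n (Complex.exp (-(s l * Complex.I)))‖ with ha
    have ha0 : 0 ≤ a := norm_nonneg _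
    rw [norm_mul, norm_pow, ← ha]
    have h3 : a * ‖H l‖ ≤ E + B * (4 / (n * η)) := by
      by_cases hc : |s l| ≤ η
      · have h4 := hnear l hl' hc
        have h5 : a * ‖H l‖ ≤ 1 * E := by gcongr
        have h6 : 0 ≤ B * (4 / (n * η)) := by positivity
        linarith
      · push Not at hc
        have h4 := hall l hl'
        have h5 := kap_decay n hn _ (norm_exp_neg (s l))
        rw [← ha] at h5
        have h6 := exp_I_lower (hsπ l hl')
        have h7 : a ≤ 4 / (n * η) := by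
          rw [le_div_iff₀ (by positivity)]
          have h8 : (n : ℝ) * (η / 2) * a ≤ 2 := by
            refine le_trans ?_ h5
            gcongr
            linarith
          linarith
        have h8 : a * ‖H l‖ ≤ (4 / (n * η)) * B := by gcongr
        linarith
    calc a ^ 3 * ‖H l‖ = a ^ 2 * (a * ‖H l‖) := by ring
      _ ≤ a ^ 2 * (E + B * (4 / (n * η))) := by gcongr
  rw [norm_mul]
  have h4 : ‖(n : ℂ) / L‖ = (n : ℝ) / L := by simp
  rw [h4]
  calc (n : ℝ) / L * ‖∑ l ∈ Finset.range L, kap n (Complex.exp (-(s l * Complex.I))) ^ 3 * H l‖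
      ≤ (n : ℝ) / L * ∑ l ∈ Finset.range L,
        ‖kap n (Complex.exp (-(s l * Complex.I)))‖ ^ 2 * (E + B * (4 / (n * η))) := by
        gcongr
        exact (norm_sum_le _ _).trans (Finset.sum_le_sum hterm)
    _ = ((n : ℝ) / L * ∑ l ∈ Finset.range L,
        ‖kap n (Complex.exp (-(s l * Complex.I)))‖ ^ 2) * (E + B * (4 / (n * η))) := by
        rw [← Finset.sum_mul]; ring
    _ = _ := by rw [h2, one_mul]

/-- first moment of the weights -/
lemma moment (hn : 1 ≤ n) (hL : n ≤ L) (hx : ‖x₀‖ = 1)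
    (hs : ∀ l < L, x₀ * Complex.exp (s l * Complex.I) = rt L ^ l)
    (hsπ : ∀ l < L, |s l| ≤ Real.pi) {η : ℝ} (hη : 0 < η) :
    ((n : ℝ) / L) * ∑ l ∈ Finset.range L,
      ‖kap n (Complex.exp (-(s l * Complex.I)))‖ ^ 3 * |s l| ≤ η + 4 * (4 / (n * η)) := by
  have hn0 : (0 : ℝ) < n := by exact_mod_cast hn
  have hL0 : (0 : ℝ) < L := by exact_mod_cast (lt_of_lt_of_le hn hL)
  have h2 := sum_sq_eq hn hL hx hs
  have hterm : ∀ l ∈ Finset.range L, ‖kap n (Complex.exp (-(s l * Complex.I)))‖ ^ 3 * |s l| ≤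
      ‖kap n (Complex.exp (-(s l * Complex.I)))‖ ^ 2 * (η + 4 * (4 / (n * η))) := by
    intro l hl
    have hl' := Finset.mem_range.mp hl
    have hk1 := kap_norm_le n _ (norm_exp_neg (s l)).le
    set a := ‖kap n (Complex.exp (-(s l * Complex.I)))‖ with ha
    have ha0 : 0 ≤ a := norm_nonneg _
    have h3 : a * |s l| ≤ η + 4 * (4 / (n * η)) := by
      by_cases hc : |s l| ≤ η
      · have h5 : a * |s l| ≤ 1 * η := by gcongr
        have h6 : 0 ≤ 4 * (4 / (n * η)) := by positivity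
        linarith
      · push Not at hc
        have h4 := hsπ l hl'
        have h5 := kap_decay n hn _ (norm_exp_neg (s l))
        rw [← ha] at h5
        have h6 := exp_I_lower (hsπ l hl')
        have h7 : a ≤ 4 / (n * η) := by
          rw [le_div_iff₀ (by positivity)]
          have h8 : (n : ℝ) * (η / 2) * a ≤ 2 := by
            refine le_trans ?_ h5
            gcongr
            linarith
          linarith
        have h8 : a * |s l| ≤ (4 / (n * η)) * 4 := by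
          gcongr
          linarith [Real.pi_le_four]
        linarith
    calc a ^ 3 * |s l| = a ^ 2 * (a * |s l|) := by ring
      _ ≤ a ^ 2 * (η + 4 * (4 / (n * η))) := by gcongr
  calc (n : ℝ) / L * ∑ l ∈ Finset.range L,
        ‖kap n (Complex.exp (-(s l * Complex.I)))‖ ^ 3 * |s l|
      ≤ (n : ℝ) / L * ∑ l ∈ Finset.range L,
        ‖kap n (Complex.exp (-(s l * Complex.I)))‖ ^ 2 * (η + 4 * (4 / (n * η))) :=
        mul_le_mul_of_nonneg_left (Finset.sum_le_sum hterm) (by positivity)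
    _ = ((n : ℝ) / L * ∑ l ∈ Finset.range L,
        ‖kap n (Complex.exp (-(s l * Complex.I)))‖ ^ 2) * (η + 4 * (4 / (n * η))) := by
        rw [← Finset.sum_mul]; ring
    _ = _ := by rw [h2, one_mul]

end sums

lemma exists_angles (L : ℕ) (hL : L ≠ 0) (x₀ : ℂ) (hx : ‖x₀‖ = 1) : ∃ s : ℕ → ℝ,
    (∀ l < L, x₀ * Complex.exp (s l * Complex.I) = rt L ^ l) ∧ ∀ l < L, |s l| ≤ Real.pi := by
  refine ⟨fun l => Complex.arg ((starRingEnd ℂ) x₀ * rt L ^ l), fun l _ => ?_, fun l _ =>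
    Complex.abs_arg_le_pi _⟩
  have hx0 : x₀ * (starRingEnd ℂ) x₀ = 1 := by
    rw [Complex.mul_conj, Complex.normSq_eq_norm_sq, hx]; norm_num
  have h1 := Complex.norm_mul_exp_arg_mul_I ((starRingEnd ℂ) x₀ * rt L ^ l)
  have h2 : ‖(starRingEnd ℂ) x₀ * rt L ^ l‖ = 1 := by
    rw [norm_mul, RCLike.norm_conj, hx, norm_pow, norm_rt hL, one_pow, one_mul]
  rw [h2, Complex.ofReal_one, one_mul] at h1
  simp only
  rw [h1, ← mul_assoc, hx0, one_mul]

/-- products of bounded factors -/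
lemma prod_sub_le {ι : Type*} (t : Finset ι) (u w : ι → ℂ) {ε : ℝ} (hε : 0 ≤ ε)
    (hu : ∀ j ∈ t, ‖u j‖ ≤ 1) (hw : ∀ j ∈ t, ‖w j‖ ≤ 1) (h : ∀ j ∈ t, ‖u j - w j‖ ≤ ε) :
    ‖∏ j ∈ t, u j - ∏ j ∈ t, w j‖ ≤ t.card * ε := by
  classical
  induction t using Finset.induction_on with
  | empty => simp
  | insert a t ha ih =>
    rw [Finset.prod_insert ha, Finset.prod_insert ha, Finset.card_insert_of_notMem ha]
    have h1 := ih (fun j hj => hu j (Finset.mem_insert_of_mem hj))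
      (fun j hj => hw j (Finset.mem_insert_of_mem hj))
      (fun j hj => h j (Finset.mem_insert_of_mem hj))
    have e : u a * ∏ j ∈ t, u j - w a * ∏ j ∈ t, w j =
      u a * (∏ j ∈ t, u j - ∏ j ∈ t, w j) + (u a - w a) * ∏ j ∈ t, w j := by ring
    rw [e]
    refine (norm_add_le _ _).trans ?_
    rw [norm_mul, norm_mul]
    have h2 : ‖∏ j ∈ t, w j‖ ≤ 1 := by
      rw [norm_prod]
      exact Finset.prod_le_one (fun _ _ => norm_nonneg _)
        (fun j hj => hw j (Finset.mem_insert_of_mem hj))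
    have h3 := hu a (Finset.mem_insert_self a t)
    have h4 := h a (Finset.mem_insert_self a t)
    have h5 : ‖u a‖ * ‖∏ j ∈ t, u j - ∏ j ∈ t, w j‖ ≤ 1 * (t.card * ε) := by gcongr
    have h6 : ‖u a - w a‖ * ‖∏ j ∈ t, w j‖ ≤ ε * 1 := by gcongr
    push_cast
    linarith

lemma prod_norm_le {ι : Type*} (t : Finset ι) (u : ι → ℂ) (hu : ∀ j ∈ t, ‖u j‖ ≤ 1) {a : ι}
    (ha : a ∈ t) {ε : ℝ} (h : ‖u a‖ ≤ ε) : ‖∏ j ∈ t, u j‖ ≤ ε := by
  classical
  rw [← Finset.mul_prod_erase t u ha, norm_mul]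
  have h2 : ‖∏ j ∈ t.erase a, u j‖ ≤ 1 := by
    rw [norm_prod]
    exact Finset.prod_le_one (fun _ _ => norm_nonneg _)
      (fun j hj => hu j (Finset.mem_of_mem_erase hj))
  calc ‖u a‖ * ‖∏ j ∈ t.erase a, u j‖ ≤ ε * 1 := by
        gcongr
        exact (norm_nonneg _).trans h
    _ = ε := mul_one ε

namespace CData

variable {b : Fin d} {P : MvPolynomial (Fin d) ℂ}

/-- the slope vector -/
noncomputable def vv (D : CData b P) (y : Fin d → ℂ) : Fin d → ℝ := fun j => D.v j y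

/-- lower bound for the density at good zeros -/
lemma dens_at (hP : NZIn P) (D : CData b P) {A₁ : ℕ} {c₁ : ℝ} (hc₁ : 0 < c₁)
    (hd : ∀ ρ : ℝ, 0 < ρ → ρ ≤ 1 →
      ∀ v : Fin d → ℝ, (∀ j ≠ b, |v j| ≤ 1 / ρ) → (∃ i, i ≠ b ∧ v i ≤ -ρ) →
      ∀ n : ℕ, 1 ≤ c₁ * ρ ^ A₁ * n → c₁ * ρ ^ A₁ ≤ dens b n v)
    {κ : ℝ} (hκ : D.K ≤ κ) {y : Fin d → ℂ} (hy : D.Nd κ y) (hg : D.Good y) (n : ℕ)
    (hn : κ ^ (6 * A₁) ≤ c₁ * n) :
    c₁ * (‖D.N.eval (y b)‖ / D.K) ^ (3 * A₁) ≤ dens b n (D.vv y) ∧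
      c₁ / κ ^ (6 * A₁) ≤ dens b n (D.vv y) := by
  have hK := D.hK
  have hK0 := D.K_pos
  have hκ0 : 0 < κ := by linarith
  set δ := ‖D.N.eval (y b)‖ with hδ
  have hδ0 : 0 < δ := norm_pos_iff.mpr (hy.pos hκ)
  have hδ1 : δ ≤ 1 := D.N_le _ (by rw [hy.1 b]; norm_num)
  have hKδ : D.K ≤ D.K / δ := by
    rw [le_div_iff₀ hδ0]; nlinarith
  have hy' : D.Nd (D.K / δ) y := by
    refine ⟨hy.1, hy.2.1, ?_⟩
    rw [one_div_div, ← hδ, div_le_iff₀ hK0]
    nlinarith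
  have hρ0 : 0 < (δ / D.K) ^ 3 := by positivity
  have hρ1 : (δ / D.K) ^ 3 ≤ 1 := by
    apply pow_le_one₀ (by positivity)
    rw [div_le_one hK0]; linarith
  have hρκ : 1 / κ ^ 6 ≤ (δ / D.K) ^ 3 := by
    have h1 : 1 / κ ^ 2 ≤ δ / D.K := by
      rw [div_le_div_iff₀ (by positivity) hK0, one_mul]
      have h2 : 1 / κ ≤ δ := hy.2.2
      rw [div_le_iff₀ hκ0] at h2
      nlinarith
    calc 1 / κ ^ 6 = (1 / κ ^ 2) ^ 3 := by
          rw [div_pow, one_pow, ← pow_mul]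
      _ ≤ _ := by gcongr
  have hpow : 1 / κ ^ (6 * A₁) ≤ ((δ / D.K) ^ 3) ^ A₁ := by
    calc 1 / κ ^ (6 * A₁) = (1 / κ ^ 6) ^ A₁ := by rw [div_pow, one_pow, ← pow_mul]
      _ ≤ _ := by gcongr
  have h3 := hd ((δ / D.K) ^ 3) hρ0 hρ1 (D.vv y)
    (fun j hj => by
      have h4 := hy'.abs_v hKδ hj
      unfold vv
      rw [one_div, ← inv_pow, inv_div]
      exact h4)
    (by
      obtain ⟨j, hj, hv⟩ := hy'.exists_neg hP hKδ hg
      refine ⟨j, hj, ?_⟩
      unfold vv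
      rwa [one_div, ← inv_pow, inv_div] at hv)
    n (by
      calc (1 : ℝ) = κ ^ (6 * A₁) * (1 / κ ^ (6 * A₁)) := by field_simp
        _ ≤ c₁ * n * ((δ / D.K) ^ 3) ^ A₁ := by gcongr
        _ = _ := by ring)
  constructor
  · rw [pow_mul]; exact h3
  · refine le_trans ?_ h3
    calc c₁ / κ ^ (6 * A₁) = c₁ * (1 / κ ^ (6 * A₁)) := by ring
      _ ≤ _ := by gcongr

end CData

end Pool.MP4ac1fb.Curve
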