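import Pool.Agent.H.MP_4ac1fb_an.Curve.EvalA

/-!
The bump polynomials approximate `g` near the zero set of `P`.
-/

namespace Pool.MP4ac1fb.Curve

open MvPolynomial Filter Topology

variable {d : ℕ}

lemma kap_sep {n : ℕ} (hn : 1 ≤ n) {z y : ℂ} (hz : ‖z‖ = 1) (hy : ‖y‖ = 1) {r : ℝ} (hr : 0 < r)
    (h : r ≤ ‖z - y‖) : ‖kap n (z * (starRingEnd ℂ) y)‖ ≤ 2 / (n * r) := by
  have hyy : y * (starRingEnd ℂ) y = 1 := by
    rw [Complex.mul_conj, Complex.normSq_eq_norm_sq, hy]; norm_num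
  have h1 : ‖1 - z * (starRingEnd ℂ) y‖ = ‖z - y‖ := by
    have : 1 - z * (starRingEnd ℂ) y = -((z - y) * (starRingEnd ℂ) y) := by
      rw [sub_mul, hyy]; ring
    rw [this, norm_neg, norm_mul, RCLike.norm_conj, hy, mul_one]
  have hw : ‖z * (starRingEnd ℂ) y‖ = 1 := by rw [norm_mul, RCLike.norm_conj, hz, hy, mul_one]
  have h2 := kap_decay n hn _ hw
  rw [h1] at h2
  have hn0 : (0 : ℝ) < n := by exact_mod_cast hn
  rw [le_div_iff₀ (by positivity)]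
  calc ‖kap n (z * (starRingEnd ℂ) y)‖ * (n * r) = n * r * ‖kap n (z * (starRingEnd ℂ) y)‖ := by
        ring
    _ ≤ n * ‖z - y‖ * ‖kap n (z * (starRingEnd ℂ) y)‖ := by gcongr
    _ ≤ 2 := h2

lemma norm_mul_conj {z y : ℂ} (hz : ‖z‖ = 1) (hy : ‖y‖ = 1) : ‖z * (starRingEnd ℂ) y‖ = 1 := by
  rw [norm_mul, RCLike.norm_conj, hz, hy, mul_one]

lemma pw {κ : ℝ} (hκ : 1 ≤ κ) {a b c : ℕ} (h : a + c ≤ b) : κ ^ a * (1 / κ ^ b) ≤ 1 / κ ^ c := by
  have hκ0 : 0 < κ := by linarith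
  rw [mul_one_div, div_le_div_iff₀ (by positivity) (by positivity), one_mul, ← pow_add]
  exact pow_le_pow_right₀ hκ h

namespace CData

variable {b : Fin d} {P : MvPolynomial (Fin d) ℂ}

/-- the coefficient of the bump centred at `y` -/
noncomputable def cw (D : CData b P) (g : MvPolynomial (Fin d) ℂ) (n : ℕ) (y : Fin d → ℂ) : ℂ :=
  eval y g / (dens b n (D.vv y) : ℂ)

/-- standing assumptions for the estimates -/
structure Par (D : CData b P) (g : MvPolynomial (Fin d) ℂ) (A₁ : ℕ) (c₁ Cg Lg : ℝ) : Prop where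
  hc₁ : 0 < c₁
  hd : ∀ ρ : ℝ, 0 < ρ → ρ ≤ 1 →
      ∀ v : Fin d → ℝ, (∀ j ≠ b, |v j| ≤ 1 / ρ) → (∃ i, i ≠ b ∧ v i ≤ -ρ) →
      ∀ n : ℕ, 1 ≤ c₁ * ρ ^ A₁ * n → c₁ * ρ ^ A₁ ≤ dens b n v
  hCg : 0 ≤ Cg
  hLg : 0 ≤ Lg
  g1 : ∀ z, OnT z → ‖eval z g‖ ≤ Cg * ‖D.N.eval (z b)‖ ^ (3 * A₁ + 1)
  g2 : ∀ j, j ≠ b → ∀ ζ : ℂ, ‖ζ‖ = 1 → D.ConstAt j ζ → ∀ z, OnT z →
        ‖eval z g‖ ≤ Cg * ‖z j - ζ‖
  glip : ∀ z z' : Fin d → ℂ, (∀ j, ‖z j‖ ≤ 2) → (∀ j, ‖z' j‖ ≤ 2) →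
    ‖eval z' g - eval z g‖ ≤ Lg * ∑ j, ‖z' j - z j‖

/-- standing assumptions on the scale -/
structure Scale (D : CData b P) (A₁ : ℕ) (c₁ : ℝ) (e : ℕ) (κ : ℝ) (n L : ℕ) : Prop where
  he : e = 12 * A₁ + 40
  hκ : 2 * D.K ≤ κ
  hκc : 1 / c₁ ≤ κ
  hn : (n : ℝ) = κ ^ (3 * e)
  hL : L = (d + 3) * n ^ 2

variable {D : CData b P} {g : MvPolynomial (Fin d) ℂ} {A₁ : ℕ} {c₁ Cg Lg : ℝ}
  {e : ℕ} {κ : ℝ} {n L : ℕ}

lemma Scale.κ40 (S : Scale D A₁ c₁ e κ n L) : 40 ≤ κ := by linarith [D.hK, S.hκ]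

lemma Scale.κ1 (S : Scale D A₁ c₁ e κ n L) : 1 ≤ κ := by linarith [S.κ40]

lemma Scale.κ0 (S : Scale D A₁ c₁ e κ n L) : 0 < κ := by linarith [S.κ40]

lemma Scale.K_le (S : Scale D A₁ c₁ e κ n L) : D.K ≤ κ := by linarith [S.hκ, D.hK]

lemma Scale.n2 (S : Scale D A₁ c₁ e κ n L) : (2 : ℝ) ≤ n := by
  rw [S.hn]
  have h1 : κ ≤ κ ^ (3 * e) := le_self_pow₀ S.κ1 (by have := S.he; omega)
  linarith [S.κ40]

lemma Scale.n1 (S : Scale D A₁ c₁ e κ n L) : 1 ≤ n := by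
  have := S.n2
  have h2 : (1 : ℝ) ≤ n := by linarith
  exact_mod_cast h2

lemma Scale.n_le_L (S : Scale D A₁ c₁ e κ n L) : n ≤ L := by
  rw [S.hL]
  have := S.n1
  nlinarith

lemma Scale.L0 (S : Scale D A₁ c₁ e κ n L) : L ≠ 0 := by
  have := S.n1; have := S.n_le_L; omega

lemma Scale.d_le (S : Scale D A₁ c₁ e κ n L) : (d : ℝ) ≤ κ := D.hd.trans S.K_le

lemma Scale.dens_n (S : Scale D A₁ c₁ e κ n L) (G : Par D g A₁ c₁ Cg Lg) :
    κ ^ (6 * A₁) ≤ c₁ * n := by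
  have hκ0 := S.κ0
  have h1 : 1 ≤ c₁ * κ := by
    have := S.hκc
    rw [div_le_iff₀ G.hc₁] at this
    linarith
  rw [S.hn]
  have h2 : κ ^ (6 * A₁ + 1) ≤ κ ^ (3 * e) := pow_le_pow_right₀ S.κ1 (by have := S.he; omega)
  calc κ ^ (6 * A₁) = 1 * κ ^ (6 * A₁) := (one_mul _).symm
    _ ≤ c₁ * κ * κ ^ (6 * A₁) := by gcongr
    _ = c₁ * κ ^ (6 * A₁ + 1) := by ring
    _ ≤ c₁ * κ ^ (3 * e) := by have := G.hc₁; gcongr

lemma cw_le (hP : NZIn P) (G : Par D g A₁ c₁ Cg Lg) (S : Scale D A₁ c₁ e κ n L)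
    {y : Fin d → ℂ} (hy : D.Nd κ y) (hg : D.Good y) :
    ‖D.cw g n y‖ ≤ Cg * D.K ^ (3 * A₁) / c₁ * ‖D.N.eval (y b)‖ := by
  have hK0 := D.K_pos
  have hc₁ := G.hc₁
  have hCg := G.hCg
  set δ := ‖D.N.eval (y b)‖ with hδ
  have hδ0 : 0 < δ := norm_pos_iff.mpr (hy.pos S.K_le)
  have h1 := (dens_at hP D G.hc₁ G.hd S.K_le hy hg n (S.dens_n G)).1
  have h2 := G.g1 y hy.1
  rw [← hδ] at h1 h2
  have h3 : 0 < c₁ * (δ / D.K) ^ (3 * A₁) := by positivity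
  unfold cw
  rw [norm_div, Complex.norm_real, Real.norm_eq_abs, abs_of_pos (lt_of_lt_of_le h3 h1),
    div_le_iff₀ (lt_of_lt_of_le h3 h1)]
  calc ‖eval y g‖ ≤ Cg * δ ^ (3 * A₁ + 1) := h2
    _ = Cg * D.K ^ (3 * A₁) / c₁ * δ * (c₁ * (δ / D.K) ^ (3 * A₁)) := by
      rw [div_pow]; field_simp; ring
    _ ≤ _ := by gcongr

/-- the inner sum -/
noncomputable def HH (D : CData b P) (g : MvPolynomial (Fin d) ℂ) (κ : ℝ) (n L : ℕ)
    (z : Fin d → ℂ) (l : ℕ) : ℂ :=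
  ∑ y ∈ D.fibre κ (rt L ^ l), D.cw g n y *
    ∏ j ∈ Finset.univ.erase b, kap n (z j * (starRingEnd ℂ) (y j))

lemma norm_rt_pow (hL : L ≠ 0) (l : ℕ) : ‖rt L ^ l‖ = 1 := by
  rw [norm_pow, norm_rt hL, one_pow]

/-- general bound for the inner sum: all products are at most `ε`, all coefficients at most `B` -/
lemma HH_le {z : Fin d → ℂ} {l : ℕ} (s : Finset (Fin d → ℂ))
    (hs : s ⊆ D.fibre κ (rt L ^ l)) {B ε : ℝ} (hB : 0 ≤ B) (hε : 0 ≤ ε)
    (hc : ∀ y ∈ s, ‖D.cw g n y‖ ≤ B)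
    (hp : ∀ y ∈ s, ‖∏ j ∈ Finset.univ.erase b, kap n (z j * (starRingEnd ℂ) (y j))‖ ≤ ε) :
    ‖∑ y ∈ s, D.cw g n y * ∏ j ∈ Finset.univ.erase b, kap n (z j * (starRingEnd ℂ) (y j))‖ ≤
      D.K ^ d * (B * ε) := by
  refine (norm_sum_le _ _).trans ?_
  calc ∑ y ∈ s, ‖D.cw g n y * ∏ j ∈ Finset.univ.erase b, kap n (z j * (starRingEnd ℂ) (y j))‖
      ≤ ∑ _y ∈ s, B * ε := by
        apply Finset.sum_le_sum
        intro y hy
        rw [norm_mul]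
        have := hc y hy
        have := hp y hy
        gcongr
    _ = s.card * (B * ε) := by rw [Finset.sum_const, nsmul_eq_mul]
    _ ≤ D.K ^ d * (B * ε) := by
        have h1 := D.card_fibre κ (rt L ^ l)
        have h2 : (s.card : ℝ) ≤ (D.fibre κ (rt L ^ l)).card := by
          exact_mod_cast Finset.card_le_card hs
        gcongr
        exact h2.trans h1

lemma mem_fib (S : Scale D A₁ c₁ e κ n L) {l : ℕ} {y : Fin d → ℂ} :
    y ∈ D.fibre κ (rt L ^ l) ↔ y b = rt L ^ l ∧ D.Nd κ y ∧ D.Good y :=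
  D.mem_fibre S.K_le (by rw [norm_rt_pow S.L0]; norm_num)

lemma prod_le_one' {z y : Fin d → ℂ} (hz : OnT z) (hy : OnT y) :
    ‖∏ j ∈ Finset.univ.erase b, kap n (z j * (starRingEnd ℂ) (y j))‖ ≤ 1 := by
  rw [norm_prod]
  exact Finset.prod_le_one (fun _ _ => norm_nonneg _)
    (fun j _ => kap_norm_le n _ (norm_mul_conj (hz j) (hy j)).le)

lemma HH_all (hP : NZIn P) (G : Par D g A₁ c₁ Cg Lg) (S : Scale D A₁ c₁ e κ n L)
    {z : Fin d → ℂ} (hz : OnT z) (l : ℕ) :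
    ‖D.HH g κ n L z l‖ ≤ D.K ^ d * (Cg * D.K ^ (3 * A₁) / c₁) := by
  have hK0 := D.K_pos
  have hc₁ := G.hc₁
  have hCg := G.hCg
  have := HH_le (g := g) (z := z) (l := l) (D.fibre κ (rt L ^ l)) le_rfl
    (B := Cg * D.K ^ (3 * A₁) / c₁) (ε := 1) (by positivity) (by norm_num)
    (fun y hy => by
      obtain ⟨h1, h2, h3⟩ := (mem_fib S).mp hy
      have h4 := cw_le hP G S h2 h3
      have h5 : ‖D.N.eval (y b)‖ ≤ 1 := D.N_le _ (by rw [h2.1 b]; norm_num)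
      refine h4.trans ?_
      calc Cg * D.K ^ (3 * A₁) / c₁ * ‖D.N.eval (y b)‖ ≤ Cg * D.K ^ (3 * A₁) / c₁ * 1 := by gcongr
        _ = _ := mul_one _)
    (fun y hy => prod_le_one' hz ((mem_fib S).mp hy).2.1.1)
  rwa [mul_one] at this

/-- angles of the grid points seen from `z_b` -/
structure Ang (z : Fin d → ℂ) (b : Fin d) (L : ℕ) (s : ℕ → ℝ) : Prop where
  h1 : ∀ l < L, z b * Complex.exp (s l * Complex.I) = rt L ^ l
  h2 : ∀ l < L, |s l| ≤ Real.pi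

lemma Scale.tail (S : Scale D A₁ c₁ e κ n L) : 4 / ((n : ℝ) * (1 / κ ^ (2 * e))) = 4 * (1 / κ ^ e) := by
  have hκ0 := S.κ0
  rw [S.hn]
  have : κ ^ (3 * e) = κ ^ e * κ ^ (2 * e) := by rw [← pow_add]; congr 1; ring
  rw [this]
  field_simp

lemma Scale.inv_e (S : Scale D A₁ c₁ e κ n L) : 1 / κ ^ e ≤ 1 / κ := by
  have hκ0 := S.κ0
  apply one_div_le_one_div_of_le hκ0
  exact le_self_pow₀ S.κ1 (by have := S.he; omega)

lemma Scale.inv_2e (S : Scale D A₁ c₁ e κ n L) : 1 / κ ^ (2 * e) ≤ 1 / κ := by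
  have hκ0 := S.κ0
  apply one_div_le_one_div_of_le hκ0
  exact le_self_pow₀ S.κ1 (by have := S.he; omega)

lemma eval_eq_HH (z : Fin d → ℂ) (hz : OnT z) {s : ℕ → ℝ} (hs : Ang z b L s) :
    eval z (bump b n L (fun l => D.fibre κ (rt L ^ l)) (D.cw g n)) =
      ((n : ℂ) / L) * ∑ l ∈ Finset.range L,
        kap n (Complex.exp (-(s l * Complex.I))) ^ 3 * D.HH g κ n L z l := by
  rw [eval_bump]
  congr 1
  apply Finset.sum_congr rfl
  intro l hl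
  rw [exp_eq_of (hz b) (hs.h1 l (Finset.mem_range.mp hl))]
  rfl

lemma norm_exp_sub_one_le_abs (s : ℝ) : ‖Complex.exp (s * Complex.I) - 1‖ ≤ |s| := by
  have := Real.norm_exp_I_mul_ofReal_sub_one_le (x := s)
  rwa [mul_comm Complex.I, Real.norm_eq_abs] at this

/-- Case 1: degenerate base point -/
lemma case1 (hP : NZIn P) (G : Par D g A₁ c₁ Cg Lg) (S : Scale D A₁ c₁ e κ n L)
    {z : Fin d → ℂ} (hz : OnT z) {s : ℕ → ℝ} (hs : Ang z b L s)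
    (hN : ‖D.N.eval (z b)‖ < 2 / κ) :
    ‖eval z g - eval z (bump b n L (fun l => D.fibre κ (rt L ^ l)) (D.cw g n))‖ ≤
      (2 * Cg + D.K ^ d * (Cg * D.K ^ (3 * A₁) / c₁) * (6 + D.K)) / κ := by
  have hK0 := D.K_pos
  have hc₁ := G.hc₁
  have hCg := G.hCg
  have hκ0 := S.κ0
  have hκ1 := S.κ1
  have hn1 := S.n1
  set C' := Cg * D.K ^ (3 * A₁) / c₁ with hC'
  have hC'0 : 0 ≤ C' := by positivity
  have hNle : ‖D.N.eval (z b)‖ ≤ 1 := D.N_le _ (by rw [hz b]; norm_num)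
  have hg : ‖eval z g‖ ≤ 2 * Cg / κ := by
    refine (G.g1 z hz).trans ?_
    have h1 : ‖D.N.eval (z b)‖ ^ (3 * A₁ + 1) ≤ 2 / κ := by
      refine le_trans ?_ hN.le
      exact pow_le_of_le_one (norm_nonneg _) hNle (by omega)
    calc Cg * ‖D.N.eval (z b)‖ ^ (3 * A₁ + 1) ≤ Cg * (2 / κ) := by gcongr
      _ = _ := by ring
  have hη : (0 : ℝ) < 1 / κ ^ (2 * e) := by positivity
  have hnear : ∀ l < L, |s l| ≤ 1 / κ ^ (2 * e) →
      ‖D.HH g κ n L z l‖ ≤ D.K ^ d * (C' * (2 / κ + D.K * (1 / κ))) := by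
    intro l hl hsl
    have := HH_le (g := g) (n := n) (z := z) (l := l) (D.fibre κ (rt L ^ l)) le_rfl
      (B := C' * (2 / κ + D.K * (1 / κ))) (ε := 1) (by positivity) (by norm_num)
      (fun y hy => by
        obtain ⟨h1, h2, h3⟩ := (mem_fib S).mp hy
        have h4 := cw_le hP G S h2 h3
        refine h4.trans ?_
        have h5 : ‖D.N.eval (y b)‖ ≤ 2 / κ + D.K * (1 / κ) := by
          have h6 := D.N_lip (z b) (y b) (by rw [hz b]; norm_num) (by rw [h2.1 b]; norm_num)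
          have h7 : ‖y b - z b‖ ≤ 1 / κ := by
            rw [h1, ← hs.h1 l hl]
            have : z b * Complex.exp (s l * Complex.I) - z b =
              z b * (Complex.exp (s l * Complex.I) - 1) := by ring
            rw [this, norm_mul, hz b, one_mul]
            exact (norm_exp_sub_one_le_abs _).trans (hsl.trans S.inv_2e)
          have h8 : ‖D.N.eval (y b)‖ ≤ ‖D.N.eval (z b)‖ + ‖D.N.eval (y b) - D.N.eval (z b)‖ := by
            have : D.N.eval (y b) = D.N.eval (z b) + (D.N.eval (y b) - D.N.eval (z b)) := by ring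
            nth_rewrite 1 [this]
            exact norm_add_le _ _
          have h9 : D.K * ‖y b - z b‖ ≤ D.K * (1 / κ) := by gcongr
          linarith
        gcongr)
      (fun y hy => prod_le_one' hz ((mem_fib S).mp hy).2.1.1)
    rwa [mul_one] at this
  have h3 := near_far hn1 S.n_le_L (hz b) hs.h1 hs.h2 hη (D.HH g κ n L z)
    (E := D.K ^ d * (C' * (2 / κ + D.K * (1 / κ)))) (B := D.K ^ d * C') (by positivity)
    (by positivity) hnear (fun l _ => HH_all hP G S hz l)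
  rw [← eval_eq_HH z hz hs, S.tail] at h3
  refine (norm_sub_le _ _).trans ?_
  have h4 : D.K ^ d * C' * (4 * (1 / κ ^ e)) ≤ D.K ^ d * C' * (4 * (1 / κ)) := by
    have := S.inv_e
    gcongr
  calc ‖eval z g‖ + ‖eval z (bump b n L (fun l => D.fibre κ (rt L ^ l)) (D.cw g n))‖
      ≤ 2 * Cg / κ + (D.K ^ d * (C' * (2 / κ + D.K * (1 / κ))) + D.K ^ d * C' * (4 * (1 / κ))) := by
        linarith
    _ = _ := by field_simp; ring

/-- bound of the kernel product at a separated point -/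
lemma prod_sep (S : Scale D A₁ c₁ e κ n L) {z y : Fin d → ℂ} (hz : OnT z) (hy : OnT y) {j : Fin d}
    (hj : j ≠ b) (h : 1 / (2 * κ ^ 3) ≤ ‖z j - y j‖) :
    ‖∏ j ∈ Finset.univ.erase b, kap n (z j * (starRingEnd ℂ) (y j))‖ ≤ 4 * (1 / κ) := by
  have hκ0 := S.κ0
  have hn1 := S.n1
  refine (prod_norm_le _ _ (fun j _ => kap_norm_le n _ (norm_mul_conj (hz j) (hy j)).le)
    (Finset.mem_erase.mpr ⟨hj, Finset.mem_univ j⟩)
    (kap_sep hn1 (hz j) (hy j) (by positivity) h)).trans ?_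
  rw [S.hn]
  have h1 : 2 / (κ ^ (3 * e) * (1 / (2 * κ ^ 3))) = 4 * (κ ^ 3 * (1 / κ ^ (3 * e))) := by
    field_simp; norm_num
  rw [h1]
  have h2 := pw S.κ1 (a := 3) (b := 3 * e) (c := 1) (by have := S.he; omega)
  rw [pow_one] at h2
  gcongr

/-- Case 2a: a zero with a constant coordinate nearby -/
lemma case2a (hP : NZIn P) (G : Par D g A₁ c₁ Cg Lg) (S : Scale D A₁ c₁ e κ n L)
    {z : Fin d → ℂ} (hz : OnT z) {s : ℕ → ℝ} (hs : Ang z b L s)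
    {y : Fin d → ℂ} (hy : OnT y) {j : Fin d} (hj : j ≠ b) (hc : D.ConstAt j (y j))
    (hyz : ‖y j - z j‖ ≤ 1 / κ ^ (4 * e)) :
    ‖eval z g - eval z (bump b n L (fun l => D.fibre κ (rt L ^ l)) (D.cw g n))‖ ≤
      (Cg + D.K ^ d * (Cg * D.K ^ (3 * A₁) / c₁) * 8) / κ := by
  have hK0 := D.K_pos
  have hc₁ := G.hc₁
  have hCg := G.hCg
  have hκ0 := S.κ0
  have hκ1 := S.κ1
  have hκ40 := S.κ40
  have hn1 := S.n1
  set C' := Cg * D.K ^ (3 * A₁) / c₁ with hC'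
  have hC'0 : 0 ≤ C' := by positivity
  have hyz3 : ‖y j - z j‖ ≤ 1 / (2 * κ ^ 3) := by
    refine hyz.trans ?_
    apply one_div_le_one_div_of_le (by positivity)
    calc 2 * κ ^ 3 ≤ κ * κ ^ 3 := by gcongr; linarith
      _ = κ ^ 4 := by ring
      _ ≤ κ ^ (4 * e) := pow_le_pow_right₀ hκ1 (by have := S.he; omega)
  have hg : ‖eval z g‖ ≤ Cg / κ := by
    refine (G.g2 j hj (y j) (hy j) hc z hz).trans ?_
    have h1 : ‖z j - y j‖ ≤ 1 / κ := by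
      rw [norm_sub_rev]
      refine hyz.trans ?_
      apply one_div_le_one_div_of_le hκ0
      exact le_self_pow₀ hκ1 (by have := S.he; omega)
    calc Cg * ‖z j - y j‖ ≤ Cg * (1 / κ) := by gcongr
      _ = _ := by ring
  have hη : (0 : ℝ) < 1 / κ ^ (2 * e) := by positivity
  have hnear : ∀ l < L, |s l| ≤ 1 / κ ^ (2 * e) →
      ‖D.HH g κ n L z l‖ ≤ D.K ^ d * (C' * (4 * (1 / κ))) := by
    intro l hl hsl
    refine HH_le (g := g) (n := n) (z := z) (l := l) (D.fibre κ (rt L ^ l)) le_rfl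
      (B := C') (ε := 4 * (1 / κ)) (by positivity) (by positivity)
      (fun y' hy' => ?_)
      (fun y' hy' => ?_)
    · obtain ⟨h1, h2, h3⟩ := (mem_fib S).mp hy'
      have h4 := cw_le hP G S h2 h3
      have h5 : ‖D.N.eval (y' b)‖ ≤ 1 := D.N_le _ (by rw [h2.1 b]; norm_num)
      refine h4.trans ?_
      calc C' * ‖D.N.eval (y' b)‖ ≤ C' * 1 := by gcongr
        _ = _ := mul_one _
    · obtain ⟨h1, h2, h3⟩ := (mem_fib S).mp hy'
      refine prod_sep S hz h2.1 hj ?_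
      have hne : y' j ≠ y j := by
        intro he
        exact h3 j hj (by rw [he]; exact hc)
      have h4 := D.sep_of_ne S.K_le hj (x := y' b) (by rw [h2.1 b]; norm_num) h2.2.2
        (by rw [h2.1 j]; norm_num) (by rw [hy j]; norm_num) (h2.F_zero S.K_le hj) (hc (y' b)) hne
      have h5 : ‖y j - y' j‖ ≤ ‖y j - z j‖ + ‖z j - y' j‖ := by
        have : y j - y' j = (y j - z j) + (z j - y' j) := by ring
        rw [this]; exact norm_add_le _ _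
      have h6 : 1 / κ ^ 3 = 1 / (2 * κ ^ 3) + 1 / (2 * κ ^ 3) := by field_simp; norm_num
      linarith
  have h3 := near_far hn1 S.n_le_L (hz b) hs.h1 hs.h2 hη (D.HH g κ n L z)
    (E := D.K ^ d * (C' * (4 * (1 / κ)))) (B := D.K ^ d * C') (by positivity)
    (by positivity) hnear (fun l _ => HH_all hP G S hz l)
  rw [← eval_eq_HH z hz hs, S.tail] at h3
  refine (norm_sub_le _ _).trans ?_
  have h4 : D.K ^ d * C' * (4 * (1 / κ ^ e)) ≤ D.K ^ d * C' * (4 * (1 / κ)) := by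
    have := S.inv_e
    gcongr
  calc ‖eval z g‖ + ‖eval z (bump b n L (fun l => D.fibre κ (rt L ^ l)) (D.cw g n))‖
      ≤ Cg / κ + (D.K ^ d * (C' * (4 * (1 / κ))) + D.K ^ d * C' * (4 * (1 / κ))) := by
        linarith
    _ = _ := by field_simp; ring

end CData

end Pool.MP4ac1fb.Curve
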