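import Pool.Agent.H.MP_4ac1fb_an.Curve.EvalB

/-!
The bump polynomials approximate `g` near the zero set of `P`: the main case.
-/

namespace Pool.MP4ac1fb.Curve

open MvPolynomial Filter Topology

variable {d : ℕ}

namespace CData

variable {b : Fin d} {P : MvPolynomial (Fin d) ℂ}
variable {D : CData b P} {g : MvPolynomial (Fin d) ℂ} {A₁ : ℕ} {c₁ Cg Lg : ℝ}
  {e : ℕ} {κ : ℝ} {n L : ℕ}

/-- the coefficient at the centre -/
lemma cstar_le (hP : NZIn P) (G : Par D g A₁ c₁ Cg Lg) (S : Scale D A₁ c₁ e κ n L)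
    {y z : Fin d → ℂ} (hz : OnT z) (hy : D.Nd κ y) (hg : D.Good y) (hyz : y b = z b) :
    ‖eval z g / (dens b n (D.vv y) : ℂ)‖ ≤ Cg * D.K ^ (3 * A₁) / c₁ := by
  have hK0 := D.K_pos
  have hc₁ := G.hc₁
  have hCg := G.hCg
  set δ := ‖D.N.eval (y b)‖ with hδ
  have hδ0 : 0 < δ := norm_pos_iff.mpr (hy.pos S.K_le)
  have hδ1 : δ ≤ 1 := D.N_le _ (by rw [hy.1 b]; norm_num)
  have h1 := (dens_at hP D G.hc₁ G.hd S.K_le hy hg n (S.dens_n G)).1
  have h2 := G.g1 z hz
  rw [← hyz] at h2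
  rw [← hδ] at h1 h2
  have h3 : 0 < c₁ * (δ / D.K) ^ (3 * A₁) := by positivity
  rw [norm_div, Complex.norm_real, Real.norm_eq_abs, abs_of_pos (lt_of_lt_of_le h3 h1),
    div_le_iff₀ (lt_of_lt_of_le h3 h1)]
  calc ‖eval z g‖ ≤ Cg * δ ^ (3 * A₁ + 1) := h2
    _ = Cg * D.K ^ (3 * A₁) / c₁ * δ * (c₁ * (δ / D.K) ^ (3 * A₁)) := by
      rw [div_pow]; field_simp; ring
    _ ≤ Cg * D.K ^ (3 * A₁) / c₁ * 1 * dens b n (D.vv y) := by gcongr
    _ = _ := by ring

/-- the centre in the fibre over the grid point `l` -/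
lemma centre (S : Scale D A₁ c₁ e κ n L) {z : Fin d → ℂ} {s : ℕ → ℝ}
    (hs : Ang z b L s) {y : Fin d → ℂ} (hy : D.Nd (κ / 2) y) (hyb : y b = z b)
    (hgood : D.Good y) {l : ℕ} (hl : l < L) (hsl : |s l| ≤ 1 / κ ^ (2 * e)) :
    ∃ y' ∈ D.fibre κ (rt L ^ l),
      (∀ j ≠ b, ‖y' j - y j * Complex.exp ((D.vv y j * s l : ℝ) * Complex.I)‖ ≤
        κ ^ 12 * (1 / κ ^ (4 * e))) ∧ (∀ j, ‖y' j - y j‖ ≤ κ ^ 4 * (1 / κ ^ (2 * e))) := by
  have hκ0 := S.κ0
  have hκ1 := S.κ1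
  have hκ40 := S.κ40
  have hK2 : D.K ≤ κ / 2 := by linarith [S.hκ]
  have hκh : κ / 2 ≤ κ := by linarith
  obtain ⟨y', h1, h2, h3, h4⟩ := hy.move_real hK2 (s l) (by
    calc |s l| * (κ / 2) ^ 20 ≤ (1 / κ ^ (2 * e)) * κ ^ 20 := by gcongr
      _ = κ ^ 20 * (1 / κ ^ (2 * e)) := by ring
      _ ≤ 1 / κ ^ 0 := pw hκ1 (by have := S.he; omega)
      _ = 1 := by norm_num)
  rw [show 2 * (κ / 2) = κ by ring] at h1
  have h4' : ∀ j, ‖y' j - y j‖ ≤ κ ^ 4 * (1 / κ ^ (2 * e)) := fun j =>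
    (h4 j).trans (by gcongr)
  refine ⟨y', (mem_fib S).mpr ⟨?_, h1, ?_⟩, fun j hj => ?_, h4'⟩
  · rw [h2, hyb]; exact hs.h1 l hl
  · refine hy.good_near hK2 hgood (fun j => by rw [h1.1 j]; norm_num) fun j _ => ?_
    refine lt_of_le_of_lt (h4' j) ?_
    calc κ ^ 4 * (1 / κ ^ (2 * e)) ≤ 1 / κ ^ 4 := pw hκ1 (by have := S.he; omega)
      _ < 1 / κ ^ 3 := by
        apply one_div_lt_one_div_of_lt (by positivity)
        exact pow_lt_pow_right₀ (by linarith) (by norm_num)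
      _ ≤ 1 / (κ / 2) ^ 3 := by gcongr
  · refine (h3 j hj).trans ?_
    have h5 : (1 : ℝ) / κ ^ (4 * e) = (1 / κ ^ (2 * e)) ^ 2 := by
      rw [div_pow, one_pow, ← pow_mul]; congr 2; ring
    rw [h5, ← sq_abs (s l)]
    gcongr

/-- difference of the coefficients -/
lemma coef_diff (hP : NZIn P) (G : Par D g A₁ c₁ Cg Lg) (S : Scale D A₁ c₁ e κ n L)
    {z y y' : Fin d → ℂ} (hz : OnT z) (hy : D.Nd κ y) (hgy : D.Good y)
    (hy' : D.Nd κ y') (hgy' : D.Good y')
    (hyz : ∀ j, ‖y j - z j‖ ≤ 1 / κ ^ (4 * e))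
    (hyy : ∀ j, ‖y' j - y j‖ ≤ κ ^ 4 * (1 / κ ^ (2 * e))) :
    ‖D.cw g n y' - eval z g / (dens b n (D.vv y) : ℂ)‖ ≤ (2 * Lg + 3 * Cg) * (1 / κ) := by
  have hκ0 := S.κ0
  have hκ1 := S.κ1
  have hκ40 := S.κ40
  have hc₁ := G.hc₁
  have hCg := G.hCg
  have hLg := G.hLg
  have hdκ := S.d_le
  have hn1 := S.n1
  have hB := (dens_at hP D G.hc₁ G.hd S.K_le hy hgy n (S.dens_n G)).2
  have hB' := (dens_at hP D G.hc₁ G.hd S.K_le hy' hgy' n (S.dens_n G)).2
  set B := dens b n (D.vv y) with hBdef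
  set B' := dens b n (D.vv y') with hBdef'
  have hD0 : 1 / κ ^ (6 * A₁ + 1) ≤ c₁ / κ ^ (6 * A₁) := by
    rw [div_le_div_iff₀ (by positivity) (by positivity), one_mul]
    have h1 : 1 ≤ c₁ * κ := by
      have := S.hκc
      rw [div_le_iff₀ hc₁] at this
      linarith
    calc κ ^ (6 * A₁) = 1 * κ ^ (6 * A₁) := (one_mul _).symm
      _ ≤ (c₁ * κ) * κ ^ (6 * A₁) := by gcongr
      _ = _ := by ring
  have hBl : 1 / κ ^ (6 * A₁ + 1) ≤ B := hD0.trans hB
  have hBl' : 1 / κ ^ (6 * A₁ + 1) ≤ B' := hD0.trans hB'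
  have hBp : 0 < B := lt_of_lt_of_le (by positivity) hBl
  have hBp' : 0 < B' := lt_of_lt_of_le (by positivity) hBl'
  have hinv : 1 / B ≤ κ ^ (6 * A₁ + 1) := by
    rw [div_le_iff₀ hBp]
    rw [div_le_iff₀ (by positivity)] at hBl
    linarith
  have hinv' : 1 / B' ≤ κ ^ (6 * A₁ + 1) := by
    rw [div_le_iff₀ hBp']
    rw [div_le_iff₀ (by positivity)] at hBl'
    linarith
  -- difference of values of g
  have ha : ‖eval y' g - eval z g‖ ≤ Lg * (2 * (κ ^ 5 * (1 / κ ^ (2 * e)))) := by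
    refine (G.glip z y' (fun j => by rw [hz j]; norm_num) (fun j => by rw [hy'.1 j]; norm_num)).trans
      ?_
    have h1 : ∀ j, ‖y' j - z j‖ ≤ 2 * (κ ^ 4 * (1 / κ ^ (2 * e))) := by
      intro j
      have e1 : y' j - z j = (y' j - y j) + (y j - z j) := by ring
      rw [e1]
      refine (norm_add_le _ _).trans ?_
      have h2 := hyy j
      have h3 := hyz j
      have h4 : 1 / κ ^ (4 * e) ≤ κ ^ 4 * (1 / κ ^ (2 * e)) := by
        have h5 : 1 / κ ^ (4 * e) ≤ 1 / κ ^ (2 * e) := by gcongr; omega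
        have h6 : 1 * (1 / κ ^ (2 * e)) ≤ κ ^ 4 * (1 / κ ^ (2 * e)) := by
          gcongr; exact one_le_pow₀ hκ1
        linarith
      linarith
    have h2 : ∑ j, ‖y' j - z j‖ ≤ 2 * (κ ^ 5 * (1 / κ ^ (2 * e))) := by
      calc ∑ j, ‖y' j - z j‖ ≤ ∑ _j : Fin d, 2 * (κ ^ 4 * (1 / κ ^ (2 * e))) :=
            Finset.sum_le_sum fun j _ => h1 j
        _ = d * (2 * (κ ^ 4 * (1 / κ ^ (2 * e)))) := by simp
        _ ≤ κ * (2 * (κ ^ 4 * (1 / κ ^ (2 * e)))) := by gcongr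
        _ = _ := by ring
    gcongr
  have hz1 : ‖eval z g‖ ≤ Cg := by
    refine (G.g1 z hz).trans ?_
    have : ‖D.N.eval (z b)‖ ^ (3 * A₁ + 1) ≤ 1 :=
      pow_le_one₀ (norm_nonneg _) (D.N_le _ (by rw [hz b]; norm_num))
    calc Cg * ‖D.N.eval (z b)‖ ^ (3 * A₁ + 1) ≤ Cg * 1 := by gcongr
      _ = Cg := mul_one _
  -- difference of the densities
  have hBB : |B' - B| ≤ 3 * (κ ^ 12 * (1 / κ ^ (2 * e))) := by
    have h1 := dens_lip b n hn1 (D.vv y') (D.vv y)
    have h2 : ∀ j : {j : Fin d // j ≠ b}, |D.vv y' j - D.vv y j| ≤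
        2 * (κ ^ 11 * (1 / κ ^ (2 * e))) := by
      intro j
      refine (hy.v_lip hy' S.K_le j.2).trans ?_
      have := hyy b
      have := hyy j
      calc κ ^ 7 * (‖y' b - y b‖ + ‖y' j - y j‖) ≤
          κ ^ 7 * (κ ^ 4 * (1 / κ ^ (2 * e)) + κ ^ 4 * (1 / κ ^ (2 * e))) := by gcongr
        _ = _ := by ring
    have h3 : ∑ j : {j : Fin d // j ≠ b}, |D.vv y' j - D.vv y j| ≤
        2 * (κ ^ 12 * (1 / κ ^ (2 * e))) := by
      calc ∑ j : {j : Fin d // j ≠ b}, |D.vv y' j - D.vv y j| ≤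
          ∑ _j : {j : Fin d // j ≠ b}, 2 * (κ ^ 11 * (1 / κ ^ (2 * e))) :=
            Finset.sum_le_sum fun j _ => h2 j
        _ = (Fintype.card {j : Fin d // j ≠ b} : ℝ) * (2 * (κ ^ 11 * (1 / κ ^ (2 * e)))) := by
            simp
        _ ≤ κ * (2 * (κ ^ 11 * (1 / κ ^ (2 * e)))) := by
            gcongr
            refine le_trans ?_ hdκ
            have : Fintype.card {j : Fin d // j ≠ b} ≤ Fintype.card (Fin d) :=
              Fintype.card_subtype_le _
            rw [Fintype.card_fin] at this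
            exact_mod_cast this
        _ = _ := by ring
    have h4 : 1 / (n : ℝ) ≤ κ ^ 12 * (1 / κ ^ (2 * e)) := by
      rw [S.hn]
      have h5 : 1 / κ ^ (3 * e) ≤ 1 / κ ^ (2 * e) := by gcongr; omega
      have h6 : 1 * (1 / κ ^ (2 * e)) ≤ κ ^ 12 * (1 / κ ^ (2 * e)) := by
        gcongr; exact one_le_pow₀ hκ1
      linarith
    linarith
  have hBc : (B : ℂ) ≠ 0 := by exact_mod_cast hBp.ne'
  have hBc' : (B' : ℂ) ≠ 0 := by exact_mod_cast hBp'.ne'
  have e1 : D.cw g n y' - eval z g / (B : ℂ) =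
      (eval y' g - eval z g) / (B' : ℂ) - eval z g * (((B' - B : ℝ) : ℂ)) / ((B : ℂ) * B') := by
    unfold cw
    rw [← hBdef']
    push_cast
    field_simp
    ring
  rw [e1]
  refine (norm_sub_le _ _).trans ?_
  rw [norm_div, norm_div, norm_mul, norm_mul, Complex.norm_real, Complex.norm_real,
    Complex.norm_real, Real.norm_eq_abs, Real.norm_eq_abs, Real.norm_eq_abs, abs_of_pos hBp,
    abs_of_pos hBp']
  have f1 : ‖eval y' g - eval z g‖ / B' ≤ 2 * Lg * (1 / κ) := by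
    calc ‖eval y' g - eval z g‖ / B' = ‖eval y' g - eval z g‖ * (1 / B') := by ring
      _ ≤ (Lg * (2 * (κ ^ 5 * (1 / κ ^ (2 * e))))) * κ ^ (6 * A₁ + 1) := by gcongr
      _ = 2 * Lg * (κ ^ (6 * A₁ + 6) * (1 / κ ^ (2 * e))) := by ring
      _ ≤ 2 * Lg * (1 / κ ^ 1) := by
        gcongr
        exact pw hκ1 (by have := S.he; omega)
      _ = _ := by rw [pow_one]
  have f2 : ‖eval z g‖ * |B' - B| / (B * B') ≤ 3 * Cg * (1 / κ) := by
    calc ‖eval z g‖ * |B' - B| / (B * B') = ‖eval z g‖ * |B' - B| * ((1 / B) * (1 / B')) := by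
          field_simp
      _ ≤ Cg * (3 * (κ ^ 12 * (1 / κ ^ (2 * e)))) * (κ ^ (6 * A₁ + 1) * κ ^ (6 * A₁ + 1)) := by
          gcongr
      _ = 3 * Cg * (κ ^ (12 * A₁ + 14) * (1 / κ ^ (2 * e))) := by ring
      _ ≤ 3 * Cg * (1 / κ ^ 1) := by
        gcongr
        exact pw hκ1 (by have := S.he; omega)
      _ = _ := by rw [pow_one]
  linarith

/-- Case 2b: a good zero nearby -/
lemma case2b (hP : NZIn P) (G : Par D g A₁ c₁ Cg Lg) (S : Scale D A₁ c₁ e κ n L)
    {z : Fin d → ℂ} (hz : OnT z) {s : ℕ → ℝ} (hs : Ang z b L s)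
    {y : Fin d → ℂ} (hy : D.Nd (κ / 2) y) (hyb : y b = z b) (hgood : D.Good y)
    (hyz : ∀ j, ‖y j - z j‖ ≤ 1 / κ ^ (4 * e)) :
    ‖eval z g - eval z (bump b n L (fun l => D.fibre κ (rt L ^ l)) (D.cw g n))‖ ≤
      ((D.K ^ d * (Cg * D.K ^ (3 * A₁) / c₁)) * 8 + (2 * Lg + 3 * Cg) +
        (Cg * D.K ^ (3 * A₁) / c₁) * 23) / κ := by
  have hK0 := D.K_pos
  have hκ0 := S.κ0
  have hκ1 := S.κ1
  have hκ40 := S.κ40
  have hc₁ := G.hc₁
  have hCg := G.hCg
  have hLg := G.hLg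
  have hdκ := S.d_le
  have hn1 := S.n1
  have hn0 : (0 : ℝ) < n := by exact_mod_cast hn1
  have hK2 : D.K ≤ κ / 2 := by linarith [S.hκ]
  have hyκ : D.Nd κ y := hy.mono hK2 (by linarith)
  obtain ⟨C', hC'⟩ : ∃ C', C' = Cg * D.K ^ (3 * A₁) / c₁ := ⟨_, rfl⟩
  have hC'0 : 0 ≤ C' := by rw [hC']; positivity
  rw [← hC']
  obtain ⟨cs, hcs⟩ : ∃ cs, cs = eval z g / (dens b n (D.vv y) : ℂ) := ⟨_, rfl⟩
  have hcs1 : ‖cs‖ ≤ C' := by
    rw [hcs, hC']; exact cstar_le hP G S hz hyκ hgood hyb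
  obtain ⟨pr, hpr⟩ : ∃ pr : ℕ → ℂ, pr = fun l => ∏ j ∈ Finset.univ.erase b,
    kap n (Complex.exp (-((D.vv y j * s l : ℝ) * Complex.I))) := ⟨_, rfl⟩
  have hpr1 : ∀ l, ‖pr l‖ ≤ 1 := by
    intro l
    rw [hpr, norm_prod]
    exact Finset.prod_le_one (fun _ _ => norm_nonneg _)
      (fun j _ => kap_norm_le n _ (norm_exp_neg _).le)
  have hη : (0 : ℝ) < 1 / κ ^ (2 * e) := by positivity
  -- near points
  have hnear : ∀ l < L, |s l| ≤ 1 / κ ^ (2 * e) →
      ‖D.HH g κ n L z l - cs * pr l‖ ≤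
        D.K ^ d * (C' * (4 * (1 / κ))) + (2 * Lg + 3 * Cg) * (1 / κ) + C' * (2 * (1 / κ)) := by
    intro l hl hsl
    obtain ⟨y', hmem, hy1, hy2⟩ := centre S hs hy hyb hgood hl hsl
    obtain ⟨hb', hNd', hG'⟩ := (mem_fib S).mp hmem
    have hsplit : D.HH g κ n L z l - cs * pr l =
        (∑ x ∈ (D.fibre κ (rt L ^ l)).erase y', D.cw g n x *
          ∏ j ∈ Finset.univ.erase b, kap n (z j * (starRingEnd ℂ) (x j))) +
        (D.cw g n y' - cs) * (∏ j ∈ Finset.univ.erase b, kap n (z j * (starRingEnd ℂ) (y' j))) +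
        cs * ((∏ j ∈ Finset.univ.erase b, kap n (z j * (starRingEnd ℂ) (y' j))) - pr l) := by
      unfold HH
      rw [← Finset.add_sum_erase _ _ hmem]
      ring
    rw [hsplit]
    refine norm_add₃_le.trans ?_
    have hzy' : ∀ j, ‖y' j - z j‖ ≤ 1 / (2 * κ ^ 3) := by
      intro j
      have e1 : y' j - z j = (y' j - y j) + (y j - z j) := by ring
      rw [e1]
      refine (norm_add_le _ _).trans ?_
      have h2 := hy2 j
      have h3 := hyz j
      have h4 : κ ^ 4 * (1 / κ ^ (2 * e)) ≤ 1 / κ ^ 4 := pw hκ1 (by have := S.he; omega)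
      have h5 : 1 / κ ^ (4 * e) ≤ 1 / κ ^ 4 := by
        gcongr
        have := S.he; omega
      have h6 : 1 / κ ^ 4 + 1 / κ ^ 4 ≤ 1 / (2 * κ ^ 3) := by
        rw [← add_div, div_le_div_iff₀ (by positivity) (by positivity)]
        have : 0 < κ ^ 3 := by positivity
        have e4 : κ ^ 4 = κ * κ ^ 3 := by ring
        rw [e4]
        nlinarith
      linarith
    have p1 : ‖∑ x ∈ (D.fibre κ (rt L ^ l)).erase y', D.cw g n x *
          ∏ j ∈ Finset.univ.erase b, kap n (z j * (starRingEnd ℂ) (x j))‖ ≤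
        D.K ^ d * (C' * (4 * (1 / κ))) := by
      refine HH_le (g := g) (n := n) (z := z) (l := l) _ (Finset.erase_subset _ _)
        (B := C') (ε := 4 * (1 / κ)) hC'0 (by positivity)
        (fun x hx => ?_) (fun x hx => ?_)
      · obtain ⟨h1, h2, h3⟩ := (mem_fib S).mp (Finset.mem_of_mem_erase hx)
        have h4 := cw_le hP G S h2 h3
        have h5 : ‖D.N.eval (x b)‖ ≤ 1 := D.N_le _ (by rw [h2.1 b]; norm_num)
        refine h4.trans ?_
        rw [← hC']
        calc C' * ‖D.N.eval (x b)‖ ≤ C' * 1 := by gcongr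
          _ = _ := mul_one _
      · obtain ⟨h1, h2, h3⟩ := (mem_fib S).mp (Finset.mem_of_mem_erase hx)
        have hne := Finset.ne_of_mem_erase hx
        obtain ⟨j, hj⟩ : ∃ j, x j ≠ y' j := by
          by_contra hcon
          push Not at hcon
          exact hne (funext hcon)
        have hjb : j ≠ b := by
          rintro rfl
          exact hj (by rw [h1, hb'])
        refine prod_sep S hz h2.1 hjb ?_
        have h4 := D.sep_of_ne S.K_le hjb (x := x b) (by rw [h2.1 b]; norm_num) h2.2.2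
          (by rw [h2.1 j]; norm_num) (by rw [hNd'.1 j]; norm_num) (h2.F_zero S.K_le hjb)
          (by rw [h1, ← hb']; exact hNd'.F_zero S.K_le hjb) hj
        have h5 : ‖y' j - x j‖ ≤ ‖y' j - z j‖ + ‖z j - x j‖ := by
          have : y' j - x j = (y' j - z j) + (z j - x j) := by ring
          rw [this]; exact norm_add_le _ _
        have h6 : 1 / κ ^ 3 = 1 / (2 * κ ^ 3) + 1 / (2 * κ ^ 3) := by field_simp; norm_num
        have h7 := hzy' j
        linarith
    have p2 : ‖(D.cw g n y' - cs) *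
        (∏ j ∈ Finset.univ.erase b, kap n (z j * (starRingEnd ℂ) (y' j)))‖ ≤
        (2 * Lg + 3 * Cg) * (1 / κ) := by
      rw [norm_mul]
      have h1 := coef_diff hP G S hz hyκ hgood hNd' hG' hyz hy2
      rw [← hcs] at h1
      calc _ ≤ (2 * Lg + 3 * Cg) * (1 / κ) * 1 := by
            gcongr
            exact prod_le_one' hz hNd'.1
        _ = _ := mul_one _
    have p3 : ‖cs * ((∏ j ∈ Finset.univ.erase b, kap n (z j * (starRingEnd ℂ) (y' j))) - pr l)‖ ≤
        C' * (2 * (1 / κ)) := by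
      rw [norm_mul]
      have h1 : ‖(∏ j ∈ Finset.univ.erase b, kap n (z j * (starRingEnd ℂ) (y' j))) - pr l‖ ≤
          2 * (1 / κ) := by
        rw [hpr]
        refine (prod_sub_le _ _ _ (ε := 2 * (1 / κ ^ 2)) (by positivity)
          (fun j _ => kap_norm_le n _ (norm_mul_conj (hz j) (hNd'.1 j)).le)
          (fun j _ => kap_norm_le n _ (norm_exp_neg _).le) (fun j hj => ?_)).trans ?_
        · have hjb := Finset.ne_of_mem_erase hj
          refine (kap_lip n _ _ (norm_mul_conj (hz j) (hNd'.1 j)).le (norm_exp_neg _).le).trans ?_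
          have hyy' : y' j * (starRingEnd ℂ) (y' j) = 1 := by
            rw [Complex.mul_conj, Complex.normSq_eq_norm_sq, hNd'.1 j]; norm_num
          set θ : ℝ := D.vv y j * s l with hθ
          have hee : Complex.exp (-(θ * Complex.I)) * Complex.exp (θ * Complex.I) = 1 := by
            rw [← Complex.exp_add]; simp
          have e1 : z j * (starRingEnd ℂ) (y' j) - Complex.exp (-(θ * Complex.I)) =
              Complex.exp (-(θ * Complex.I)) * (starRingEnd ℂ) (y' j) *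
                (Complex.exp (θ * Complex.I) * (z j - y j) -
                  (y' j - y j * Complex.exp (θ * Complex.I))) := by
            have : Complex.exp (-(θ * Complex.I)) * (starRingEnd ℂ) (y' j) *
                (Complex.exp (θ * Complex.I) * (z j - y j) -
                  (y' j - y j * Complex.exp (θ * Complex.I))) =
                (Complex.exp (-(θ * Complex.I)) * Complex.exp (θ * Complex.I)) *
                  ((starRingEnd ℂ) (y' j) * z j) -
                  Complex.exp (-(θ * Complex.I)) * (y' j * (starRingEnd ℂ) (y' j)) := by ring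
            rw [this, hee, hyy']; ring
          rw [e1, norm_mul, norm_mul, norm_exp_neg, RCLike.norm_conj, hNd'.1 j, one_mul, one_mul]
          have h2 : ‖Complex.exp (θ * Complex.I) * (z j - y j) -
              (y' j - y j * Complex.exp (θ * Complex.I))‖ ≤
              1 / κ ^ (4 * e) + κ ^ 12 * (1 / κ ^ (4 * e)) := by
            refine (norm_sub_le _ _).trans ?_
            rw [norm_mul, norm_exp_pos, one_mul, norm_sub_rev (z j)]
            exact add_le_add (hyz j) (hy1 j hjb)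
          have h3 : (n : ℝ) * (1 / κ ^ (4 * e) + κ ^ 12 * (1 / κ ^ (4 * e))) ≤ 2 * (1 / κ ^ 2) := by
            rw [S.hn]
            have h4 : κ ^ (3 * e) * (1 / κ ^ (4 * e)) ≤ 1 / κ ^ 2 :=
              pw hκ1 (by have := S.he; omega)
            have h5 : κ ^ (3 * e + 12) * (1 / κ ^ (4 * e)) ≤ 1 / κ ^ 2 :=
              pw hκ1 (by have := S.he; omega)
            rw [pow_add] at h5
            linarith
          calc _ ≤ (n : ℝ) * (1 / κ ^ (4 * e) + κ ^ 12 * (1 / κ ^ (4 * e))) := by gcongr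
            _ ≤ _ := h3
        · have h4 : ((Finset.univ.erase b).card : ℝ) ≤ κ := by
            refine le_trans ?_ hdκ
            have : (Finset.univ.erase b).card ≤ (Finset.univ : Finset (Fin d)).card :=
              Finset.card_le_card (Finset.erase_subset _ _)
            rw [Finset.card_univ, Fintype.card_fin] at this
            exact_mod_cast this
          calc ((Finset.univ.erase b).card : ℝ) * (2 * (1 / κ ^ 2)) ≤ κ * (2 * (1 / κ ^ 2)) := by
                gcongr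
            _ = 2 * (1 / κ) := by field_simp
      gcongr
    linarith
  have hall : ∀ l < L, ‖D.HH g κ n L z l - cs * pr l‖ ≤ D.K ^ d * C' + C' := by
    intro l hl
    refine (norm_sub_le _ _).trans ?_
    have h1 := HH_all hP G S hz l
    rw [← hC'] at h1
    rw [norm_mul]
    have h2 := hpr1 l
    have h3 : ‖cs‖ * ‖pr l‖ ≤ C' * 1 := by gcongr
    linarith
  have h3 := near_far hn1 S.n_le_L (hz b) hs.h1 hs.h2 hη (fun l => D.HH g κ n L z l - cs * pr l)
    (E := D.K ^ d * (C' * (4 * (1 / κ))) + (2 * Lg + 3 * Cg) * (1 / κ) + C' * (2 * (1 / κ)))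
    (B := D.K ^ d * C' + C') (by positivity)
    (by positivity) hnear hall
  rw [S.tail] at h3
  -- the kernel sum
  have hV : ∀ j ≠ b, |D.vv y j| ≤ κ ^ 3 := fun j hj => hyκ.abs_v S.K_le hj
  have hLr : (d : ℝ) * κ ^ 3 * n + 3 * n + 1 < L := by
    rw [S.hL]
    push_cast
    have h1 : κ ^ 3 ≤ n := by
      rw [S.hn]; exact pow_le_pow_right₀ hκ1 (by have := S.he; omega)
    have h2 := S.n2
    have h3 : (d : ℝ) * κ ^ 3 * n ≤ d * n * n := by gcongr
    nlinarith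
  have h4 := kernel_dens b n L hn1 (z b) (hz b) (D.vv y) (κ ^ 3) (by positivity) hV hLr s hs.h1
  have h5 := moment hn1 S.n_le_L (hz b) hs.h1 hs.h2 hη
  rw [S.tail] at h5
  have h6 := h4.trans h5
  have hB := (dens_at hP D G.hc₁ G.hd S.K_le hyκ hgood n (S.dens_n G)).2
  have hBp : 0 < dens b n (D.vv y) := lt_of_lt_of_le (by positivity) hB
  have hBc : (dens b n (D.vv y) : ℂ) ≠ 0 := by exact_mod_cast hBp.ne'
  have hcsd : cs * (dens b n (D.vv y) : ℂ) = eval z g := by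
    rw [hcs]; field_simp
  have e1 : eval z g - eval z (bump b n L (fun l => D.fibre κ (rt L ^ l)) (D.cw g n)) =
      -(((n : ℂ) / L) * ∑ l ∈ Finset.range L, kap n (Complex.exp (-(s l * Complex.I))) ^ 3 *
        (D.HH g κ n L z l - cs * pr l)) -
      cs * (((n : ℂ) / L) * ∑ l ∈ Finset.range L,
        kap n (Complex.exp (-(s l * Complex.I))) ^ 3 * pr l - (dens b n (D.vv y) : ℂ)) := by
    rw [eval_eq_HH z hz hs, mul_sub cs, hcsd]
    simp only [mul_sub, Finset.sum_sub_distrib]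
    have : ∑ l ∈ Finset.range L, kap n (Complex.exp (-(s l * Complex.I))) ^ 3 * (cs * pr l) =
        cs * ∑ l ∈ Finset.range L, kap n (Complex.exp (-(s l * Complex.I))) ^ 3 * pr l := by
      rw [Finset.mul_sum]
      apply Finset.sum_congr rfl
      intro l _
      ring
    rw [this]
    ring
  rw [e1]
  refine (norm_sub_le _ _).trans ?_
  rw [norm_neg, norm_mul cs]
  have h7 : ‖cs‖ * ‖((n : ℂ) / L) * ∑ l ∈ Finset.range L,
        kap n (Complex.exp (-(s l * Complex.I))) ^ 3 * pr l - (dens b n (D.vv y) : ℂ)‖ ≤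
      C' * (1 / κ ^ (2 * e) + 4 * (4 * (1 / κ ^ e))) := by
    rw [hpr]
    gcongr
  have h8 : C' * (1 / κ ^ (2 * e) + 4 * (4 * (1 / κ ^ e))) ≤ C' * (1 / κ + 4 * (4 * (1 / κ))) := by
    have := S.inv_e
    have := S.inv_2e
    gcongr
  have h9 : (D.K ^ d * C' + C') * (4 * (1 / κ ^ e)) ≤ (D.K ^ d * C' + C') * (4 * (1 / κ)) := by
    have := S.inv_e
    gcongr
  have e2 : ((D.K ^ d * C') * 8 + (2 * Lg + 3 * Cg) + C' * 23) / κ =
      (D.K ^ d * (C' * (4 * (1 / κ))) + (2 * Lg + 3 * Cg) * (1 / κ) + C' * (2 * (1 / κ))) +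
      (D.K ^ d * C' + C') * (4 * (1 / κ)) + C' * (1 / κ + 4 * (4 * (1 / κ))) := by
    field_simp; ring
  rw [e2]
  linarith

end CData

end Pool.MP4ac1fb.Curve
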