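import Pool.Agent.H.MP_4ac1fb_an.Curve.Taylor

/-!
Geometry of the zero set of `P` on the torus over the nondegenerate values of the base
coordinate `z_b`.
-/

namespace Pool.MP4ac1fb.Curve

open Polynomial

variable {d : ℕ}

/-- Data of a zero set that is a curve over the base coordinate `z_b`. -/
structure CData (b : Fin d) (P : MvPolynomial (Fin d) ℂ) where
  S : Fin d → Polynomial (Polynomial ℂ)
  Sx : Fin d → Polynomial (Polynomial ℂ)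
  N : Polynomial ℂ
  M : ℕ
  K : ℝ
  hM : 1 ≤ M
  hK : 20 ≤ K
  hd : (d : ℝ) ≤ K
  N_ne : N ≠ 0
  N_le : ∀ x : ℂ, ‖x‖ ≤ 2 → ‖N.eval x‖ ≤ 1
  N_lip : ∀ x x' : ℂ, ‖x‖ ≤ 2 → ‖x'‖ ≤ 2 → ‖N.eval x' - N.eval x‖ ≤ K * ‖x' - x‖
  P_lip : ∀ z z' : Fin d → ℂ, (∀ j, ‖z j‖ ≤ 2) → (∀ j, ‖z' j‖ ≤ 2) →
    ‖MvPolynomial.eval z' P - MvPolynomial.eval z P‖ ≤ K * ∑ j, ‖z' j - z j‖
  deg : ∀ j, j ≠ b → ((S j).natDegree : ℝ) ≤ K
  dx : ∀ j, j ≠ b → ∀ x y : ℂ,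
    (Sx j).evalEval x y = (derivative ((S j).eval (C y))).eval x
  tay : ∀ j, j ≠ b → ∀ x y x' y' : ℂ, ‖x‖ ≤ 2 → ‖y‖ ≤ 2 → ‖x'‖ ≤ 2 → ‖y'‖ ≤ 2 →
      ‖(S j).evalEval x' y' - (S j).evalEval x y - (Sx j).evalEval x y * (x' - x) -
        (derivative (S j)).evalEval x y * (y' - y)‖ ≤ K * (‖x' - x‖ + ‖y' - y‖) ^ 2
  bdx : ∀ j, j ≠ b → ∀ x y : ℂ, ‖x‖ ≤ 2 → ‖y‖ ≤ 2 → ‖(Sx j).evalEval x y‖ ≤ K
  bdy : ∀ j, j ≠ b → ∀ x y : ℂ, ‖x‖ ≤ 2 → ‖y‖ ≤ 2 → ‖(derivative (S j)).evalEval x y‖ ≤ K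
  lipx : ∀ j, j ≠ b → ∀ x y x' y' : ℂ, ‖x‖ ≤ 2 → ‖y‖ ≤ 2 → ‖x'‖ ≤ 2 → ‖y'‖ ≤ 2 →
      ‖(Sx j).evalEval x' y' - (Sx j).evalEval x y‖ ≤ K * (‖x' - x‖ + ‖y' - y‖)
  lipy : ∀ j, j ≠ b → ∀ x y x' y' : ℂ, ‖x‖ ≤ 2 → ‖y‖ ≤ 2 → ‖x'‖ ≤ 2 → ‖y'‖ ≤ 2 →
      ‖(derivative (S j)).evalEval x' y' - (derivative (S j)).evalEval x y‖ ≤
        K * (‖x' - x‖ + ‖y' - y‖)
  rel : ∀ j, j ≠ b → ∀ z : Fin d → ℂ, OnT z →
    ‖N.eval (z b)‖ * ‖(S j).evalEval (z b) (z j)‖ ^ M ≤ K * ‖MvPolynomial.eval z P‖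
  sep : ∀ j, j ≠ b → ∀ x y : ℂ, ‖x‖ ≤ 2 → ‖y‖ ≤ 2 →
    ‖N.eval x‖ ≤ K * (‖(S j).evalEval x y‖ + ‖(derivative (S j)).evalEval x y‖)
  sym : ∀ j, j ≠ b → ∀ x y : ℂ, ‖x‖ = 1 → y ≠ 0 → N.eval x ≠ 0 → (S j).evalEval x y = 0 →
    (S j).evalEval x (1 / (starRingEnd ℂ) y) = 0
  dichP : ∀ z : Fin d → ℂ, (∀ j, ‖z j‖ ≤ 2) → (∀ j ≠ b, (S j).evalEval (z b) (z j) = 0) →
    MvPolynomial.eval z P = 0 ∨ ‖N.eval (z b)‖ ≤ K * ‖MvPolynomial.eval z P‖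
  dichX : ∀ j, j ≠ b → ∀ x y : ℂ, ‖x‖ ≤ 2 → ‖y‖ ≤ 2 → (S j).evalEval x y = 0 →
    (Sx j).evalEval x y = 0 ∨ ‖N.eval x‖ ≤ K * ‖(Sx j).evalEval x y‖

namespace CData

variable {b : Fin d} {P : MvPolynomial (Fin d) ℂ} (D : CData b P)

/-- the polynomial `S_j` -/
noncomputable def F (j : Fin d) (x y : ℂ) : ℂ := (D.S j).evalEval x y

/-- its derivative in the base variable -/
noncomputable def Fx (j : Fin d) (x y : ℂ) : ℂ := (D.Sx j).evalEval x y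

/-- its derivative in the second variable -/
noncomputable def Fy (j : Fin d) (x y : ℂ) : ℂ := (derivative (D.S j)).evalEval x y

lemma K_pos : 0 < D.K := by linarith [D.hK]

lemma fy_lower {j : Fin d} (hj : j ≠ b) {x y : ℂ} (hx : ‖x‖ ≤ 2) (hy : ‖y‖ ≤ 2)
    (h : D.F j x y = 0) : ‖D.N.eval x‖ ≤ D.K * ‖D.Fy j x y‖ := by
  have := D.sep j hj x y hx hy
  rw [show (D.S j).evalEval x y = 0 from h, norm_zero, zero_add] at this
  exact this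

lemma root_sep {j : Fin d} (hj : j ≠ b) {x y y' : ℂ} (hx : ‖x‖ ≤ 2) (hy : ‖y‖ ≤ 2)
    (hy' : ‖y'‖ ≤ 2) (h : D.F j x y = 0) (h' : D.F j x y' = 0) (hne : y ≠ y') :
    ‖D.N.eval x‖ ≤ D.K ^ 2 * ‖y' - y‖ := by
  have h1 := D.tay j hj x y x y' hx hy hx hy'
  rw [show (D.S j).evalEval x y = 0 from h, show (D.S j).evalEval x y' = 0 from h', sub_self,
    sub_self, norm_zero, mul_zero, zero_add, sub_zero, zero_sub, norm_neg, norm_mul] at h1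
  have hpos : 0 < ‖y' - y‖ := norm_pos_iff.mpr (sub_ne_zero.mpr hne.symm)
  have h2 : ‖D.Fy j x y‖ ≤ D.K * ‖y' - y‖ := by
    have : ‖D.Fy j x y‖ * ‖y' - y‖ ≤ (D.K * ‖y' - y‖) * ‖y' - y‖ := by
      refine le_trans h1 (le_of_eq (by ring))
    exact le_of_mul_le_mul_right this hpos
  have h3 := D.fy_lower hj hx hy h
  have := D.K_pos
  calc ‖D.N.eval x‖ ≤ D.K * ‖D.Fy j x y‖ := h3
    _ ≤ D.K * (D.K * ‖y' - y‖) := by gcongr
    _ = _ := by ring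

lemma unimod {j : Fin d} (hj : j ≠ b) {x w y : ℂ} {τ : ℝ} (hx : ‖x‖ = 1)
    (h : D.F j x w = 0) (hy : ‖y‖ = 1) (hw : ‖w - y‖ ≤ τ) (hτ : τ ≤ 1 / 2)
    (hτ' : 3 * D.K ^ 2 * τ < ‖D.N.eval x‖) : ‖w‖ = 1 := by
  have hK := D.K_pos
  have hτ0 : 0 ≤ τ := (norm_nonneg _).trans hw
  have hN : D.N.eval x ≠ 0 := by
    rw [← norm_pos_iff]; exact lt_of_le_of_lt (by positivity) hτ'
  have h1 : |‖w‖ - 1| ≤ τ := by
    rw [← hy]; exact (abs_norm_sub_norm_le _ _).trans hw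
  have h2 := abs_le.mp h1
  have hwpos : (1 : ℝ) / 2 ≤ ‖w‖ := by linarith [h2.1]
  have hw0 : w ≠ 0 := by
    rintro rfl; rw [norm_zero] at hwpos; norm_num at hwpos
  have hr := D.sym j hj x w hx hw0 hN h
  by_contra hcon
  have hc : (starRingEnd ℂ) w ≠ 0 := by simpa using hw0
  have hne : w ≠ 1 / (starRingEnd ℂ) w := by
    intro he
    apply hcon
    have : w * (starRingEnd ℂ) w = 1 := by
      nth_rewrite 1 [he]; field_simp
    rw [Complex.mul_conj] at this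
    have h3 : Complex.normSq w = 1 := by exact_mod_cast this
    rw [Complex.normSq_eq_norm_sq] at h3
    nlinarith [norm_nonneg w]
  have hnorm : ‖1 / (starRingEnd ℂ) w‖ ≤ 2 := by
    rw [norm_div, norm_one, RCLike.norm_conj, div_le_iff₀ (by linarith)]
    linarith
  have h4 := D.root_sep hj (by rw [hx]; norm_num) (by linarith [h2.2] : ‖w‖ ≤ 2) hnorm h hr hne
  have h5 : 1 / (starRingEnd ℂ) w - w = w * (((1 - ‖w‖ ^ 2) / ‖w‖ ^ 2 : ℝ) : ℂ) := by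
    have hw2 : (‖w‖ : ℂ) ^ 2 = w * (starRingEnd ℂ) w := by
      rw [Complex.mul_conj, Complex.normSq_eq_norm_sq]; push_cast; rfl
    push_cast
    rw [hw2]
    field_simp
  rw [h5, norm_mul, Complex.norm_real, Real.norm_eq_abs, abs_div, abs_of_nonneg (sq_nonneg ‖w‖)]
    at h4
  have h6 : ‖w‖ * (|1 - ‖w‖ ^ 2| / ‖w‖ ^ 2) ≤ 3 * τ := by
    have h7 : |1 - ‖w‖ ^ 2| ≤ τ * (1 + ‖w‖) := by
      have : 1 - ‖w‖ ^ 2 = -((‖w‖ - 1) * (1 + ‖w‖)) := by ring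
      rw [this, abs_neg, abs_mul, abs_of_pos (by linarith : 0 < 1 + ‖w‖)]
      gcongr
    have hwp : 0 < ‖w‖ := by linarith
    rw [← mul_div_assoc, div_le_iff₀ (by positivity)]
    calc ‖w‖ * |1 - ‖w‖ ^ 2| ≤ ‖w‖ * (τ * (1 + ‖w‖)) := by gcongr
      _ ≤ 3 * τ * ‖w‖ ^ 2 := by nlinarith [mul_nonneg hτ0 hwp.le]
  have h8 : D.K ^ 2 * (‖w‖ * (|1 - ‖w‖ ^ 2| / ‖w‖ ^ 2)) ≤ D.K ^ 2 * (3 * τ) := by gcongr
  linarith

lemma root_near {j : Fin d} (hj : j ≠ b) {x w : ℂ} {ε σ : ℝ} (hσ : 0 < σ)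
    (h1 : ‖D.F j x w‖ ≤ ε) (h2 : σ ≤ ‖D.Fy j x w‖) :
    ∃ w' : ℂ, D.F j x w' = 0 ∧ ‖w' - w‖ ≤ D.K * ε / σ := by
  have ev : ∀ (p : Polynomial (Polynomial ℂ)) (y : ℂ),
      (p.map (evalRingHom x)).eval y = p.evalEval x y := by
    intro p y
    rw [map_evalRingHom_eval]
  have hε : 0 ≤ ε := (norm_nonneg _).trans h1
  obtain ⟨w', hw', hd'⟩ := root_near_deriv ((D.S j).map (evalRingHom x)) w ε σ hσ
    (by rw [ev]; exact h1) (by rw [derivative_map, ev]; exact h2)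
  refine ⟨w', by rw [ev] at hw'; exact hw', hd'.trans ?_⟩
  have h3 : (((D.S j).map (evalRingHom x)).natDegree : ℝ) ≤ D.K :=
    le_trans (by exact_mod_cast natDegree_map_le) (D.deg j hj)
  gcongr

lemma P_zero {z z' : Fin d → ℂ} (hz : ∀ j, ‖z j‖ ≤ 2) (hz' : ∀ j, ‖z' j‖ ≤ 2)
    (h : ∀ j ≠ b, D.F j (z' b) (z' j) = 0)
    (hs : D.K * (‖MvPolynomial.eval z P‖ + D.K * ∑ j, ‖z' j - z j‖) < ‖D.N.eval (z' b)‖) :
    MvPolynomial.eval z' P = 0 := by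
  rcases D.dichP z' hz' h with h1 | h1
  · exact h1
  · exfalso
    have h2 := D.P_lip z z' hz hz'
    have h3 : ‖MvPolynomial.eval z' P‖ ≤ ‖MvPolynomial.eval z P‖ + D.K * ∑ j, ‖z' j - z j‖ := by
      have : MvPolynomial.eval z' P = MvPolynomial.eval z P +
        (MvPolynomial.eval z' P - MvPolynomial.eval z P) := by ring
      rw [this]
      exact (norm_add_le _ _).trans (by linarith)
    have h4 : D.K * ‖MvPolynomial.eval z' P‖ ≤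
        D.K * (‖MvPolynomial.eval z P‖ + D.K * ∑ j, ‖z' j - z j‖) :=
      mul_le_mul_of_nonneg_left h3 D.K_pos.le
    linarith

/-- nondegenerate zero -/
def Nd (κ : ℝ) (y : Fin d → ℂ) : Prop :=
  OnT y ∧ MvPolynomial.eval y P = 0 ∧ 1 / κ ≤ ‖D.N.eval (y b)‖

lemma F_zero {y : Fin d → ℂ} (hy : OnT y) (hP : MvPolynomial.eval y P = 0)
    (hN : D.N.eval (y b) ≠ 0) {j : Fin d} (hj : j ≠ b) : D.F j (y b) (y j) = 0 := by
  have h := D.rel j hj y hy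
  rw [hP, norm_zero, mul_zero] at h
  have h1 : 0 < ‖D.N.eval (y b)‖ := norm_pos_iff.mpr hN
  have h2 : ‖D.F j (y b) (y j)‖ ^ D.M = 0 := by
    have h3 : ‖D.F j (y b) (y j)‖ ^ D.M ≤ 0 := by
      by_contra hcon
      push Not at hcon
      have := mul_pos h1 hcon
      exact absurd h (not_le.mpr this)
    exact le_antisymm h3 (by positivity)
  exact norm_eq_zero.mp (pow_eq_zero_iff (by have := D.hM; omega) |>.mp h2)

variable {D}

lemma Nd.pos {κ : ℝ} {y : Fin d → ℂ} (h : D.Nd κ y) (hκ : D.K ≤ κ) : D.N.eval (y b) ≠ 0 := by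
  rw [← norm_pos_iff]
  refine lt_of_lt_of_le ?_ h.2.2
  have : 0 < κ := lt_of_lt_of_le D.K_pos hκ
  positivity

lemma Nd.F_zero {κ : ℝ} {y : Fin d → ℂ} (h : D.Nd κ y) (hκ : D.K ≤ κ) {j : Fin d} (hj : j ≠ b) :
    D.F j (y b) (y j) = 0 := D.F_zero h.1 h.2.1 (h.pos hκ) hj

variable (D)

/-- (G1): approximate zeros are near zeros -/
lemma exists_near {κ τ : ℝ} (hκ : D.K ≤ κ) (hτ0 : 0 < τ) (hτ : τ * κ ^ 10 ≤ 1)
    {z : Fin d → ℂ} (hz : OnT z) (hN : 1 / κ ≤ ‖D.N.eval (z b)‖)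
    (hP : κ ^ 2 * ‖MvPolynomial.eval z P‖ ≤ τ ^ D.M) :
    ∃ y : Fin d → ℂ, D.Nd κ y ∧ y b = z b ∧ ∀ j, ‖y j - z j‖ ≤ κ ^ 4 * τ := by
  have hK := D.hK
  have hκ0 : 0 < κ := by linarith
  have hκ20 : 20 ≤ κ := by linarith
  have hκ1 : 1 ≤ κ := by linarith
  have hτ1 : τ ≤ 1 := by
    have : 1 ≤ κ ^ 10 := one_le_pow₀ hκ1
    nlinarith
  have hFj : ∀ j, j ≠ b → ‖D.F j (z b) (z j)‖ ≤ τ := by
    intro j hj
    have h1 := D.rel j hj z hz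
    have h2 : (1 / κ) * ‖D.F j (z b) (z j)‖ ^ D.M ≤ κ * ‖MvPolynomial.eval z P‖ := by
      calc (1 / κ) * ‖D.F j (z b) (z j)‖ ^ D.M ≤
          ‖D.N.eval (z b)‖ * ‖D.F j (z b) (z j)‖ ^ D.M := by gcongr
        _ ≤ D.K * ‖MvPolynomial.eval z P‖ := h1
        _ ≤ _ := by gcongr
    have h3 : ‖D.F j (z b) (z j)‖ ^ D.M ≤ τ ^ D.M := by
      refine le_trans ?_ hP
      have : κ * ((1 / κ) * ‖D.F j (z b) (z j)‖ ^ D.M) ≤ κ * (κ * ‖MvPolynomial.eval z P‖) := by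
        gcongr
      have e : κ * ((1 / κ) * ‖D.F j (z b) (z j)‖ ^ D.M) = ‖D.F j (z b) (z j)‖ ^ D.M := by
        field_simp
      rw [e] at this
      calc _ ≤ _ := this
        _ = _ := by ring
    exact le_of_pow_le_pow_left₀ (by have := D.hM; omega) hτ0.le h3
  have hzn : ∀ j, ‖z j‖ ≤ 2 := fun j => by rw [hz j]; norm_num
  have hτκ : τ ≤ 1 / κ ^ 10 := by rw [le_div_iff₀ (by positivity)]; exact hτ
  have hFy : ∀ j, j ≠ b → 1 / κ ^ 3 ≤ ‖D.Fy j (z b) (z j)‖ := by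
    intro j hj
    have h1 := D.sep j hj (z b) (z j) (hzn b) (hzn j)
    have h2 : 1 / κ ≤ κ * (τ + ‖D.Fy j (z b) (z j)‖) := by
      refine hN.trans (h1.trans ?_)
      have := hFj j hj
      unfold F at this
      unfold Fy
      gcongr
    have h3 : 1 / κ ^ 2 ≤ τ + ‖D.Fy j (z b) (z j)‖ := by
      rw [div_le_iff₀ (by positivity)] at h2 ⊢
      nlinarith
    have h4 : 1 / κ ^ 3 + 1 / κ ^ 10 ≤ 1 / κ ^ 2 := by
      have e1 : 1 / κ ^ 3 = κ ^ 7 / κ ^ 10 := by field_simp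
      have e2 : 1 / κ ^ 2 = κ ^ 8 / κ ^ 10 := by field_simp
      rw [e1, e2, ← add_div]
      gcongr
      have : 1 ≤ κ ^ 7 := one_le_pow₀ hκ1
      nlinarith
    linarith
  have hex : ∀ j, ∃ w : ℂ, (j ≠ b → D.F j (z b) w = 0) ∧ ‖w - z j‖ ≤ κ ^ 4 * τ ∧ (j = b → w = z b) := by
    intro j
    by_cases hj : j = b
    · refine ⟨z b, fun h => absurd hj h, ?_, fun _ => rfl⟩
      rw [hj, sub_self, norm_zero]; positivity
    · obtain ⟨w, hw, hw'⟩ := D.root_near hj (σ := 1 / κ ^ 3) (by positivity) (hFj j hj) (hFy j hj)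
      refine ⟨w, fun _ => hw, hw'.trans ?_, fun h => absurd h hj⟩
      rw [div_div_eq_mul_div, div_one]
      calc D.K * τ * κ ^ 3 ≤ κ * τ * κ ^ 3 := by gcongr
        _ = _ := by ring
  choose w hw1 hw2 hw3 using hex
  have hsmall : κ ^ 4 * τ ≤ 1 / κ ^ 6 := by
    calc κ ^ 4 * τ ≤ κ ^ 4 * (1 / κ ^ 10) := by gcongr
      _ = _ := by field_simp
  have h106 : 1 / κ ^ 6 ≤ 1 / 20 := by
    apply one_div_le_one_div_of_le (by norm_num)
    calc (20 : ℝ) ≤ κ := hκ20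
      _ ≤ κ ^ 6 := le_self_pow₀ hκ1 (by norm_num)
  have hwb : w b = z b := hw3 b rfl
  have hOn : OnT w := by
    intro j
    by_cases hj : j = b
    · rw [hw3 j hj]; exact hz b
    · refine D.unimod hj (hz b) (hw1 j hj) (hz j) (hw2 j) (by linarith) ?_
      refine lt_of_lt_of_le ?_ hN
      have : 3 * D.K ^ 2 * (κ ^ 4 * τ) ≤ 3 * κ ^ 2 * (1 / κ ^ 6) := by gcongr
      refine lt_of_le_of_lt this ?_
      rw [mul_one_div, div_lt_div_iff₀ (by positivity) hκ0]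
      have : 3 < κ := by linarith
      calc 3 * κ ^ 2 * κ = 3 * κ ^ 3 := by ring
        _ < κ * κ ^ 3 := by gcongr
        _ = κ ^ 4 := by ring
        _ ≤ 1 * κ ^ 6 := by rw [one_mul]; exact pow_le_pow_right₀ hκ1 (by norm_num)
  have hwn : ∀ j, ‖w j‖ ≤ 2 := fun j => by rw [hOn j]; norm_num
  refine ⟨w, ⟨hOn, ?_, by rw [hwb]; exact hN⟩, hwb, hw2⟩
  refine D.P_zero hzn hwn (fun j hj => by rw [hwb]; exact hw1 j hj) ?_
  rw [hwb]
  refine lt_of_lt_of_le ?_ hN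
  have h1 : ‖MvPolynomial.eval z P‖ ≤ 1 / κ ^ 10 := by
    have h2 : τ ^ D.M ≤ τ := pow_le_of_le_one hτ0.le hτ1 (by have := D.hM; omega)
    have h3 : ‖MvPolynomial.eval z P‖ ≤ κ ^ 2 * ‖MvPolynomial.eval z P‖ := by
      have : (1 : ℝ) ≤ κ ^ 2 := one_le_pow₀ hκ1
      nlinarith [norm_nonneg (MvPolynomial.eval z P)]
    linarith
  have h2 : ∑ j, ‖w j - z j‖ ≤ κ * (1 / κ ^ 6) := by
    calc ∑ j, ‖w j - z j‖ ≤ ∑ j : Fin d, (1 / κ ^ 6) :=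
          Finset.sum_le_sum fun j _ => (hw2 j).trans hsmall
      _ = d * (1 / κ ^ 6) := by simp
      _ ≤ κ * (1 / κ ^ 6) := by
          have := D.hd
          gcongr
          linarith
  calc D.K * (‖MvPolynomial.eval z P‖ + D.K * ∑ j, ‖w j - z j‖)
      ≤ κ * (1 / κ ^ 10 + κ * (κ * (1 / κ ^ 6))) := by gcongr
    _ < 1 / κ := by
      rw [lt_div_iff₀ hκ0]
      have e : κ * (1 / κ ^ 10 + κ * (κ * (1 / κ ^ 6))) * κ = 1 / κ ^ 8 + 1 / κ ^ 2 := by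
        field_simp
      rw [e]
      have e1 : 1 / κ ^ 8 ≤ 1 / 20 := by
        apply one_div_le_one_div_of_le (by norm_num)
        exact hκ20.trans (le_self_pow₀ hκ1 (by norm_num))
      have e2 : 1 / κ ^ 2 ≤ 1 / 20 := by
        apply one_div_le_one_div_of_le (by norm_num)
        exact hκ20.trans (le_self_pow₀ hκ1 (by norm_num))
      linarith

/-- complex slope of the `j`-th coordinate -/
noncomputable def vc (j : Fin d) (y : Fin d → ℂ) : ℂ :=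
  -(y b * D.Fx j (y b) (y j)) / (y j * D.Fy j (y b) (y j))

variable {D}

lemma Nd.fy {κ : ℝ} {y : Fin d → ℂ} (h : D.Nd κ y) (hκ : D.K ≤ κ) {j : Fin d} (hj : j ≠ b) :
    1 / κ ^ 2 ≤ ‖D.Fy j (y b) (y j)‖ := by
  have hκ0 : 0 < κ := lt_of_lt_of_le D.K_pos hκ
  have h1 := D.fy_lower hj (by rw [h.1 b]; norm_num) (by rw [h.1 j]; norm_num) (h.F_zero hκ hj)
  have h2 : 1 / κ ≤ κ * ‖D.Fy j (y b) (y j)‖ := by
    refine h.2.2.trans (h1.trans ?_)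
    gcongr
  rw [div_le_iff₀ (by positivity)] at h2 ⊢
  nlinarith

lemma Nd.vc_norm {κ : ℝ} {y : Fin d → ℂ} (h : D.Nd κ y) (hκ : D.K ≤ κ) {j : Fin d} (hj : j ≠ b) :
    ‖D.vc j y‖ ≤ κ ^ 3 := by
  have hκ0 : 0 < κ := lt_of_lt_of_le D.K_pos hκ
  have h1 := h.fy hκ hj
  have h2 : ‖D.Fx j (y b) (y j)‖ ≤ κ :=
    (D.bdx j hj _ _ (by rw [h.1 b]; norm_num) (by rw [h.1 j]; norm_num)).trans hκ
  unfold vc
  rw [norm_div, norm_neg, norm_mul, norm_mul, h.1 b, h.1 j, one_mul, one_mul]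
  have h3 : 0 < ‖D.Fy j (y b) (y j)‖ := lt_of_lt_of_le (by positivity) h1
  rw [div_le_iff₀ h3]
  calc ‖D.Fx j (y b) (y j)‖ ≤ κ := h2
    _ = κ ^ 3 * (1 / κ ^ 2) := by field_simp
    _ ≤ _ := by gcongr

/-- (G2): moving the base coordinate -/
lemma Nd.move {κ : ℝ} {y : Fin d → ℂ} (h : D.Nd κ y) (hκ : D.K ≤ κ) (s : ℂ)
    (hs : ‖s‖ * κ ^ 20 ≤ 1) :
    ∃ y' : Fin d → ℂ, y' b = y b * Complex.exp (Complex.I * s) ∧ MvPolynomial.eval y' P = 0 ∧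
      (∀ j, ‖y' j‖ ≤ 2) ∧ (∀ j ≠ b, D.F j (y' b) (y' j) = 0) ∧
      (∀ j ≠ b, ‖y' j - y j * Complex.exp (Complex.I * (D.vc j y * s))‖ ≤ κ ^ 12 * ‖s‖ ^ 2) ∧
      (∀ j, ‖y' j - y j‖ ≤ κ ^ 4 * ‖s‖) ∧ (s.im = 0 → OnT y') := by
  have hK := D.hK
  have hκ0 : 0 < κ := by linarith
  have hκ20 : 20 ≤ κ := by linarith
  have hκ1 : 1 ≤ κ := by linarith
  have hs0 : 0 ≤ ‖s‖ := norm_nonneg _
  have hsκ : ∀ n m : ℕ, n + m ≤ 20 → κ ^ n * ‖s‖ ≤ 1 / κ ^ m := by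
    intro n m hnm
    rw [le_div_iff₀ (by positivity)]
    calc κ ^ n * ‖s‖ * κ ^ m = ‖s‖ * κ ^ (n + m) := by rw [pow_add]; ring
      _ ≤ ‖s‖ * κ ^ 20 := by gcongr
      _ ≤ 1 := hs
  have inv_le : ∀ m : ℕ, 1 ≤ m → 1 / κ ^ m ≤ 1 / 20 := by
    intro m hm
    apply one_div_le_one_div_of_le (by norm_num)
    exact hκ20.trans (le_self_pow₀ hκ1 (by omega))
  have hs1 : ‖s‖ ≤ 1 / 20 := by
    have := hsκ 0 1 (by norm_num)
    rw [pow_zero, one_mul] at this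
    exact this.trans (inv_le 1 le_rfl)
  have hxn : ‖y b‖ = 1 := h.1 b
  set x' : ℂ := y b * Complex.exp (Complex.I * s) with hx'
  have hIs : ‖Complex.I * s‖ = ‖s‖ := by rw [norm_mul, Complex.norm_I, one_mul]
  have he1 : ‖Complex.exp (Complex.I * s) - 1 - Complex.I * s‖ ≤ ‖s‖ ^ 2 := by
    have := Complex.norm_exp_sub_one_sub_id_le (x := Complex.I * s) (by rw [hIs]; linarith)
    rwa [hIs] at this
  have he2 : ‖Complex.exp (Complex.I * s) - 1‖ ≤ 2 * ‖s‖ := by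
    have := Complex.norm_exp_sub_one_le (x := Complex.I * s) (by rw [hIs]; linarith)
    rwa [hIs] at this
  have hxx : ‖x' - y b‖ ≤ 2 * ‖s‖ := by
    have : x' - y b = y b * (Complex.exp (Complex.I * s) - 1) := by rw [hx']; ring
    rw [this, norm_mul, hxn, one_mul]; exact he2
  have hx'2 : ‖x'‖ ≤ 2 := by
    have : x' = y b + (x' - y b) := by ring
    rw [this]
    refine (norm_add_le _ _).trans ?_
    rw [hxn]; linarith
  have hN' : 1 / (2 * κ) ≤ ‖D.N.eval x'‖ := by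
    have h1 := D.N_lip (y b) x' (by rw [hxn]; norm_num) hx'2
    have h2 : ‖D.N.eval (y b)‖ ≤ ‖D.N.eval x'‖ + ‖D.N.eval x' - D.N.eval (y b)‖ := by
      have : D.N.eval (y b) = D.N.eval x' - (D.N.eval x' - D.N.eval (y b)) := by ring
      nth_rewrite 1 [this]
      exact norm_sub_le _ _
    have h3 : D.K * ‖x' - y b‖ ≤ 1 / (2 * κ) := by
      have h4 := hsκ 1 2 (by norm_num)
      calc D.K * ‖x' - y b‖ ≤ κ * (2 * ‖s‖) := by gcongr
        _ = 2 * (κ ^ 1 * ‖s‖) := by ring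
        _ ≤ 2 * (1 / κ ^ 2) := by gcongr
        _ ≤ 1 / (2 * κ) := by
          rw [mul_one_div, div_le_div_iff₀ (by positivity) (by positivity)]
          nlinarith
    have h5 := h.2.2
    have h6 : 1 / κ = 1 / (2 * κ) + 1 / (2 * κ) := by field_simp; norm_num
    linarith
  -- candidates
  have hstep : ∀ j, j ≠ b → ∃ w : ℂ, D.F j x' w = 0 ∧
      ‖w - y j * Complex.exp (Complex.I * (D.vc j y * s))‖ ≤ κ ^ 12 * ‖s‖ ^ 2 ∧
      ‖w - y j‖ ≤ κ ^ 4 * ‖s‖ := by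
    intro j hj
    have hyj : ‖y j‖ = 1 := h.1 j
    set v := D.vc j y with hv
    have hv3 : ‖v‖ ≤ κ ^ 3 := h.vc_norm hκ hj
    set u : ℂ := Complex.I * (v * s) with hu
    have hun : ‖u‖ ≤ κ ^ 3 * ‖s‖ := by
      rw [hu, norm_mul, norm_mul, Complex.norm_I, one_mul]; gcongr
    have hu1 : ‖u‖ ≤ 1 := hun.trans ((hsκ 3 1 (by norm_num)).trans
      ((inv_le 1 le_rfl).trans (by norm_num)))
    have g1 := Complex.norm_exp_sub_one_sub_id_le hu1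
    have g2 := Complex.norm_exp_sub_one_le hu1
    set w := y j * Complex.exp u with hw
    have hwy : ‖w - y j‖ ≤ 2 * (κ ^ 3 * ‖s‖) := by
      have : w - y j = y j * (Complex.exp u - 1) := by rw [hw]; ring
      rw [this, norm_mul, hyj, one_mul]
      linarith
    have hw2 : ‖w‖ ≤ 2 := by
      have : w = y j + (w - y j) := by ring
      rw [this]
      refine (norm_add_le _ _).trans ?_
      rw [hyj]
      have := hsκ 3 1 (by norm_num)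
      have := inv_le 1 le_rfl
      linarith
    have hFyne : D.Fy j (y b) (y j) ≠ 0 := by
      rw [← norm_pos_iff]; exact lt_of_lt_of_le (by positivity) (h.fy hκ hj)
    have hyj0 : y j ≠ 0 := by rw [← norm_pos_iff, hyj]; norm_num
    have hmain : y b * D.Fx j (y b) (y j) + v * (y j * D.Fy j (y b) (y j)) = 0 := by
      rw [hv, vc]; field_simp; ring
    have ht := D.tay j hj (y b) (y j) x' w (by rw [hxn]; norm_num) (by rw [hyj]; norm_num) hx'2 hw2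
    rw [show (D.S j).evalEval (y b) (y j) = 0 from h.F_zero hκ hj, sub_zero] at ht
    have hsum : ‖x' - y b‖ + ‖w - y j‖ ≤ 4 * (κ ^ 3 * ‖s‖) := by
      have : ‖s‖ ≤ κ ^ 3 * ‖s‖ := le_mul_of_one_le_left hs0 (one_le_pow₀ hκ1)
      linarith
    have hsum0 : 0 ≤ ‖x' - y b‖ + ‖w - y j‖ := by positivity
    have hF : ‖D.F j x' w‖ ≤ κ ^ 8 * ‖s‖ ^ 2 := by
      have e : D.F j x' w = ((D.S j).evalEval x' w - (D.Sx j).evalEval (y b) (y j) * (x' - y b) -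
          (derivative (D.S j)).evalEval (y b) (y j) * (w - y j)) +
          y b * D.Fx j (y b) (y j) * (Complex.exp (Complex.I * s) - 1 - Complex.I * s) +
          y j * D.Fy j (y b) (y j) * (Complex.exp u - 1 - u) +
          Complex.I * s * (y b * D.Fx j (y b) (y j) + v * (y j * D.Fy j (y b) (y j))) := by
        rw [hx', hw, hu]; unfold F Fx Fy; ring
      rw [e, hmain, mul_zero, add_zero]
      refine norm_add₃_le.trans ?_
      have b1 : ‖D.Fx j (y b) (y j)‖ ≤ κ :=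
        (D.bdx j hj _ _ (by rw [hxn]; norm_num) (by rw [hyj]; norm_num)).trans hκ
      have b2 : ‖D.Fy j (y b) (y j)‖ ≤ κ :=
        (D.bdy j hj _ _ (by rw [hxn]; norm_num) (by rw [hyj]; norm_num)).trans hκ
      have c1 : ‖(D.S j).evalEval x' w - (D.Sx j).evalEval (y b) (y j) * (x' - y b) -
          (derivative (D.S j)).evalEval (y b) (y j) * (w - y j)‖ ≤ κ * (4 * (κ ^ 3 * ‖s‖)) ^ 2 := by
        refine ht.trans ?_
        gcongr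
      have c2 : ‖y b * D.Fx j (y b) (y j) * (Complex.exp (Complex.I * s) - 1 - Complex.I * s)‖ ≤
          κ * ‖s‖ ^ 2 := by
        rw [norm_mul, norm_mul, hxn, one_mul]; gcongr
      have c3 : ‖y j * D.Fy j (y b) (y j) * (Complex.exp u - 1 - u)‖ ≤
          κ * (κ ^ 3 * ‖s‖) ^ 2 := by
        rw [norm_mul, norm_mul, hyj, one_mul]
        have : ‖Complex.exp u - 1 - u‖ ≤ (κ ^ 3 * ‖s‖) ^ 2 := g1.trans (by gcongr)
        gcongr
      have c4 : κ ≤ κ ^ 7 := le_self_pow₀ hκ1 (by norm_num)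
      calc _ ≤ κ * (4 * (κ ^ 3 * ‖s‖)) ^ 2 + κ * ‖s‖ ^ 2 + κ * (κ ^ 3 * ‖s‖) ^ 2 := by linarith
        _ = (17 * κ ^ 7 + κ) * ‖s‖ ^ 2 := by ring
        _ ≤ κ ^ 8 * ‖s‖ ^ 2 := by
          gcongr
          have : κ ^ 8 = κ * κ ^ 7 := by ring
          rw [this]
          have : 0 < κ ^ 7 := by positivity
          nlinarith
    have hFyw : 1 / κ ^ 3 ≤ ‖D.Fy j x' w‖ := by
      have h1 := D.lipy j hj (y b) (y j) x' w (by rw [hxn]; norm_num) (by rw [hyj]; norm_num) hx'2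
        hw2
      have h2 : ‖D.Fy j (y b) (y j)‖ ≤ ‖D.Fy j x' w‖ + ‖D.Fy j x' w - D.Fy j (y b) (y j)‖ := by
        have : D.Fy j (y b) (y j) = D.Fy j x' w - (D.Fy j x' w - D.Fy j (y b) (y j)) := by ring
        nth_rewrite 1 [this]
        exact norm_sub_le _ _
      have h3 : ‖D.Fy j x' w - D.Fy j (y b) (y j)‖ ≤ 4 * (1 / κ ^ 4) := by
        refine h1.trans ?_
        calc D.K * (‖x' - y b‖ + ‖w - y j‖) ≤ κ * (4 * (κ ^ 3 * ‖s‖)) := by gcongr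
          _ = 4 * (κ ^ 4 * ‖s‖) := by ring
          _ ≤ 4 * (1 / κ ^ 4) := by gcongr; exact hsκ 4 4 (by norm_num)
      have h4 := h.fy hκ hj
      have h5 : 1 / κ ^ 3 + 4 * (1 / κ ^ 4) ≤ 1 / κ ^ 2 := by
        have e1 : 1 / κ ^ 3 = κ / κ ^ 4 := by field_simp
        have e2 : 1 / κ ^ 2 = κ ^ 2 / κ ^ 4 := by field_simp
        rw [e1, e2, mul_one_div, ← add_div]
        gcongr
        nlinarith
      linarith
    obtain ⟨w', hw', hw''⟩ := D.root_near hj (by positivity) hF hFyw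
    have h12 : ‖w' - w‖ ≤ κ ^ 12 * ‖s‖ ^ 2 := by
      refine hw''.trans ?_
      rw [div_div_eq_mul_div, div_one]
      calc D.K * (κ ^ 8 * ‖s‖ ^ 2) * κ ^ 3 ≤ κ * (κ ^ 8 * ‖s‖ ^ 2) * κ ^ 3 := by gcongr
        _ = _ := by ring
    refine ⟨w', hw', h12, ?_⟩
    have : w' - y j = (w' - w) + (w - y j) := by ring
    rw [this]
    refine (norm_add_le _ _).trans ?_
    have h13 : κ ^ 12 * ‖s‖ ^ 2 ≤ ‖s‖ := by
      have := hsκ 12 1 (by norm_num)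
      have h14 : κ ^ 12 * ‖s‖ ≤ 1 := this.trans ((inv_le 1 le_rfl).trans (by norm_num))
      calc κ ^ 12 * ‖s‖ ^ 2 = (κ ^ 12 * ‖s‖) * ‖s‖ := by ring
        _ ≤ 1 * ‖s‖ := by gcongr
        _ = ‖s‖ := one_mul _
    calc ‖w' - w‖ + ‖w - y j‖ ≤ ‖s‖ + 2 * (κ ^ 3 * ‖s‖) := by linarith
      _ = (1 + 2 * κ ^ 3) * ‖s‖ := by ring
      _ ≤ κ ^ 4 * ‖s‖ := by
        gcongr
        have h3 : 1 ≤ κ ^ 3 := one_le_pow₀ hκ1
        nlinarith
  have hex : ∀ j, ∃ w : ℂ, (j = b → w = x') ∧ (j ≠ b → D.F j x' w = 0) ∧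
      (j ≠ b → ‖w - y j * Complex.exp (Complex.I * (D.vc j y * s))‖ ≤ κ ^ 12 * ‖s‖ ^ 2) ∧
      ‖w - y j‖ ≤ κ ^ 4 * ‖s‖ := by
    intro j
    by_cases hj : j = b
    · refine ⟨x', fun _ => rfl, fun h => absurd hj h, fun h => absurd hj h, ?_⟩
      rw [hj]
      refine hxx.trans ?_
      gcongr
      calc (2 : ℝ) ≤ κ := by linarith
        _ ≤ κ ^ 4 := le_self_pow₀ hκ1 (by norm_num)
    · obtain ⟨w, h1, h2, h3⟩ := hstep j hj
      exact ⟨w, fun h => absurd h hj, fun _ => h1, fun _ => h2, h3⟩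
  choose y' hb' hF' hc' hd' using hex
  have hyb : y' b = x' := hb' b rfl
  have hy'2 : ∀ j, ‖y' j‖ ≤ 2 := by
    intro j
    have : y' j = y j + (y' j - y j) := by ring
    rw [this]
    refine (norm_add_le _ _).trans ?_
    rw [h.1 j]
    have := hd' j
    have := hsκ 4 1 (by norm_num)
    have := inv_le 1 le_rfl
    linarith
  have hFF : ∀ j ≠ b, D.F j (y' b) (y' j) = 0 := fun j hj => by rw [hyb]; exact hF' j hj
  refine ⟨y', hyb, ?_, hy'2, hFF, fun j hj => hc' j hj, hd', ?_⟩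
  · refine D.P_zero (z := y) (fun j => by rw [h.1 j]; norm_num) hy'2 hFF ?_
    rw [h.2.1, norm_zero, zero_add, hyb]
    refine lt_of_lt_of_le ?_ hN'
    have h2 : ∑ j, ‖y' j - y j‖ ≤ κ * (κ ^ 4 * ‖s‖) := by
      calc ∑ j, ‖y' j - y j‖ ≤ ∑ j : Fin d, (κ ^ 4 * ‖s‖) := Finset.sum_le_sum fun j _ => hd' j
        _ = d * (κ ^ 4 * ‖s‖) := by simp
        _ ≤ κ * (κ ^ 4 * ‖s‖) := by
          have := D.hd
          gcongr
          linarith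
    calc D.K * (D.K * ∑ j, ‖y' j - y j‖) ≤ κ * (κ * (κ * (κ ^ 4 * ‖s‖))) := by gcongr
      _ = κ ^ 7 * ‖s‖ := by ring
      _ ≤ 1 / κ ^ 2 := hsκ 7 2 (by norm_num)
      _ < 1 / (2 * κ) := by
        rw [div_lt_div_iff₀ (by positivity) (by positivity)]
        nlinarith
  · intro hsi j
    have hx1 : ‖x'‖ = 1 := by
      rw [hx', norm_mul, hxn, one_mul]
      have : Complex.I * s = ((s.re : ℝ) : ℂ) * Complex.I := by
        have : s = (s.re : ℂ) := by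
          apply Complex.ext <;> simp [hsi]
        rw [this]; simp [mul_comm]
      rw [this, Complex.norm_exp_ofReal_mul_I]
    by_cases hj : j = b
    · rw [hj, hyb]; exact hx1
    · refine D.unimod hj hx1 (hF' j hj) (h.1 j) (hd' j) ?_ ?_
      · have := hsκ 4 1 (by norm_num)
        have := inv_le 1 le_rfl
        linarith
      · refine lt_of_lt_of_le ?_ hN'
        calc 3 * D.K ^ 2 * (κ ^ 4 * ‖s‖) ≤ 3 * κ ^ 2 * (κ ^ 4 * ‖s‖) := by gcongr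
          _ = 3 * (κ ^ 6 * ‖s‖) := by ring
          _ ≤ 3 * (1 / κ ^ 2) := by gcongr; exact hsκ 6 2 (by norm_num)
          _ < 1 / (2 * κ) := by
            rw [mul_one_div, div_lt_div_iff₀ (by positivity) (by positivity)]
            nlinarith

end CData

end Pool.MP4ac1fb.Curve
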