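import Pool.Agent.H.MP_4ac1fb_an.Curve.Geom

/-!
Geometry of the zero set of `P` on the torus, continued: real slopes, signs, constant branches,
fibres.
-/

namespace Pool.MP4ac1fb.Curve

open Polynomial Filter Topology

variable {d : ℕ}

/-- a nonzero polynomial does not satisfy `|f'| ≤ C |f|` near a zero -/
lemma no_gronwall (f : ℂ[X]) (hf : f ≠ 0) (a : ℂ) (ha : f.eval a = 0) (C r : ℝ) (hr : 0 < r)
    (h : ∀ x : ℂ, ‖x - a‖ < r → ‖(derivative f).eval x‖ ≤ C * ‖f.eval x‖) : False := by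
  obtain ⟨g, hg, hgd⟩ := exists_eq_pow_rootMultiplicity_mul_and_not_dvd f hf a
  have hq : 0 < f.rootMultiplicity a := (rootMultiplicity_pos hf).mpr ha
  obtain ⟨q, hq'⟩ : ∃ q, f.rootMultiplicity a = q + 1 := ⟨f.rootMultiplicity a - 1, by omega⟩
  rw [hq'] at hg
  have hga : g.eval a ≠ 0 := by
    intro h0; exact hgd (dvd_iff_isRoot.mpr h0)
  have key : ∀ x : ℂ, x ≠ a → ‖x - a‖ < r →
      ‖((q : ℂ) + 1) * g.eval x + (x - a) * (derivative g).eval x‖ ≤
        C * (‖x - a‖ * ‖g.eval x‖) := by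
    intro x hx hxr
    have h1 := h x hxr
    have hpos : 0 < ‖x - a‖ := norm_pos_iff.mpr (sub_ne_zero.mpr hx)
    have e1 : (derivative f).eval x =
        (x - a) ^ q * (((q : ℂ) + 1) * g.eval x + (x - a) * (derivative g).eval x) := by
      rw [hg, derivative_mul, derivative_pow]
      simp only [derivative_sub, derivative_X, derivative_C, eval_add, eval_mul, eval_pow,
        eval_sub, eval_X, eval_C, eval_one, eval_zero, Nat.add_sub_cancel]
      push_cast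
      ring
    have e2 : f.eval x = (x - a) ^ q * ((x - a) * g.eval x) := by
      rw [hg]
      simp only [eval_mul, eval_pow, eval_sub, eval_X, eval_C]
      ring
    rw [e1, e2, norm_mul, norm_mul, norm_pow, norm_mul] at h1
    have hp : 0 < ‖x - a‖ ^ q := by positivity
    have : ‖x - a‖ ^ q * ‖((q : ℂ) + 1) * g.eval x + (x - a) * (derivative g).eval x‖ ≤
        ‖x - a‖ ^ q * (C * (‖x - a‖ * ‖g.eval x‖)) := by
      calc _ ≤ _ := h1
        _ = _ := by ring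
    exact le_of_mul_le_mul_left this hp
  have t1 : Tendsto (fun x : ℂ => ‖((q : ℂ) + 1) * g.eval x + (x - a) * (derivative g).eval x‖)
      (𝓝[≠] a) (𝓝 ‖((q : ℂ) + 1) * g.eval a + (a - a) * (derivative g).eval a‖) := by
    apply tendsto_nhdsWithin_of_tendsto_nhds
    apply Continuous.tendsto
    exact ((continuous_const.mul g.continuous).add
      ((continuous_id.sub continuous_const).mul (derivative g).continuous)).norm
  have t2 : Tendsto (fun x : ℂ => C * (‖x - a‖ * ‖g.eval x‖))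
      (𝓝[≠] a) (𝓝 (C * (‖a - a‖ * ‖g.eval a‖))) := by
    apply tendsto_nhdsWithin_of_tendsto_nhds
    apply Continuous.tendsto
    exact continuous_const.mul ((continuous_id.sub continuous_const).norm.mul g.continuous.norm)
  have h2 := le_of_tendsto_of_tendsto t1 t2 (by
    have h3 : ∀ᶠ x in 𝓝[≠] a, ‖x - a‖ < r := by
      apply mem_nhdsWithin_of_mem_nhds
      have := Metric.ball_mem_nhds a hr
      filter_upwards [this] with x hx
      rwa [Metric.mem_ball, dist_eq_norm] at hx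
    filter_upwards [h3, self_mem_nhdsWithin] with x hx hx'
    exact key x hx' hx)
  rw [sub_self, zero_mul, add_zero, norm_zero, zero_mul, mul_zero, norm_mul] at h2
  have h3 : 0 < ‖(q : ℂ) + 1‖ * ‖g.eval a‖ := by
    apply mul_pos
    · rw [norm_pos_iff]; exact_mod_cast Nat.succ_ne_zero q
    · exact norm_pos_iff.mpr hga
  linarith

namespace CData

variable {b : Fin d} {P : MvPolynomial (Fin d) ℂ} {D : CData b P}

lemma Nd.mono {κ κ' : ℝ} {y : Fin d → ℂ} (h : D.Nd κ y) (hκ : D.K ≤ κ) (hκ' : κ ≤ κ') :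
    D.Nd κ' y := by
  have hκ0 : 0 < κ := lt_of_lt_of_le D.K_pos hκ
  refine ⟨h.1, h.2.1, le_trans ?_ h.2.2⟩
  gcongr

/-- slopes are real -/
lemma Nd.vc_im {κ : ℝ} {y : Fin d → ℂ} (h : D.Nd κ y) (hκ : D.K ≤ κ) {j : Fin d} (hj : j ≠ b) :
    (D.vc j y).im = 0 := by
  have hK := D.hK
  have hκ0 : 0 < κ := by linarith
  by_contra hcon
  set a := (D.vc j y).im with ha
  have hapos : 0 < |a| := abs_pos.mpr hcon
  -- choose the size of s
  obtain ⟨r, hr0, hr1, hr2⟩ : ∃ r : ℝ, 0 < r ∧ r * κ ^ 20 ≤ 1 ∧ κ ^ 12 * r < |a| := by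
    refine ⟨min (1 / κ ^ 20) (|a| / (2 * κ ^ 12)), by positivity, ?_, ?_⟩
    · calc min (1 / κ ^ 20) (|a| / (2 * κ ^ 12)) * κ ^ 20 ≤ (1 / κ ^ 20) * κ ^ 20 := by
            gcongr; exact min_le_left _ _
        _ = 1 := by field_simp
    · calc κ ^ 12 * min (1 / κ ^ 20) (|a| / (2 * κ ^ 12)) ≤ κ ^ 12 * (|a| / (2 * κ ^ 12)) := by
            gcongr; exact min_le_right _ _
        _ = |a| / 2 := by field_simp
        _ < |a| := by linarith
  -- sign
  obtain ⟨σ, hσ, hσa⟩ : ∃ σ : ℝ, |σ| = r ∧ -(a * σ) = |a| * r := by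
    rcases le_total 0 a with h0 | h0
    · exact ⟨-r, by rw [abs_neg, abs_of_pos hr0], by rw [abs_of_nonneg h0]; ring⟩
    · exact ⟨r, abs_of_pos hr0, by rw [abs_of_nonpos h0]; ring⟩
  have hσn : ‖(σ : ℂ)‖ = r := by rw [Complex.norm_real, Real.norm_eq_abs, hσ]
  obtain ⟨y', -, -, -, -, h5, -, h7⟩ := h.move hκ (σ : ℂ) (by rw [hσn]; exact hr1)
  have hon := h7 (Complex.ofReal_im σ)
  have h8 := h5 j hj
  rw [hσn] at h8
  have h9 : ‖y j * Complex.exp (Complex.I * (D.vc j y * σ))‖ = Real.exp (|a| * r) := by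
    rw [norm_mul, h.1 j, one_mul, Complex.norm_exp]
    congr 1
    rw [← hσa]
    simp [Complex.mul_re, Complex.mul_im, ← ha]
  have h10 : Real.exp (|a| * r) ≤ 1 + κ ^ 12 * r ^ 2 := by
    rw [← h9]
    have : y j * Complex.exp (Complex.I * (D.vc j y * σ)) = y' j -
      (y' j - y j * Complex.exp (Complex.I * (D.vc j y * σ))) := by ring
    rw [this]
    refine (norm_sub_le _ _).trans ?_
    rw [hon j]
    linarith
  have h11 := Real.add_one_le_exp (|a| * r)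
  have h12 : |a| * r ≤ κ ^ 12 * r * r := by nlinarith
  have := le_of_mul_le_mul_right h12 hr0
  linarith

/-- real slope -/
noncomputable def v (D : CData b P) (j : Fin d) (y : Fin d → ℂ) : ℝ := (D.vc j y).re

lemma Nd.vc_eq {κ : ℝ} {y : Fin d → ℂ} (h : D.Nd κ y) (hκ : D.K ≤ κ) {j : Fin d} (hj : j ≠ b) :
    D.vc j y = (D.v j y : ℂ) := by
  apply Complex.ext
  · simp [v]
  · rw [h.vc_im hκ hj]; simp

lemma Nd.abs_v {κ : ℝ} {y : Fin d → ℂ} (h : D.Nd κ y) (hκ : D.K ≤ κ) {j : Fin d} (hj : j ≠ b) :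
    |D.v j y| ≤ κ ^ 3 := by
  have := h.vc_norm hκ hj
  rwa [h.vc_eq hκ hj, Complex.norm_real, Real.norm_eq_abs] at this

/-- real motion -/
lemma Nd.move_real {κ : ℝ} {y : Fin d → ℂ} (h : D.Nd κ y) (hκ : D.K ≤ κ) (s : ℝ)
    (hs : |s| * κ ^ 20 ≤ 1) :
    ∃ y' : Fin d → ℂ, D.Nd (2 * κ) y' ∧ y' b = y b * Complex.exp (s * Complex.I) ∧
      (∀ j ≠ b, ‖y' j - y j * Complex.exp ((D.v j y * s : ℝ) * Complex.I)‖ ≤ κ ^ 12 * s ^ 2) ∧
      (∀ j, ‖y' j - y j‖ ≤ κ ^ 4 * |s|) := by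
  have hK := D.hK
  have hκ0 : 0 < κ := by linarith
  have hκ1 : 1 ≤ κ := by linarith
  have hsn : ‖(s : ℂ)‖ = |s| := by rw [Complex.norm_real, Real.norm_eq_abs]
  obtain ⟨y', h1, h2, h3, h4, h5, h6, h7⟩ := h.move hκ (s : ℂ) (by rw [hsn]; exact hs)
  have hon := h7 (Complex.ofReal_im s)
  refine ⟨y', ⟨hon, h2, ?_⟩, by rw [h1, mul_comm Complex.I], fun j hj => ?_, fun j => ?_⟩
  · have h8 := D.N_lip (y b) (y' b) (by rw [h.1 b]; norm_num) (h3 b)
    have h9 : ‖D.N.eval (y b)‖ ≤ ‖D.N.eval (y' b)‖ + ‖D.N.eval (y' b) - D.N.eval (y b)‖ := by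
      have : D.N.eval (y b) = D.N.eval (y' b) - (D.N.eval (y' b) - D.N.eval (y b)) := by ring
      nth_rewrite 1 [this]
      exact norm_sub_le _ _
    have h10 : D.K * ‖y' b - y b‖ ≤ 1 / (2 * κ) := by
      have h11 := h6 b
      rw [hsn] at h11
      calc D.K * ‖y' b - y b‖ ≤ κ * (κ ^ 4 * |s|) := by gcongr
        _ = κ ^ 5 * |s| := by ring
        _ ≤ 1 / κ ^ 2 := by
          rw [le_div_iff₀ (by positivity)]
          calc κ ^ 5 * |s| * κ ^ 2 = |s| * κ ^ 7 := by ring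
            _ ≤ |s| * κ ^ 20 := by gcongr; norm_num
            _ ≤ 1 := hs
        _ ≤ 1 / (2 * κ) := by
          apply one_div_le_one_div_of_le (by positivity)
          nlinarith
    have h12 := h.2.2
    have h13 : 1 / κ = 1 / (2 * κ) + 1 / (2 * κ) := by field_simp; norm_num
    linarith
  · have := h5 j hj
    rw [hsn, sq_abs, h.vc_eq hκ hj] at this
    have e : Complex.I * ((D.v j y : ℂ) * (s : ℂ)) = ((D.v j y * s : ℝ) : ℂ) * Complex.I := by
      push_cast; ring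
    rwa [e] at this
  · have := h6 j
    rwa [hsn] at this

/-- a coordinate which is constant along the curve -/
def ConstAt (D : CData b P) (j : Fin d) (ζ : ℂ) : Prop := ∀ x, D.F j x ζ = 0

/-- all coordinates `j ≠ b` are nonconstant -/
def Good (D : CData b P) (y : Fin d → ℂ) : Prop := ∀ j ≠ b, ¬ D.ConstAt j (y j)

/-- a coordinate with slope zero is constant -/
lemma Nd.const_branch {κ : ℝ} {y : Fin d → ℂ} (h : D.Nd κ y) (hκ : D.K ≤ κ) {j : Fin d}
    (hj : j ≠ b) (h0 : D.Fx j (y b) (y j) = 0) : D.ConstAt j (y j) := by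
  have hK := D.hK
  have hκ0 : 0 < κ := by linarith
  have hκ20 : 20 ≤ κ := by linarith
  have hκ1 : 1 ≤ κ := by linarith
  set f : ℂ[X] := (D.S j).eval (C (y j)) with hf
  have hfe : ∀ x, f.eval x = D.F j x (y j) := fun x => rfl
  have hfd : ∀ x, (derivative f).eval x = D.Fx j x (y j) := fun x => (D.dx j hj x (y j)).symm
  by_cases hf0 : f = 0
  · intro x
    rw [← hfe, hf0, eval_zero]
  exfalso
  refine no_gronwall f hf0 (y b) (by rw [hfe]; exact h.F_zero hκ hj) (κ ^ 5) (1 / κ ^ 20)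
    (by positivity) fun x hx => ?_
  rw [hfd, hfe]
  have hxn : ‖y b‖ = 1 := h.1 b
  have hyn : ‖y j‖ = 1 := h.1 j
  have inv_le : ∀ m : ℕ, 1 ≤ m → 1 / κ ^ m ≤ 1 / 20 := by
    intro m hm
    apply one_div_le_one_div_of_le (by norm_num)
    exact hκ20.trans (le_self_pow₀ hκ1 (by omega))
  have hx2 : ‖x‖ ≤ 2 := by
    have : x = y b + (x - y b) := by ring
    rw [this]
    refine (norm_add_le _ _).trans ?_
    rw [hxn]
    have := inv_le 20 (by norm_num)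
    linarith
  have hFx2 : ‖D.F j x (y j)‖ ≤ κ ^ 2 * ‖x - y b‖ := by
    have ht := D.tay j hj (y b) (y j) x (y j) (by rw [hxn]; norm_num) (by rw [hyn]; norm_num) hx2
      (by rw [hyn]; norm_num)
    rw [show (D.S j).evalEval (y b) (y j) = 0 from h.F_zero hκ hj,
      show (D.Sx j).evalEval (y b) (y j) = 0 from h0, sub_self, norm_zero, mul_zero, zero_mul,
      sub_zero, sub_zero, sub_zero, add_zero] at ht
    refine le_trans ht ?_
    have h1 : ‖x - y b‖ ≤ 1 := hx.le.trans ((inv_le 20 (by norm_num)).trans (by norm_num))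
    calc D.K * ‖x - y b‖ ^ 2 ≤ κ * (1 * ‖x - y b‖) := by
          gcongr
          rw [sq]; gcongr
      _ ≤ κ ^ 2 * ‖x - y b‖ := by
          rw [one_mul]; gcongr; nlinarith
  have hFy : 1 / κ ^ 3 ≤ ‖D.Fy j x (y j)‖ := by
    have h1 := D.lipy j hj (y b) (y j) x (y j) (by rw [hxn]; norm_num) (by rw [hyn]; norm_num) hx2
      (by rw [hyn]; norm_num)
    rw [sub_self, norm_zero, add_zero] at h1
    have h2 : ‖D.Fy j (y b) (y j)‖ ≤ ‖D.Fy j x (y j)‖ + ‖D.Fy j x (y j) - D.Fy j (y b) (y j)‖ := by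
      have : D.Fy j (y b) (y j) = D.Fy j x (y j) - (D.Fy j x (y j) - D.Fy j (y b) (y j)) := by ring
      nth_rewrite 1 [this]
      exact norm_sub_le _ _
    have h3 : ‖D.Fy j x (y j) - D.Fy j (y b) (y j)‖ ≤ 1 / κ ^ 3 := by
      refine h1.trans ?_
      calc D.K * ‖x - y b‖ ≤ κ * (1 / κ ^ 20) := by gcongr
        _ = 1 / κ ^ 19 := by field_simp
        _ ≤ 1 / κ ^ 3 := by gcongr; norm_num
    have h4 := h.fy hκ hj
    have h5 : 1 / κ ^ 3 + (1 / κ ^ 3) ≤ 1 / κ ^ 2 := by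
      have e2 : 1 / κ ^ 2 = κ / κ ^ 3 := by field_simp
      rw [e2, ← add_div]
      gcongr
      linarith
    linarith
  obtain ⟨w, hw, hwd⟩ := D.root_near hj (by positivity) (le_refl ‖D.F j x (y j)‖) hFy
  have hwd' : ‖w - y j‖ ≤ κ ^ 4 * ‖D.F j x (y j)‖ := by
    refine hwd.trans ?_
    rw [div_div_eq_mul_div, div_one]
    calc D.K * ‖D.F j x (y j)‖ * κ ^ 3 ≤ κ * ‖D.F j x (y j)‖ * κ ^ 3 := by gcongr
      _ = _ := by ring
  have hwd2 : ‖w - y j‖ ≤ 1 / κ ^ 14 := by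
    calc ‖w - y j‖ ≤ κ ^ 4 * (κ ^ 2 * ‖x - y b‖) := hwd'.trans (by gcongr)
      _ ≤ κ ^ 4 * (κ ^ 2 * (1 / κ ^ 20)) := by gcongr
      _ = 1 / κ ^ 14 := by field_simp
  have hw2 : ‖w‖ ≤ 2 := by
    have : w = y j + (w - y j) := by ring
    rw [this]
    refine (norm_add_le _ _).trans ?_
    rw [hyn]
    have := inv_le 14 (by norm_num)
    linarith
  have hzero : D.Fx j x w = 0 := by
    rcases D.dichX j hj x w hx2 hw2 hw with h1 | h1
    · exact h1
    · exfalso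
      have h2 := D.lipx j hj (y b) (y j) x w (by rw [hxn]; norm_num) (by rw [hyn]; norm_num) hx2 hw2
      rw [show (D.Sx j).evalEval (y b) (y j) = 0 from h0, sub_zero] at h2
      have h3 := D.N_lip (y b) x (by rw [hxn]; norm_num) hx2
      have h4 : ‖D.N.eval (y b)‖ ≤ ‖D.N.eval x‖ + ‖D.N.eval x - D.N.eval (y b)‖ := by
        have : D.N.eval (y b) = D.N.eval x - (D.N.eval x - D.N.eval (y b)) := by ring
        nth_rewrite 1 [this]
        exact norm_sub_le _ _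
      have h5 : D.K * ‖x - y b‖ ≤ 1 / κ ^ 12 := by
        calc D.K * ‖x - y b‖ ≤ κ * (1 / κ ^ 20) := by gcongr
          _ = 1 / κ ^ 19 := by field_simp
          _ ≤ 1 / κ ^ 12 := by gcongr; norm_num
      have h6 : D.K * ‖(D.Sx j).evalEval x w‖ ≤ 2 * (1 / κ ^ 12) := by
        calc D.K * ‖(D.Sx j).evalEval x w‖ ≤ κ * (κ * (‖x - y b‖ + ‖w - y j‖)) := by
              have := D.K_pos
              refine mul_le_mul hκ (h2.trans ?_) (norm_nonneg _) hκ0.le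
              gcongr
          _ ≤ κ * (κ * (1 / κ ^ 20 + 1 / κ ^ 14)) := by gcongr
          _ ≤ κ * (κ * (1 / κ ^ 14 + 1 / κ ^ 14)) := by gcongr; norm_num
          _ = 2 * (1 / κ ^ 12) := by field_simp; norm_num
      have h7 := h.2.2
      have h8 : 3 * (1 / κ ^ 12) < 1 / κ := by
        rw [mul_one_div, div_lt_div_iff₀ (by positivity) hκ0]
        calc 3 * κ < κ * κ := by gcongr; linarith
          _ = κ ^ 2 := by ring
          _ ≤ 1 * κ ^ 12 := by rw [one_mul]; exact pow_le_pow_right₀ hκ1 (by norm_num)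
      linarith
  have h2 := D.lipx j hj x w x (y j) hx2 hw2 hx2 (by rw [hyn]; norm_num)
  rw [show (D.Sx j).evalEval x w = 0 from hzero, sub_zero, sub_self, norm_zero, zero_add] at h2
  calc ‖D.Fx j x (y j)‖ ≤ D.K * ‖y j - w‖ := h2
    _ ≤ κ * (κ ^ 4 * ‖D.F j x (y j)‖) := by rw [norm_sub_rev]; gcongr
    _ = _ := by ring

/-- slopes of nonconstant coordinates are not small -/
lemma Nd.v_lower {κ : ℝ} {y : Fin d → ℂ} (h : D.Nd κ y) (hκ : D.K ≤ κ) {j : Fin d}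
    (hj : j ≠ b) (hc : ¬ D.ConstAt j (y j)) : 1 / κ ^ 3 ≤ |D.v j y| := by
  have hK := D.hK
  have hκ0 : 0 < κ := by linarith
  have hxn : ‖y b‖ = 1 := h.1 b
  have hyn : ‖y j‖ = 1 := h.1 j
  rcases D.dichX j hj (y b) (y j) (by rw [hxn]; norm_num) (by rw [hyn]; norm_num)
    (h.F_zero hκ hj) with h1 | h1
  · exact absurd (h.const_branch hκ hj h1) hc
  · have h2 : 1 / κ ≤ κ * ‖D.Fx j (y b) (y j)‖ := by
      refine h.2.2.trans (h1.trans ?_)
      unfold Fx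
      gcongr
    have h3 : |D.v j y| = ‖D.Fx j (y b) (y j)‖ / ‖D.Fy j (y b) (y j)‖ := by
      have : |D.v j y| = ‖D.vc j y‖ := by
        rw [h.vc_eq hκ hj, Complex.norm_real, Real.norm_eq_abs]
      rw [this]
      unfold vc
      rw [norm_div, norm_neg, norm_mul, norm_mul, hxn, hyn, one_mul, one_mul]
    rw [h3]
    have h4 : ‖D.Fy j (y b) (y j)‖ ≤ κ :=
      (D.bdy j hj _ _ (by rw [hxn]; norm_num) (by rw [hyn]; norm_num)).trans hκ
    have h5 : 0 < ‖D.Fy j (y b) (y j)‖ := lt_of_lt_of_le (by positivity) (h.fy hκ hj)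
    rw [le_div_iff₀ h5]
    calc 1 / κ ^ 3 * ‖D.Fy j (y b) (y j)‖ ≤ 1 / κ ^ 3 * κ := by gcongr
      _ = (1 / κ) / κ := by field_simp
      _ ≤ (κ * ‖D.Fx j (y b) (y j)‖) / κ := by gcongr
      _ = _ := by field_simp

/-- stability forces a negative slope -/
lemma Nd.exists_neg (hP : NZIn P) {κ : ℝ} {y : Fin d → ℂ} (h : D.Nd κ y) (hκ : D.K ≤ κ)
    (hg : D.Good y) : ∃ j, j ≠ b ∧ D.v j y ≤ -(1 / κ ^ 3) := by
  have hK := D.hK
  have hκ0 : 0 < κ := by linarith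
  have hκ20 : 20 ≤ κ := by linarith
  have hκ1 : 1 ≤ κ := by linarith
  by_contra hcon
  push Not at hcon
  have hv : ∀ j ≠ b, 1 / κ ^ 3 ≤ D.v j y := by
    intro j hj
    have h1 := h.v_lower hκ hj (hg j hj)
    have h2 := hcon j hj
    rcases le_total 0 (D.v j y) with h3 | h3
    · rwa [abs_of_nonneg h3] at h1
    · rw [abs_of_nonpos h3] at h1; linarith
  set ε : ℝ := 1 / κ ^ 20 with hε
  have hε0 : 0 < ε := by positivity
  have hsn : ‖((ε : ℂ) * Complex.I)‖ = ε := by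
    rw [norm_mul, Complex.norm_I, mul_one, Complex.norm_real, Real.norm_eq_abs, abs_of_pos hε0]
  obtain ⟨y', h1, h2, h3, h4, h5, h6, h7⟩ := h.move hκ ((ε : ℂ) * Complex.I) (by
    rw [hsn, hε]; exact le_of_eq (by field_simp))
  refine hP y' (fun j => ?_) h2
  by_cases hj : j = b
  · rw [hj, h1, norm_mul, h.1 b, one_mul, Complex.norm_exp]
    have : (Complex.I * ((ε : ℂ) * Complex.I)).re = -ε := by simp
    rw [this, Real.exp_lt_one_iff]
    linarith
  · have h8 := h5 j hj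
    rw [hsn, h.vc_eq hκ hj] at h8
    have h9 : ‖y j * Complex.exp (Complex.I * ((D.v j y : ℂ) * ((ε : ℂ) * Complex.I)))‖ =
        Real.exp (-(D.v j y * ε)) := by
      rw [norm_mul, h.1 j, one_mul, Complex.norm_exp]
      congr 1
      simp
    have h10 : y' j = y j * Complex.exp (Complex.I * ((D.v j y : ℂ) * ((ε : ℂ) * Complex.I))) +
      (y' j - y j * Complex.exp (Complex.I * ((D.v j y : ℂ) * ((ε : ℂ) * Complex.I)))) := by ring
    rw [h10]
    refine lt_of_le_of_lt (norm_add_le _ _) ?_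
    rw [h9]
    set a : ℝ := 1 / κ ^ 3 * ε with ha
    have ha0 : 0 < a := by positivity
    have ha1 : a ≤ 1 / 2 := by
      rw [ha, hε]
      have : 1 / κ ^ 3 * (1 / κ ^ 20) = 1 / κ ^ 23 := by field_simp
      rw [this]
      apply one_div_le_one_div_of_le (by norm_num)
      exact (by linarith : (2 : ℝ) ≤ κ).trans (le_self_pow₀ hκ1 (by norm_num))
    have h11 : Real.exp (-(D.v j y * ε)) ≤ Real.exp (-a) := by
      apply Real.exp_le_exp.mpr
      have := mul_le_mul_of_nonneg_right (hv j hj) hε0.le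
      linarith
    have h12 : Real.exp (-a) ≤ 1 - a / 2 := by
      have h13 := Real.abs_exp_sub_one_sub_id_le (x := -a)
        (by rw [abs_neg, abs_of_pos ha0]; linarith)
      have h14 := (abs_le.mp h13).2
      nlinarith
    have h15 : κ ^ 12 * ε ^ 2 < a / 2 := by
      rw [ha]
      have e1 : κ ^ 12 * ε ^ 2 = κ ^ 12 * ε * ε := by ring
      have e2 : 1 / κ ^ 3 * ε / 2 = (1 / κ ^ 3 / 2) * ε := by ring
      rw [e1, e2]
      apply mul_lt_mul_of_pos_right _ hε0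
      rw [hε, div_div, mul_one_div, div_lt_div_iff₀ (by positivity) (by positivity), one_mul]
      calc κ ^ 12 * (κ ^ 3 * 2) = 2 * κ ^ 15 := by ring
        _ < κ * κ ^ 15 := by gcongr; linarith
        _ = κ ^ 16 := by ring
        _ ≤ κ ^ 20 := pow_le_pow_right₀ hκ1 (by norm_num)
    linarith

/-- separation in terms of `κ` -/
lemma sep_of_ne (D : CData b P) {κ : ℝ} (hκ : D.K ≤ κ) {j : Fin d} (hj : j ≠ b) {x y y' : ℂ}
    (hx : ‖x‖ ≤ 2) (hN : 1 / κ ≤ ‖D.N.eval x‖)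
    (hy : ‖y‖ ≤ 2) (hy' : ‖y'‖ ≤ 2) (h : D.F j x y = 0) (h' : D.F j x y' = 0) (hne : y ≠ y') :
    1 / κ ^ 3 ≤ ‖y' - y‖ := by
  have hκ0 : 0 < κ := lt_of_lt_of_le D.K_pos hκ
  have h1 := D.root_sep hj hx hy hy' h h' hne
  have h2 : 1 / κ ≤ κ ^ 2 * ‖y' - y‖ := by
    refine hN.trans (h1.trans ?_)
    have := D.K_pos
    gcongr
  rw [div_le_iff₀ (by positivity)] at h2 ⊢
  calc 1 ≤ κ ^ 2 * ‖y' - y‖ * κ := h2
    _ = _ := by ring

lemma Nd.v_lip {κ : ℝ} {y y' : Fin d → ℂ} (h : D.Nd κ y) (h' : D.Nd κ y') (hκ : D.K ≤ κ)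
    {j : Fin d} (hj : j ≠ b) :
    |D.v j y' - D.v j y| ≤ κ ^ 7 * (‖y' b - y b‖ + ‖y' j - y j‖) := by
  have hK := D.hK
  have hκ0 : 0 < κ := by linarith
  have hκ20 : 20 ≤ κ := by linarith
  have hκ1 : 1 ≤ κ := by linarith
  have e0 : |D.v j y' - D.v j y| = ‖D.vc j y' - D.vc j y‖ := by
    rw [h.vc_eq hκ hj, h'.vc_eq hκ hj, ← Complex.ofReal_sub, Complex.norm_real, Real.norm_eq_abs]
  rw [e0]
  set Δ := ‖y' b - y b‖ + ‖y' j - y j‖ with hΔ
  have hΔ0 : 0 ≤ Δ := by positivity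
  have n1 : ‖y b‖ ≤ 2 := by rw [h.1 b]; norm_num
  have n2 : ‖y j‖ ≤ 2 := by rw [h.1 j]; norm_num
  have n3 : ‖y' b‖ ≤ 2 := by rw [h'.1 b]; norm_num
  have n4 : ‖y' j‖ ≤ 2 := by rw [h'.1 j]; norm_num
  set a := -(y b * D.Fx j (y b) (y j)) with ha
  set a' := -(y' b * D.Fx j (y' b) (y' j)) with ha'
  set c := y j * D.Fy j (y b) (y j) with hc
  set c' := y' j * D.Fy j (y' b) (y' j) with hc'
  have hcn : 1 / κ ^ 2 ≤ ‖c‖ := by
    rw [hc, norm_mul, h.1 j, one_mul]; exact h.fy hκ hj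
  have hcn' : 1 / κ ^ 2 ≤ ‖c'‖ := by
    rw [hc', norm_mul, h'.1 j, one_mul]; exact h'.fy hκ hj
  have hcp : 0 < ‖c‖ := lt_of_lt_of_le (by positivity) hcn
  have hcp' : 0 < ‖c'‖ := lt_of_lt_of_le (by positivity) hcn'
  have hc0 : c ≠ 0 := norm_pos_iff.mp hcp
  have hc0' : c' ≠ 0 := norm_pos_iff.mp hcp'
  have han : ‖a‖ ≤ κ := by
    rw [ha, norm_neg, norm_mul, h.1 b, one_mul]
    exact (D.bdx j hj _ _ n1 n2).trans hκ
  have haa : ‖a' - a‖ ≤ 2 * κ * Δ := by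
    have e : a' - a = -((y' b - y b) * D.Fx j (y' b) (y' j)) -
      y b * (D.Fx j (y' b) (y' j) - D.Fx j (y b) (y j)) := by rw [ha, ha']; ring
    rw [e]
    refine (norm_sub_le _ _).trans ?_
    rw [norm_neg, norm_mul, norm_mul, h.1 b, one_mul]
    have h1 : ‖D.Fx j (y' b) (y' j)‖ ≤ κ := (D.bdx j hj _ _ n3 n4).trans hκ
    have h2 : ‖D.Fx j (y' b) (y' j) - D.Fx j (y b) (y j)‖ ≤ κ * Δ :=
      (D.lipx j hj _ _ _ _ n1 n2 n3 n4).trans (by gcongr)
    have h3 : ‖y' b - y b‖ ≤ Δ := by rw [hΔ]; linarith [norm_nonneg (y' j - y j)]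
    calc ‖y' b - y b‖ * ‖D.Fx j (y' b) (y' j)‖ + ‖D.Fx j (y' b) (y' j) - D.Fx j (y b) (y j)‖
        ≤ Δ * κ + κ * Δ := by gcongr
      _ = _ := by ring
  have hcc : ‖c' - c‖ ≤ 2 * κ * Δ := by
    have e : c' - c = (y' j - y j) * D.Fy j (y' b) (y' j) +
      y j * (D.Fy j (y' b) (y' j) - D.Fy j (y b) (y j)) := by rw [hc, hc']; ring
    rw [e]
    refine (norm_add_le _ _).trans ?_
    rw [norm_mul, norm_mul, h.1 j, one_mul]
    have h1 : ‖D.Fy j (y' b) (y' j)‖ ≤ κ := (D.bdy j hj _ _ n3 n4).trans hκ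
    have h2 : ‖D.Fy j (y' b) (y' j) - D.Fy j (y b) (y j)‖ ≤ κ * Δ :=
      (D.lipy j hj _ _ _ _ n1 n2 n3 n4).trans (by gcongr)
    have h3 : ‖y' j - y j‖ ≤ Δ := by rw [hΔ]; linarith [norm_nonneg (y' b - y b)]
    calc ‖y' j - y j‖ * ‖D.Fy j (y' b) (y' j)‖ + ‖D.Fy j (y' b) (y' j) - D.Fy j (y b) (y j)‖
        ≤ Δ * κ + κ * Δ := by gcongr
      _ = _ := by ring
  have e1 : D.vc j y' - D.vc j y = (a' - a) / c' - a * (c' - c) / (c * c') := by
    change a' / c' - a / c = _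
    field_simp
    ring
  rw [e1]
  refine (norm_sub_le _ _).trans ?_
  rw [norm_div, norm_div, norm_mul a, norm_mul c]
  have f1 : ‖a' - a‖ / ‖c'‖ ≤ 2 * κ ^ 3 * Δ := by
    rw [div_le_iff₀ hcp']
    calc ‖a' - a‖ ≤ 2 * κ * Δ := haa
      _ = 2 * κ ^ 3 * Δ * (1 / κ ^ 2) := by field_simp
      _ ≤ _ := by gcongr
  have f2 : ‖a‖ * ‖c' - c‖ / (‖c‖ * ‖c'‖) ≤ 2 * κ ^ 6 * Δ := by
    rw [div_le_iff₀ (by positivity)]
    calc ‖a‖ * ‖c' - c‖ ≤ κ * (2 * κ * Δ) := by gcongr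
      _ = 2 * κ ^ 6 * Δ * ((1 / κ ^ 2) * (1 / κ ^ 2)) := by field_simp
      _ ≤ _ := by gcongr
  calc _ ≤ 2 * κ ^ 3 * Δ + 2 * κ ^ 6 * Δ := add_le_add f1 f2
    _ = (2 * κ ^ 3 + 2 * κ ^ 6) * Δ := by ring
    _ ≤ κ ^ 7 * Δ := by
      gcongr
      have h1 : κ ^ 3 ≤ κ ^ 6 := pow_le_pow_right₀ hκ1 (by norm_num)
      have h2 : κ ^ 7 = κ * κ ^ 6 := by ring
      have h3 : 0 < κ ^ 6 := by positivity
      nlinarith

end CData

end Pool.MP4ac1fb.Curve
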