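import Pool.Agent.H.MP_4ac1fb_an.Curve.Geom2

/-!
Fibres of the curve and arcs on it.
-/

namespace Pool.MP4ac1fb.Curve

open Polynomial Filter Topology

variable {d : ℕ}

lemma exp_sub_one_lower {θ : ℝ} (h : |θ| ≤ 1 / 2) :
    |θ| / 2 ≤ ‖Complex.exp (θ * Complex.I) - 1‖ := by
  have hn : ‖(θ : ℂ) * Complex.I‖ = |θ| := by
    rw [norm_mul, Complex.norm_I, mul_one, Complex.norm_real, Real.norm_eq_abs]
  have h1 := Complex.norm_exp_sub_one_sub_id_le (x := (θ : ℂ) * Complex.I) (by rw [hn]; linarith)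
  rw [hn] at h1
  have h2 : ‖(θ : ℂ) * Complex.I‖ ≤ ‖Complex.exp (θ * Complex.I) - 1‖ +
      ‖Complex.exp (θ * Complex.I) - 1 - θ * Complex.I‖ := by
    have : (θ : ℂ) * Complex.I = (Complex.exp (θ * Complex.I) - 1) -
      (Complex.exp (θ * Complex.I) - 1 - θ * Complex.I) := by ring
    nth_rewrite 1 [this]
    exact norm_sub_le _ _
  rw [hn] at h2
  have h3 : |θ| ^ 2 ≤ |θ| / 2 := by nlinarith [abs_nonneg θ]
  linarith

namespace CData

variable {b : Fin d} {P : MvPolynomial (Fin d) ℂ} {D : CData b P}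

/-- points near good points are good -/
lemma Nd.good_near {κ : ℝ} {y y' : Fin d → ℂ} (h : D.Nd κ y) (hκ : D.K ≤ κ) (hg : D.Good y)
    (hn : ∀ j, ‖y' j‖ ≤ 2) (hd : ∀ j ≠ b, ‖y' j - y j‖ < 1 / κ ^ 3) : D.Good y' := by
  intro j hj hc
  by_cases he : y j = y' j
  · exact hg j hj (by rw [he]; exact hc)
  · have := D.sep_of_ne hκ hj (x := y b) (by rw [h.1 b]; norm_num) h.2.2
      (by rw [h.1 j]; norm_num) (hn j) (h.F_zero hκ hj) (hc (y b)) he
    exact absurd (hd j hj) (not_lt.mpr this)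

/-- arcs of zeros with bi-Lipschitz coordinates -/
theorem Nd.exists_arc {κ : ℝ} {y : Fin d → ℂ} (h : D.Nd κ y) (hκ : D.K ≤ κ) (hg : D.Good y) :
    ∃ c s₀ : ℝ, 0 < c ∧ 0 < s₀ ∧ ∃ γ : ℝ → Fin d → ℂ,
      (∀ s ∈ Set.Icc 0 s₀, OnT (γ s) ∧ MvPolynomial.eval (γ s) P = 0) ∧
      (∀ s ∈ Set.Icc 0 s₀, ∀ s' ∈ Set.Icc 0 s₀, ∀ j, c * |s - s'| ≤ ‖γ s j - γ s' j‖) := by
  have hK := D.hK
  have hκ0 : 0 < κ := by linarith
  have hκ20 : 20 ≤ κ := by linarith
  have hκ1 : 1 ≤ κ := by linarith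
  obtain ⟨l, hl⟩ : ∃ l : ℝ, l = 2 * κ := ⟨_, rfl⟩
  have hl0 : 0 < l := by linarith
  have hl20 : 20 ≤ l := by linarith
  have hl1 : 1 ≤ l := by linarith
  have hKl : D.K ≤ l := by linarith
  have hκl : κ ≤ l := by linarith
  have hs0 : (0 : ℝ) < 1 / l ^ 30 := by positivity
  have small : ∀ u : ℝ, |u| ≤ 1 / l ^ 30 → ∀ n m : ℕ, n + m ≤ 30 → l ^ n * |u| ≤ 1 / l ^ m := by
    intro u hu n m hnm
    rw [le_div_iff₀ (by positivity)]
    calc l ^ n * |u| * l ^ m = |u| * l ^ (n + m) := by rw [pow_add]; ring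
      _ ≤ (1 / l ^ 30) * l ^ 30 := by gcongr
      _ = 1 := by field_simp
  have hex : ∀ s : ℝ, ∃ y' : Fin d → ℂ, s ∈ Set.Icc 0 (1 / l ^ 30) →
      D.Nd l y' ∧ y' b = y b * Complex.exp (s * Complex.I) ∧
      (∀ j, ‖y' j - y j‖ ≤ κ ^ 4 * |s|) := by
    intro s
    by_cases hs : s ∈ Set.Icc 0 (1 / l ^ 30)
    · obtain ⟨y', h1, h2, h3, h4⟩ := h.move_real hκ s (by
        have h5 : |s| ≤ 1 / l ^ 30 := by rw [abs_of_nonneg hs.1]; exact hs.2
        have h6 := small s h5 20 0 (by norm_num)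
        calc |s| * κ ^ 20 ≤ |s| * l ^ 20 := by gcongr
          _ = l ^ 20 * |s| := by ring
          _ ≤ _ := h6
          _ = 1 := by norm_num)
      exact ⟨y', fun _ => ⟨by rw [hl]; exact h1, h2, h4⟩⟩
    · exact ⟨y, fun h => absurd h hs⟩
  choose γ hγ using hex
  refine ⟨1 / (4 * l ^ 3), 1 / l ^ 30, by positivity, hs0, γ, fun s hs =>
    ⟨(hγ s hs).1.1, (hγ s hs).1.2.1⟩, ?_⟩
  intro s hs s' hs' j
  obtain ⟨g1, g2, g3⟩ := hγ s hs
  obtain ⟨g1', g2', g3'⟩ := hγ s' hs'
  have hsa : |s| ≤ 1 / l ^ 30 := by rw [abs_of_nonneg hs.1]; exact hs.2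
  have hsa' : |s'| ≤ 1 / l ^ 30 := by rw [abs_of_nonneg hs'.1]; exact hs'.2
  set u := s' - s with hu
  have hua : |u| ≤ 1 / l ^ 30 := by
    rw [hu, abs_le]; constructor <;> linarith [hs.1, hs.2, hs'.1, hs'.2]
  have hus : |s - s'| = |u| := by rw [hu, abs_sub_comm]
  rw [hus]
  have hbase : γ s' b = γ s b * Complex.exp (u * Complex.I) := by
    rw [g2, g2', mul_assoc, ← Complex.exp_add]
    congr 2
    rw [hu]; push_cast; ring
  by_cases hj : j = b
  · rw [hj, hbase]
    have e : γ s b - γ s b * Complex.exp (u * Complex.I) =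
      -(γ s b * (Complex.exp (u * Complex.I) - 1)) := by ring
    rw [e, norm_neg, norm_mul, g1.1 b, one_mul]
    have h1 := small u hua 0 1 (by norm_num)
    rw [pow_zero, one_mul, pow_one] at h1
    have h2 : (1 : ℝ) / l ≤ 1 / 2 := by
      apply one_div_le_one_div_of_le (by norm_num); linarith
    refine le_trans ?_ (exp_sub_one_lower (h1.trans h2))
    have h3 : 1 / (4 * l ^ 3) ≤ 1 / 2 := by
      apply one_div_le_one_div_of_le (by norm_num)
      have : 1 ≤ l ^ 3 := one_le_pow₀ hl1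
      linarith
    calc 1 / (4 * l ^ 3) * |u| ≤ 1 / 2 * |u| := by gcongr
      _ = _ := by ring
  · -- goodness along the arc
    have hgood : ¬ D.ConstAt j (γ s j) := by
      have : D.Good (γ s) := by
        refine h.good_near hκ hg (fun i => by rw [g1.1 i]; norm_num) fun i hi => ?_
        refine lt_of_le_of_lt (g3 i) ?_
        have h1 := small s hsa 4 20 (by norm_num)
        calc κ ^ 4 * |s| ≤ l ^ 4 * |s| := by gcongr
          _ ≤ 1 / l ^ 20 := h1
          _ ≤ 1 / κ ^ 20 := by gcongr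
          _ < 1 / κ ^ 3 := by
            apply one_div_lt_one_div_of_lt (by positivity)
            exact pow_lt_pow_right₀ (by linarith) (by norm_num)
      exact this j hj
    obtain ⟨y'', k1, k2, k3, k4⟩ := g1.move_real hKl u (by
      have h6 := small u hua 20 0 (by norm_num)
      calc |u| * l ^ 20 = l ^ 20 * |u| := by ring
        _ ≤ _ := h6
        _ = 1 := by norm_num)
    have hyy : y'' j = γ s' j := by
      by_contra hne
      have h1 := D.sep_of_ne hKl hj (x := γ s' b) (by rw [g1'.1 b]; norm_num) g1'.2.2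
        (by rw [k1.1 j]; norm_num) (by rw [g1'.1 j]; norm_num)
        (by
          have := k1.F_zero (by linarith) hj
          rwa [k2, ← hbase] at this) (g1'.F_zero hKl hj) hne
      have h2 : ‖γ s' j - y'' j‖ ≤ 3 * (1 / l ^ 20) := by
        have e : γ s' j - y'' j = (γ s' j - y j) - (γ s j - y j) - (y'' j - γ s j) := by ring
        rw [e]
        refine (norm_sub_le _ _).trans ?_
        have f1 := norm_sub_le (γ s' j - y j) (γ s j - y j)
        have f2 := g3 j
        have f3 := g3' j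
        have f4 := k4 j
        have f5 := small s hsa 4 20 (by norm_num)
        have f6 := small s' hsa' 4 20 (by norm_num)
        have f7 := small u hua 4 20 (by norm_num)
        have f8 : κ ^ 4 * |s| ≤ l ^ 4 * |s| := by gcongr
        have f9 : κ ^ 4 * |s'| ≤ l ^ 4 * |s'| := by gcongr
        linarith
      have h3 : 3 * (1 / l ^ 20) < 1 / l ^ 3 := by
        rw [mul_one_div, div_lt_div_iff₀ (by positivity) (by positivity), one_mul]
        calc 3 * l ^ 3 < l * l ^ 3 := by gcongr; linarith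
          _ = l ^ 4 := by ring
          _ ≤ l ^ 20 := pow_le_pow_right₀ hl1 (by norm_num)
      linarith
    have hv := g1.v_lower hKl hj hgood
    have hv' := g1.abs_v hKl hj
    have hk3 := k3 j hj
    rw [hyy] at hk3
    set θ := D.v j (γ s) * u with hθ
    have hθa : |θ| ≤ 1 / 2 := by
      rw [hθ, abs_mul]
      have h1 := small u hua 3 1 (by norm_num)
      have h2 : (1 : ℝ) / l ^ 1 ≤ 1 / 2 := by
        apply one_div_le_one_div_of_le (by norm_num); rw [pow_one]; linarith
      calc |D.v j (γ s)| * |u| ≤ l ^ 3 * |u| := by gcongr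
        _ ≤ _ := h1.trans h2
    have h1 := exp_sub_one_lower hθa
    have h2 : ‖Complex.exp (θ * Complex.I) - 1‖ ≤ ‖γ s j - γ s' j‖ + l ^ 12 * u ^ 2 := by
      have e : γ s j * (Complex.exp (θ * Complex.I) - 1) =
        -(γ s' j - γ s j * Complex.exp (θ * Complex.I)) - (γ s j - γ s' j) := by ring
      have e2 : ‖γ s j * (Complex.exp (θ * Complex.I) - 1)‖ =
          ‖Complex.exp (θ * Complex.I) - 1‖ := by rw [norm_mul, g1.1 j, one_mul]
      rw [← e2, e]
      refine (norm_sub_le _ _).trans ?_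
      rw [norm_neg]
      linarith
    have h3 : |θ| = |D.v j (γ s)| * |u| := by rw [hθ, abs_mul]
    have h4 : 1 / l ^ 3 * |u| ≤ |θ| := by rw [h3]; gcongr
    have h5 : l ^ 12 * u ^ 2 ≤ 1 / (4 * l ^ 3) * |u| := by
      rw [← sq_abs u]
      calc l ^ 12 * |u| ^ 2 = (l ^ 12 * |u|) * |u| := by ring
        _ ≤ (1 / l ^ 18) * |u| := by gcongr; exact small u hua 12 18 (by norm_num)
        _ ≤ 1 / (4 * l ^ 3) * |u| := by
          gcongr
          calc 4 * l ^ 3 ≤ l * l ^ 3 := by gcongr; linarith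
            _ = l ^ 4 := by ring
            _ ≤ l ^ 18 := pow_le_pow_right₀ hl1 (by norm_num)
    have h6 : 1 / (4 * l ^ 3) * |u| + 1 / (4 * l ^ 3) * |u| = 1 / l ^ 3 * |u| / 2 := by
      field_simp; ring
    linarith

/-- the good nondegenerate zeros over `x` -/
noncomputable def fibre (D : CData b P) (κ : ℝ) (x : ℂ) : Finset (Fin d → ℂ) := by
  classical
  exact if 1 / κ ≤ ‖D.N.eval x‖ then
    (Fintype.piFinset fun j => if j = b then {x} else
      ((D.S j).map (evalRingHom x)).roots.toFinset).filter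
      (fun y => OnT y ∧ MvPolynomial.eval y P = 0 ∧ D.Good y)
    else ∅

lemma map_ne_zero (D : CData b P) {x : ℂ} (hx : ‖x‖ ≤ 2) (hN : D.N.eval x ≠ 0) {j : Fin d}
    (hj : j ≠ b) : (D.S j).map (evalRingHom x) ≠ 0 := by
  intro h0
  have ev : ∀ (p : Polynomial (Polynomial ℂ)) (y : ℂ),
      (p.map (evalRingHom x)).eval y = p.evalEval x y := by
    intro p y
    rw [map_evalRingHom_eval]
  have h1 := D.sep j hj x 0 hx (by norm_num)
  rw [← ev, ← ev, ← derivative_map, h0, derivative_zero, eval_zero, norm_zero, add_zero,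
    mul_zero] at h1
  exact hN (norm_le_zero_iff.mp h1)

lemma mem_fibre (D : CData b P) {κ : ℝ} (hκ : D.K ≤ κ) {x : ℂ} (hx : ‖x‖ ≤ 2)
    {y : Fin d → ℂ} : y ∈ D.fibre κ x ↔ y b = x ∧ D.Nd κ y ∧ D.Good y := by
  classical
  have hκ0 : 0 < κ := lt_of_lt_of_le D.K_pos hκ
  unfold fibre
  split_ifs with hN
  · have hN0 : D.N.eval x ≠ 0 := by
      rw [← norm_pos_iff]; exact lt_of_lt_of_le (by positivity) hN
    rw [Finset.mem_filter, Fintype.mem_piFinset]
    constructor
    · rintro ⟨h1, h2, h3, h4⟩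
      have hb : y b = x := by simpa using h1 b
      exact ⟨hb, ⟨h2, h3, by rw [hb]; exact hN⟩, h4⟩
    · rintro ⟨h1, h2, h3⟩
      refine ⟨fun j => ?_, h2.1, h2.2.1, h3⟩
      by_cases hj : j = b
      · rw [if_pos hj, hj, h1]; simp
      · rw [if_neg hj, Multiset.mem_toFinset, mem_roots (D.map_ne_zero hx hN0 hj), IsRoot,
          map_evalRingHom_eval]
        have := h2.F_zero hκ hj
        rwa [h1] at this
  · constructor
    · intro h; simp at h
    · rintro ⟨h1, h2, h3⟩
      exfalso; exact hN (by rw [← h1]; exact h2.2.2)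

lemma card_fibre (D : CData b P) (κ : ℝ) (x : ℂ) : ((D.fibre κ x).card : ℝ) ≤ D.K ^ d := by
  classical
  unfold fibre
  have hK1 : 1 ≤ D.K := by linarith [D.hK]
  split_ifs with hN
  · refine (Nat.cast_le.mpr (Finset.card_filter_le _ _)).trans ?_
    rw [Fintype.card_piFinset]
    push_cast
    calc ∏ j, (((if j = b then {x} else
        ((D.S j).map (evalRingHom x)).roots.toFinset : Finset ℂ).card : ℕ) : ℝ)
        ≤ ∏ _j : Fin d, D.K := by
          apply Finset.prod_le_prod
          · intro j _; positivity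
          · intro j _
            split_ifs with hj
            · simpa using hK1
            · refine le_trans ?_ (D.deg j hj)
              have h1 : ((D.S j).map (evalRingHom x)).roots.toFinset.card ≤ (D.S j).natDegree :=
                (Multiset.toFinset_card_le _).trans ((card_roots' _).trans natDegree_map_le)
              exact_mod_cast h1
      _ = D.K ^ d := by simp
  · simp only [Finset.card_empty, Nat.cast_zero]
    positivity

end CData

end Pool.MP4ac1fb.Curve
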