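import Pool.Agent.H.MP_4ac1fb_an.Curve.Geom3

/-!
Bounds for the averaging kernel and the bump polynomials.
-/

namespace Pool.MP4ac1fb.Curve

open MvPolynomial

variable {d : ℕ}

lemma kap_norm_le (n : ℕ) (w : ℂ) (hw : ‖w‖ ≤ 1) : ‖kap n w‖ ≤ 1 := by
  unfold kap
  rw [norm_mul]
  have h1 : ‖∑ m ∈ Finset.range n, w ^ m‖ ≤ n := by
    calc ‖∑ m ∈ Finset.range n, w ^ m‖ ≤ ∑ m ∈ Finset.range n, ‖w ^ m‖ := norm_sum_le _ _
      _ ≤ ∑ m ∈ Finset.range n, (1 : ℝ) := Finset.sum_le_sum fun m _ => by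
          rw [norm_pow]; exact pow_le_one₀ (norm_nonneg _) hw
      _ = n := by simp
  rcases Nat.eq_zero_or_pos n with rfl | hn
  · simp
  · have h0 : (0 : ℝ) < n := by exact_mod_cast hn
    rw [norm_div, norm_one, Complex.norm_natCast]
    calc 1 / (n : ℝ) * ‖∑ m ∈ Finset.range n, w ^ m‖ ≤ 1 / n * n :=
          mul_le_mul_of_nonneg_left h1 (by positivity)
      _ = 1 := by field_simp

lemma kap_decay (n : ℕ) (hn : 1 ≤ n) (w : ℂ) (hw : ‖w‖ = 1) :
    (n : ℝ) * ‖1 - w‖ * ‖kap n w‖ ≤ 2 := by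
  have hn0 : (n : ℂ) ≠ 0 := by exact_mod_cast (by omega : n ≠ 0)
  have h1 : (n : ℂ) * (1 - w) * kap n w = 1 - w ^ n := by
    unfold kap
    rw [← mul_neg_geom_sum w n]
    field_simp
  have h2 : (n : ℝ) * ‖1 - w‖ * ‖kap n w‖ = ‖(n : ℂ) * (1 - w) * kap n w‖ := by
    rw [norm_mul, norm_mul, Complex.norm_natCast]
  rw [h2, h1]
  calc ‖1 - w ^ n‖ ≤ ‖(1 : ℂ)‖ + ‖w ^ n‖ := norm_sub_le _ _
    _ = 2 := by rw [norm_one, norm_pow, hw, one_pow]; norm_num

lemma norm_pow_sub_le (w w' : ℂ) (hw : ‖w‖ ≤ 1) (hw' : ‖w'‖ ≤ 1) (m : ℕ) :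
    ‖w ^ m - w' ^ m‖ ≤ m * ‖w - w'‖ := by
  induction m with
  | zero => simp
  | succ m ih =>
    have h1 : w ^ (m + 1) - w' ^ (m + 1) = w * (w ^ m - w' ^ m) + (w - w') * w' ^ m := by ring
    have h2 : ‖w'‖ ^ m ≤ 1 := pow_le_one₀ (norm_nonneg _) hw'
    calc ‖w ^ (m + 1) - w' ^ (m + 1)‖ = ‖w * (w ^ m - w' ^ m) + (w - w') * w' ^ m‖ := by rw [h1]
      _ ≤ ‖w * (w ^ m - w' ^ m)‖ + ‖(w - w') * w' ^ m‖ := norm_add_le _ _
      _ = ‖w‖ * ‖w ^ m - w' ^ m‖ + ‖w - w'‖ * ‖w'‖ ^ m := by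
          rw [norm_mul, norm_mul, norm_pow]
      _ ≤ 1 * (m * ‖w - w'‖) + ‖w - w'‖ * 1 := by
          apply add_le_add
          · exact mul_le_mul hw ih (norm_nonneg _) zero_le_one
          · exact mul_le_mul_of_nonneg_left h2 (norm_nonneg _)
      _ = ((m + 1 : ℕ) : ℝ) * ‖w - w'‖ := by push_cast; ring

lemma kap_lip (n : ℕ) (w w' : ℂ) (hw : ‖w‖ ≤ 1) (hw' : ‖w'‖ ≤ 1) :
    ‖kap n w - kap n w'‖ ≤ n * ‖w - w'‖ := by
  rcases Nat.eq_zero_or_pos n with rfl | hn
  · simp [kap]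
  · have h0 : (0 : ℝ) < n := by exact_mod_cast hn
    have h1 : kap n w - kap n w' = (1 / (n : ℂ)) * ∑ m ∈ Finset.range n, (w ^ m - w' ^ m) := by
      unfold kap
      rw [Finset.sum_sub_distrib, mul_sub]
    rw [h1, norm_mul, norm_div, norm_one, Complex.norm_natCast]
    have h2 : ‖∑ m ∈ Finset.range n, (w ^ m - w' ^ m)‖ ≤ n * (n * ‖w - w'‖) := by
      calc ‖∑ m ∈ Finset.range n, (w ^ m - w' ^ m)‖
          ≤ ∑ m ∈ Finset.range n, ‖w ^ m - w' ^ m‖ := norm_sum_le _ _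
        _ ≤ ∑ m ∈ Finset.range n, (n : ℝ) * ‖w - w'‖ := Finset.sum_le_sum fun m hm => by
            refine (norm_pow_sub_le w w' hw hw' m).trans ?_
            have h3 : (m : ℝ) ≤ n := by exact_mod_cast (Finset.mem_range.mp hm).le
            exact mul_le_mul_of_nonneg_right h3 (norm_nonneg _)
        _ = n * (n * ‖w - w'‖) := by rw [Finset.sum_const, Finset.card_range, nsmul_eq_mul]
    calc 1 / (n : ℝ) * ‖∑ m ∈ Finset.range n, (w ^ m - w' ^ m)‖
        ≤ 1 / (n : ℝ) * (n * (n * ‖w - w'‖)) := mul_le_mul_of_nonneg_left h2 (by positivity)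
      _ = n * ‖w - w'‖ := by field_simp

/-- Parseval for the kernel on the grid -/
lemma kap_sum (n L : ℕ) (hn : 1 ≤ n) (hL : n ≤ L) (w : ℂ) (hw : ‖w‖ = 1) :
    ∑ l ∈ Finset.range L, ‖kap n (w * (starRingEnd ℂ) (rt L ^ l))‖ ^ 2 = (L : ℝ) / n := by
  have hL0 : L ≠ 0 := by omega
  have hre : ∀ z : ℂ, ((‖z‖ ^ 2 : ℝ) : ℂ) = z * (starRingEnd ℂ) z := by
    intro z
    rw [Complex.mul_conj, Complex.normSq_eq_norm_sq]
  have hn0 : (n : ℂ) ≠ 0 := by exact_mod_cast (by omega : n ≠ 0)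
  have key : ((∑ l ∈ Finset.range L, ‖kap n (w * (starRingEnd ℂ) (rt L ^ l))‖ ^ 2 : ℝ) : ℂ) =
      (((L : ℝ) / n : ℝ) : ℂ) := by
    rw [Complex.ofReal_sum]
    have h1 : ∀ l ∈ Finset.range L,
        ((‖kap n (w * (starRingEnd ℂ) (rt L ^ l))‖ ^ 2 : ℝ) : ℂ) =
        (1 / (n : ℂ)) ^ 2 * ∑ p ∈ Finset.range n, ∑ q ∈ Finset.range n,
          (w ^ p * (starRingEnd ℂ) w ^ q) * ((rt L ^ l) ^ q * (starRingEnd ℂ) ((rt L ^ l) ^ p)) := by
      intro l _
      rw [hre]
      unfold kap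
      rw [map_mul, map_sum]
      have h2 : (starRingEnd ℂ) (1 / (n : ℂ)) = 1 / (n : ℂ) := by simp
      rw [h2]
      have h3 : ∀ (A : ℂ) (S T : ℂ), A * S * (A * T) = A ^ 2 * (S * T) := fun A S T => by ring
      rw [h3, Finset.sum_mul_sum]
      congr 1
      refine Finset.sum_congr rfl fun p _ => Finset.sum_congr rfl fun q _ => ?_
      simp only [map_mul, map_pow, Complex.conj_conj, mul_pow]
      ring
    rw [Finset.sum_congr rfl h1, ← Finset.mul_sum, Finset.sum_comm]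
    have h4 : ∀ p ∈ Finset.range n, ∑ l ∈ Finset.range L, ∑ q ∈ Finset.range n,
        (w ^ p * (starRingEnd ℂ) w ^ q) * ((rt L ^ l) ^ q * (starRingEnd ℂ) ((rt L ^ l) ^ p)) =
        (L : ℂ) := by
      intro p hp
      rw [Finset.sum_comm]
      have h5 : ∀ q ∈ Finset.range n, ∑ l ∈ Finset.range L,
          (w ^ p * (starRingEnd ℂ) w ^ q) * ((rt L ^ l) ^ q * (starRingEnd ℂ) ((rt L ^ l) ^ p)) =
          if q = p then (L : ℂ) else 0 := by
        intro q hq
        rw [← Finset.mul_sum]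
        have h6 := geom_orth hL0 (k := q) (l := p) (by have := Finset.mem_range.mp hq; omega)
          (by have := Finset.mem_range.mp hp; omega)
        rw [Fin.sum_univ_eq_sum_range
          (fun x => (rt L ^ x) ^ q * (starRingEnd ℂ) ((rt L ^ x) ^ p)) L] at h6
        rw [h6]
        split_ifs with hqp
        · subst hqp
          rw [← mul_pow, Complex.mul_conj, Complex.normSq_eq_norm_sq, hw]
          simp
        · rw [mul_zero]
      rw [Finset.sum_congr rfl h5, Finset.sum_ite_eq' (Finset.range n) p, if_pos hp]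
    rw [Finset.sum_congr rfl h4, Finset.sum_const, Finset.card_range, nsmul_eq_mul]
    push_cast
    field_simp
  exact_mod_cast key

/-- the kernel polynomial in the variable `j`, centred at `a` -/
noncomputable def kpol (n : ℕ) (j : Fin d) (a : ℂ) : MvPolynomial (Fin d) ℂ :=
  C (1 / (n : ℂ)) * ∑ m ∈ Finset.range n, (C ((starRingEnd ℂ) a) * X j) ^ m

/-- the bump polynomial with centres `y ∈ F l` over the grid points `rt L ^ l` -/
noncomputable def bump (b : Fin d) (n L : ℕ) (F : ℕ → Finset (Fin d → ℂ))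
    (c : (Fin d → ℂ) → ℂ) : MvPolynomial (Fin d) ℂ :=
  C ((n : ℂ) / L) * ∑ l ∈ Finset.range L, kpol n b (rt L ^ l) ^ 3 *
    ∑ y ∈ F l, C (c y) * ∏ j ∈ Finset.univ.erase b, kpol n j (y j)

lemma eval_kpol (n : ℕ) (j : Fin d) (a : ℂ) (z : Fin d → ℂ) :
    eval z (kpol n j a) = kap n (z j * (starRingEnd ℂ) a) := by
  unfold kpol kap
  rw [map_mul, eval_C, map_sum]
  congr 1
  refine Finset.sum_congr rfl fun m _ => ?_
  rw [map_pow, map_mul, eval_C, eval_X, mul_comm]

lemma eval_bump (b : Fin d) (n L : ℕ) (F : ℕ → Finset (Fin d → ℂ)) (c : (Fin d → ℂ) → ℂ)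
    (z : Fin d → ℂ) :
    eval z (bump b n L F c) = ((n : ℂ) / L) * ∑ l ∈ Finset.range L,
      kap n (z b * (starRingEnd ℂ) (rt L ^ l)) ^ 3 *
      ∑ y ∈ F l, c y * ∏ j ∈ Finset.univ.erase b, kap n (z j * (starRingEnd ℂ) (y j)) := by
  unfold bump
  rw [map_mul, eval_C, map_sum]
  congr 1
  refine Finset.sum_congr rfl fun l _ => ?_
  rw [map_mul, map_pow, eval_kpol, map_sum]
  congr 1
  refine Finset.sum_congr rfl fun y _ => ?_
  rw [map_mul, eval_C, map_prod]
  congr 1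
  exact Finset.prod_congr rfl fun j _ => eval_kpol n j (y j) z

lemma totalDegree_kpol (n : ℕ) (j : Fin d) (a : ℂ) : (kpol n j a).totalDegree ≤ n := by
  unfold kpol
  refine (totalDegree_mul _ _).trans ?_
  rw [totalDegree_C, zero_add]
  refine totalDegree_finsetSum_le fun m hm => ?_
  refine (totalDegree_pow _ _).trans ?_
  have h1 : (C ((starRingEnd ℂ) a) * X j : MvPolynomial (Fin d) ℂ).totalDegree ≤ 1 := by
    refine (totalDegree_mul _ _).trans ?_
    rw [totalDegree_C, totalDegree_X]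
  calc m * (C ((starRingEnd ℂ) a) * X j : MvPolynomial (Fin d) ℂ).totalDegree ≤ m * 1 :=
        Nat.mul_le_mul_left _ h1
    _ ≤ n := by have := Finset.mem_range.mp hm; omega

lemma totalDegree_bump (b : Fin d) (n L : ℕ) (F : ℕ → Finset (Fin d → ℂ))
    (c : (Fin d → ℂ) → ℂ) : (bump b n L F c).totalDegree ≤ (d + 2) * n := by
  unfold bump
  refine (totalDegree_mul _ _).trans ?_
  rw [totalDegree_C, zero_add]
  refine totalDegree_finsetSum_le fun l _ => ?_
  refine (totalDegree_mul _ _).trans ?_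
  have h1 : (kpol n b (rt L ^ l) ^ 3).totalDegree ≤ 3 * n :=
    (totalDegree_pow _ _).trans (Nat.mul_le_mul_left _ (totalDegree_kpol n b _))
  have h2 : (∑ y ∈ F l, C (c y) * ∏ j ∈ Finset.univ.erase b, kpol n j (y j) :
      MvPolynomial (Fin d) ℂ).totalDegree ≤ (d - 1) * n := by
    refine totalDegree_finsetSum_le fun y _ => ?_
    refine (totalDegree_mul _ _).trans ?_
    rw [totalDegree_C, zero_add]
    refine (totalDegree_finsetProd _ _).trans ?_
    calc ∑ j ∈ Finset.univ.erase b, (kpol n j (y j)).totalDegree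
        ≤ ∑ _j ∈ Finset.univ.erase b, n := Finset.sum_le_sum fun j _ => totalDegree_kpol n j _
      _ = (d - 1) * n := by
          rw [Finset.sum_const, Finset.card_erase_of_mem (Finset.mem_univ b), Finset.card_univ,
            Fintype.card_fin, smul_eq_mul]
  have hd : 1 ≤ d := by have := b.2; omega
  calc (kpol n b (rt L ^ l) ^ 3).totalDegree + (∑ y ∈ F l, C (c y) *
        ∏ j ∈ Finset.univ.erase b, kpol n j (y j) : MvPolynomial (Fin d) ℂ).totalDegree
      ≤ 3 * n + (d - 1) * n := add_le_add h1 h2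
    _ = (3 + (d - 1)) * n := by ring
    _ ≤ (d + 2) * n := Nat.mul_le_mul_right _ (by omega)

lemma norm_conj_pt (a : ℂ) (ha : ‖a‖ = 1) (z : ℂ) (hz : ‖z‖ = 1) :
    ‖z * (starRingEnd ℂ) a‖ = 1 := by
  rw [norm_mul, Complex.norm_conj, ha, hz, one_mul]

/-- sup bound -/
lemma sup_bump (b : Fin d) (n L : ℕ) (hn : 1 ≤ n) (hL : n ≤ L) (F : ℕ → Finset (Fin d → ℂ))
    (hF : ∀ l < L, ∀ y ∈ F l, OnT y) (c : (Fin d → ℂ) → ℂ) (m B : ℝ) (hB : 0 ≤ B)
    (hcard : ∀ l < L, ((F l).card : ℝ) ≤ m) (hc : ∀ l < L, ∀ y ∈ F l, ‖c y‖ ≤ B)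
    (z : Fin d → ℂ) (hz : OnT z) : ‖eval z (bump b n L F c)‖ ≤ m * B := by
  have hL0 : 0 < L := by omega
  have hLr : (0 : ℝ) < L := by exact_mod_cast hL0
  have hnr : (0 : ℝ) < n := by exact_mod_cast hn
  have hm : 0 ≤ m := (Nat.cast_nonneg _).trans (hcard 0 hL0)
  have hrt : ‖rt L‖ = 1 := norm_rt (by omega)
  rw [eval_bump, norm_mul, norm_div, Complex.norm_natCast, Complex.norm_natCast]
  have h1 : ∀ l ∈ Finset.range L, ‖kap n (z b * (starRingEnd ℂ) (rt L ^ l)) ^ 3 *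
      ∑ y ∈ F l, c y * ∏ j ∈ Finset.univ.erase b, kap n (z j * (starRingEnd ℂ) (y j))‖ ≤
      ‖kap n (z b * (starRingEnd ℂ) (rt L ^ l))‖ ^ 2 * (m * B) := by
    intro l hl
    have hl' := Finset.mem_range.mp hl
    have hk : ‖kap n (z b * (starRingEnd ℂ) (rt L ^ l))‖ ≤ 1 :=
      kap_norm_le n _ (norm_conj_pt _ (by rw [norm_pow, hrt, one_pow]) _ (hz b)).le
    rw [norm_mul, norm_pow]
    refine mul_le_mul (pow_le_pow_of_le_one (norm_nonneg _) hk (by norm_num)) ?_
      (norm_nonneg _) (by positivity)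
    calc ‖∑ y ∈ F l, c y * ∏ j ∈ Finset.univ.erase b, kap n (z j * (starRingEnd ℂ) (y j))‖
        ≤ ∑ y ∈ F l, ‖c y * ∏ j ∈ Finset.univ.erase b, kap n (z j * (starRingEnd ℂ) (y j))‖ :=
          norm_sum_le _ _
      _ ≤ ∑ y ∈ F l, B := by
          refine Finset.sum_le_sum fun y hy => ?_
          rw [norm_mul, norm_prod]
          have h2 : ∏ j ∈ Finset.univ.erase b, ‖kap n (z j * (starRingEnd ℂ) (y j))‖ ≤ 1 :=
            Finset.prod_le_one (fun j _ => norm_nonneg _) fun j _ =>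
              kap_norm_le n _ (norm_conj_pt _ (hF l hl' y hy j) _ (hz j)).le
          calc ‖c y‖ * ∏ j ∈ Finset.univ.erase b, ‖kap n (z j * (starRingEnd ℂ) (y j))‖
              ≤ B * 1 := mul_le_mul (hc l hl' y hy) h2
                (Finset.prod_nonneg fun j _ => norm_nonneg _) hB
            _ = B := mul_one B
      _ = (F l).card * B := by rw [Finset.sum_const, nsmul_eq_mul]
      _ ≤ m * B := mul_le_mul_of_nonneg_right (hcard l hl') hB
  calc (n : ℝ) / L * ‖∑ l ∈ Finset.range L, kap n (z b * (starRingEnd ℂ) (rt L ^ l)) ^ 3 *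
      ∑ y ∈ F l, c y * ∏ j ∈ Finset.univ.erase b, kap n (z j * (starRingEnd ℂ) (y j))‖
      ≤ (n : ℝ) / L * ∑ l ∈ Finset.range L,
          ‖kap n (z b * (starRingEnd ℂ) (rt L ^ l))‖ ^ 2 * (m * B) := by
        refine mul_le_mul_of_nonneg_left ?_ (by positivity)
        exact (norm_sum_le _ _).trans (Finset.sum_le_sum h1)
    _ = (n : ℝ) / L * ((L : ℝ) / n * (m * B)) := by
        rw [← Finset.sum_mul, kap_sum n L hn hL (z b) (hz b)]
    _ = m * B := by field_simp

lemma kap_conj (n : ℕ) (w : ℂ) : kap n ((starRingEnd ℂ) w) = (starRingEnd ℂ) (kap n w) := by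
  unfold kap
  simp only [map_mul, map_sum, map_pow, map_div₀, map_one, Complex.conj_natCast]

/-- Parseval for the kernel with the roles exchanged -/
lemma kap_sum_fin (n L : ℕ) (hn : 1 ≤ n) (hL : n ≤ L) (w : ℂ) (hw : ‖w‖ = 1) :
    ∑ x : Fin L, ‖kap n (rt L ^ (x : ℕ) * (starRingEnd ℂ) w)‖ ^ 2 = (L : ℝ) / n := by
  rw [← kap_sum n L hn hL w hw,
    Fin.sum_univ_eq_sum_range (fun x => ‖kap n (rt L ^ x * (starRingEnd ℂ) w)‖ ^ 2) L]
  refine Finset.sum_congr rfl fun l _ => ?_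
  have h1 : rt L ^ l * (starRingEnd ℂ) w = (starRingEnd ℂ) (w * (starRingEnd ℂ) (rt L ^ l)) := by
    rw [map_mul, Complex.conj_conj, mul_comm]
  rw [h1, kap_conj, Complex.norm_conj]

/-- square sum of the coefficients of the bump polynomial -/
lemma coeff_bump (b : Fin d) (n L : ℕ) (hn : 1 ≤ n) (hL : (d + 2) * n < L)
    (F : ℕ → Finset (Fin d → ℂ))
    (hF : ∀ l < L, ∀ y ∈ F l, OnT y) (c : (Fin d → ℂ) → ℂ) (m B : ℝ) (hB : 0 ≤ B)
    (hcard : ∀ l < L, ((F l).card : ℝ) ≤ m) (hc : ∀ l < L, ∀ y ∈ F l, ‖c y‖ ≤ B) :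
    ∑ k ∈ (bump b n L F c).support, ‖coeff k (bump b n L F c)‖ ^ 2 ≤
      (m * B) ^ 2 / (n : ℝ) ^ (d - 1) := by
  have hnL : n ≤ L := by nlinarith
  have hL0 : 0 < L := by omega
  have hLr : (0 : ℝ) < L := by exact_mod_cast hL0
  have hnr : (0 : ℝ) < n := by exact_mod_cast hn
  have hm : 0 ≤ m := (Nat.cast_nonneg _).trans (hcard 0 hL0)
  have hd : 1 ≤ d := by have := b.2; omega
  have hrt : ‖rt L‖ = 1 := norm_rt (by omega)
  have hrtp : ∀ l : ℕ, ‖rt L ^ l‖ = 1 := fun l => by rw [norm_pow, hrt, one_pow]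
  have hP := grid_parseval (M := L) (by omega) (bump b n L F c) (fun k hk j => by
    have h1 : k j ≤ (k.sum fun _ e => e) := by
      rw [Finsupp.sum_fintype _ _ (fun _ => rfl)]
      exact Finset.single_le_sum (f := fun j => k j) (fun _ _ => Nat.zero_le _)
        (Finset.mem_univ j)
    have h2 := le_totalDegree hk
    have h3 := totalDegree_bump b n L F c
    omega)
  -- weights
  set g : ℂ → Fin L → ℝ := fun y x => ‖kap n (rt L ^ (x : ℕ) * (starRingEnd ℂ) y)‖ ^ 2 with hg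
  have hg0 : ∀ y x, 0 ≤ g y x := fun y x => by rw [hg]; positivity
  have hgsum : ∀ y : ℂ, ‖y‖ = 1 → ∑ x : Fin L, g y x = (L : ℝ) / n := fun y hy =>
    kap_sum_fin n L hn hnL y hy
  -- pointwise bound
  have hpt : ∀ a : Fin d → Fin L, ‖eval (gp L a) (bump b n L F c)‖ ^ 2 ≤
      ∑ l ∈ Finset.range L, ((n : ℝ) / L) * g (rt L ^ l) (a b) * (B ^ 2 * m *
        ∑ y ∈ F l, ∏ j ∈ Finset.univ.erase b, g (y j) (a j)) := by
    intro a
    set A : ℕ → ℝ := fun l => B * ∑ y ∈ F l, ∏ j ∈ Finset.univ.erase b,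
      ‖kap n (gp L a j * (starRingEnd ℂ) (y j))‖ with hA
    have hz : OnT (gp L a) := fun j => norm_gp (by omega) a j
    have h1 : ‖eval (gp L a) (bump b n L F c)‖ ≤
        ∑ l ∈ Finset.range L, ((n : ℝ) / L) * g (rt L ^ l) (a b) * A l := by
      rw [eval_bump, norm_mul, norm_div, Complex.norm_natCast, Complex.norm_natCast]
      calc (n : ℝ) / L * ‖∑ l ∈ Finset.range L,
            kap n (gp L a b * (starRingEnd ℂ) (rt L ^ l)) ^ 3 *
            ∑ y ∈ F l, c y * ∏ j ∈ Finset.univ.erase b,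
              kap n (gp L a j * (starRingEnd ℂ) (y j))‖
          ≤ (n : ℝ) / L * ∑ l ∈ Finset.range L, g (rt L ^ l) (a b) * A l := by
            refine mul_le_mul_of_nonneg_left ?_ (by positivity)
            refine (norm_sum_le _ _).trans (Finset.sum_le_sum fun l hl => ?_)
            have hl' := Finset.mem_range.mp hl
            have hk : ‖kap n (gp L a b * (starRingEnd ℂ) (rt L ^ l))‖ ≤ 1 :=
              kap_norm_le n _ (norm_conj_pt _ (hrtp l) _ (hz b)).le
            rw [norm_mul, norm_pow]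
            refine mul_le_mul (pow_le_pow_of_le_one (norm_nonneg _) hk (by norm_num)) ?_
              (norm_nonneg _) (hg0 _ _)
            rw [hA]
            dsimp only
            rw [Finset.mul_sum]
            refine (norm_sum_le _ _).trans (Finset.sum_le_sum fun y hy => ?_)
            rw [norm_mul, norm_prod]
            exact mul_le_mul_of_nonneg_right (hc l hl' y hy)
              (Finset.prod_nonneg fun j _ => norm_nonneg _)
        _ = ∑ l ∈ Finset.range L, ((n : ℝ) / L) * g (rt L ^ l) (a b) * A l := by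
            rw [Finset.mul_sum]
            exact Finset.sum_congr rfl fun l _ => by ring
    have hw0 : ∀ l, 0 ≤ ((n : ℝ) / L) * g (rt L ^ l) (a b) := fun l =>
      mul_nonneg (by positivity) (hg0 _ _)
    have hw1 : ∑ l ∈ Finset.range L, ((n : ℝ) / L) * g (rt L ^ l) (a b) = 1 := by
      rw [← Finset.mul_sum]
      have h2 := kap_sum n L hn hnL (rt L ^ (a b : ℕ)) (hrtp _)
      rw [hg]
      dsimp only
      rw [h2]
      field_simp
    have hCS := Finset.sum_sq_le_sum_mul_sum_of_sq_le_mul (Finset.range L)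
      (r := fun l => ((n : ℝ) / L) * g (rt L ^ l) (a b) * A l)
      (f := fun l => ((n : ℝ) / L) * g (rt L ^ l) (a b))
      (g := fun l => ((n : ℝ) / L) * g (rt L ^ l) (a b) * A l ^ 2)
      (fun l _ => hw0 l) (fun l _ => mul_nonneg (hw0 l) (sq_nonneg _))
      (fun l _ => le_of_eq (by ring))
    rw [hw1, one_mul] at hCS
    refine (pow_le_pow_left₀ (norm_nonneg _) h1 2).trans (hCS.trans ?_)
    refine Finset.sum_le_sum fun l hl => ?_
    have hl' := Finset.mem_range.mp hl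
    refine mul_le_mul_of_nonneg_left ?_ (hw0 l)
    rw [hA]
    dsimp only
    rw [mul_pow, mul_assoc]
    refine mul_le_mul_of_nonneg_left ?_ (sq_nonneg _)
    refine (sq_sum_le_card_mul_sum_sq).trans ?_
    refine mul_le_mul (hcard l hl') ?_ (Finset.sum_nonneg fun y _ => sq_nonneg _) hm
    refine Finset.sum_le_sum fun y _ => ?_
    rw [← Finset.prod_pow]
    exact le_of_eq rfl
  -- sum over the grid
  have hsum : ∑ a : Fin d → Fin L, ‖eval (gp L a) (bump b n L F c)‖ ^ 2 ≤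
      L * (m * B) ^ 2 * ((L : ℝ) / n) ^ (d - 1) := by
    have hprod : ∀ l < L, ∀ y ∈ F l, ∑ a : Fin d → Fin L, ((n : ℝ) / L) * g (rt L ^ l) (a b) *
        ∏ j ∈ Finset.univ.erase b, g (y j) (a j) = ((L : ℝ) / n) ^ (d - 1) := by
      intro l hl y hy
      set h : Fin d → Fin L → ℝ := fun j x =>
        if j = b then ((n : ℝ) / L) * g (rt L ^ l) x else g (y j) x with hh
      have h1 : ∀ a : Fin d → Fin L, ((n : ℝ) / L) * g (rt L ^ l) (a b) *
          ∏ j ∈ Finset.univ.erase b, g (y j) (a j) = ∏ j, h j (a j) := by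
        intro a
        rw [← Finset.mul_prod_erase Finset.univ (fun j => h j (a j)) (Finset.mem_univ b)]
        have h2 : h b (a b) = ((n : ℝ) / L) * g (rt L ^ l) (a b) := by
          rw [hh]; simp
        rw [h2]
        congr 1
        refine Finset.prod_congr rfl fun j hj => ?_
        rw [hh]
        dsimp only
        rw [if_neg (Finset.ne_of_mem_erase hj)]
      rw [Finset.sum_congr rfl (fun a _ => h1 a)]
      have h3 := Finset.prod_univ_sum (fun _ : Fin d => (Finset.univ : Finset (Fin L)))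
        (fun j x => h j x)
      rw [Fintype.piFinset_univ] at h3
      rw [← h3, ← Finset.mul_prod_erase Finset.univ (fun j => ∑ x, h j x) (Finset.mem_univ b)]
      have h4 : ∑ x, h b x = 1 := by
        have h5 : ∀ x, h b x = ((n : ℝ) / L) * g (rt L ^ l) x := fun x => by rw [hh]; simp
        rw [Finset.sum_congr rfl (fun x _ => h5 x), ← Finset.mul_sum, hgsum _ (hrtp l)]
        field_simp
      have h6 : ∀ j ∈ Finset.univ.erase b, ∑ x, h j x = (L : ℝ) / n := by
        intro j hj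
        rw [← hgsum (y j) (hF l hl y hy j)]
        refine Finset.sum_congr rfl fun x _ => ?_
        rw [hh]
        dsimp only
        rw [if_neg (Finset.ne_of_mem_erase hj)]
      rw [h4, one_mul, Finset.prod_congr rfl h6, Finset.prod_const,
        Finset.card_erase_of_mem (Finset.mem_univ b), Finset.card_univ, Fintype.card_fin]
    calc ∑ a : Fin d → Fin L, ‖eval (gp L a) (bump b n L F c)‖ ^ 2
        ≤ ∑ a : Fin d → Fin L, ∑ l ∈ Finset.range L, ((n : ℝ) / L) * g (rt L ^ l) (a b) *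
          (B ^ 2 * m * ∑ y ∈ F l, ∏ j ∈ Finset.univ.erase b, g (y j) (a j)) :=
          Finset.sum_le_sum fun a _ => hpt a
      _ = ∑ l ∈ Finset.range L, B ^ 2 * m * ∑ y ∈ F l, ∑ a : Fin d → Fin L,
          ((n : ℝ) / L) * g (rt L ^ l) (a b) * ∏ j ∈ Finset.univ.erase b, g (y j) (a j) := by
          rw [Finset.sum_comm]
          refine Finset.sum_congr rfl fun l _ => ?_
          rw [Finset.sum_comm' (s := F l) (t := fun _ => Finset.univ)
            (t' := Finset.univ) (s' := fun _ => F l) (by intro x y; simp)]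
          rw [Finset.mul_sum]
          refine Finset.sum_congr rfl fun a _ => ?_
          rw [← Finset.mul_sum]
          ring
      _ = ∑ l ∈ Finset.range L, B ^ 2 * m * ((F l).card * ((L : ℝ) / n) ^ (d - 1)) := by
          refine Finset.sum_congr rfl fun l hl => ?_
          rw [Finset.sum_congr rfl (fun y hy => hprod l (Finset.mem_range.mp hl) y hy),
            Finset.sum_const, nsmul_eq_mul]
      _ ≤ ∑ l ∈ Finset.range L, B ^ 2 * m * (m * ((L : ℝ) / n) ^ (d - 1)) := by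
          refine Finset.sum_le_sum fun l hl => ?_
          refine mul_le_mul_of_nonneg_left ?_ (by positivity)
          exact mul_le_mul_of_nonneg_right (hcard l (Finset.mem_range.mp hl)) (by positivity)
      _ = L * (m * B) ^ 2 * ((L : ℝ) / n) ^ (d - 1) := by
          rw [Finset.sum_const, Finset.card_range, nsmul_eq_mul]
          ring
  rw [hP] at hsum
  have hLd : (0 : ℝ) < (L : ℝ) ^ d := by positivity
  have hfin : (L : ℝ) * (m * B) ^ 2 * ((L : ℝ) / n) ^ (d - 1) =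
      (L : ℝ) ^ d * ((m * B) ^ 2 / (n : ℝ) ^ (d - 1)) := by
    obtain ⟨e, rfl⟩ : ∃ e, d = e + 1 := ⟨d - 1, by omega⟩
    rw [Nat.add_sub_cancel, div_pow, pow_succ]
    field_simp
    ring
  rw [hfin] at hsum
  exact le_of_mul_le_mul_left hsum hLd

end Pool.MP4ac1fb.Curve
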