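import Pool.Agent.H.MP_4ac1fb_an.Curve.Defs

/-!
A separable, reflection-symmetric companion of a polynomial in two variables.
-/

namespace Pool.MP4ac1fb.Curve

open Polynomial

/-- the reflection relation on the circle in the first variable -/
def Refl (R : Polynomial (Polynomial ℂ)) (k m : ℕ) (R' : Polynomial (Polynomial ℂ)) : Prop :=
  ∀ x y : ℂ, ‖x‖ = 1 → y ≠ 0 →
    R'.evalEval x y = x ^ k * y ^ m * (starRingEnd ℂ) (R.evalEval x (1 / (starRingEnd ℂ) y))

lemma conj_mul_self_of_norm {x : ℂ} (hx : ‖x‖ = 1) : x * (starRingEnd ℂ) x = 1 := by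
  rw [Complex.mul_conj, Complex.normSq_eq_norm_sq, hx]; norm_num

lemma exists_refl (R : Polynomial (Polynomial ℂ)) :
    ∃ k m : ℕ, ∀ k' ≥ k, ∀ m' ≥ m, ∃ R', Refl R k' m' R' := by
  induction R using Polynomial.induction_on' with
  | add p q hp hq =>
    obtain ⟨k1, m1, h1⟩ := hp
    obtain ⟨k2, m2, h2⟩ := hq
    refine ⟨max k1 k2, max m1 m2, fun k' hk m' hm => ?_⟩
    obtain ⟨p', hp'⟩ := h1 k' ((le_max_left _ _).trans hk) m' ((le_max_left _ _).trans hm)
    obtain ⟨q', hq'⟩ := h2 k' ((le_max_right _ _).trans hk) m' ((le_max_right _ _).trans hm)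
    refine ⟨p' + q', fun x y hx hy => ?_⟩
    rw [Polynomial.evalEval_add, hp' x y hx hy, hq' x y hx hy, Polynomial.evalEval_add, map_add]
    ring
  | monomial n a =>
    induction a using Polynomial.induction_on' with
    | add p q hp hq =>
      obtain ⟨k1, m1, h1⟩ := hp
      obtain ⟨k2, m2, h2⟩ := hq
      refine ⟨max k1 k2, max m1 m2, fun k' hk m' hm => ?_⟩
      obtain ⟨p', hp'⟩ := h1 k' ((le_max_left _ _).trans hk) m' ((le_max_left _ _).trans hm)
      obtain ⟨q', hq'⟩ := h2 k' ((le_max_right _ _).trans hk) m' ((le_max_right _ _).trans hm)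
      refine ⟨p' + q', fun x y hx hy => ?_⟩
      rw [Polynomial.evalEval_add, hp' x y hx hy, hq' x y hx hy, map_add (monomial n),
        Polynomial.evalEval_add, map_add]
      ring
    | monomial i c =>
      refine ⟨i, n, fun k' hk m' hm => ?_⟩
      refine ⟨monomial (m' - n) (monomial (k' - i) ((starRingEnd ℂ) c)), fun x y hx hy => ?_⟩
      have hxx := conj_mul_self_of_norm hx
      obtain ⟨a, rfl⟩ := Nat.exists_eq_add_of_le hk
      obtain ⟨b, rfl⟩ := Nat.exists_eq_add_of_le hm
      simp only [Polynomial.evalEval, Polynomial.eval_monomial, Polynomial.eval_mul,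
        Polynomial.eval_pow, Polynomial.eval_C, map_mul, map_pow, map_div₀, map_one,
        Complex.conj_conj, add_tsub_cancel_left]
      rw [pow_add, pow_add]
      have h1 : x ^ i * (starRingEnd ℂ) x ^ i = 1 := by rw [← mul_pow, hxx, one_pow]
      have h2 : y ^ n * (1 / y) ^ n = 1 := by rw [← mul_pow, mul_one_div_cancel hy, one_pow]
      linear_combination (-(starRingEnd ℂ) c * x ^ a * y ^ b) * h1 * (y ^ n * (1 / y) ^ n) -
        (starRingEnd ℂ) c * x ^ a * y ^ b * h2

lemma exists_bound (R : Polynomial (Polynomial ℂ)) :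
    ∃ K : ℝ, 0 ≤ K ∧ ∀ x y : ℂ, ‖x‖ = 1 → ‖y‖ = 1 → ‖R.evalEval x y‖ ≤ K := by
  induction R using Polynomial.induction_on' with
  | add p q hp hq =>
    obtain ⟨K1, h1, h1'⟩ := hp
    obtain ⟨K2, h2, h2'⟩ := hq
    refine ⟨K1 + K2, by positivity, fun x y hx hy => ?_⟩
    rw [Polynomial.evalEval_add]
    exact (norm_add_le _ _).trans (add_le_add (h1' x y hx hy) (h2' x y hx hy))
  | monomial n a =>
    induction a using Polynomial.induction_on' with
    | add p q hp hq =>
      obtain ⟨K1, h1, h1'⟩ := hp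
      obtain ⟨K2, h2, h2'⟩ := hq
      refine ⟨K1 + K2, by positivity, fun x y hx hy => ?_⟩
      rw [map_add, Polynomial.evalEval_add]
      exact (norm_add_le _ _).trans (add_le_add (h1' x y hx hy) (h2' x y hx hy))
    | monomial i c =>
      refine ⟨‖c‖, norm_nonneg _, fun x y hx hy => ?_⟩
      simp only [Polynomial.evalEval, Polynomial.eval_monomial, Polynomial.eval_mul,
        Polynomial.eval_pow, Polynomial.eval_C]
      simp [hx, hy]

lemma infinite_circle : Set.Infinite {x : ℂ | ‖x‖ = 1} := by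
  have h : Set.InjOn (fun s : ℝ => Complex.exp (s * Complex.I)) (Set.Icc 0 1) := by
    intro a ha b hb hab
    have h1 := Complex.exp_eq_exp_iff_exists_int.mp hab
    obtain ⟨n, hn⟩ := h1
    have h2 : a = b + n * (2 * Real.pi) := by
      have h3 := congrArg Complex.im hn
      simpa using h3
    have hpi := Real.pi_gt_three
    have hn0 : n = 0 := by
      by_contra hne
      rcases lt_or_gt_of_ne hne with h4 | h4
      · have h5 : (n : ℝ) ≤ -1 := by exact_mod_cast Int.le_sub_one_of_lt h4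
        nlinarith [ha.1, ha.2, hb.1, hb.2]
      · have h5 : (1 : ℝ) ≤ n := by exact_mod_cast h4
        nlinarith [ha.1, ha.2, hb.1, hb.2]
    rw [h2, hn0]; simp
  have h2 : Set.Infinite (Set.Icc (0:ℝ) 1) := Set.Icc_infinite one_pos
  have h3 := h2.image h
  apply h3.mono
  rintro _ ⟨s, _, rfl⟩
  simp [Complex.norm_exp_ofReal_mul_I]

lemma eq_zero_of_evalEval (R : Polynomial (Polynomial ℂ))
    (h : ∀ x y : ℂ, ‖x‖ = 1 → y ≠ 0 → R.evalEval x y = 0) : R = 0 := by
  have h1 : ∀ x : ℂ, ‖x‖ = 1 → R.map (evalRingHom x) = 0 := by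
    intro x hx
    apply Polynomial.eq_zero_of_infinite_isRoot
    apply (Set.infinite_of_injective_forall_mem (f := fun n : ℕ => ((n : ℂ) + 1)) ?_ ?_)
    · intro a b hab
      have : (a : ℂ) = b := by simpa using hab
      exact_mod_cast this
    · intro n
      have h2 : ((n : ℂ) + 1) ≠ 0 := by
        have : ((n + 1 : ℕ) : ℂ) ≠ 0 := Nat.cast_ne_zero.mpr (Nat.succ_ne_zero n)
        simpa using this
      have h3 := h x _ hx h2
      simp only [Set.mem_ofPred_eq, Polynomial.IsRoot.def]
      rw [← Polynomial.map_evalRingHom_eval] at h3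
      exact h3
  ext1 n
  rw [Polynomial.coeff_zero]
  apply Polynomial.eq_zero_of_infinite_isRoot
  apply infinite_circle.mono
  intro x hx
  have h2 := congrArg (fun p => Polynomial.coeff p n) (h1 x hx)
  simpa using h2

/-- clearing denominators -/
lemma exists_clear (q : Polynomial (FractionRing (Polynomial ℂ))) :
    ∃ c : Polynomial ℂ, c ≠ 0 ∧ ∃ Q : Polynomial (Polynomial ℂ),
      Q.map (algebraMap (Polynomial ℂ) (FractionRing (Polynomial ℂ))) =
        C (algebraMap (Polynomial ℂ) (FractionRing (Polynomial ℂ)) c) * q := by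
  obtain ⟨b, hb0, hb⟩ := IsLocalization.integerNormalization_spec (nonZeroDivisors (Polynomial ℂ)) q
  refine ⟨b, nonZeroDivisors.ne_zero hb0,
    IsLocalization.integerNormalization (nonZeroDivisors (Polynomial ℂ)) q, ?_⟩
  rw [hb]
  ext1 n
  rw [coeff_C_mul, coeff_smul, Algebra.smul_def]

theorem exists_curve_poly (R : Polynomial (Polynomial ℂ)) (hR : R ≠ 0) :
    ∃ S : Polynomial (Polynomial ℂ), ∃ N : Polynomial ℂ, N ≠ 0 ∧
      (∃ A B : Polynomial (Polynomial ℂ), A * S + B * derivative S = C N) ∧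
      (∃ m : ℕ, ∃ K : ℝ, ∀ x y : ℂ, ‖x‖ = 1 → ‖y‖ = 1 →
        ‖N.eval x‖ * ‖S.evalEval x y‖ ^ (m + 1) ≤ K * ‖R.evalEval x y‖) ∧
      (∀ x y : ℂ, ‖x‖ = 1 → y ≠ 0 → N.eval x ≠ 0 → S.evalEval x y = 0 →
        S.evalEval x (1 / (starRingEnd ℂ) y) = 0) := by
  classical
  obtain ⟨k, m0, hkm⟩ := exists_refl R
  obtain ⟨R', hR'⟩ := hkm k le_rfl m0 le_rfl
  -- R' ≠ 0
  have hR'0 : R' ≠ 0 := by
    intro h0
    apply hR
    apply eq_zero_of_evalEval
    intro x w hx hw
    have hw' : 1 / (starRingEnd ℂ) w ≠ 0 := by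
      rw [one_div]; exact inv_ne_zero ((_root_.map_ne_zero _).mpr hw)
    have h1 := hR' x (1 / (starRingEnd ℂ) w) hx hw'
    rw [h0, Polynomial.evalEval_zero] at h1
    have hx0 : x ≠ 0 := by rintro rfl; simp at hx
    have h2 : (starRingEnd ℂ) (R.evalEval x (1 / (starRingEnd ℂ) (1 / (starRingEnd ℂ) w))) = 0 := by
      have h3 := h1.symm
      rw [mul_eq_zero, mul_eq_zero] at h3
      rcases h3 with (h3 | h3) | h3
      · exact absurd h3 (pow_ne_zero _ hx0)
      · exact absurd h3 (pow_ne_zero _ hw')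
      · exact h3
    rw [map_eq_zero] at h2
    rw [map_div₀, map_one, Complex.conj_conj, one_div_one_div] at h2
    exact h2
  set P : Polynomial (Polynomial ℂ) := R * R' with hP
  have hP0 : P ≠ 0 := mul_ne_zero hR hR'0
  set F := FractionRing (Polynomial ℂ)
  set φ : Polynomial ℂ →+* F := algebraMap (Polynomial ℂ) F with hφ
  have hφi : Function.Injective φ := IsFractionRing.injective (Polynomial ℂ) F
  have hmi : Function.Injective (Polynomial.map φ) := Polynomial.map_injective φ hφi
  have hp0 : P.map φ ≠ 0 := (Polynomial.map_ne_zero_iff hφi).mpr hP0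
  have : CharZero F := by
    have : Algebra ℚ (Polynomial ℂ) := inferInstance
    exact (algebraMap (Polynomial ℂ) F).charZero_iff hφi |>.mp inferInstance
  set s0 := UniqueFactorizationMonoid.radical (P.map φ) with hs0
  have hsq : Squarefree s0 := UniqueFactorizationMonoid.squarefree_radical
  obtain ⟨c0, hc0, S, hS⟩ := exists_clear s0
  replace hS : S.map φ = C (φ c0) * s0 := hS
  have hφc : ∀ c : Polynomial ℂ, c ≠ 0 → φ c ≠ 0 := fun c hc h => hc (hφi (by rw [h, map_zero]))
  have hu : IsUnit (C (φ c0)) := Polynomial.isUnit_C.mpr (IsUnit.mk0 _ (hφc c0 hc0))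
  have hassoc : Associated s0 (S.map φ) := by
    rw [hS]
    obtain ⟨u, hu⟩ := hu
    exact ⟨u, by rw [hu, mul_comm]⟩
  have hsep : (S.map φ).Separable := by
    rw [PerfectField.separable_iff_squarefree]
    exact (hassoc.squarefree_iff).mp hsq
  have hdvd1 : S.map φ ∣ P.map φ :=
    (hassoc.dvd_iff_dvd_left).mp UniqueFactorizationMonoid.radical_dvd_self
  obtain ⟨m, hm⟩ := UniqueFactorizationMonoid.exists_dvd_radical_self_pow hp0
  have hdvd2 : P.map φ ∣ (S.map φ) ^ m := hm.trans ((hassoc.pow_pow).dvd)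
  obtain ⟨a, b, hab⟩ := hsep
  obtain ⟨ca, hca, A, hA⟩ := exists_clear a
  replace hA : A.map φ = C (φ ca) * a := hA
  obtain ⟨cb, hcb, B, hB⟩ := exists_clear b
  replace hB : B.map φ = C (φ cb) * b := hB
  obtain ⟨t, ht⟩ := hdvd2
  obtain ⟨ct, hct, T, hT⟩ := exists_clear t
  replace hT : T.map φ = C (φ ct) * t := hT
  obtain ⟨u, hu'⟩ := hdvd1
  obtain ⟨cu, hcu, U, hU⟩ := exists_clear u
  replace hU : U.map φ = C (φ cu) * u := hU
  have e1 : (C cb * A) * S + (C ca * B) * derivative S = C (ca * cb) := by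
    apply hmi
    simp only [Polynomial.map_add, Polynomial.map_mul, Polynomial.map_C, hA, hB,
      ← Polynomial.derivative_map, map_mul]
    have h1 : (C (φ cb) * (C (φ ca) * a)) * S.map φ + (C (φ ca) * (C (φ cb) * b)) *
        derivative (S.map φ) = C (φ ca) * C (φ cb) * (a * S.map φ + b * derivative (S.map φ)) := by
      ring
    rw [h1, hab, mul_one]
  have e2 : C ct * S ^ m = P * T := by
    apply hmi
    simp only [Polynomial.map_mul, Polynomial.map_C, Polynomial.map_pow, hT]
    rw [ht]; ring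
  have e3 : C cu * P = S * U := by
    apply hmi
    simp only [Polynomial.map_mul, Polynomial.map_C, hU]
    rw [hu']; ring
  refine ⟨S, (ca * cb) * ct * cu, by simp [hca, hcb, hct, hcu], ?_, ?_, ?_⟩
  · refine ⟨C (ct * cu) * (C cb * A), C (ct * cu) * (C ca * B), ?_⟩
    have h1 : C (ct * cu) * (C cb * A) * S + C (ct * cu) * (C ca * B) * derivative S =
        C (ct * cu) * ((C cb * A) * S + (C ca * B) * derivative S) := by ring
    rw [h1, e1, ← C_mul]
    congr 1; ring
  · obtain ⟨K1, hK1, hK1'⟩ := exists_bound (C (ca * cb * cu) * S * T * R')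
    refine ⟨m, K1, fun x y hx hy => ?_⟩
    have h1 := congrArg (fun q => Polynomial.evalEval x y q) e2
    simp only [Polynomial.evalEval_mul, Polynomial.evalEval_pow, Polynomial.evalEval_C, hP] at h1
    have h2 : ‖((ca * cb) * ct * cu).eval x‖ * ‖S.evalEval x y‖ ^ (m + 1) =
        ‖(C (ca * cb * cu) * S * T * R').evalEval x y‖ * ‖R.evalEval x y‖ := by
      rw [← norm_pow, ← norm_mul, ← norm_mul]
      congr 1
      simp only [Polynomial.evalEval_mul, Polynomial.evalEval_C, Polynomial.eval_mul]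
      linear_combination (ca.eval x * cb.eval x * cu.eval x * S.evalEval x y) * h1
    rw [h2]
    exact mul_le_mul_of_nonneg_right (hK1' x y hx hy) (norm_nonneg _)
  · intro x y hx hy hN hSxy
    simp only [Polynomial.eval_mul, ne_eq, mul_eq_zero, not_or] at hN
    obtain ⟨⟨⟨hn1, hn2⟩, hn3⟩, hn4⟩ := hN
    have h3 := congrArg (fun q => Polynomial.evalEval x y q) e3
    simp only [Polynomial.evalEval_mul, Polynomial.evalEval_C, hP, hSxy, zero_mul, mul_eq_zero,
      hn4, false_or] at h3
    have hy' : 1 / (starRingEnd ℂ) y ≠ 0 := by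
      rw [one_div]; exact inv_ne_zero ((_root_.map_ne_zero _).mpr hy)
    have hx0 : x ≠ 0 := by rintro rfl; simp at hx
    have h4 : P.evalEval x (1 / (starRingEnd ℂ) y) = 0 := by
      rw [hP, Polynomial.evalEval_mul]
      rcases h3 with h3 | h3
      · rw [hR' x _ hx hy', map_div₀, map_one, Complex.conj_conj, one_div_one_div, h3]
        simp
      · rw [hR' x y hx hy] at h3
        rw [mul_eq_zero, mul_eq_zero] at h3
        rcases h3 with (h3 | h3) | h3
        · exact absurd h3 (pow_ne_zero _ hx0)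
        · exact absurd h3 (pow_ne_zero _ hy)
        · rw [map_eq_zero] at h3
          rw [h3, zero_mul]
    have h5 := congrArg (fun q => Polynomial.evalEval x (1 / (starRingEnd ℂ) y) q) e2
    simp only [Polynomial.evalEval_mul, Polynomial.evalEval_pow, Polynomial.evalEval_C, h4,
      zero_mul, mul_eq_zero, hn3, false_or] at h5
    exact eq_zero_of_pow_eq_zero h5

end Pool.MP4ac1fb.Curve
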