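import Pool.Agent.H.MP_4ac1fb_an.Curve.Defs

/-!
Second order Taylor bounds for polynomials in two variables, Lipschitz bounds, and roots near
approximate roots.
-/

namespace Pool.MP4ac1fb.Curve

open Polynomial

/-- bound on a disc -/
lemma one_bound (p : ℂ[X]) : ∃ K : ℝ, 0 ≤ K ∧ ∀ x : ℂ, ‖x‖ ≤ 2 → ‖p.eval x‖ ≤ K := by
  obtain ⟨K, hK⟩ := (isCompact_closedBall (0 : ℂ) 2).exists_bound_of_continuousOn
    (p.continuous.continuousOn)
  refine ⟨|K|, abs_nonneg _, fun x hx => (hK x ?_).trans (le_abs_self _)⟩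
  simpa using hx

lemma pow_taylor (n : ℕ) : ∃ K : ℝ, 0 ≤ K ∧ ∀ x x' : ℂ, ‖x‖ ≤ 2 → ‖x'‖ ≤ 2 →
    ‖x' ^ n - x ^ n - n * x ^ (n - 1) * (x' - x)‖ ≤ K * ‖x' - x‖ ^ 2 := by
  induction n with
  | zero => exact ⟨0, le_rfl, fun x x' _ _ => by simp⟩
  | succ n ih =>
    obtain ⟨K, hK, h⟩ := ih
    refine ⟨2 * K + n * 2 ^ (n - 1), by positivity, fun x x' hx hx' => ?_⟩
    have e : x' ^ (n + 1) - x ^ (n + 1) - ((n + 1 : ℕ) : ℂ) * x ^ (n + 1 - 1) * (x' - x) =
        x' * (x' ^ n - x ^ n - n * x ^ (n - 1) * (x' - x)) +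
          n * x ^ (n - 1) * (x' - x) ^ 2 := by
      rcases Nat.eq_zero_or_pos n with rfl | hn
      · simp
      · obtain ⟨m, rfl⟩ : ∃ m, n = m + 1 := ⟨n - 1, by omega⟩
        simp only [Nat.add_sub_cancel]
        push_cast
        ring
    rw [e]
    refine (norm_add_le _ _).trans ?_
    rw [norm_mul, norm_mul, norm_mul, norm_pow, norm_pow, add_mul]
    have h1 := h x x' hx hx'
    have h2 : ‖x‖ ^ (n - 1) ≤ 2 ^ (n - 1) := by gcongr
    have h3 : ‖(n : ℂ)‖ = n := by simp
    rw [h3]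
    have h4 : ‖x'‖ * ‖x' ^ n - x ^ n - n * x ^ (n - 1) * (x' - x)‖ ≤ 2 * (K * ‖x' - x‖ ^ 2) := by
      gcongr
    have h5 : (n : ℝ) * ‖x‖ ^ (n - 1) * ‖x' - x‖ ^ 2 ≤ n * 2 ^ (n - 1) * ‖x' - x‖ ^ 2 := by
      gcongr
    linarith

lemma one_taylor (p : ℂ[X]) : ∃ K : ℝ, 0 ≤ K ∧ ∀ x x' : ℂ, ‖x‖ ≤ 2 → ‖x'‖ ≤ 2 →
    ‖p.eval x' - p.eval x - (derivative p).eval x * (x' - x)‖ ≤ K * ‖x' - x‖ ^ 2 := by
  induction p using Polynomial.induction_on' with
  | add p q hp hq =>
    obtain ⟨K, hK, h⟩ := hp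
    obtain ⟨K', hK', h'⟩ := hq
    refine ⟨K + K', by positivity, fun x x' hx hx' => ?_⟩
    have e : (p + q).eval x' - (p + q).eval x - (derivative (p + q)).eval x * (x' - x) =
        (p.eval x' - p.eval x - (derivative p).eval x * (x' - x)) +
        (q.eval x' - q.eval x - (derivative q).eval x * (x' - x)) := by
      simp only [eval_add, derivative_add]; ring
    rw [e]
    refine (norm_add_le _ _).trans ?_
    have := h x x' hx hx'
    have := h' x x' hx hx'
    linarith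
  | monomial n a =>
    obtain ⟨K, hK, h⟩ := pow_taylor n
    refine ⟨‖a‖ * K, by positivity, fun x x' hx hx' => ?_⟩
    have e : (monomial n a).eval x' - (monomial n a).eval x -
        (derivative (monomial n a)).eval x * (x' - x) =
        a * (x' ^ n - x ^ n - n * x ^ (n - 1) * (x' - x)) := by
      simp only [eval_monomial, derivative_monomial]; ring
    rw [e, norm_mul]
    calc ‖a‖ * ‖x' ^ n - x ^ n - n * x ^ (n - 1) * (x' - x)‖ ≤ ‖a‖ * (K * ‖x' - x‖ ^ 2) := by
          gcongr; exact h x x' hx hx'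
      _ = _ := by ring

lemma one_lip (p : ℂ[X]) : ∃ K : ℝ, 0 ≤ K ∧ ∀ x x' : ℂ, ‖x‖ ≤ 2 → ‖x'‖ ≤ 2 →
    ‖p.eval x' - p.eval x‖ ≤ K * ‖x' - x‖ := by
  obtain ⟨K, hK, h⟩ := one_taylor p
  obtain ⟨B, hB, hb⟩ := one_bound (derivative p)
  refine ⟨4 * K + B, by positivity, fun x x' hx hx' => ?_⟩
  have e : p.eval x' - p.eval x = (p.eval x' - p.eval x - (derivative p).eval x * (x' - x)) +
    (derivative p).eval x * (x' - x) := by ring
  rw [e]
  refine (norm_add_le _ _).trans ?_
  rw [norm_mul]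
  have h1 := h x x' hx hx'
  have h2 := hb x hx
  have h3 : ‖x' - x‖ ≤ 4 := (norm_sub_le _ _).trans (by linarith)
  have h4 : K * ‖x' - x‖ ^ 2 ≤ K * (4 * ‖x' - x‖) := by
    gcongr; nlinarith [norm_nonneg (x' - x)]
  have h5 : ‖(derivative p).eval x‖ * ‖x' - x‖ ≤ B * ‖x' - x‖ := by gcongr
  linarith

lemma biv_bound (S : Polynomial (Polynomial ℂ)) : ∃ K : ℝ, 0 ≤ K ∧ ∀ x y : ℂ, ‖x‖ ≤ 2 →
    ‖y‖ ≤ 2 → ‖S.evalEval x y‖ ≤ K := by
  induction S using Polynomial.induction_on' with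
  | add p q hp hq =>
    obtain ⟨K, hK, h⟩ := hp
    obtain ⟨K', hK', h'⟩ := hq
    refine ⟨K + K', by positivity, fun x y hx hy => ?_⟩
    rw [evalEval_add]
    exact (norm_add_le _ _).trans (add_le_add (h x y hx hy) (h' x y hx hy))
  | monomial n a =>
    obtain ⟨B, hB, hb⟩ := one_bound a
    refine ⟨B * 2 ^ n, by positivity, fun x y hx hy => ?_⟩
    have : (monomial n a).evalEval x y = a.eval x * y ^ n := by
      simp [evalEval]
    rw [this, norm_mul, norm_pow]
    have := hb x hx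
    gcongr

/-- second order Taylor bound in two variables -/
lemma biv_taylor (S : Polynomial (Polynomial ℂ)) : ∃ Sx : Polynomial (Polynomial ℂ), ∃ K : ℝ,
    0 ≤ K ∧ (∀ x y : ℂ, Sx.evalEval x y = (derivative (S.eval (C y))).eval x) ∧
    ∀ x y x' y' : ℂ, ‖x‖ ≤ 2 → ‖y‖ ≤ 2 → ‖x'‖ ≤ 2 → ‖y'‖ ≤ 2 →
      ‖S.evalEval x' y' - S.evalEval x y - Sx.evalEval x y * (x' - x) -
        (derivative S).evalEval x y * (y' - y)‖ ≤ K * (‖x' - x‖ + ‖y' - y‖) ^ 2 := by
  induction S using Polynomial.induction_on' with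
  | add p q hp hq =>
    obtain ⟨px, K, hK, hpx, h⟩ := hp
    obtain ⟨qx, K', hK', hqx, h'⟩ := hq
    refine ⟨px + qx, K + K', by positivity, fun x y => ?_, fun x y x' y' hx hy hx' hy' => ?_⟩
    · rw [evalEval_add, hpx, hqx, eval_add, derivative_add, eval_add]
    · have e : (p + q).evalEval x' y' - (p + q).evalEval x y - (px + qx).evalEval x y * (x' - x) -
          (derivative (p + q)).evalEval x y * (y' - y) =
          (p.evalEval x' y' - p.evalEval x y - px.evalEval x y * (x' - x) -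
            (derivative p).evalEval x y * (y' - y)) +
          (q.evalEval x' y' - q.evalEval x y - qx.evalEval x y * (x' - x) -
            (derivative q).evalEval x y * (y' - y)) := by
        simp only [evalEval_add, derivative_add]; ring
      rw [e]
      refine (norm_add_le _ _).trans ?_
      have := h x y x' y' hx hy hx' hy'
      have := h' x y x' y' hx hy hx' hy'
      linarith
  | monomial n a =>
    have ev : ∀ (b : ℂ[X]) (m : ℕ) (x y : ℂ), (monomial m b).evalEval x y = b.eval x * y ^ m := by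
      intro b m x y; simp [evalEval]
    obtain ⟨K1, hK1, h1⟩ := pow_taylor n
    obtain ⟨K2, hK2, h2⟩ := one_taylor a
    obtain ⟨B, hB, hb⟩ := one_bound a
    obtain ⟨B', hB', hb'⟩ := one_bound (derivative a)
    obtain ⟨L, hL, hl⟩ := one_lip (X ^ n : ℂ[X])
    refine ⟨monomial n (derivative a), K2 * 2 ^ n + B * K1 + B' * L, by positivity,
      fun x y => ?_, fun x y x' y' hx hy hx' hy' => ?_⟩
    · rw [ev, eval_monomial, ← C_pow, mul_comm a, derivative_C_mul, eval_C_mul, mul_comm]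
    · rw [derivative_monomial, ev, ev, ev, ev]
      have e : a.eval x' * y' ^ n - a.eval x * y ^ n - (derivative a).eval x * y ^ n * (x' - x) -
          (a * (n : ℂ[X])).eval x * y ^ (n - 1) * (y' - y) =
          (a.eval x' - a.eval x - (derivative a).eval x * (x' - x)) * y' ^ n +
          a.eval x * (y' ^ n - y ^ n - n * y ^ (n - 1) * (y' - y)) +
          (derivative a).eval x * (x' - x) * (y' ^ n - y ^ n) := by
        simp only [eval_mul, eval_natCast]; ring
      rw [e]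
      have g1 := h1 y y' hy hy'
      have g2 := h2 x x' hx hx'
      have g3 := hb x hx
      have g4 := hb' x hx
      have g5 := hl y y' hy hy'
      simp only [eval_pow, eval_X] at g5
      set u := ‖x' - x‖ with hu
      set v := ‖y' - y‖ with hv
      have hu0 : 0 ≤ u := norm_nonneg _
      have hv0 : 0 ≤ v := norm_nonneg _
      have p1 : ‖(a.eval x' - a.eval x - (derivative a).eval x * (x' - x)) * y' ^ n‖ ≤
          K2 * u ^ 2 * 2 ^ n := by
        rw [norm_mul, norm_pow]; gcongr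
      have p2 : ‖a.eval x * (y' ^ n - y ^ n - n * y ^ (n - 1) * (y' - y))‖ ≤ B * (K1 * v ^ 2) := by
        rw [norm_mul]; gcongr
      have p3 : ‖(derivative a).eval x * (x' - x) * (y' ^ n - y ^ n)‖ ≤ B' * u * (L * v) := by
        rw [norm_mul, norm_mul]; gcongr
      refine (norm_add₃_le).trans ?_
      have q1 : K2 * u ^ 2 * 2 ^ n ≤ K2 * 2 ^ n * (u + v) ^ 2 := by
        have : u ^ 2 ≤ (u + v) ^ 2 := by gcongr; linarith
        calc K2 * u ^ 2 * 2 ^ n = K2 * 2 ^ n * u ^ 2 := by ring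
          _ ≤ _ := by gcongr
      have q2 : B * (K1 * v ^ 2) ≤ B * K1 * (u + v) ^ 2 := by
        have : v ^ 2 ≤ (u + v) ^ 2 := by gcongr; linarith
        calc B * (K1 * v ^ 2) = B * K1 * v ^ 2 := by ring
          _ ≤ _ := by gcongr
      have q3 : B' * u * (L * v) ≤ B' * L * (u + v) ^ 2 := by
        have : u * v ≤ (u + v) ^ 2 := by nlinarith
        calc B' * u * (L * v) = B' * L * (u * v) := by ring
          _ ≤ _ := by gcongr
      linarith

lemma biv_lip (S : Polynomial (Polynomial ℂ)) : ∃ K : ℝ,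
    0 ≤ K ∧ ∀ x y x' y' : ℂ, ‖x‖ ≤ 2 → ‖y‖ ≤ 2 → ‖x'‖ ≤ 2 → ‖y'‖ ≤ 2 →
      ‖S.evalEval x' y' - S.evalEval x y‖ ≤ K * (‖x' - x‖ + ‖y' - y‖) := by
  obtain ⟨Sx, K, hK, -, h⟩ := biv_taylor S
  obtain ⟨B, hB, hb⟩ := biv_bound Sx
  obtain ⟨B', hB', hb'⟩ := biv_bound (derivative S)
  refine ⟨8 * K + B + B', by positivity, fun x y x' y' hx hy hx' hy' => ?_⟩
  have e : S.evalEval x' y' - S.evalEval x y =
      (S.evalEval x' y' - S.evalEval x y - Sx.evalEval x y * (x' - x) -
        (derivative S).evalEval x y * (y' - y)) + Sx.evalEval x y * (x' - x) +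
        (derivative S).evalEval x y * (y' - y) := by ring
  rw [e]
  refine (norm_add₃_le).trans ?_
  rw [norm_mul, norm_mul]
  have h1 := h x y x' y' hx hy hx' hy'
  have h2 := hb x y hx hy
  have h3 := hb' x y hx hy
  have h4 : ‖x' - x‖ ≤ 4 := (norm_sub_le _ _).trans (by linarith)
  have h5 : ‖y' - y‖ ≤ 4 := (norm_sub_le _ _).trans (by linarith)
  set u := ‖x' - x‖ with hu
  set v := ‖y' - y‖ with hv
  have hu0 : 0 ≤ u := norm_nonneg _
  have hv0 : 0 ≤ v := norm_nonneg _
  have q1 : K * (u + v) ^ 2 ≤ K * (8 * (u + v)) := by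
    gcongr; nlinarith
  have q2 : ‖Sx.evalEval x y‖ * u ≤ B * u := by gcongr
  have q3 : ‖(derivative S).evalEval x y‖ * v ≤ B' * v := by gcongr
  nlinarith [mul_nonneg hB hv0, mul_nonneg hB' hu0]

/-- Lipschitz bound for polynomials in several variables -/
lemma mv_bound {d : ℕ} (f : MvPolynomial (Fin d) ℂ) : ∃ K : ℝ, 0 ≤ K ∧ ∀ z : Fin d → ℂ,
    (∀ j, ‖z j‖ ≤ 2) → ‖MvPolynomial.eval z f‖ ≤ K := by
  induction f using MvPolynomial.induction_on with
  | C a => exact ⟨‖a‖, norm_nonneg _, fun z _ => by simp⟩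
  | add p q hp hq =>
    obtain ⟨K, hK, h⟩ := hp
    obtain ⟨K', hK', h'⟩ := hq
    refine ⟨K + K', by positivity, fun z hz => ?_⟩
    rw [map_add]
    exact (norm_add_le _ _).trans (add_le_add (h z hz) (h' z hz))
  | mul_X p i hp =>
    obtain ⟨K, hK, h⟩ := hp
    refine ⟨K * 2, by positivity, fun z hz => ?_⟩
    rw [map_mul, MvPolynomial.eval_X, norm_mul]
    have := h z hz
    have := hz i
    gcongr

lemma mv_lip {d : ℕ} (f : MvPolynomial (Fin d) ℂ) : ∃ K : ℝ, 0 ≤ K ∧ ∀ z z' : Fin d → ℂ,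
    (∀ j, ‖z j‖ ≤ 2) → (∀ j, ‖z' j‖ ≤ 2) →
    ‖MvPolynomial.eval z' f - MvPolynomial.eval z f‖ ≤ K * ∑ j, ‖z' j - z j‖ := by
  induction f using MvPolynomial.induction_on with
  | C a => exact ⟨0, le_rfl, fun z z' _ _ => by simp⟩
  | add p q hp hq =>
    obtain ⟨K, hK, h⟩ := hp
    obtain ⟨K', hK', h'⟩ := hq
    refine ⟨K + K', by positivity, fun z z' hz hz' => ?_⟩
    rw [map_add, map_add]
    have e : MvPolynomial.eval z' p + MvPolynomial.eval z' q -
        (MvPolynomial.eval z p + MvPolynomial.eval z q) =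
        (MvPolynomial.eval z' p - MvPolynomial.eval z p) +
        (MvPolynomial.eval z' q - MvPolynomial.eval z q) := by ring
    rw [e, add_mul]
    exact (norm_add_le _ _).trans (add_le_add (h z z' hz hz') (h' z z' hz hz'))
  | mul_X p i hp =>
    obtain ⟨K, hK, h⟩ := hp
    obtain ⟨B, hB, hb⟩ := mv_bound p
    refine ⟨K * 2 + B, by positivity, fun z z' hz hz' => ?_⟩
    rw [map_mul, MvPolynomial.eval_X, map_mul, MvPolynomial.eval_X]
    have e : MvPolynomial.eval z' p * z' i - MvPolynomial.eval z p * z i =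
        (MvPolynomial.eval z' p - MvPolynomial.eval z p) * z' i +
        MvPolynomial.eval z p * (z' i - z i) := by ring
    rw [e]
    refine (norm_add_le _ _).trans ?_
    rw [norm_mul, norm_mul]
    have h1 := h z z' hz hz'
    have h2 := hz' i
    have h3 := hb z hz
    have h4 : ‖z' i - z i‖ ≤ ∑ j, ‖z' j - z j‖ :=
      Finset.single_le_sum (f := fun j => ‖z' j - z j‖) (fun _ _ => norm_nonneg _)
        (Finset.mem_univ i)
    have h5 : 0 ≤ ∑ j, ‖z' j - z j‖ := Finset.sum_nonneg fun _ _ => norm_nonneg _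
    calc ‖MvPolynomial.eval z' p - MvPolynomial.eval z p‖ * ‖z' i‖ +
          ‖MvPolynomial.eval z p‖ * ‖z' i - z i‖
        ≤ (K * ∑ j, ‖z' j - z j‖) * 2 + B * ∑ j, ‖z' j - z j‖ := by gcongr
      _ = _ := by ring

/-- a root near a point where the derivative is not small -/
lemma root_near_deriv (p : ℂ[X]) (w : ℂ) (ε σ : ℝ) (hσ : 0 < σ) (hp : ‖p.eval w‖ ≤ ε)
    (hp' : σ ≤ ‖(derivative p).eval w‖) :
    ∃ w' : ℂ, p.eval w' = 0 ∧ ‖w' - w‖ ≤ p.natDegree * ε / σ := by
  have hε : 0 ≤ ε := (norm_nonneg _).trans hp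
  by_cases h0 : p.eval w = 0
  · exact ⟨w, h0, by rw [sub_self, norm_zero]; positivity⟩
  by_contra hcon
  push Not at hcon
  have hs : p.Splits := IsAlgClosed.splits p
  have hp0 : p ≠ 0 := by rintro rfl; simp at h0
  have h1 := hs.eval_derivative_div_eval_of_ne_zero h0
  have hroot : ∀ u ∈ p.roots, p.natDegree * ε / σ < ‖u - w‖ := by
    intro u hu
    exact hcon u ((mem_roots hp0).mp hu)
  have hdeg : 0 < p.natDegree := by
    by_contra h
    have h' : p.natDegree = 0 := by omega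
    rw [eq_C_of_natDegree_eq_zero h'] at hp'
    simp at hp'
    linarith
  have hεpos : 0 < ε := (norm_pos_iff.mpr h0).trans_le hp
  have hr : 0 < p.natDegree * ε / σ := by positivity
  have h2 : ‖(derivative p).eval w / p.eval w‖ < p.natDegree * (σ / (p.natDegree * ε)) := by
    rw [h1]
    have hcard : p.roots.card = p.natDegree := (splits_iff_card_roots.mp hs)
    have hlt : ∀ u ∈ p.roots, ‖1 / (w - u)‖ < σ / (p.natDegree * ε) := by
      intro u hu
      have := hroot u hu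
      rw [norm_div, norm_one, norm_sub_rev]
      rw [div_lt_div_iff₀ (hr.trans this) (by positivity)]
      rw [div_lt_iff₀ hσ] at this
      linarith
    have hne : p.roots ≠ 0 := by
      intro h; rw [h] at hcard; simp at hcard; omega
    have h3 : (p.roots.map fun u => ‖1 / (w - u)‖).sum <
        (p.roots.map fun _ => σ / (p.natDegree * ε)).sum := by
      apply Multiset.sum_lt_sum_of_nonempty
      · exact hne
      · intro u hu; exact hlt u hu
    rw [Multiset.map_const', Multiset.sum_replicate, nsmul_eq_mul, hcard] at h3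
    refine lt_of_le_of_lt ?_ h3
    have := norm_multiset_sum_le (p.roots.map fun u => 1 / (w - u))
    rw [Multiset.map_map] at this
    simpa [Function.comp_def] using this
  rw [norm_div] at h2
  have h4 : (p.natDegree : ℝ) * (σ / (p.natDegree * ε)) = σ / ε := by
    field_simp
  rw [h4] at h2
  have h5 : σ / ε ≤ ‖(derivative p).eval w‖ / ‖p.eval w‖ := by
    apply div_le_div₀ (norm_nonneg _) hp' (norm_pos_iff.mpr h0) hp
  linarith

end Pool.MP4ac1fb.Curve
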